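import Pool.Agent.H44.V0P.P5
import Pool.Agent.H71.AVG.Cof

/-!
# Change of the charts of the base window; codes from jets

`vb_rel`: positions and velocities over other labels of the window `b`. `jets_tr`: the same on one
event. `cod_sum`: the codes of an own path from its jets.
-/

set_option autoImplicit false

namespace Pool.TW44

open Finset Real MvPolynomial
open Pool.Agent.H49.Ent Pool.Agent.H32.Dense Pool.STK Pool.KA Pool.KSAT Pool.K2S Pool.PB Pool.GEN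
open Pool.S6C Pool.RCD Pool.LA91 Pool.AVG96 Pool.V0F
open Pool.OWN68 (few_iff)
open Pool.AVG57 (jet2)
open Pool.GRD (LbP)
open Pool.AJW (CfB)

section rel

variable {m : ℕ} {S : PCl m} {c : ℕ → Fin m} {r : ℕ} {sn : ℕ → ℝ → ℝ} {G : Set ℝ} {b o φ : ℝ}

variable {α γ : ∀ J : ℕ, Fam m J → Type}
  {f : ∀ (J : ℕ) (F : Fam m J), F.Ω → α J F} {y : ∀ (J : ℕ) (F : Fam m J), F.Ω → γ J F}

/-- **Positions and velocities** over other labels of the base window. -/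
theorem vb_rel (L : Lad S c r sn G b o φ)
    (hf : ∀ (J : ℕ) (F : Fam m J), ∃ χ : α J F → PtT F, ∀ ω, ptr F J ω = χ (f J F ω))
    (hy : Kn ((range 0).image c) 1 1 y) {w ow : ℝ} {n p : ℕ → ℝ} (hw : w ∈ G) (hbw : b ≤ w)
    (hwo : w ≤ o) (how : b ≤ ow) (how1 : ow ≤ 1) (hn : Nst r sn w φ n)
    (hp : ∀ i < r, sn i b - φ ≤ p i)
    (hnat : ∀ i < r, n i - sn i w + 3 * φ ≤ w - b) {Nf : ℕ → ℕ → ℝ}
    (hNf : ∀ i < r, ∀ j : ℕ, j ≤ 1 → n i - (j : ℝ) * w ≤ Nf i j) {i : ℕ} (hi : i < r) {j : ℕ}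
    (hj : j ≤ 1) :
    Few S f (vg ow) y (jetQ m c 0 r b p Nf)
      (qJet m ((range i).image c) (c i) j b (sn i b - φ) (n i - (j : ℝ) * w)) := by
  have hφ := L.φ0
  obtain ⟨C₀, htm⟩ := L.tm
  obtain ⟨u₁, rd, hrd, hch⟩ := L.ch.ch b L.bG
  have hb1 : b < 1 := hch.u0
  have hmin : min (1 : ℝ) (1 - b) = 1 - b := min_eq_right (by linarith [hch.w0])
  have hj1 : (j : ℝ) ≤ 1 := by exact_mod_cast hj
  have hj0 : (0 : ℝ) ≤ j := Nat.cast_nonneg j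
  have hd1 : ∀ l < r, sn l w - sn l b ≤ w - b + 2 * φ := fun l hl =>
    L.dif hl L.bG hw le_rfl L.bo hbw hwo
  have hd2 : ∀ l < r, w - b - 2 * φ ≤ sn l w - sn l b := fun l hl => by
    have := L.dif hl hw L.bG hbw hwo le_rfl L.bo
    linarith
  have hjw : (j : ℝ) * (w - b) ≤ 1 * (w - b) := mul_le_mul_of_nonneg_right hj1 (by linarith)
  have hjw0 : 0 ≤ (j : ℝ) * (w - b) := mul_nonneg hj0 (by linarith)
  have ejw : (j : ℝ) * (w - b) = j * w - j * b := by ring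
  have h1 := vuj_base L hf hy hw hbw hwo hn hp hnat hNf 1
  have key := few_jetN (f := f) (y := y) htm (hch.take (Nat.zero_le i) hi.le) (k := c i) (j := j)
    (wv := fun _ _ => b) (pv := fun l _ => sn l b) (Nv := fun l j' => n l - (j' : ℝ) * w)
    (lv := fun l => n l - sn l b - j * (w - b) - φ) (w₁ := b) (w₂ := b) (p₁ := sn i b)
    (p₂ := sn i b - φ) (N₁ := n i - (j : ℝ) * w) (N₂ := n i - (j : ℝ) * w) (p₀ := 1) (lam := 1)
    (σ₀ := φ) (fun _ _ _ _ _ => le_rfl) le_rfl le_rfl hb1 le_rfl one_pos hφ (by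
      intro l _ hl
      show 0 < n l - sn l b - j * (w - b) - φ
      linarith [hn.lo l (by omega), hd2 l (by omega)]) (by
      intro l _ hl j' hj'
      show sn l b + (n l - sn l b - j * (w - b) - φ) + φ ≤ n l - (j' : ℝ) * w + j' * b
      have h2 : (j' : ℝ) * (w - b) ≤ j * (w - b) :=
        mul_le_mul_of_nonneg_right (by exact_mod_cast hj') (by linarith)
      have h3 : (j' : ℝ) * (w - b) = j' * w - j' * b := by ring
      linarith) (by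
      intro l _ hl j' _
      rw [hmin, min_self]
      show sn l b + (n l - sn l b - j * (w - b) - φ) + φ ≤ sn l b + (1 - b)
      linarith [hn.hi l (by omega), hd1 l (by omega)]) (by
      intro l _ hl j' _ l' _ hl'
      rw [min_self]
      show sn l b + (n l - sn l b - j * (w - b) - φ) + φ ≤
        sn l b + (n l' - sn l' b - j * (w - b) - φ)
      linarith [hn.ne l (by omega) l' hl', hd1 l' (by omega), hd2 l (by omega), hd2 l' (by omega),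
        hd1 l (by omega)]) le_rfl (by
      rw [hmin, min_eq_right (by linarith : sn i b - φ ≤ sn i b)]
      linarith [hn.hi i hi, hd1 i hi]) (by
      intro l _ hl
      rw [min_eq_right (by linarith : sn i b - φ ≤ sn i b)]
      show n i - (j : ℝ) * w + j * b + φ ≤ sn i b - φ + (n l - sn l b - j * (w - b) - φ)
      linarith [hn.ne i hi l hl, hd1 l (by omega), hd2 i hi, hd1 i hi, hd2 l (by omega)]) hf hy
  have h2 : Few S f (vg b) y (qJets m c 0 r 1 (fun _ _ => b) (fun l _ => sn l b)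
      (fun l j' => n l - (j' : ℝ) * w))
      (qJet m ((range i).image c) (c i) j b (sn i b - φ) (n i - (j : ℝ) * w)) := by
    refine Few.pre L.pos (fun u : ℕ → ℕ → ℤ => ((fun l j'' => if 0 ≤ l ∧ l < i ∧ j'' ≤ j then
      u l j'' else 0), u i j)) ?_ key
    intro K e J F A u hu
    exact ⟨qJets_take hi.le hj hu, hu.1 i (Nat.zero_le _) hi j hj⟩
  have hxs : Exs S (qJets m c 0 r 1 (fun _ _ => b) (fun l _ => sn l b)
      (fun l j' => n l - (j' : ℝ) * w)) :=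
    exs_qjets fun l l0 l1 j' _ => exs_jet (hrd l (by omega)) (hch.att l l0 (by omega))
  have h3 := Few.trans L.pos hxs h1 h2
  exact Few.up (f' := f) (y' := y) L.pos (fun J F => ⟨fun x => x, fun _ => rfl⟩)
    (fun J F => vg_mono how how1 J F) (fun J F => ⟨fun x => x, fun _ => rfl⟩) h3

end rel

/-- **Positions and velocities** over other charts of the base window, on one event. -/
theorem jets_tr {m : ℕ} {S : PCl m} {c : ℕ → Fin m} {k : ℕ} {sn : ℕ → ℝ → ℝ} {G : Set ℝ}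
    {b o φ : ℝ} (L : Lad S c k sn G b o φ) (D D₁ : ℕ) {w w' ow E : ℝ} {n : ℕ → ℝ} (hw : w ∈ G)
    (hbw : b ≤ w) (hwo : w ≤ o) (how : b ≤ ow) (how1 : ow ≤ 1) (hn : Nst k sn w φ n)
    (hnat : ∀ i < k, n i - sn i w + 3 * φ ≤ w - b) {Nf : ℕ → ℕ → ℝ}
    (hNf : ∀ i < k, ∀ j : ℕ, j ≤ 1 → n i - (j : ℝ) * w ≤ Nf i j) {ε : ℝ} (hε : 0 < ε) :
    Bas S (fun J F A => ∀ Hb Hb' H H' : LnT F → ℕ → MvPolynomial (Option (Fin m)) ℝ,
      LV F c k D b φ E sn A Hb → LV F c k D₁ b φ E sn A Hb' →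
      (∀ ω, ∀ l < k, H (slam F ⌊w' * J⌋₊ ω) l = Hb (slam F ⌊b * J⌋₊ ω) l) →
      (∀ ω, ∀ l < k, H' (slam F ⌊w' * J⌋₊ ω) l = Hb' (slam F ⌊b * J⌋₊ ω) l) →
      CH (Pool.Agent.H49.Ent.cond F.p A True)
        (jet2 F c ⌊w' * J⌋₊ H' 0 k (fun l j => n l - (j : ℝ) * w))
        (fun ω => (jet2 F c ⌊w' * J⌋₊ H 0 k Nf ω, (cR F A ow ω, F.W ω))) ≤ ε * J) := by
  have hb0 := L.b0
  have hb1 : b ≤ 1 := by linarith [L.bo, L.o1]
  obtain ⟨M₀, J₀, hM₀⟩ := lv_j2 m D k Nf (E := E) hb0 hb1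
  obtain ⟨ε', hε', hε1⟩ : ∃ ε' : ℝ, 0 < ε' ∧ ((k * (1 + 1) : ℕ) : ℝ) * ε' ≤ ε := by
    refine ⟨ε / (((k * (1 + 1) : ℕ) : ℝ) + 1), by positivity, ?_⟩
    rw [mul_div_assoc', div_le_iff₀ (by positivity)]
    have : (0 : ℝ) ≤ ((k * (1 + 1) : ℕ) : ℝ) := Nat.cast_nonneg _
    nlinarith
  have hone : ∀ l < k, ∀ j : ℕ, j < 1 + 1 → Bas S (fun J F A =>
      ∀ Hb Hb' H H' : LnT F → ℕ → MvPolynomial (Option (Fin m)) ℝ,
      LV F c k D b φ E sn A Hb → LV F c k D₁ b φ E sn A Hb' →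
      (∀ ω, ∀ l < k, H (slam F ⌊w' * J⌋₊ ω) l = Hb (slam F ⌊b * J⌋₊ ω) l) →
      (∀ ω, ∀ l < k, H' (slam F ⌊w' * J⌋₊ ω) l = Hb' (slam F ⌊b * J⌋₊ ω) l) →
      CH (Pool.Agent.H49.Ent.cond F.p A True) (fun ω => ⌊(2 : ℝ) ^ ((n l - (j : ℝ) * w) * J) *
            ojet F (c l) j (H' (slam F ⌊w' * J⌋₊ ω) l) ω⌋)
        (fun ω => (jet2 F c ⌊w' * J⌋₊ H 0 k Nf ω, (cR F A ow ω, F.W ω))) ≤ ε' * J) := by
    intro l hl j hj
    obtain ⟨e₀, he₀, H1⟩ := few_iff.1 (vb_rel L (f := fun J F => ptr F J) (y := fun _ F => F.W)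
      (fun J F => ⟨fun x => x, fun _ => rfl⟩) kn_W hw hbw hwo how how1 hn
      (p := fun l => sn l b - φ) (fun i _ => le_rfl) hnat hNf hl (j := j) (by omega)) ε' hε'
    obtain ⟨M₁, J₁, hM₁⟩ := qj_win m D₁ j (N := n l - (j : ℝ) * w) (E := E) hb0 hb1
    refine Bas.mono (max J₀ J₁) ((H1 (max M₀ M₁)).and (pos_bas L.pos)) ?_
    rintro J hJ F A ⟨H2, hA⟩ Hb Hb' H H' lb lv hb hb'
    have hcl := isLaw_cond F.isLaw hA
    have h0 := hcl.nonneg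
    have q1 := hM₀ _ (le_max_left M₀ M₁) J ((le_max_left _ _).trans hJ) lb (w := w') (H := H) hb e₀
      he₀.le
    obtain ⟨V, z, z', G', l1, l2⟩ := lv.lb l hl
    have q2 := hM₁ _ (le_max_right M₀ M₁) J ((le_max_right _ _).trans hJ) F _ (c l) A V z z' G' _
      (sn l b - φ) e₀ l1 (cfb_of (lv.cf l hl) l2) (Nat.floor_le_floor
        (mul_le_mul_of_nonneg_right (by linarith) (Nat.cast_nonneg J)))
    obtain ⟨V₁, z₁, hz₁, H3⟩ := H2 _ _ q1 q2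
    have hd : Det (Pool.Agent.H49.Ent.cond F.p A True) (cR F A ow) z₁ :=
      det_cR hz₁ fun ω hω => of_cond_pos hω
    have e1 : (fun ω => ⌊(2 : ℝ) ^ ((n l - (j : ℝ) * w) * J) *
            ojet F (c l) j (H' (slam F ⌊w' * J⌋₊ ω) l) ω⌋) = fun ω =>
        ⌊(2 : ℝ) ^ ((n l - (j : ℝ) * w) * J) *
            ojet F (c l) j (G' (z' (slam F ⌊b * J⌋₊ ω))) ω⌋ := by
      funext ω
      rw [l2, hb' ω l hl]
    rw [e1]
    refine le_trans (CH_mono_cond h0 fun ω ν hω hν e => ?_) H3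
    simp only [Prod.mk.injEq] at e ⊢
    exact ⟨e.1, hd ω ν hω hν e.2.1, e.2.2⟩
  refine Bas.mono 0 ((Bas.all k fun l hl => Bas.all (1 + 1) fun j hj => hone l hl j hj).and
    (pos_bas L.pos)) ?_
  rintro J - F A ⟨H1, hA⟩ Hb Hb' H H' lb lv hb hb'
  have hcl := isLaw_cond F.isLaw hA
  have h0 := hcl.nonneg
  have hJ0 : (0 : ℝ) ≤ J := Nat.cast_nonneg J
  refine (CH_mono_left h0 (X' := fun ω (x : Fin k × Fin (1 + 1)) =>
      ⌊(2 : ℝ) ^ ((n x.1 - ((x.2 : ℕ) : ℝ) * w) * J) *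
        ojet F (c x.1) x.2 (H' (slam F ⌊w' * J⌋₊ ω) x.1) ω⌋) fun ω ν _ _ e => ?_).trans
    ((Pool.AVG5.CH_fam h0 _ _).trans ?_)
  · funext i j
    unfold jet2
    by_cases h : 0 ≤ i ∧ i < k ∧ j ≤ 1
    · rw [if_pos h, if_pos h]
      exact congrFun (Prod.ext_iff.mp e).1 (⟨i, h.2.1⟩, ⟨j, by omega⟩)
    · rw [if_neg h, if_neg h]
  have h2 : ∀ x ∈ (univ : Finset (Fin k × Fin (1 + 1))),
      CH (Pool.Agent.H49.Ent.cond F.p A True) (fun ω =>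
          ⌊(2 : ℝ) ^ ((n x.1 - ((x.2 : ℕ) : ℝ) * w) * J) *
            ojet F (c x.1) x.2 (H' (slam F ⌊w' * J⌋₊ ω) x.1) ω⌋)
        (fun ω => (jet2 F c ⌊w' * J⌋₊ H 0 k Nf ω, (cR F A ow ω, F.W ω))) ≤ ε' * J :=
    fun x _ => H1 x.1 x.1.2 x.2 x.2.2 Hb Hb' H H' lb lv hb hb'
  refine (Finset.sum_le_sum h2).trans ?_
  rw [Finset.sum_const, Finset.card_univ, Fintype.card_prod, Fintype.card_fin, Fintype.card_fin,
    nsmul_eq_mul, ← mul_assoc]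
  exact mul_le_mul_of_nonneg_right hε1 hJ0

/-- **The codes of an own path from its jets.** -/
theorem cod_sum {m J D : ℕ} {F : Fam m J} {p : F.Ω → ℝ} (hp : IsLaw p) {w : ℝ} (hw0 : 0 ≤ w)
    (hwJ : ⌊w * J⌋₊ ≤ J) (hJ : 0 < J) {κ : Fin m}
    {H : LnT F → MvPolynomial (Option (Fin m)) ℝ} (hdeg : ∀ s, (H s).totalDegree ≤ D) {N' a₀ : ℕ}
    {ν : ℕ → ℝ} (hν : ∀ i : ℕ, a₀ ≤ i → i ≤ D + 1 → (N' : ℝ) ≤ (ν i + i * w) * J) {δ : Type}
    (Y : F.Ω → δ) (hY : ∀ ω ω', 0 < p ω → 0 < p ω' → Y ω = Y ω' → F.T ω = F.T ω') {e : ℝ}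
    (he0 : 0 ≤ e) (he : ∀ i : ℕ, a₀ ≤ i → i ≤ D + 1 → CH p (fun ω => ⌊(2 : ℝ) ^ (ν i * J) *
      ojet F κ i (H (slam F ⌊w * J⌋₊ ω)) ω⌋) Y ≤ e) :
    CH p (Pool.AVG57.cod F ⌊w * J⌋₊ H κ N' a₀ (D + 1)) Y ≤
      ((D + 2 : ℕ) : ℝ) * (e + Real.log (2 * (2 ^ (2 * (D + 1) + 1) + 1) + 1)) := by
  have h0 := hp.nonneg
  have hJr : (0 : ℝ) < J := by exact_mod_cast hJ
  obtain ⟨X, hX⟩ : ∃ X : F.Ω → Fin (D + 2) → ℤ, X = fun ω (i : Fin (D + 2)) => if a₀ ≤ (i : ℕ) then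
    ⌊(2 : ℝ) ^ (ν i * J) * ojet F κ i (H (slam F ⌊w * J⌋₊ ω)) ω⌋ else 0 := ⟨_, rfl⟩
  have h1 := CH_le_add h0 (Pool.AVG57.cod F ⌊w * J⌋₊ H κ N' a₀ (D + 1)) X Y
  have h2 : CH p X Y ≤ ((D + 2 : ℕ) : ℝ) * e := by
    refine (Pool.AVG5.CH_fam h0 _ _).trans ?_
    have h3 : ∀ i ∈ (univ : Finset (Fin (D + 2))), CH p (fun ω => X ω i) Y ≤ e := by
      intro i _
      by_cases hi : a₀ ≤ (i : ℕ)
      · refine le_trans (CH_mono_left h0 fun ω ω' _ _ h => ?_) (he i hi (by omega))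
        rw [hX]
        simp only [if_pos hi]
        exact (Prod.ext_iff.mp h).1
      · refine le_trans (CH_mono_left h0 (X' := fun _ => (0 : ℤ)) fun ω ω' _ _ h => ?_) ?_
        · rw [hX]
          simp only [if_neg hi]
        · exact (CH_eq_zero h0 fun _ _ _ _ _ => rfl).le.trans he0
    refine (Finset.sum_le_sum h3).trans (le_of_eq ?_)
    rw [Finset.sum_const, Finset.card_univ, Fintype.card_fin, nsmul_eq_mul]
  have h3 : CH p (Pool.AVG57.cod F ⌊w * J⌋₊ H κ N' a₀ (D + 1)) (fun ω => (X ω, Y ω)) ≤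
      ((D + 1 + 1 : ℕ) : ℝ) * Real.log (2 * (2 ^ (2 * (D + 1) + 1) + 1) + 1) := by
    refine Pool.AVG71.cod_few (V := LnT F) (zl := fun s => s) (G := H) (N := N' / J)
      (s := ν) hw0 hwJ (by positivity) (by
        rw [div_mul_cancel₀ _ hJr.ne', Real.rpow_natCast]) (fun s => by
        have := hdeg s
        omega) hp (fun ω => (X ω, Y ω)) a₀ (fun i hi1 hi2 => by
        have h4 := hν i hi1 hi2
        rw [sub_le_iff_le_add, div_le_iff₀ hJr]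
        exact h4) fun ω ω' hω hω' e => ?_
    obtain ⟨e1, e2⟩ := Prod.ext_iff.mp e
    refine ⟨hY ω ω' hω hω' e2, fun i hi1 hi2 => ?_⟩
    have h5 := congrFun e1 ⟨i, by omega⟩
    rw [hX] at h5
    simp only [if_pos hi1] at h5
    exact h5
  rw [mul_add]
  push_cast at h1 h2 h3 ⊢
  linarith

end Pool.TW44
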