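import Pool.Agent.H72.T4C.Sh
import Pool.Agent.H16.NVT.Uj
import Pool.Agent.H16.NVT.Slw

/-!
# Two targets of one slope over two slope-one places: the inputs

`TwFar`: the own jets of the place 2 of the orders between 1 and its slope over labels of the windows
`w` and `w - 2 u`, given the far jets of the slope-one places and the record at `w`. `TwNear`: the own
jets of the top order over labels of the window `w`, given the near jets and a record before `w + u`.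
`TwStmt`: the tie from both.
-/

set_option autoImplicit false

namespace Pool.TW44

open Finset Real MvPolynomial
open Pool.Agent.H49.Ent Pool.Agent.H32.Dense
open Pool.STK hiding pr2
open Pool.KA Pool.KSAT Pool.K2S Pool.PB Pool.S6C
open Pool.GEN Pool.RCD Pool.LA91 Pool.AVG96 Pool.V0F Pool.V0T Pool.T4C72
open Pool.OWN68 (F1)

/-- **Far-dead**: the own jets of the orders `1 .. s` of the place 2, over labels of the windows `w`
and (near) `w - 2 u`, to `2 s u` digits behind the natural ones. -/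
def TwFar {m : ℕ} (S : PCl m) (c : ℕ → Fin m) (sn : ℕ → ℝ → ℝ) (Gs : Set ℝ)
    (s b w u T φ' δ : ℝ) : Prop :=
  ∃ e₁ : ℝ, 0 < e₁ ∧ ∀ e : ℝ, 0 < e → e ≤ e₁ → ∀ v ∈ Gs, (v = w ∨ |v - (w - 2 * u)| ≤ φ') →
    ∀ j : ℕ, 1 ≤ j → (j : ℝ) ≤ s →
    F1 S (fun J F => ptr F J) (vg w) (fun _ F => F.W)
      (jetQ m c 0 2 b (fun l => sn l b - φ') (fun l j' => sn l w + T * u - (j' : ℝ) * w))
      (qJet m ((range 2).image c) (c 2) j v (sn 2 v) (sn 2 v + 2 * s * u - (j : ℝ) * v)) e (δ * u)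

/-- **Near-dead**: the own jets of the top order `s - 1 < j ≤ s` of the place 2, over labels of the
window `w`, to `u` digits behind the natural ones, from a record `ox` before `w + u`. -/
def TwNear {m : ℕ} (S : PCl m) (c : ℕ → Fin m) (sn : ℕ → ℝ → ℝ) (s b w u φ φ' δ : ℝ) : Prop :=
  ∃ ox : ℝ, w ≤ ox ∧ ox ≤ w + u - φ' ∧ ∃ e₁ : ℝ, 0 < e₁ ∧ ∀ e : ℝ, 0 < e → e ≤ e₁ →
    ∀ j : ℕ, 1 ≤ j → s - 1 < (j : ℝ) → (j : ℝ) ≤ s →
    F1 S (fun J F => ptr F J) (vg ox) (fun _ F => F.W)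
      (jetQ m c 0 2 b (fun l => sn l b - φ') (fun l j' => sn l w + u + 1600 * φ - (j' : ℝ) * w))
      (qJet m ((range 2).image c) (c 2) j w (sn 2 w) (sn 2 w + u - (j : ℝ) * w)) e (δ * u)

/-- **(TW)** The tie for two slope-one places and two targets, from far-dead and near-dead of the
first target. Order of the constants: `D'` (degree of the labels of the targets), `T₀`, `δ₁`; `Λ` (the
room), `φ` (closeness of the labels, in units), `e` (the errors, in units). -/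
def TwStmt (h s : ℝ) : Prop :=
  ∀ D : ℕ, 1 ≤ D → ∃ D' : ℕ, D ≤ D' ∧ ∀ δ : ℝ, 0 < δ → ∃ T₀ δ₁ : ℝ, 0 < δ₁ ∧ ∀ T : ℝ, T₀ ≤ T →
  ∃ Λ : ℝ, 1 ≤ Λ ∧ ∀ φ : ℝ, 0 < φ → ∃ e : ℝ, 0 < e ∧
  ∀ {m : ℕ} {S : PCl m} {c : ℕ → Fin m} {sn sp : ℕ → ℝ → ℝ} {Gs : Set ℝ}
    {b o w u Λ' φ' e' : ℝ} {lam : ℝ → ℝ}, Λ ≤ Λ' → φ' ≤ e * u →
    BoxT S c 2 1 D sn sp Gs s h b o w u Λ' φ' e' lam →
    TwFar S c sn Gs s b w u T φ' δ₁ → TwNear S c sn s b w u (φ * u) φ' δ₁ →
    TieW S c 2 1 D D' (fun i : Fin (1 + 1) => (i : ℕ)) sn Gs s b w u Λ' T δ (φ * u) φ' D'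

end Pool.TW44
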