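import Pool.Agent.H44.V0P.Lbc
import Pool.Agent.H44.V0P.Jtr
import Pool.Agent.H44.V0P.TwI

/-!
# The tie over canonical charts: the inputs

`CanD`: canonical charts (functions of the family). `CheC`: they are charts of a chain of windows for
the large events of the class. `StF`, `StN`: the own jets of both targets over the canonical labels of
the window `w`: the orders `1 .. s` given the far jets of the slope-one places and the record of `w`;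
the top order given the near jets and a record before `w + u`. `far_ord`, `near_ord`: all orders.
-/

set_option autoImplicit false

namespace Pool.TW44

open Finset Real MvPolynomial
open Pool.Agent.H49.Ent Pool.Agent.H32.Dense Pool.STK Pool.KA Pool.KSAT Pool.K2S Pool.PB Pool.GEN
open Pool.S6C Pool.RCD Pool.LA91 Pool.AVG96 Pool.V0F Pool.V0T Pool.D2R Pool.NVT16
open Pool.AVG57 (jet2 upw upw_slam)
open Pool.AJW (CfB)
open Pool.T462 (GNs HNs)

/-- **Canonical charts**: functions of the family. -/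
structure CanD (m : ℕ) where
  z : ∀ J : ℕ, Fam m J → ℕ → ℕ → ℕ
  g : ∀ J : ℕ, Fam m J → ℕ → ℕ → ℕ
  G : ∀ (J : ℕ) (F : Fam m J), ℕ → PtT F → ℕ → MvPolynomial (Option (Fin m)) ℝ
  H : ∀ (J : ℕ) (F : Fam m J), ℕ → LnT F → ℕ → MvPolynomial (Option (Fin m)) ℝ

/-- **The canonical charts of a class** at the windows `f 0, …, f n`. -/
def CheC {m : ℕ} (S : PCl m) (c : ℕ → Fin m) (k D Dr N M : ℕ) (C₀ a Eb ηm : ℝ) (ow η σ : ℕ → ℝ)
    (lv bb : ℕ → ℕ → ℝ) (f : ℕ → ℕ) (n : ℕ) (X : CanD m) : Prop :=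
  Bas S (fun J F A => ∃ κ : ℝ, ChE F c k D Dr N M C₀ a Eb ηm ow η σ lv bb f n κ (X.z J F) A
    (X.g J F) (X.G J F) (X.H J F))

/-- **Far**: both targets, the orders `1 .. s` over the canonical labels of the window `w = ow (f t)`,
`b = ow (f 0)`, given the far jets of the slope-one places and the record of `w`. -/
def StF {m : ℕ} (S : PCl m) (c : ℕ → Fin m) (k : ℕ) (sn : ℕ → ℝ → ℝ) (X : CanD m) (f : ℕ → ℕ)
    (t : ℕ) (s b w u T δ : ℝ) : Prop :=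
  Bas S (fun J F A => ∀ Hj : LnT F → ℕ → MvPolynomial (Option (Fin m)) ℝ,
    (∀ ω, ∀ l < k, Hj (slam F ⌊w * J⌋₊ ω) l = X.H J F (f 0) (slam F ⌊b * J⌋₊ ω) l) →
    ∀ l, k ≤ l → l ≤ k + 1 → ∀ i : ℕ, 1 ≤ i → (i : ℝ) ≤ s →
    CH (Pool.Agent.H49.Ent.cond F.p A True)
      (fun ω => ⌊(2 : ℝ) ^ ((sn l w + 2 * u - i * w) * J) * ojet F (c l) i
        (HNs c (X.H J F) k (f 0) (f t) ⌊b * J⌋₊ ⌊w * J⌋₊ (slam F ⌊w * J⌋₊ ω) l) ω⌋)
      (fun ω => (jet2 F c ⌊w * J⌋₊ Hj 0 k (fun l' j' => sn l' w + T * u - (j' : ℝ) * w) ω,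
        (cR F A w ω, F.W ω))) ≤ δ * u * J)

/-- **Near**: both targets, the top order `s - 1 < i ≤ s` over the canonical labels of the window `w`,
given the near jets and a record `ox` before `w + u`. -/
def StN {m : ℕ} (S : PCl m) (c : ℕ → Fin m) (k : ℕ) (sn : ℕ → ℝ → ℝ) (X : CanD m) (f : ℕ → ℕ)
    (t : ℕ) (s b w u ψ φ' δ : ℝ) : Prop :=
  ∃ ox : ℝ, w ≤ ox ∧ ox ≤ w + u - φ' ∧
  Bas S (fun J F A => ∀ Hj : LnT F → ℕ → MvPolynomial (Option (Fin m)) ℝ,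
    (∀ ω, ∀ l < k, Hj (slam F ⌊w * J⌋₊ ω) l = X.H J F (f 0) (slam F ⌊b * J⌋₊ ω) l) →
    ∀ l, k ≤ l → l ≤ k + 1 → ∀ i : ℕ, 1 ≤ i → s - 1 < (i : ℝ) → (i : ℝ) ≤ s →
    CH (Pool.Agent.H49.Ent.cond F.p A True)
      (fun ω => ⌊(2 : ℝ) ^ ((sn l w + u - i * w) * J) * ojet F (c l) i
        (HNs c (X.H J F) k (f 0) (f t) ⌊b * J⌋₊ ⌊w * J⌋₊ (slam F ⌊w * J⌋₊ ω) l) ω⌋)
      (fun ω => (jet2 F c ⌊w * J⌋₊ Hj 0 k (fun l' j' => sn l' w + (u + ψ) - (j' : ℝ) * w) ω,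
        (cR F A ox ω, F.W ω))) ≤ δ * u * J)

/-- Later records determine the earlier ones. -/
theorem cR_le {m J : ℕ} {F : Fam m J} {A : F.Ω → Prop} {w x : ℝ} (hwx : w ≤ x) (hx : x ≤ 1)
    {ω ν : F.Ω} (hω : A ω) (hν : A ν) (h : cR F A x ω = cR F A x ν) : cR F A w ω = cR F A w ν := by
  obtain ⟨χ, hχ⟩ := vg_mono hwx hx J F
  refine funext fun d => ?_
  have h1 : Cl2 (ptr F J) (vg x J F) A d.1 :=
    d.2.mono ⟨fun x => x, fun _ _ => rfl⟩ ⟨χ, fun ω _ => hχ ω⟩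
  exact congrFun h ⟨d.1, h1⟩

/-- **Far, every order**. -/
theorem far_ord (m D k i : ℕ) : ∃ C : ℕ, 1 ≤ C ∧ ∀ {S : PCl m} {c : ℕ → Fin m}
    {sn : ℕ → ℝ → ℝ} {G : Set ℝ} {b o φ s : ℝ} {al : ℕ → ℝ} {Dr N M : ℕ} {C₀ a Eb ηm : ℝ}
    {ow η σ : ℕ → ℝ} {lv bb : ℕ → ℕ → ℝ} {f : ℕ → ℕ} {n : ℕ}, LadT S c k 1 sn G b o φ →
    Lns k sn G b o φ s al → 1 < s → ChW k sn G b o φ N C₀ ηm ow lv f n →
    C * ((s + 3) * φ) ≤ sn (k + 1) b → ∀ {X : CanD m} {t l : ℕ} {w u T δ μ ε : ℝ},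
    t ≤ n → ow (f t) = w → k ≤ l → l ≤ k + 1 → 0 < u → C * ((s + 3) * φ) ≤ u → 1 ≤ i →
    (s < i → μ ≤ min 1 (i - s)) → 6 * u ≤ μ * (w - b) → 3 * u ≤ 1 - w → 3 ≤ T → 0 ≤ δ →
    StF S c k sn X f t s b w u T δ → 0 < ε →
    Bas S (fun J F A => ∀ κ : ℝ, ChE F c k D Dr N M C₀ a Eb ηm ow η σ lv bb f n κ (X.z J F) A
      (X.g J F) (X.G J F) (X.H J F) → ∀ Hj : LnT F → ℕ → MvPolynomial (Option (Fin m)) ℝ,
      (∀ ω, ∀ l < k, Hj (slam F ⌊w * J⌋₊ ω) l = X.H J F (f 0) (slam F ⌊b * J⌋₊ ω) l) →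
      CH (Pool.Agent.H49.Ent.cond F.p A True)
        (fun ω => ⌊(2 : ℝ) ^ ((sn l w + 2 * u - i * w) * J) * ojet F (c l) i
          (HNs c (X.H J F) k (f 0) (f t) ⌊b * J⌋₊ ⌊w * J⌋₊ (slam F ⌊w * J⌋₊ ω) l) ω⌋)
        (fun ω => (jet2 F c ⌊w * J⌋₊ Hj 0 k (fun l' j' => sn l' w + T * u - (j' : ℝ) * w) ω,
          (cR F A w ω, F.W ω))) ≤ (δ * u + ε) * J) := by
  obtain ⟨C, hC, hhi⟩ := p5_high m D k i
  refine ⟨C, hC, ?_⟩
  intro S c sn G b o φ s al Dr N M C₀ a Eb ηm ow η σ lv bb f n L hl hs hw hlev X t l w u T δ μ ε ht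
    hwt hkl hlk hu hCu hi1 hμ hbu h1u hT hδ hF hε
  have hδu : 0 ≤ δ * u := mul_nonneg hδ hu.le
  rcases le_or_gt (i : ℝ) s with his | his
  · refine Bas.mono 0 hF ?_
    rintro J - F A h κ hE Hj hHj
    refine (h Hj hHj l hkl hlk i hi1 his).trans ?_
    exact mul_le_mul_of_nonneg_right (by linarith) (Nat.cast_nonneg J)
  · have hw1 : w ≤ 1 := by rw [← hwt]; exact (hw.oo t ht).trans L.o1.le
    have h1 := hhi (Dr := Dr) (M := M) (a := a) (Eb := Eb) (η := η) (σ := σ) (bb := bb) L hl hs.le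
      his hw hlev (t := t) (l := l) (ν := sn l w + 2 * u - i * w) (ox := w) (X := 2 * u)
      (R := 3 * u) (w' := w) (Nf := fun l' j' => sn l' w + T * u - (j' : ℝ) * w) ht hkl hlk
      (le_of_eq hwt) hw1 (by linarith) (by rw [hwt]; linarith) (by linarith) (by
        rw [hwt]
        have h2 := mul_le_mul_of_nonneg_right (hμ his) (by
          have := hw.bo ht
          rw [hwt] at this
          linarith : 0 ≤ w - b)
        linarith) (by rw [hwt]; exact h1u) (fun l' _ j' _ => by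
        rw [hwt]
        have := mul_le_mul_of_nonneg_right hT hu.le
        linarith) hε
    refine Bas.mono 0 h1 ?_
    rintro J - F A h κ hE Hj hHj
    have h2 := h hE Hj hHj
    rw [hwt, hw.ob] at h2
    refine h2.trans ?_
    exact mul_le_mul_of_nonneg_right (by linarith) (Nat.cast_nonneg J)

/-- **Near, every order**. -/
theorem near_ord (m D k i : ℕ) : ∃ C : ℕ, 1 ≤ C ∧ ∀ {S : PCl m} {c : ℕ → Fin m}
    {sn : ℕ → ℝ → ℝ} {G : Set ℝ} {b o φ s : ℝ} {al : ℕ → ℝ} {Dr N M : ℕ} {C₀ a Eb ηm : ℝ}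
    {ow η σ : ℕ → ℝ} {lv bb : ℕ → ℕ → ℝ} {f : ℕ → ℕ} {n : ℕ}, LadT S c k 1 sn G b o φ →
    Lns k sn G b o φ s al → 1 < s → ChW k sn G b o φ N C₀ ηm ow lv f n →
    C * ((s + 3) * φ) ≤ sn (k + 1) b → ∀ {X : CanD m} {t l : ℕ} {w u ψ δ μ ox ε : ℝ},
    t ≤ n → ow (f t) = w → w + u ≤ ow (f n) + φ → k ≤ l → l ≤ k + 1 → 0 < u →
    C * ((s + 3) * φ) ≤ ψ → C * ((s + 3) * φ) ≤ u → (s < i → μ ≤ min 1 (i - s)) → μ ≤ 1 →
    2 * (u + ψ) ≤ μ * (w - b) → 2 * u + ψ ≤ 1 - w → w + u - φ ≤ ox → ox ≤ 1 → 0 ≤ δ →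
    StN S c k sn X f t s b w u ψ φ δ → 0 < ε →
    Bas S (fun J F A => ∀ κ : ℝ, ChE F c k D Dr N M C₀ a Eb ηm ow η σ lv bb f n κ (X.z J F) A
      (X.g J F) (X.G J F) (X.H J F) → ∀ Hj : LnT F → ℕ → MvPolynomial (Option (Fin m)) ℝ,
      (∀ ω, ∀ l < k, Hj (slam F ⌊w * J⌋₊ ω) l = X.H J F (f 0) (slam F ⌊b * J⌋₊ ω) l) →
      CH (Pool.Agent.H49.Ent.cond F.p A True)
        (fun ω => ⌊(2 : ℝ) ^ ((sn l w + u - i * w) * J) * ojet F (c l) i
          (HNs c (X.H J F) k (f 0) (f t) ⌊b * J⌋₊ ⌊w * J⌋₊ (slam F ⌊w * J⌋₊ ω) l) ω⌋)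
        (fun ω => (jet2 F c ⌊w * J⌋₊ Hj 0 k (fun l' j' => sn l' w + (u + ψ) - (j' : ℝ) * w) ω,
          (cR F A ox ω, F.W ω))) ≤ (δ * u + C * ((s + 3) * φ) + ε) * J) := by
  obtain ⟨C₁, hC₁, hlo⟩ := p5_low m D k i
  obtain ⟨C₂, hC₂, hhi⟩ := p5_high m D k i
  refine ⟨C₁ + C₂ + 1, by omega, ?_⟩
  intro S c sn G b o φ s al Dr N M C₀ a Eb ηm ow η σ lv bb f n L hl hs hw hlev X t l w u ψ δ μ ox ε
    ht hwt hwn hkl hlk hu hCψ hCu hμ hμ1 hbu h1u hox hox1 hδ hN hε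
  have hφ := L.φ0
  have hs0 : 0 ≤ s := by linarith
  obtain ⟨y, hy⟩ : ∃ y : ℝ, y = (s + 3) * φ := ⟨_, rfl⟩
  have hsφ : 0 ≤ s * φ := mul_nonneg hs0 hφ.le
  have hy3 : y = s * φ + 3 * φ := by rw [hy]; ring
  have hy0 : 0 < y := by linarith
  rw [← hy] at hlev hCψ hCu ⊢
  have hCe : ((C₁ + C₂ + 1 : ℕ) : ℝ) * y = C₁ * y + C₂ * y + y := by
    push_cast
    ring
  have hC1y : 0 ≤ (C₁ : ℝ) * y := by positivity
  have hC2y : 0 ≤ (C₂ : ℝ) * y := by positivity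
  rw [hCe] at hlev hCψ hCu ⊢
  have hbw : b ≤ w := by rw [← hwt]; exact hw.bo ht
  have hδu : 0 ≤ δ * u := mul_nonneg hδ hu.le
  have hψ0 : 0 ≤ ψ := by linarith
  have hμb : μ * (w - b) ≤ 1 * (w - b) := mul_le_mul_of_nonneg_right hμ1 (by linarith)
  rcases le_or_gt (i : ℝ) s with his | his
  swap
  · -- above the slope
    have h1 := hhi (Dr := Dr) (M := M) (a := a) (Eb := Eb) (η := η) (σ := σ) (bb := bb) L hl hs.le
      his hw (by rw [← hy]; linarith) (t := t) (l := l) (ν := sn l w + u - i * w) (ox := ox)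
      (X := u) (R := u + ψ) (w' := w) (Nf := fun l' j' => sn l' w + (u + ψ) - (j' : ℝ) * w) ht hkl
      hlk (by rw [hwt]; linarith) hox1 hu.le (by rw [hwt]; linarith) (by rw [← hy]; linarith) (by
        rw [hwt]
        have h2 := mul_le_mul_of_nonneg_right (hμ his) (by linarith : 0 ≤ w - b)
        linarith) (by rw [hwt]; linarith) (fun l' _ j' _ => by rw [hwt]) hε
    refine Bas.mono 0 h1 ?_
    rintro J - F A h κ hE Hj hHj
    have h2 := h hE Hj hHj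
    rw [hwt, hw.ob] at h2
    refine h2.trans ?_
    exact mul_le_mul_of_nonneg_right (by linarith) (Nat.cast_nonneg J)
  rcases lt_or_ge (s - 1) (i : ℝ) with hs1 | hs1
  · -- the top order
    obtain ⟨x, hx1, hx2, hB⟩ := hN
    have hi1 : 1 ≤ i := by
      have h1 : (0 : ℝ) < i := by linarith
      have h2 : 0 < i := by exact_mod_cast h1
      omega
    refine Bas.mono 0 (hB.and (pos_bas L.pos)) ?_
    rintro J - F A ⟨h, hA⟩ κ hE Hj hHj
    have hcl := isLaw_cond F.isLaw hA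
    refine (CH_mono_cond hcl.nonneg fun ω ν hω hν e => ?_).trans ((h Hj hHj l hkl hlk i hi1 hs1
      his).trans (mul_le_mul_of_nonneg_right (by linarith) (Nat.cast_nonneg J)))
    simp only [Prod.mk.injEq] at e ⊢
    exact ⟨e.1, cR_le (by linarith) hox1 (of_cond_pos hω) (of_cond_pos hν) e.2.1, e.2.2⟩
  · -- natural at a window before `w + u`
    have hsi : 1 ≤ s - i := by linarith
    have hi0 : (0 : ℝ) ≤ i := Nat.cast_nonneg i
    obtain ⟨xs, hxs⟩ : ∃ xs : ℝ, xs = w + (u - φ) / (s - i) := ⟨_, rfl⟩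
    have hφu : φ ≤ u := by linarith
    have e1 : (s - i) * (xs - w) = u - φ := by
      rw [hxs, add_sub_cancel_left, mul_div_cancel₀ _ (by linarith : s - (i : ℝ) ≠ 0)]
    have hxw : w ≤ xs := by
      rw [hxs]
      have := div_nonneg (sub_nonneg.2 hφu) (by linarith : 0 ≤ s - (i : ℝ))
      linarith
    have hxu : xs ≤ w + u - φ := by
      have : 1 * (xs - w) ≤ (s - i) * (xs - w) := mul_le_mul_of_nonneg_right hsi (by linarith)
      linarith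
    obtain ⟨t', ht', h1, h2⟩ := hw.near hφ.le (x := xs) (by linarith) n le_rfl (by linarith)
    obtain ⟨t₂, ht₂⟩ : ∃ t₂, t₂ = max t t' := ⟨_, rfl⟩
    have ht2n : t₂ ≤ n := by rw [ht₂]; exact max_le ht ht'
    have htt : t ≤ t₂ := by rw [ht₂]; exact le_max_left _ _
    have ht't : t' ≤ t₂ := by rw [ht₂]; exact le_max_right _ _
    have k1 : ow (f t₂) ≤ xs := by
      rcases max_cases t t' with h3 | h3
      · rw [ht₂, h3.1, hwt]
        exact hxw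
      · rw [ht₂, h3.1]
        exact h1
    have k2 : xs ≤ ow (f t₂) + φ := by
      have := hw.mo t₂ ht2n t' ht't
      linarith
    have k0 : w ≤ ow (f t₂) := by
      have := hw.mo t₂ ht2n t htt
      rwa [hwt] at this
    obtain ⟨x₂, hx₂⟩ : ∃ x₂, x₂ = ow (f t₂) := ⟨_, rfl⟩
    have k3 := abs_le.1 (lin_of hl hkl hlk (hw.oG t ht) (hw.oG t₂ ht2n) (hw.bo ht) (hw.oo t ht)
      (hw.bo ht2n) (hw.oo t₂ ht2n))
    rw [hwt, ← hx₂] at k3
    rw [← hx₂] at k0 k1 k2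
    have k4 : (s - i) * (x₂ - w) ≤ u - φ := by
      rw [← e1]
      exact mul_le_mul_of_nonneg_left (by linarith) (by linarith)
    have k5 : u - φ - s * φ ≤ (s - i) * (x₂ - w) := by
      have h3 : (s - i) * (xs - φ - w) ≤ (s - i) * (x₂ - w) :=
        mul_le_mul_of_nonneg_left (by linarith) (by linarith)
      have h4 : (s - i) * (xs - φ - w) = (s - i) * (xs - w) - (s - i) * φ := by ring
      have h5 : (s - i) * φ ≤ s * φ := mul_le_mul_of_nonneg_right (by linarith) hφ.le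
      linarith
    obtain ⟨ν, hν⟩ : ∃ ν : ℝ, ν = sn l w + u - i * w - (C₁ * y + y) := ⟨_, rfl⟩
    have e2 : (s - i) * (x₂ - w) = s * (x₂ - w) - (i * x₂ - i * w) := by ring
    have h3 := hlo (Dr := Dr) (M := M) (a := a) (Eb := Eb) (η := η) (σ := σ) (bb := bb) L hl hs0 hw
      (by rw [← hy]; linarith) (t₁ := t) (t₂ := t₂) (l := l) (ν := ν) (ox := ox) (R := u + ψ)
      (w' := w) (Nf := fun l' j' => sn l' w + (u + ψ) - (j' : ℝ) * w) (ε := ε / 2) htt ht2n hkl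
      hlk (by rw [← hx₂]; linarith) hox1 (by rw [← hy, ← hx₂, hν]; linarith [k3.1]) (by
        rw [← hy, ← hx₂, hwt, max_eq_right hsi]
        linarith) (by rw [hwt]; linarith) (by rw [← hx₂]; linarith) (fun l' _ j' _ => by rw [hwt])
      (by positivity)
    obtain ⟨J₁, hJ₁⟩ := exists_nat_ge (Real.log 5 / (ε / 2))
    refine Bas.mono J₁ (h3.and (pos_bas L.pos)) ?_
    rintro J hJ F A ⟨h, hA⟩ κ hE Hj hHj
    have hJ0 : (0 : ℝ) ≤ J := Nat.cast_nonneg J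
    have hJl : Real.log 5 ≤ ε / 2 * J := by
      have h3 : (J₁ : ℝ) ≤ J := by exact_mod_cast hJ
      have h4 := hJ₁.trans h3
      rw [div_le_iff₀ (by positivity)] at h4
      linarith
    have hcl := isLaw_cond F.isLaw hA
    have h4 := h hE Hj hHj
    rw [hwt, hw.ob] at h4
    refine (ch_more hcl (fun ω => ojet F (c l) i
      (HNs c (X.H J F) k (f 0) (f t) ⌊b * J⌋₊ ⌊w * J⌋₊ (slam F ⌊w * J⌋₊ ω) l) ω) _
      (a := ν * J) (b := (sn l w + u - i * w) * J)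
      (mul_le_mul_of_nonneg_right (by rw [hν]; linarith) hJ0)).trans ?_
    have h5 : ((sn l w + u - i * w) * (J : ℝ) - ν * J) * Real.log 2 ≤ (C₁ * y + y) * J := by
      have h6 : (sn l w + u - i * w) * (J : ℝ) - ν * J = (C₁ * y + y) * J := by
        rw [hν]
        ring
      rw [h6]
      have h7 : Real.log 2 ≤ 1 := by
        have := Real.log_two_lt_d9
        linarith
      have h8 : 0 ≤ (C₁ * y + y) * (J : ℝ) := by positivity
      nlinarith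
    have h9 : 0 ≤ (δ * u + C₂ * y) * (J : ℝ) := by positivity
    nlinarith

end Pool.TW44
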