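import Pool.Agent.H44.V0P.S3
import Pool.Agent.H44.V0F.Cla

/-!
# The labels of one event, several targets

`LDP`: the charts of the slope-one places over the window `b`, labels of the targets `k, …, k + f`
over the window `w`. `LDP.toLD`: the labels of the place `k`; `ldp_th`: the digits of the heights of
the targets are the quantities of the class theorems.
-/

set_option autoImplicit false

namespace Pool.V0Q

open Finset Real MvPolynomial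
open Pool.Agent.H49.Ent Pool.Agent.H32.Dense
open Pool.STK hiding pr2
open Pool.KA Pool.KSAT Pool.K2S Pool.PB Pool.S6C
open Pool.GEN Pool.CHT Pool.CHX Pool.ISO Pool.LA91 Pool.AVG71 Pool.AVG5 Pool.D2F2 Pool.AVG57
open Pool.RCD Pool.AVG96 Pool.V0F
open Pool.PB.Trl (rt rt_mem t_rt)
open Pool.GRD (LbP)
open Pool.AJW (CfB)
open Pool.D2R (WinB hyb hybH hyb_cls)

/-- **The labels of one event**, targets `k, …, k + f`. -/
structure LDP {m J : ℕ} (F : Fam m J) (c : ℕ → Fin m) (k f D : ℕ) (b w φ E : ℝ) (sn : ℕ → ℝ → ℝ)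
    (A : F.Ω → Prop) (Hb H : LnT F → ℕ → MvPolynomial (Option (Fin m)) ℝ) : Prop where
  lb : ∀ l < k, ∃ (V : Type) (z : PtT F → V) (z' : LnT F → V)
    (G : V → MvPolynomial (Option (Fin m)) ℝ),
    LbP F ((range l).image c) (c l) D J ⌊b * J⌋₊ ⌊(sn l b - φ) * J⌋₊ A z z' G ∧
      ∀ s, G (z' s) = Hb s l
  lt : ∀ l, k ≤ l → l ≤ k + f → ∃ (V : Type) (z : PtT F → V) (z' : LnT F → V)
    (G : V → MvPolynomial (Option (Fin m)) ℝ),
    LbP F ((range l).image c) (c l) D J ⌊w * J⌋₊ ⌊(sn l w - φ) * J⌋₊ A z z' G ∧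
      ∀ s, G (z' s) = H s l
  cb : ∀ l < k, CfB F ⌊b * J⌋₊ E (c l) A (fun s => s) (fun s => Hb s l)
  cw : ∀ l, k ≤ l → l ≤ k + f → CfB F ⌊w * J⌋₊ E (c l) A (fun s => s) (fun s => H s l)
  hb : ∀ ω, ∀ l < k, H (slam F ⌊w * J⌋₊ ω) l = Hb (slam F ⌊b * J⌋₊ ω) l

/-- The labels of the place `k`. -/
theorem LDP.toLD {m J : ℕ} {F : Fam m J} {c : ℕ → Fin m} {k f D : ℕ} {b w φ E : ℝ}
    {sn : ℕ → ℝ → ℝ} {A : F.Ω → Prop} {Hb H : LnT F → ℕ → MvPolynomial (Option (Fin m)) ℝ}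
    (L : LDP F c k f D b w φ E sn A Hb H) : LD F c k D b w φ E sn A Hb H H where
  lb := L.lb
  lt := L.lt k le_rfl (Nat.le_add_right k f)
  cb := L.cb
  cw := L.cw k le_rfl (Nat.le_add_right k f)
  hb := L.hb
  hw := fun _ => rfl

/-- **The height** of a target. -/
theorem ldp_th (m D k f l : ℕ) (N : ℝ) {w E : ℝ} (h1 : k ≤ l) (h2 : l ≤ k + f) (hw0 : 0 ≤ w)
    (hw1 : w ≤ 1) :
    ∃ M J₁ : ℕ, ∀ K ≥ M, ∀ J ≥ J₁, ∀ {F : Fam m J} {c : ℕ → Fin m} {b φ : ℝ} {sn : ℕ → ℝ → ℝ}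
      {A : F.Ω → Prop} {Hb H : LnT F → ℕ → MvPolynomial (Option (Fin m)) ℝ},
      LDP F c k f D b w φ E sn A Hb H → ∀ e : ℝ, 0 ≤ e →
      (qJet m ((range l).image c) (c l) 0 w (sn l w - φ) N).P K e J F A
        (th0 F c l ⌊w * J⌋₊ H N) := by
  obtain ⟨M, J₁, hM⟩ := qj_win m D 0 (N := N) (E := E) hw0 hw1
  refine ⟨M, J₁, fun K hK J hJ F c b φ sn A Hb H L e he => ?_⟩
  obtain ⟨V, z, z', G, h3, h4⟩ := L.lt l h1 h2
  have h5 := hM K hK J hJ F _ (c l) A V z z' G _ (sn l w - φ) e h3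
    (cfb_of (L.cw l h1 h2) h4) (Nat.floor_le_floor (mul_le_mul_of_nonneg_right (by linarith)
      (Nat.cast_nonneg J)))
  have e1 : th0 F c l ⌊w * J⌋₊ H N = fun ω =>
      ⌊(2 : ℝ) ^ (N * J) * ojet F (c l) 0 (G (z' (slam F ⌊w * J⌋₊ ω))) ω⌋ := by
    funext ω
    unfold th0
    rw [h4]
  rw [e1]
  exact h5

/-- **The labels of one event** from `WinB` and the label of the last place. -/
theorem ldp_of {m J : ℕ} {F : Fam m J} {c : ℕ → Fin m} {k D D' Dr N M : ℕ} {C₀ a Eb ηm : ℝ}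
    {o η σ : ℕ → ℝ} {lv bb : ℕ → ℕ → ℝ} {κ : ℝ} {z : ℕ → ℕ → ℕ} {A : F.Ω → Prop}
    {g₀ : ℕ → ℕ → ℕ} {G : ℕ → PtT F → ℕ → MvPolynomial (Option (Fin m)) ℝ}
    {H : ℕ → LnT F → ℕ → MvPolynomial (Option (Fin m)) ℝ}
    (W : WinB F c (k + 1) D Dr N M C₀ a Eb ηm o η σ lv bb κ z A g₀ G H) (hD : D ≤ D')
    {kb kw : ℕ} (hb : kb ≤ N) (hw : kw ≤ N) {φ E : ℝ} {sn : ℕ → ℝ → ℝ} (hbw : o kb ≤ o kw)
    (hw1 : o kw ≤ 1) (hC : C₀ * ηm ≤ φ) (lb : ∀ l ≤ k + 1, lv kb l = sn l (o kb))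
    (lw : ∀ l ≤ k + 1, lv kw l = sn l (o kw))
    (cb : ∀ l < k, CfB F ⌊o kb * J⌋₊ E (c l) A (fun s => s) (fun s => H kb s l))
    (cw : CfB F ⌊o kw * J⌋₊ E (c k) A (fun s => s) (fun s => H kw s k))
    {GN : PtT F → MvPolynomial (Option (Fin m)) ℝ} {HN : LnT F → MvPolynomial (Option (Fin m)) ℝ}
    (cn : CfB F ⌊o kw * J⌋₊ E (c (k + 1)) A (fun s => s) HN)
    (hcl : ∀ ω, A ω → GN (ptr F J ω) = HN (slam F ⌊o kw * J⌋₊ ω))
    (hdG : ∀ y, (GN y).totalDegree ≤ D') (hdg : ∀ s', (HN s').totalDegree ≤ D')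
    (hdP : ∀ y, DepC c (k + 1) (GN y)) (hdp : ∀ s', DepC c (k + 1) (HN s'))
    (hps : ∀ ω, A ω → |F.x ω (c (k + 1)) - eval (bt F ω) (GN (ptr F J ω))| ≤
      1 / 2 ^ ⌊(sn (k + 1) (o kw) - φ) * J⌋₊) :
    LDP F c k 1 D' (o kb) (o kw) φ E sn A (H kb) (frH H HN kb kw k ⌊o kb * J⌋₊ ⌊o kw * J⌋₊) := by
  have hJ : (0 : ℝ) ≤ J := Nat.cast_nonneg J
  have hη0 : 0 ≤ ηm := (W.hη kb hb).1.trans (W.hη kb hb).2
  have hηφ : ηm ≤ φ := (le_mul_of_one_le_left hη0 W.C1).trans hC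
  have hfw : ⌊o kw * (J : ℝ)⌋₊ ≤ J := floor_le hw1 J
  have hfb : ⌊o kb * (J : ℝ)⌋₊ ≤ ⌊o kw * J⌋₊ :=
    Nat.floor_le_floor (mul_le_mul_of_nonneg_right hbw hJ)
  have pr : ∀ t ≤ N, ∀ l ≤ k + 1, lv t l = sn l (o t) → ⌊(sn l (o t) - φ) * J⌋₊ ≤ g₀ t l := by
    intro t ht l hl he
    obtain ⟨-, -, h1, -⟩ := W.g_num ht hl
    refine Nat.floor_le_of_le ?_
    rw [he] at h1
    have : ηm * J ≤ φ * J := mul_le_mul_of_nonneg_right hηφ hJ
    linarith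
  have dg : ∀ {I : Finset (Fin m)} {q : Fin m} {w P : ℕ} {V : Type} {z : PtT F → V}
      {z' : LnT F → V} {G : V → MvPolynomial (Option (Fin m)) ℝ},
      LbP F I q D J w P A z z' G → LbP F I q D' J w P A z z' G := fun h =>
    ⟨fun v => (h.deg v).trans hD, h.dep, h.cls, h.pos⟩
  refine ⟨fun l hl => ?_, fun l h1 h2 => ?_, cb, fun l h1 h2 => ?_, fun ω l hl => ?_⟩
  · exact ⟨_, _, _, _, dg (lb_of (W.ev kb hb).ball (fun ω hω l hl => (W.ev kb hb).cls ω hω l hl)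
      (show l < k + 1 + 1 by omega) (pr kb hb l (by omega) (lb l (by omega)))), fun s => rfl⟩
  · rcases Nat.lt_or_eq_of_le h2 with h | h
    · obtain rfl : l = k := by omega
      refine ⟨_, _, _, _, dg (lb_of (W.ev kw hw).ball
        (fun ω hω l hl => (W.ev kw hw).cls ω hω l hl) (show l < l + 1 + 1 by omega)
        (pr kw hw l (by omega) (lw l (by omega)))), fun s => ?_⟩
      unfold frH
      rw [if_neg (lt_irrefl _), if_pos rfl]
    · subst h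
      refine ⟨{p : MvPolynomial (Option (Fin m)) ℝ // p.totalDegree ≤ D' ∧ DepC c (k + 1) p},
        fun y => ⟨GN y, hdG y, hdP y⟩, fun s' => ⟨HN s', hdg s', hdp s'⟩, fun p => p.1,
        ⟨fun v => v.2.1, fun v b b' e1 e2 => v.2.2 b b' e1 fun i hi => e2 (c i)
          (mem_image_of_mem c (mem_range.2 hi)), fun ω hω => Subtype.ext (hcl ω hω),
          fun ω hω => ?_⟩, fun s => ?_⟩
      · have e1 := hps ω hω
        rw [hcl ω hω] at e1
        exact e1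
      · unfold frH
        rw [if_neg (by omega), if_neg (by omega)]
  · rcases Nat.lt_or_eq_of_le h2 with h | h
    · obtain rfl : l = k := by omega
      have e1 : (fun s => frH H HN kb kw l ⌊o kb * J⌋₊ ⌊o kw * J⌋₊ s l) = fun s => H kw s l := by
        funext s
        unfold frH
        rw [if_neg (lt_irrefl _), if_pos rfl]
      rw [e1]
      exact cw
    · subst h
      have e1 : (fun s => frH H HN kb kw k ⌊o kb * J⌋₊ ⌊o kw * J⌋₊ s (k + 1)) = HN := by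
        funext s
        unfold frH
        rw [if_neg (by omega), if_neg (by omega)]
      rw [e1]
      exact cn
  · unfold frH
    rw [if_pos hl, upw_slam F hfb hfw]

end Pool.V0Q
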