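import Pool.Agent.H44.V0P.Pfu

/-!
# The own jets of the two targets over the labels of a window

`p5_low`: the natural digits of a later record, all orders. `p5_high`: the orders above the slope, more
digits than the natural ones. Labels: `HNs` (the chart for the first target, the slab for the second
one). `chw_of`, `zz_of`: the chain of the windows `fb`, `fn` of a box.
-/

set_option autoImplicit false

namespace Pool.TW44

open Finset Real MvPolynomial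
open Pool.Agent.H49.Ent Pool.Agent.H32.Dense Pool.STK Pool.KA Pool.KSAT Pool.K2S Pool.PB Pool.GEN
open Pool.S6C Pool.RCD Pool.LA91 Pool.AVG96 Pool.V0F Pool.V0T Pool.D2R Pool.NVT16
open Pool.BFL (Pb)
open Pool.AVG57 (jet2 upw upw_slam)
open Pool.AJW (CfB)
open Pool.T462 (HNs)
open Pool.T4C72 (BoxT WnT RadT)

/-- **Fewer digits.** -/
theorem ch_fewer {Ω γ : Type} [Fintype Ω] {p : Ω → ℝ} (hp : IsLaw p) (X : Ω → ℝ) (Y : Ω → γ)
    {a b : ℝ} (hab : a ≤ b) : CH p (fun ω => ⌊(2 : ℝ) ^ a * X ω⌋) Y ≤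
      CH p (fun ω => ⌊(2 : ℝ) ^ b * X ω⌋) Y + Real.log 5 := by
  have hP : ∀ r : ℝ, (0 : ℝ) < 2 ^ r := fun r => Real.rpow_pos_of_pos (by norm_num) _
  have h1 := CH_le_add hp.nonneg (fun ω => ⌊(2 : ℝ) ^ a * X ω⌋) (fun ω => ⌊(2 : ℝ) ^ b * X ω⌋) Y
  have h2 := Pool.AVG71.CH_pair_int hp (fun ω => ⌊(2 : ℝ) ^ a * X ω⌋)
    (fun ω => (⌊(2 : ℝ) ^ b * X ω⌋, Y ω)) (D := 2) (by norm_num) (fun ω ω' _ _ e => by
      have k2 : |X ω - X ω'| ≤ 1 / 2 ^ b := Pool.AVG5.of_fl (hP b) (Prod.ext_iff.mp e).1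
      have k3 : |(2 : ℝ) ^ a * X ω - 2 ^ a * X ω'| ≤ 1 := by
        rw [← mul_sub, abs_mul, abs_of_pos (hP a)]
        refine (mul_le_mul_of_nonneg_left k2 (hP a).le).trans ?_
        rw [mul_one_div, div_le_one (hP b)]
        exact Real.rpow_le_rpow_of_exponent_le (by norm_num) hab
      have e1 := Int.floor_le ((2 : ℝ) ^ a * X ω)
      have e2 := (Int.lt_floor_add_one ((2 : ℝ) ^ a * X ω)).le
      have e3 := Int.floor_le ((2 : ℝ) ^ a * X ω')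
      have e4 := (Int.lt_floor_add_one ((2 : ℝ) ^ a * X ω')).le
      rw [abs_le] at k3 ⊢
      constructor <;> linarith [k3.1, k3.2])
  have e5 : (2 * 2 + 1 : ℝ) = 5 := by norm_num
  rw [e5] at h2
  linarith

/-- **More digits.** -/
theorem ch_more {Ω γ : Type} [Fintype Ω] {p : Ω → ℝ} (hp : IsLaw p) (X : Ω → ℝ) (Y : Ω → γ)
    {a b : ℝ} (hab : a ≤ b) : CH p (fun ω => ⌊(2 : ℝ) ^ b * X ω⌋) Y ≤
      CH p (fun ω => ⌊(2 : ℝ) ^ a * X ω⌋) Y + ((b - a) * Real.log 2 + Real.log 5) := by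
  have hP : ∀ r : ℝ, (0 : ℝ) < 2 ^ r := fun r => Real.rpow_pos_of_pos (by norm_num) _
  have hc1 : (1 : ℝ) ≤ 2 ^ (b - a) := Real.one_le_rpow (by norm_num) (by linarith)
  have h1 := CH_le_add hp.nonneg (fun ω => ⌊(2 : ℝ) ^ b * X ω⌋) (fun ω => ⌊(2 : ℝ) ^ a * X ω⌋) Y
  have h2 := Pool.AVG71.CH_pair_int hp (fun ω => ⌊(2 : ℝ) ^ b * X ω⌋)
    (fun ω => (⌊(2 : ℝ) ^ a * X ω⌋, Y ω)) (D := 2 ^ (b - a) + 1) (by positivity)
    (fun ω ω' _ _ e => by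
      have k2 : |X ω - X ω'| ≤ 1 / 2 ^ a := Pool.AVG5.of_fl (hP a) (Prod.ext_iff.mp e).1
      have k3 : |(2 : ℝ) ^ b * X ω - 2 ^ b * X ω'| ≤ 2 ^ (b - a) := by
        rw [← mul_sub, abs_mul, abs_of_pos (hP b)]
        refine (mul_le_mul_of_nonneg_left k2 (hP b).le).trans (le_of_eq ?_)
        rw [mul_one_div, Real.rpow_sub (by norm_num)]
      have e1 := Int.floor_le ((2 : ℝ) ^ b * X ω)
      have e2 := (Int.lt_floor_add_one ((2 : ℝ) ^ b * X ω)).le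
      have e3 := Int.floor_le ((2 : ℝ) ^ b * X ω')
      have e4 := (Int.lt_floor_add_one ((2 : ℝ) ^ b * X ω')).le
      rw [abs_le] at k3 ⊢
      constructor <;> linarith [k3.1, k3.2])
  have h3 : Real.log (2 * (2 ^ (b - a) + 1) + 1) ≤ (b - a) * Real.log 2 + Real.log 5 := by
    rw [← Real.log_rpow (by norm_num), ← Real.log_mul (by positivity) (by norm_num)]
    exact Real.log_le_log (by positivity) (by linarith)
  linarith

/-- **The natural digits of a later record**, both targets, every order. -/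
theorem p5_low (m D k i : ℕ) : ∃ C : ℕ, 1 ≤ C ∧ ∀ {S : PCl m} {c : ℕ → Fin m}
    {sn : ℕ → ℝ → ℝ} {G : Set ℝ} {b o φ s : ℝ} {al : ℕ → ℝ} {Dr N M : ℕ} {C₀ a Eb ηm : ℝ}
    {ow η σ : ℕ → ℝ} {lv bb : ℕ → ℕ → ℝ} {f : ℕ → ℕ} {n : ℕ}, LadT S c k 1 sn G b o φ →
    Lns k sn G b o φ s al → 0 ≤ s → ChW k sn G b o φ N C₀ ηm ow lv f n →
    C * ((s + 3) * φ) ≤ sn (k + 1) b → ∀ {t₁ t₂ l : ℕ} {ν ox R w' ε : ℝ} {Nf : ℕ → ℕ → ℝ},
    t₁ ≤ t₂ → t₂ ≤ n → k ≤ l → l ≤ k + 1 → ow (f t₂) ≤ ox → ox ≤ 1 →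
    ν + i * ow (f t₂) + C * ((s + 3) * φ) ≤ sn l (ow (f t₂)) →
    max 1 (s - i) * (ow (f t₂) - ow (f t₁)) + C * ((s + 3) * φ) ≤ R →
    R ≤ ow (f t₁) - b → R ≤ 1 - ow (f t₂) →
    (∀ l < k, ∀ j : ℕ, j ≤ 1 → sn l (ow (f t₁)) + R - j * ow (f t₁) ≤ Nf l j) → 0 < ε →
    Bas S (fun J F A => ∀ {κ : ℝ} {z : ℕ → ℕ → ℕ} {g₀ : ℕ → ℕ → ℕ}
      {Gc : ℕ → PtT F → ℕ → MvPolynomial (Option (Fin m)) ℝ}
      {H : ℕ → LnT F → ℕ → MvPolynomial (Option (Fin m)) ℝ},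
      ChE F c k D Dr N M C₀ a Eb ηm ow η σ lv bb f n κ z A g₀ Gc H →
      ∀ Hj : LnT F → ℕ → MvPolynomial (Option (Fin m)) ℝ,
      (∀ ω, ∀ l < k, Hj (slam F ⌊w' * J⌋₊ ω) l = H (f 0) (slam F ⌊b * J⌋₊ ω) l) →
      CH (Pool.Agent.H49.Ent.cond F.p A True) (fun ω => ⌊(2 : ℝ) ^ (ν * J) *
        ojet F (c l) i (HNs c H k (f 0) (f t₁) ⌊ow (f 0) * J⌋₊ ⌊ow (f t₁) * J⌋₊
          (slam F ⌊ow (f t₁) * J⌋₊ ω) l) ω⌋)
        (fun ω => (jet2 F c ⌊w' * J⌋₊ Hj 0 k Nf ω, (cR F A ox ω, F.W ω))) ≤ ε * J) := by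
  obtain ⟨C, hC, hlow⟩ := nj_low m D k i
  refine ⟨C + 24 * k + 80, by omega, ?_⟩
  intro S c sn G b o φ s al Dr N M C₀ a Eb ηm ow η σ lv bb f n L hl hs hw hlev t₁ t₂ l ν ox R w' ε Nf
    ht₁ ht₂ hkl hlk hox hox1 hν hR hRb hR1 hNf hε
  have hφ := L.φ0
  obtain ⟨y, hy⟩ : ∃ y : ℝ, y = (s + 3) * φ := ⟨_, rfl⟩
  have hsφ : 0 ≤ s * φ := mul_nonneg hs hφ.le
  have hy3 : y = s * φ + 3 * φ := by rw [hy]; ring
  have hy0 : 0 < y := by linarith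
  rw [← hy] at hlev hν hR
  have hC1 : ((C + 24 * k + 80 : ℕ) : ℝ) * y = C * y + (24 * k + 80) * y := by
    push_cast
    ring
  have hCy : 0 ≤ (C : ℝ) * y := by positivity
  have hky : (24 * (k : ℝ) + 80) * φ ≤ (24 * k + 80) * y :=
    mul_le_mul_of_nonneg_left (by linarith) (by positivity)
  have hkφ : 0 ≤ 24 * (k : ℝ) * φ := by positivity
  rw [hC1] at hlev hν hR
  rcases (show l = k ∨ l = k + 1 by omega) with rfl | rfl
  · -- the first target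
    have h1 := uj_lo (f := fun J F => ptr F J) (y := fun _ F => F.W) L hl
      (fun J F => ⟨fun x => x, fun _ => rfl⟩) kn_W (w := ow (f t₁)) (x := ow (f t₂)) (ox := ox)
      (ν := ν) (R := R) (p := fun i => sn i b - φ) (hw.oG t₁ (by omega)) (hw.oG t₂ ht₂)
      (hw.bo (by omega)) (hw.mo t₂ ht₂ t₁ ht₁) (hw.oo t₂ ht₂) hox hox1 (fun _ _ => le_rfl) (j := i)
      (by linarith) (by linarith) hRb hR1 hNf
    have h2 := few_lv L.pos D i (w' := w') L.b0 (by linarith [L.bo, L.o1])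
      (L.b0.trans (hw.bo (by omega : t₁ ≤ n))) ((hw.oo t₁ (by omega)).trans L.o1.le) h1 hε
    refine Bas.mono 0 h2 ?_
    rintro J - F A h3 κ z g₀ Gc H hE Hj hHj
    have h4 := (lv_of hE hw (Nat.zero_le n)).take (Nat.le_succ l)
    rw [hw.ob] at h4
    have h5 := lv_of hE hw (by omega : t₁ ≤ n)
    have h6 := h3 (H (f 0)) (H (f t₁)) Hj h4 h5 hHj
    have e1 : ∀ s', HNs c H l (f 0) (f t₁) ⌊ow (f 0) * J⌋₊ ⌊ow (f t₁) * J⌋₊ s' l =
        H (f t₁) s' l := fun s' => if_pos le_rfl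
    simp only [e1]
    exact h6
  · -- the second target
    have h1 := hlow (Dr := Dr) (M := M) (a := a) (Eb := Eb) (η := η) (σ := σ) (bb := bb) L hl hs
      (hw.take ht₂) (by rw [← hy]; linarith [mul_pos (by positivity : (0:ℝ) < 24 * k + 80) hy0])
      (t₁ := t₁) (ν := ν) (ox := ox) (R := R) (w' := w') (Nf := Nf) ht₁ hox hox1
      (by rw [← hy]; linarith [mul_pos (by positivity : (0:ℝ) < 24 * k + 80) hy0])
      (by rw [← hy]; linarith [mul_pos (by positivity : (0:ℝ) < 24 * k + 80) hy0]) hRb hR1 hNf hε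
    refine Bas.mono 0 (h1.and (pos_bas L.pos)) ?_
    rintro J - F A ⟨h3, hA⟩ κ z g₀ Gc H hE Hj hHj
    have hcl := isLaw_cond F.isLaw hA
    refine le_trans (CH_mono_left hcl.nonneg fun ω ω' hω hω' e => ?_) (h3 (hE.take ht₂) Hj hHj)
    have hωA : A ω := of_cond_pos hω
    have hωA' : A ω' := of_cond_pos hω'
    have e1 : ∀ s', HNs c H k (f 0) (f t₁) ⌊ow (f 0) * J⌋₊ ⌊ow (f t₁) * J⌋₊ s' (k + 1) =
        slH c H k (f 0) (f t₁) ⌊ow (f 0) * J⌋₊ ⌊ow (f t₁) * J⌋₊ s' := fun s' =>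
      if_neg (by omega)
    rw [e1, e1, ← sl_cls hE.W (hw.fN 0 (Nat.zero_le _)) (hw.fN t₁ (by omega))
      (hw.mo t₁ (by omega) 0 (Nat.zero_le _)) ((hw.oo t₁ (by omega)).trans L.o1.le) hωA,
      ← sl_cls hE.W (hw.fN 0 (Nat.zero_le _)) (hw.fN t₁ (by omega))
      (hw.mo t₁ (by omega) 0 (Nat.zero_le _)) ((hw.oo t₁ (by omega)).trans L.o1.le) hωA']
    exact (Prod.ext_iff.mp e).1

/-- A window of the chain near a number. -/
theorem ChW.near {k : ℕ} {sn : ℕ → ℝ → ℝ} {G : Set ℝ} {b o φ : ℝ} {N : ℕ} {C₀ ηm : ℝ}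
    {ow : ℕ → ℝ} {lv : ℕ → ℕ → ℝ} {f : ℕ → ℕ} {n : ℕ}
    (h : ChW k sn G b o φ N C₀ ηm ow lv f n) (hφ : 0 ≤ φ) {x : ℝ} (hx : b ≤ x) : ∀ t ≤ n,
    x ≤ ow (f t) → ∃ t' ≤ t, ow (f t') ≤ x ∧ x ≤ ow (f t') + φ := by
  intro t
  induction t with
  | zero =>
    intro _ hxt
    refine ⟨0, le_rfl, by rw [h.ob]; exact hx, ?_⟩
    rw [h.ob] at hxt ⊢
    linarith
  | succ t ih =>
    intro ht hxt
    rcases le_or_gt x (ow (f t)) with h1 | h1
    · obtain ⟨t', h2, h3⟩ := ih (by omega) h1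
      exact ⟨t', by omega, h3⟩
    · exact ⟨t, Nat.le_succ t, h1.le, hxt.trans (h.st t ht).2⟩

/-- **The orders above the slope**, both targets: `X` more digits than the natural ones. -/
theorem p5_high (m D k i : ℕ) : ∃ C : ℕ, 1 ≤ C ∧ ∀ {S : PCl m} {c : ℕ → Fin m}
    {sn : ℕ → ℝ → ℝ} {G : Set ℝ} {b o φ s : ℝ} {al : ℕ → ℝ} {Dr N M : ℕ} {C₀ a Eb ηm : ℝ}
    {ow η σ : ℕ → ℝ} {lv bb : ℕ → ℕ → ℝ} {f : ℕ → ℕ} {n : ℕ}, LadT S c k 1 sn G b o φ →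
    Lns k sn G b o φ s al → 1 ≤ s → s < i → ChW k sn G b o φ N C₀ ηm ow lv f n →
    C * ((s + 3) * φ) ≤ sn (k + 1) b → ∀ {t l : ℕ} {ν ox X R w' ε : ℝ} {Nf : ℕ → ℕ → ℝ},
    t ≤ n → k ≤ l → l ≤ k + 1 → ow (f t) ≤ ox → ox ≤ 1 → 0 ≤ X →
    ν + i * ow (f t) ≤ sn l (ow (f t)) + X → X + C * ((s + 3) * φ) ≤ R →
    2 * R ≤ min 1 (i - s) * (ow (f t) - b) → R ≤ 1 - ow (f t) →
    (∀ l < k, ∀ j : ℕ, j ≤ 1 → sn l (ow (f t)) + R - j * ow (f t) ≤ Nf l j) → 0 < ε →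
    Bas S (fun J F A => ∀ {κ : ℝ} {z : ℕ → ℕ → ℕ} {g₀ : ℕ → ℕ → ℕ}
      {Gc : ℕ → PtT F → ℕ → MvPolynomial (Option (Fin m)) ℝ}
      {H : ℕ → LnT F → ℕ → MvPolynomial (Option (Fin m)) ℝ},
      ChE F c k D Dr N M C₀ a Eb ηm ow η σ lv bb f n κ z A g₀ Gc H →
      ∀ Hj : LnT F → ℕ → MvPolynomial (Option (Fin m)) ℝ,
      (∀ ω, ∀ l < k, Hj (slam F ⌊w' * J⌋₊ ω) l = H (f 0) (slam F ⌊b * J⌋₊ ω) l) →
      CH (Pool.Agent.H49.Ent.cond F.p A True) (fun ω => ⌊(2 : ℝ) ^ (ν * J) *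
        ojet F (c l) i (HNs c H k (f 0) (f t) ⌊ow (f 0) * J⌋₊ ⌊ow (f t) * J⌋₊
          (slam F ⌊ow (f t) * J⌋₊ ω) l) ω⌋)
        (fun ω => (jet2 F c ⌊w' * J⌋₊ Hj 0 k Nf ω, (cR F A ox ω, F.W ω))) ≤ ε * J) := by
  obtain ⟨C, hC, hhigh⟩ := nj_high m D k i
  refine ⟨C + 24 * k + 80, by omega, ?_⟩
  intro S c sn G b o φ s al Dr N M C₀ a Eb ηm ow η σ lv bb f n L hl hs hsi hw hlev t l ν ox X R w' ε
    Nf ht hkl hlk hox hox1 hX0 hν hR hRb hR1 hNf hε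
  have hφ := L.φ0
  have hs0 : 0 ≤ s := by linarith
  obtain ⟨y, hy⟩ : ∃ y : ℝ, y = (s + 3) * φ := ⟨_, rfl⟩
  have hsφ : 0 ≤ s * φ := mul_nonneg hs0 hφ.le
  have hy3 : y = s * φ + 3 * φ := by rw [hy]; ring
  have hy0 : 0 < y := by linarith
  rw [← hy] at hlev hR
  have hC1 : ((C + 24 * k + 80 : ℕ) : ℝ) * y = C * y + (24 * k + 80) * y := by
    push_cast
    ring
  have hCy : 0 ≤ (C : ℝ) * y := by positivity
  have hky : (24 * (k : ℝ) + 80) * φ ≤ (24 * k + 80) * y :=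
    mul_le_mul_of_nonneg_left (by linarith) (by positivity)
  have hkφ : 0 ≤ (k : ℝ) * φ := by positivity
  rw [hC1] at hlev hR
  obtain ⟨μ, hμ⟩ : ∃ μ : ℝ, μ = min 1 (i - s) := ⟨_, rfl⟩
  rw [← hμ] at hRb
  have hμ0 : 0 < μ := by rw [hμ]; exact lt_min one_pos (by linarith)
  have hμ1 : μ ≤ 1 := by rw [hμ]; exact min_le_left _ _
  have hμs : μ ≤ i - s := by rw [hμ]; exact min_le_right _ _
  have hbw := hw.bo ht
  have hR0 : 0 ≤ R := by linarith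
  have hRw : 2 * R ≤ ow (f t) - b := by
    have := mul_le_mul_of_nonneg_right hμ1 (sub_nonneg.2 hbw)
    linarith
  rcases (show l = k ∨ l = k + 1 by omega) with rfl | rfl
  · -- the first target
    have hi2 : 2 ≤ i := by
      have h1 : (1 : ℝ) < i := by linarith
      have h2 : 1 < i := by exact_mod_cast h1
      omega
    have h1 := uj_hi (f := fun J F => ptr F J) (y := fun _ F => F.W) L hl
      (fun J F => ⟨fun x => x, fun _ => rfl⟩) kn_W (w := ow (f t)) (ox := ox) (X := X) (R := R)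
      (p := fun i => sn i b - φ) (hw.oG t ht) hbw (hw.oo t ht) hox hox1 (fun _ _ => le_rfl)
      (j := i) hi2 hsi hX0 (by linarith) (by rw [← hμ]; linarith) hR1 hNf
    have h2 := few_lv L.pos D i (w' := w') L.b0 (by linarith [L.bo, L.o1])
      (L.b0.trans hbw) ((hw.oo t ht).trans L.o1.le) h1 (ε := ε / 2) (by positivity)
    obtain ⟨J₁, hJ₁⟩ := exists_nat_ge (Real.log 5 / (ε / 2))
    refine Bas.mono J₁ (h2.and (pos_bas L.pos)) ?_
    rintro J hJ F A ⟨h3, hA⟩ κ z g₀ Gc H hE Hj hHj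
    have hJl : Real.log 5 ≤ ε / 2 * J := by
      have h3 : (J₁ : ℝ) ≤ J := by exact_mod_cast hJ
      have h4 := hJ₁.trans h3
      rw [div_le_iff₀ (by positivity)] at h4
      linarith
    have hcl := isLaw_cond F.isLaw hA
    have h4 := (lv_of hE hw (Nat.zero_le n)).take (Nat.le_succ l)
    rw [hw.ob] at h4
    have h5 := lv_of hE hw ht
    have h6 := h3 (H (f 0)) (H (f t)) Hj h4 h5 hHj
    have e1 : ∀ s', HNs c H l (f 0) (f t) ⌊ow (f 0) * J⌋₊ ⌊ow (f t) * J⌋₊ s' l =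
        H (f t) s' l := fun s' => if_pos le_rfl
    simp only [e1]
    refine (ch_fewer hcl (fun ω => ojet F (c l) i (H (f t) (slam F ⌊ow (f t) * J⌋₊ ω) l) ω) _
      (a := ν * J) (b := (sn l (ow (f t)) + (X + 20 * φ) - i * ow (f t)) * J)
      (mul_le_mul_of_nonneg_right (by linarith) (Nat.cast_nonneg J))).trans ?_
    linarith
  · -- the second target
    obtain ⟨t₁, ht₁, h1, h2⟩ := hw.near hφ.le (x := (ow (f t) + b) / 2) (by linarith) t ht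
      (by linarith)
    have h3 := abs_le.1 (lin_of hl (Nat.le_succ k) le_rfl (hw.oG t₁ (ht₁.trans ht)) (hw.oG t ht)
      (hw.bo (ht₁.trans ht)) (hw.oo t₁ (ht₁.trans ht)) hbw (hw.oo t ht))
    have h4 : R ≤ (i - s) * (ow (f t) - ow (f t₁)) := by
      have h5 : μ * (ow (f t) - b) ≤ (i - s) * (2 * (ow (f t) - ow (f t₁))) :=
        mul_le_mul hμs (by linarith) (by linarith) (by linarith)
      linarith
    have h1 := hhigh (Dr := Dr) (M := M) (a := a) (Eb := Eb) (η := η) (σ := σ) (bb := bb) L hl hs0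
      hsi.le (hw.take ht) (by rw [← hy]; linarith [mul_pos (by positivity : (0:ℝ) < 24 * k + 80) hy0])
      (t₁ := t₁) (ν := ν) (ox := ox) (X := X) (R := R - φ) (w' := w') (Nf := Nf) ht₁ hox hox1 hX0
      (by
        rw [← hy]
        have e1 : (i : ℝ) * ow (f t₁) = i * ow (f t) - i * (ow (f t) - ow (f t₁)) := by ring
        have e2 : (i - s) * (ow (f t) - ow (f t₁)) =
          i * (ow (f t) - ow (f t₁)) - s * (ow (f t) - ow (f t₁)) := by ring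
        linarith [h3.2]) hν (by
        rw [← hy]
        linarith) (by linarith) (by linarith) (fun l hl' j hj => by
        refine le_trans ?_ (hNf l hl' j hj)
        linarith) hε
    refine Bas.mono 0 (h1.and (pos_bas L.pos)) ?_
    rintro J - F A ⟨h3, hA⟩ κ z g₀ Gc H hE Hj hHj
    have hcl := isLaw_cond F.isLaw hA
    refine le_trans (CH_mono_left hcl.nonneg fun ω ω' hω hω' e => ?_) (h3 (hE.take ht) Hj hHj)
    have hωA : A ω := of_cond_pos hω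
    have hωA' : A ω' := of_cond_pos hω'
    have e1 : ∀ s', HNs c H k (f 0) (f t) ⌊ow (f 0) * J⌋₊ ⌊ow (f t) * J⌋₊ s' (k + 1) =
        slH c H k (f 0) (f t) ⌊ow (f 0) * J⌋₊ ⌊ow (f t) * J⌋₊ s' := fun s' =>
      if_neg (by omega)
    rw [e1, e1, ← sl_cls hE.W (hw.fN 0 (Nat.zero_le _)) (hw.fN t ht)
      (hw.mo t ht 0 (Nat.zero_le _)) ((hw.oo t ht).trans L.o1.le) hωA,
      ← sl_cls hE.W (hw.fN 0 (Nat.zero_le _)) (hw.fN t ht)
      (hw.mo t ht 0 (Nat.zero_le _)) ((hw.oo t ht).trans L.o1.le) hωA']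
    exact (Prod.ext_iff.mp e).1

end Pool.TW44
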