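import Pool.Agent.H44.V0P.Sm
import Pool.Agent.H25.V0P.Alt

/-!
# Two places of one slope over slope-one places: the class theorem

`v0cP_of`: the class theorem `V0cPStmt` from its parts.
-/

set_option autoImplicit false

namespace Pool.V0Q

open Finset Real MvPolynomial
open Pool.Agent.H49.Ent Pool.Agent.H32.Dense
open Pool.STK hiding pr2
open Pool.KA Pool.KSAT Pool.K2S Pool.PB Pool.S6C
open Pool.GEN Pool.CHT Pool.CHX Pool.ISO Pool.LA91 Pool.AVG71 Pool.AVG5 Pool.D2F2 Pool.AVG57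
open Pool.RCD Pool.AVG96 Pool.OWN68 Pool.V0F
open Pool.PB.Trl (rt rt_mem t_rt)
open Pool.AJW (CfB)
open Pool.D2R (WinB gnh hgt hyb chs)
open Pool.LV64 (GrdV NrH Mm)
open Pool.KAF (rs Pr)
open Pool.V0P (jp v0pAlt)

/-- **(V0CP)** from its parts. -/
theorem v0cP_of (hN : NuppStmt) (hN0 : Nu0pStmt) (hnlq : NlqpStmt) (hgrd : GrdPStmt)
    (hcel : CelPStmt) (hrow : RowFamStmt) (hful : FulFamStmt) : V0cPStmt := by
  intro D D' k s h κ₂ ζ hD hDD hk1 hs hh hh1 hκ₂ hζ hbud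
  have hl2 : 0 < Real.log 2 := Real.log_pos one_lt_two
  have hl5 : 0 < Real.log 5 := Real.log_pos (by norm_num)
  have hr1 : (1 : ℝ) ≤ k := by exact_mod_cast hk1
  have hs0 : 0 < s := one_pos.trans hs
  obtain ⟨ξ, hξe⟩ : ∃ ξ : ℝ, ξ = (s - 1) / s := ⟨_, rfl⟩
  have hξ : s * ξ = s - 1 := by
    rw [hξe]
    exact mul_div_cancel₀ _ hs0.ne'
  rw [← hξe] at hbud
  have hξ0 : 0 < ξ := by
    rw [hξe]
    exact div_pos (by linarith only [hs]) hs0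
  have hξ1 : ξ < 1 := by
    rw [hξe, div_lt_one hs0]
    linarith only []
  have hs3 : 0 < s - 1 - ξ := by
    have : 0 < (s - 1) * ξ := mul_pos (by linarith only [hs]) hξ0
    linarith only [this, hξ]
  -- the exponents
  obtain ⟨δ, hδ⟩ : ∃ δ : ℝ, δ = (h ^ 2 / 16 - (4 * ζ + κ₂) / ξ) / 2 := ⟨_, rfl⟩
  have hδ0 : 0 < δ := by
    have h1 : (4 * ζ + κ₂) / ξ < h ^ 2 / 16 := by
      rw [div_lt_iff₀ hξ0]
      linarith only [hbud]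
    rw [hδ]
    linarith only [h1]
  obtain ⟨κ₂', hκ₂'⟩ : ∃ κ₂' : ℝ, κ₂' = κ₂ / ξ + δ := ⟨_, rfl⟩
  have hκ₂0 : 0 < κ₂' := by
    rw [hκ₂']
    positivity
  have hdl0 : 0 < ζ / ξ := by positivity
  have hbud' : 4 * (ζ / ξ) + κ₂' < h ^ 2 / 16 := by
    have h1 : (4 * ζ + κ₂) / ξ = 4 * (ζ / ξ) + κ₂ / ξ := by ring
    rw [h1] at hδ
    rw [hκ₂']
    linarith only [hδ, hδ0]
  obtain ⟨κ, π₀, m₀, τ, ε₀, Ca, j₀, X₀, a1, a2, a3, a4, a5, a6, a7, a8, HF⟩ :=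
    v0pAlt k (D' + 1) h κ₂' (ζ / ξ) (Nat.succ_le_succ (Nat.zero_le _)) hh hh1 hκ₂0 hdl0 hbud'
  obtain ⟨X₁, hX₁⟩ := kap_le a1
  obtain ⟨X₂, hX₂⟩ := exists_nat_ge (κ₂ / (ξ * δ))
  obtain ⟨Cn, hCn, HV⟩ := vlp_fam (m := k + 1 + 1) hN hN0 hnlq k
  obtain ⟨Cr, hCr, HR⟩ := hrow k
  obtain ⟨Cf, hCf, HU⟩ := hful k
  obtain ⟨Cg, hCg, HG⟩ := hgrd D D' k hk1
  obtain ⟨Cc, hCc, HC⟩ := hcel (k + 1 + 1) D k
  refine ⟨m₀, τ * ξ / 8, 60, a5, by positivity, ?_⟩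
  intro T hT
  obtain ⟨Λ, hΛ⟩ : ∃ Λ : ℝ, Λ = 4 * T + 4 * k + 40 := ⟨_, rfl⟩
  refine ⟨Λ, by rw [hΛ]; linarith only [hT, hr1], ?_⟩
  intro ι hι
  obtain ⟨δ₁, hδ₁⟩ : ∃ δ₁ : ℝ, δ₁ = min (min (1 / 2) (ξ / 2)) (min ((s - 1 - ξ) / 2)
    (κ * ξ / 2)) := ⟨_, rfl⟩
  have hδ₁0 : 0 < δ₁ := by
    rw [hδ₁]
    positivity
  have f1 : δ₁ ≤ 1 / 2 := by
    rw [hδ₁]
    exact (min_le_left _ _).trans (min_le_left _ _)
  have f2 : δ₁ ≤ ξ / 2 := by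
    rw [hδ₁]
    exact (min_le_left _ _).trans (min_le_right _ _)
  have f3 : δ₁ ≤ (s - 1 - ξ) / 2 := by
    rw [hδ₁]
    exact (min_le_right _ _).trans (min_le_left _ _)
  have f4 : δ₁ ≤ κ * ξ / 2 := by
    rw [hδ₁]
    exact (min_le_right _ _).trans (min_le_right _ _)
  obtain ⟨θ, β, K⟩ := cs_ex (k + 1) D' Cg Cc (s := s) (τ := τ) (ξ := ξ) (ι := ι) (δ₁ := δ₁)
    (δ₂ := 1 / (2 * s)) hξ0 hs3 a6 hι hδ₁0 (by positivity)
  have hθ0 := K.θ0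
  obtain ⟨C, hC⟩ : ∃ C : ℝ, C = Cn * (s + 100) + Cr + Cf := ⟨_, rfl⟩
  have hCns : 0 ≤ Cn * (s + 100) := by positivity
  have hC0 : 0 ≤ C := by
    rw [hC]
    linarith only [hCns, hCr, hCf]
  have hrs : (0 : ℝ) < (k : ℝ) + 3 + s + C := by linarith only [hr1, hs0, hC0]
  refine ⟨θ / ((k : ℝ) + 3 + s + C), by positivity, ?_⟩
  intro m S c sn Gs b o φ L hI w u lam sp hu hw hφ₀ bw wo o1 b0 hlb st sv hraw hatt hspn
    hfr hnl hrn Dr N M C₀ a Eb ηm ow η σ lv bb fb f nb n ks hn hks hfb hf hf0 hob how hjx hj hx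
    gfb gf stb stf hlv hCη hEb E
  have hm : m = k + 1 + 1 := m_eq L.inj hI
  subst hm
  have hφ0 := L.φ0
  obtain ⟨φ₀, hφ₀'⟩ : ∃ φ₀ : ℝ, φ₀ = θ / ((k : ℝ) + 3 + s + C) := ⟨_, rfl⟩
  rw [← hφ₀'] at hφ₀ hfr hnl
  obtain ⟨y, hy⟩ : ∃ y : ℝ, y = ((k : ℝ) + 3 + s + C) * φ := ⟨_, rfl⟩
  obtain ⟨hφ₀u, hφ₀u0, hyθ, hy0, hφθ, yu, ys, yξ, yd, yκ, hCc2, hCy⟩ :=
    cst_p K hs hC0 f1 f2 f3 f4 hφ₀' hu hφ0 hφ₀ hy
  have hCrC : Cr ≤ C := by
    rw [hC]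
    linarith only [hCns, hCf]
  have hCfC : Cf ≤ C := by
    rw [hC]
    linarith only [hCns, hCr]
  have hCrφ : Cr * φ ≤ y := (mul_le_mul_of_nonneg_right hCrC hφ0.le).trans hCy
  have hCfφ : Cf * φ ≤ y := (mul_le_mul_of_nonneg_right hCfC hφ0.le).trans hCy
  have he1 : (s + 70) * φ ≤ Cn * ((s + 100) * φ) := by
    have h1 : 1 * ((s + 100) * φ) ≤ Cn * ((s + 100) * φ) :=
      mul_le_mul_of_nonneg_right hCn (by positivity)
    linarith only [h1, hφ0]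
  have he2 : Cn * ((s + 100) * φ) ≤ C * φ := by
    have h1 : Cn * ((s + 100) * φ) = Cn * (s + 100) * φ := by ring
    rw [h1]
    exact mul_le_mul_of_nonneg_right (by rw [hC]; linarith only [hCr, hCf]) hφ0.le
  -- the windows
  obtain ⟨x', xr, xq, w₁, vq, oq, xa, Nn⟩ := np_ex (κ := κ) hs hT hΛ.ge L hC0 a1 a2 hy hξ yu ys yξ
    yd yκ he1 he2 hu hw bw wo o1 b0 hlb st sv (gf ks hks) (gf n le_rfl) hj hx
  obtain ⟨Pq, p1, p3, p4, p5, p6, p7, p8, p9⟩ := pqp_ex Nn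
  obtain ⟨b1, b2, b3, b4, b5, b6, b7, b8, b9, b10, b11, b12, b13, b14, b15, b16, b17⟩ := Nn.wb
  obtain ⟨k1, k2, k3, k3', k4⟩ := Nn.k9_c
  have hfr' : FrI S c k sp b (fun i : Fin k => ((Pq i : ℚ) : ℝ)) w₁ x' (φ₀ * u) :=
    hfr (fun i : Fin k => Pq i) w₁ x' Nn.hw1 Nn.hw2 Nn.xG' p5 p6 p3 p4
  have hnl' : NlI S (c (k + 1)) w₁ vq (lam vq) (lam oq) (φ₀ * u) :=
    hnl w₁ vq oq Nn.hw1 (by exact_mod_cast p7) (by exact_mod_cast p8) p9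
  obtain ⟨C₁, htm⟩ := L.tm
  have hθu : 0 < θ * u := mul_pos hθ0 hu
  have hw3 : w + 3 * φ ≤ 1 := by
    have e1 := Nn.room
    have e2 := Nn.Tu0
    have e3 := Nn.ru0
    obtain ⟨q1, q2, q3, q4, q5, q6, q7, -⟩ := Nn.sm
    linarith only [e1, e2, e3, q4, q1, q2, q7, yu, wo, o1, hu]
  -- the class facts
  have B1 := HV (D := D') L hI Nn hatt (P := fun l => ((Pq l : ℚ) : ℝ)) hfr' hnl' hφ₀u0 hφ₀u0
    hspn (ε := θ * u) hθu E
  have B2 := k9_fam htm L.pos c k D' sn (b := b) (w := w) (φ := φ) (u := u) (E := E)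
    (ε := θ * u) k1 k2 k3 k4 hθu
  have B3 := HR (D := D') L hI Nn hCrC hraw hatt (hrn w₁ Nn.hw1 Nn.hw2) π₀ a3 (θ * u) hθu E
  have B4 := HU (D := D') L hI Nn hCfC π₀ a3 (θ * u) hθu E
  have B6 := alive_cls htm j₀ (ε₀ := ε₀) (δ := φ / 4) (ψ := θ * u) a7 (by positivity) hθu
  obtain ⟨J₁, hJ₁⟩ := oj_sm (k + 1 + 1) D' (E := E)
  obtain ⟨Z, hZ⟩ : ∃ Z : ℝ, Z = 10 + 1 / κ + (1 + Z2 (k + 1) D' Ca) + (2 + 2 * Real.log 5) +
    (4 * (Cg : ℝ) + 1) + (((X₀ + X₂ : ℕ) : ℝ) + 1) + (X₁ + 1) + nb + n + j₀ := ⟨_, rfl⟩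
  obtain ⟨J₂, hJ₂⟩ := exists_nat_ge (Z / φ)
  refine Bas.mono (J₁ + J₂ + 1) (((B1.and B2).and (B3.and B4)).and B6) ?_
  rintro J hJ F A ⟨⟨⟨H1, H2⟩, H3, H4⟩, hA, H6⟩ κ₀ z g₀ Gc H GN HN κN WB zb zf zjb zjw cfb cfw
    cfn hcl' hdG hdg hdP hdp hps hnear hcellN hdj hjt
  clear B1 B2 B3 B4 B6 hraw hatt hfr hnl hfr' hnl' hrn
  have hcl := isLaw_cond F.isLaw hA
  have h0 := hcl.nonneg
  have hJ0 : (0 : ℝ) ≤ J := Nat.cast_nonneg J
  have hJpos : 0 < J := by omega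
  have hJp : (0 : ℝ) < J := by exact_mod_cast hJpos
  have hZφ : Z ≤ φ * J := by
    have e1 : (J₂ : ℝ) ≤ J := by
      have : J₂ ≤ J := by omega
      exact_mod_cast this
    have e2 := hJ₂.trans e1
    rw [div_le_iff₀ hφ0] at e2
    linarith only [e2]
  have mj : ∀ {a a' : ℝ}, a ≤ a' → a * J ≤ a' * J := fun h => mul_le_mul_of_nonneg_right h hJ0
  -- the numbers of the event
  obtain ⟨γ, hγ⟩ : ∃ γ : ℕ → ℕ, γ = g₀ (f 0) := ⟨_, rfl⟩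
  obtain ⟨q, hq⟩ : ∃ q : ℕ, q = ⌊(u + 500 * y) * (J : ℝ)⌋₊ := ⟨_, rfl⟩
  obtain ⟨X, hX⟩ : ∃ X : ℕ, X = ⌊ξ * u * (J : ℝ)⌋₊ := ⟨_, rfl⟩
  obtain ⟨Y, hY⟩ : ∃ Y : ℕ, Y = ⌈1000 * y * (J : ℝ)⌉₊ + 3 := ⟨_, rfl⟩
  obtain ⟨I, hI'⟩ : ∃ I : ℕ, I = ⌈φ / 4 * (J : ℝ)⌉₊ := ⟨_, rfl⟩
  have hFl : Fl u y ξ φ w w₁ J q X Y I := by
    rw [hq, hX, hY, hI']
    exact fl_ex J hu hy0 hξ0 hφ0 (k1.trans k2) Nn.hw1 Nn.hw2
  have hlvw : ∀ l ≤ k + 1, lv (f 0) l = sn l w := fun l hl => by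
    rw [hlv (f 0) (hf 0 (Nat.zero_le _)) l hl, how]
  have hηm0 : 0 ≤ ηm := (WB.hη _ (hf 0 (Nat.zero_le _))).1.trans
    (WB.hη _ (hf 0 (Nat.zero_le _))).2
  have hηφ : ηm ≤ φ := (le_mul_of_one_le_left hηm0 WB.C1).trans hCη
  have hg1 : ∀ l ≤ k + 1, (sn l w - φ) * J ≤ γ l := fun l hl => by
    obtain ⟨-, -, g1, -⟩ := WB.g_num (hf 0 (Nat.zero_le _)) hl
    rw [hlvw l hl] at g1
    rw [hγ]
    have := mj hηφ
    linarith only [this, g1]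
  have hg2 : ∀ l ≤ k + 1, (γ l : ℝ) ≤ sn l w * J := fun l hl => by
    obtain ⟨-, -, -, g2⟩ := WB.g_num (hf 0 (Nat.zero_le _)) hl
    rw [hlvw l hl] at g2
    rw [hγ]
    exact g2
  have hZ2 := Z2_nonneg (k + 1) D' a8
  have hrest : (10 : ℝ) + j₀ ≤ φ * J := by
    have e1 : 0 < 1 / κ := by positivity
    have e2 : (0 : ℝ) ≤ Cg := Nat.cast_nonneg _
    have e3 : (0 : ℝ) ≤ ((X₀ + X₂ : ℕ) : ℝ) := Nat.cast_nonneg _
    have e4 : (0 : ℝ) ≤ X₁ := Nat.cast_nonneg _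
    have e5 : (0 : ℝ) ≤ nb := Nat.cast_nonneg _
    have e6 : (0 : ℝ) ≤ n := Nat.cast_nonneg _
    linarith only [hZφ, hZ, e1, e2, e3, e4, e5, e6, hl5, hZ2]
  have hw3J := mj hw3
  obtain ⟨i₀, hi₀, TW⟩ := H6 ⌊(w₁ : ℝ) * J⌋₊ I hFl.i1 (by
    have e1 : ((⌊(w₁ : ℝ) * J⌋₊ + I + j₀ : ℕ) : ℝ) ≤ (J : ℕ) := by
      push_cast
      have e2 := hFl.w1
      have e3 := hFl.i2
      linarith only [e2, e3, hw3J, hrest]
    exact_mod_cast e1)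
  obtain ⟨MJ, hW2, nX0, nX1, nmm, m3, m4, m5, z1, z2, z3, z4, big10⟩ := nj_of (J := J) (q := q)
    (X := X) (Y := Y) (I := I) (sn := sn) (γ := γ) (X₀ := X₀ + X₂) (X₁ := X₁) (j₀ := j₀)
    (nb := nb) (n := n) (i₀ := i₀) (Z := Z) (κ := κ) (κ₂ := ξ / 2) (κ₂' := 1) (Ca := Ca)
    (w₁ := w₁) K hFl a6 hξ1.le hu a1 hφ0 hyθ hφθ hCg a8 le_rfl one_pos (by ring) hξ0 hZ hZφ hw3
    hg1 hg2 hi₀
  clear hZφ
  obtain ⟨W, hW⟩ : ∃ W : ℕ, W = ⌊(w₁ : ℝ) * J⌋₊ + i₀ := ⟨_, rfl⟩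
  rw [← hW] at TW MJ hW2
  obtain ⟨mm, hmm⟩ : ∃ mm : ℕ, mm = Cg * Y + 1 := ⟨_, rfl⟩
  rw [← hmm] at MJ nmm
  have hw₁W : ⌊(w₁ : ℝ) * J⌋₊ ≤ W := by omega
  have hwW : ⌊w * J⌋₊ ≤ W := hFl.w2.trans hw₁W
  obtain ⟨P, hP⟩ : ∃ P : ℕ → ℝ, P = fun l => ((Pq l : ℚ) : ℝ) := ⟨_, rfl⟩
  have NOs := Nn.no MJ (P := P) (fun l hl => by
    rw [hP]
    exact p1 l hl)
  have WJ : W ≤ J := by
    have := NOs.WX
    omega
  -- the labels
  have LDh := ldp_of WB hDD (kb := fb 0) (kw := f 0) (hfb 0 (Nat.zero_le _))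
    (hf 0 (Nat.zero_le _)) (φ := φ) (E := E) (sn := sn) (by rw [hob, how]; exact b1)
    (by rw [how]; exact k3.le) hCη
    (fun l hl => hlv _ (hfb 0 (Nat.zero_le _)) l hl) (fun l hl => hlv _ (hf 0 (Nat.zero_le _)) l hl)
    (by rw [hob]; exact cfb) (by rw [how]; exact cfw) (GN := GN) (HN := HN)
    (by rw [how]; exact cfn) (by rw [how]; exact hcl') hdG hdg hdP hdp (by rw [how]; exact hps)
  rw [hob, how] at LDh
  obtain ⟨H', hH'⟩ : ∃ H' : LnT F → ℕ → MvPolynomial (Option (Fin (k + 1 + 1))) ℝ,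
    H' = frH H HN (fb 0) (f 0) k ⌊b * J⌋₊ ⌊w * J⌋₊ := ⟨_, rfl⟩
  rw [← hH'] at LDh hdj hjt
  obtain ⟨G₀, hG₀⟩ : ∃ G₀ : PtT F → ℕ → MvPolynomial (Option (Fin (k + 1 + 1))) ℝ,
    G₀ = frP Gc GN (fb 0) (f 0) k := ⟨_, rfl⟩
  have hwJ' : ⌊w * (J : ℝ)⌋₊ ≤ J := hwW.trans WJ
  have hcls0 : ∀ ω, A ω → ∀ l, G₀ (ptr F J ω) l = H' (slam F ⌊w * J⌋₊ ω) l := by
    intro ω hω l
    have e1 := frp_cls WB (kb := fb 0) (kw := f 0) (hfb 0 (Nat.zero_le _))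
      (hf 0 (Nat.zero_le _)) (by rw [hob, how]; exact b1) (by rw [how]; exact k3.le)
      (by rw [how]; exact hcl') hω l
    rw [hG₀, hH', e1, hob, how]
  obtain ⟨tg, htg⟩ : ∃ tg : Fin 2 → ℕ, tg = fun u : Fin 2 => if u = 0 then k + 1 else k :=
    ⟨_, rfl⟩
  have tg0 : tg 0 = k + 1 := by rw [htg]; rfl
  have tg1 : tg 1 = k := by rw [htg]; rfl
  obtain ⟨gg, hgg⟩ : ∃ gg : F.Ω → Fin 2 → Fin k → ℝ,
    gg = ggP F c k Gc GN (fb 0) (f 0) (f n) (g₀ (f 0)) := ⟨_, rfl⟩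
  have gg0 : ∀ ω i, gg ω 0 i =
      gnh F c (k + 1) (g₀ (f 0)) (folN Gc GN (fb 0) (f n) k (k + 1)) (Gc (f n)) ω i := by
    intro ω i
    rw [hgg]
    rfl
  have gg1 : ∀ ω i, gg ω 1 i =
      gnh F c k (g₀ (f 0)) (hyb Gc (fb 0) (f 0) k) (Gc (f n)) ω i := by
    intro ω i
    rw [hgg]
    rfl
  obtain ⟨hGrd, hNb⟩ := HG WB Nn L.inj hn hks hfb hf hf0 hob how gfb gf stb stf hlv hCη zb zf
    big10 z3 z4 hdG hdP hnear
  rw [← hq, ← hX, ← hγ, ← hY, ← htg, ← hG₀] at hGrd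
  rw [← hY] at hNb
  have hgg' : ggP F c k Gc GN (fb 0) (f 0) (f n) γ = gg := by rw [hgg, hγ]
  rw [hgg'] at hGrd
  -- the records
  have mono := mono_ch fun t ht => (stf t ht).1
  have ho1' : o ≤ 1 := by linarith only [hw3, wo, o1, hu, Nn.room, Nn.Tu0, Nn.ru0]
  have hsup : ∀ ω, 0 < Pool.Agent.H49.Ent.cond F.p A True ω → A ω := fun ω hω => of_cond_pos hω
  have hchp : ∀ k₁ ≤ n, ow (f k₁) ≤ 1 →
      Cl2 (ptr F J) (vg (ow (f k₁)) J F) A (chP F k k₁ Gc GN (fb 0) (f 0) f) := by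
    intro k₁ hk₁ ho1
    exact chp_cl2 WB ho1 (hfb 0 (Nat.zero_le _)) (fun t ht => hf t (ht.trans hk₁))
      (by rw [hob, how]; exact b1) (fun t ht => mono t k₁ ht hk₁) (by rw [how]; exact hcl')
  obtain ⟨Nf, hNf⟩ : ∃ Nf : ℕ → ℕ → ℝ, Nf = fun l j' => if j' = 0 then nfP k sn w x' φ l
    else P l := ⟨_, rfl⟩
  obtain ⟨Na, hNa⟩ : ∃ Na : ℕ → ℕ → ℝ, Na = fun l j' => if j' = 0 then nnP k sn w u y φ l
    else (((γ l + q + (X + mm) : ℕ) : ℝ) - W) / J := ⟨_, rfl⟩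
  obtain ⟨Nv, hNv⟩ : ∃ Nv : ℕ → ℕ → ℝ, Nv = fun l j' => if j' = 0 then ((γ l + q : ℕ) : ℝ) / J
    else (((γ l + q + (X + mm) : ℕ) : ℝ) - W) / J := ⟨_, rfl⟩
  obtain ⟨Nu, hNu⟩ : ∃ Nu : ℕ → ℕ → ℝ, Nu = fun (l' j' : ℕ) =>
    sn l' w + u + 400 * ((k : ℝ) + 2) * φ - (j' : ℝ) * w := ⟨_, rfl⟩
  obtain ⟨Mn, hMn⟩ : ∃ Mn : Fin 2 → ℝ, Mn = fun u' => if u' = 0 then
    sn (k + 1) (ow (f ks)) - 60 * φ else sn k (ow (f ks)) - 60 * φ := ⟨_, rfl⟩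
  obtain ⟨Mf, hMf⟩ : ∃ Mf : Fin 2 → ℝ, Mf = fun u' => if u' = 0 then lam oq else
    sn k xq - Cn * ((s + 100) * φ) := ⟨_, rfl⟩
  have Nf0 : ∀ l, Nf l 0 = nfP k sn w x' φ l := fun l => by rw [hNf]; rfl
  have Nf1 : ∀ l, Nf l 1 = P l := fun l => by rw [hNf]; rfl
  have Na0 : ∀ l, Na l 0 = nnP k sn w u y φ l := fun l => by rw [hNa]; rfl
  have Na1 : ∀ l, Na l 1 = (((γ l + q + (X + mm) : ℕ) : ℝ) - W) / J := fun l => by
    rw [hNa]; rfl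
  have Nv0 : ∀ l, Nv l 0 = ((γ l + q : ℕ) : ℝ) / J := fun l => by rw [hNv]; rfl
  have Nv1 : ∀ l, Nv l 1 = (((γ l + q + (X + mm) : ℕ) : ℝ) - W) / J := fun l => by
    rw [hNv]; rfl
  have Nu0 : ∀ l, Nu l 0 = sn l w + u + 400 * ((k : ℝ) + 2) * φ := fun l => by
    rw [hNu]
    show sn l w + u + 400 * ((k : ℝ) + 2) * φ - ((0 : ℕ) : ℝ) * w = _
    rw [Nat.cast_zero, zero_mul, sub_zero]
  have Nu1 : ∀ l, Nu l 1 = sn l w + u + 400 * ((k : ℝ) + 2) * φ - w := fun l => by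
    rw [hNu]
    show sn l w + u + 400 * ((k : ℝ) + 2) * φ - ((1 : ℕ) : ℝ) * w = _
    rw [Nat.cast_one, one_mul]
  have Mn0 : Mn 0 = sn (k + 1) (ow (f ks)) - 60 * φ := by rw [hMn]; rfl
  have Mn1 : Mn 1 = sn k (ow (f ks)) - 60 * φ := by rw [hMn]; rfl
  have Mf0 : Mf 0 = lam oq := by rw [hMf]; rfl
  have Mf1 : Mf 1 = sn k xq - Cn * ((s + 100) * φ) := by rw [hMf]; rfl
  obtain ⟨κ', hκe⟩ : ∃ κ' : ℝ, κ' = (k * (40 * y) + 20 * (k : ℝ) ^ 2 * φ + φ₀ * u +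
    (φ₀ * u + 8 * y) + θ * u) * J + k * Real.log 5 := ⟨_, rfl⟩
  obtain ⟨V, hVD, hVF⟩ := H1 _ H' LDh Na Nf Mn Mf Na0 Nf0 (fun l hl => by
    have e1 := NOs.f1 l hl
    rw [Na1, div_mul_cancel₀ _ hJp.ne']
    rw [hP] at e1
    linarith only [e1]) (fun l => by rw [Nf1, hP]) Mn0 Mn1 Mf0 Mf1 κ' hκe.ge
  rw [← htg] at V
  obtain ⟨e₁, he₁⟩ : ∃ e₁ : ℝ, e₁ = θ * u * J + τ * ξ / 8 * u * J +
    ((D' : ℝ) + 2) * (501 * y * J * Real.log 2 + Real.log 5) + 2 * k * Real.log 5 := ⟨_, rfl⟩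
  have t1 : 0 ≤ θ * u * J := mul_nonneg hθu.le hJ0
  have t2 : 0 ≤ τ * ξ / 8 * u * J := by positivity
  have t3 : 0 ≤ 2 * k * Real.log 5 := by positivity
  have t5 : 0 ≤ ((D' : ℝ) + 2) * (501 * y * J * Real.log 2 + Real.log 5) := by positivity
  have hyJ : 1 ≤ y * J := by
    have e1 : φ * J ≤ y * J := mj (by
      obtain ⟨q1, q2, q3, q4, q5, q6, q7, -⟩ := Nn.sm
      linarith only [q1, q2, q3, q4, q7])
    linarith only [e1, big10]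
  have hmmU : (2 : ℝ) ^ (Cg * Y) + 1 ≤ 2 ^ mm := by
    rw [hmm, pow_succ]
    have : (1 : ℝ) ≤ 2 ^ (Cg * Y) := one_le_pow₀ (by norm_num)
    linarith only [this]
  have g1 : ∀ l : Fin k, Na l 1 * J + W ≤ (γ l + q + (X + mm) : ℕ) := fun l => by
    rw [Na1, div_mul_cancel₀ _ hJp.ne', sub_add_cancel]
  have g2 : ∀ l : Fin k, ((γ l + q + (X + mm) : ℕ) : ℝ) ≤ Nv l 1 * J + W := fun l => by
    rw [Nv1, div_mul_cancel₀ _ hJp.ne', sub_add_cancel]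
  have g3 : ∀ l : Fin k, Nu l 0 * J ≤ (γ l + q : ℕ) := fun l => by
    have e1 := NOs.u0 l l.2
    rw [Nu0]
    exact e1
  have g4 : ∀ l : Fin k, Nu l 1 * J + W ≤ (γ l + q + (X + mm) : ℕ) := fun l => by
    have e1 := NOs.u1 l l.2
    rw [Nu1]
    exact e1
  have g5 : ∀ u' : Fin 2, (-(|E| + 3)) * (J : ℝ) + W ≤ (γ (tg u') + q : ℕ) := fun u' => by
    have e1 : (W : ℝ) ≤ J := by exact_mod_cast WJ
    have e2 : (0 : ℝ) ≤ ((γ (tg u') + q : ℕ) : ℝ) := Nat.cast_nonneg _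
    have e3 : 0 ≤ |E| * J := by positivity
    linarith only [e1, e2, e3, hJ0]
  have g14 : ∀ s' l, (H' s' l).totalDegree ≤ D' := fun s' l => by
    rw [hH']
    exact frh_deg WB (hfb 0 (Nat.zero_le _)) (hf 0 (Nat.zero_le _)) hDD hdg s' l
  have g6 : ∀ ω, 0 < Pool.Agent.H49.Ent.cond F.p A True ω → ∀ u' : Fin 2,
      |(2 : ℝ) ^ ((-(|E| + 3)) * (J : ℝ)) * ojet F (c (tg u')) 1
        (H' (slam F ⌊w * J⌋₊ ω) (tg u')) ω| < 1 := by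
    intro ω hω
    refine Fin.forall_fin_two.2 ⟨?_, ?_⟩
    · rw [tg0]
      exact hJ₁ J (by omega) F (c (k + 1)) A ⌊w * J⌋₊ (fun s' => H' s' (k + 1)) hwJ'
        (fun s' => g14 s' _) (LDh.cw (k + 1) (by omega) le_rfl) ω (hsup ω hω)
    · rw [tg1]
      exact hJ₁ J (by omega) F (c k) A ⌊w * J⌋₊ (fun s' => H' s' k) hwJ'
        (fun s' => g14 s' _) (LDh.cw k le_rfl (by omega)) ω (hsup ω hω)
  have g7 : ∀ l : Fin k, CH (Pool.Agent.H49.Ent.cond F.p A True)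
      (Pool.AVG71.cod F W 2 (D' + 1) (2 ^ (γ l + q + (X + mm))) (c l)
        (fun s => upw ⌊w * J⌋₊ W s) (fun s => H' s l)) F.W ≤ e₁ := by
    intro l
    have e1 := H2 _ _ H' LDh.toLD W hwW WJ l l.2 (γ l + q + (X + mm)) (NOs.k9 l l.2)
    rw [he₁]
    linarith only [e1, t2, t3, t5]
  have g8 : ∀ l : Fin k, (Nv l 0 - Na l 0) * J ≤ 1000 * y * J := fun l => by
    rw [Nv0, Na0, sub_mul, div_mul_cancel₀ _ hJp.ne']
    exact NOs.d l l.2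
  have hcww : Det (Pool.Agent.H49.Ent.cond F.p A True) (cR F A w₁) (cR F A w) := by
    refine det_cR ((cl2_cR A w).mono ⟨fun x => x, fun _ _ => rfl⟩ ?_) hsup
    obtain ⟨φ', hφ'⟩ := vg_mono Nn.hw1 k3'.le J F
    exact ⟨φ', fun ω _ => hφ' ω⟩
  have hx'T := abs_le.1 Nn.hx'
  have hPT : ∀ l < k, sn l w - w + (T + 1) * u ≤ P l := fun l hl => by
    rw [hP]
    exact p1 l hl
  have hdj' : ∀ l, k ≤ l → l ≤ k + 1 → CH (Pool.Agent.H49.Ent.cond F.p A True)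
      (Pool.AVG57.cod F ⌊w * J⌋₊ (fun s => H' s l) (c l) (γ l + q + X) 1 (D' + 1))
      (fun ω => (jetm F c (fun i : Fin k => (i : ℕ)) ⌊w * J⌋₊ H' (fun l => Nf l) ω,
        (cR F A w₁ ω, F.W ω))) ≤ e₁ := by
    intro l h11 h12
    obtain ⟨N', hN'⟩ : ∃ N' : ℕ, N' = ⌊(sn l w + (1 + (s - 1) / s) * u) * (J : ℝ)⌋₊ := ⟨_, rfl⟩
    have hl0 : 0 ≤ (sn l w + (1 + (s - 1) / s) * u) * (J : ℝ) := by
      have e1 := (Nn.lwb h12).1
      have e2 := Nn.room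
      have e3 := Nn.Tu0
      have e4 := Nn.ru0
      rw [← hξe]
      refine mul_nonneg ?_ hJ0
      have e5 : 0 ≤ ξ * u := by positivity
      linarith only [e1, e2, e3, e4, e5, hu]
    have e1 := hdj l h11 h12 N' (by rw [hN']; exact Nat.floor_le hl0)
    have e2 := code_evp hcl (F := F) (c := c) (w := ⌊w * J⌋₊) (H := H') (k := k) (D := D' + 1)
      (j₀ := 1) (l := l) (N := N') (N' := γ l + q + X) (d := 501 * y * J)
      (n := fun (l' j' : ℕ) => sn l' w + T * u - (j' : ℝ) * w) (n' := Nf) (by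
        have e3 := NOs.dj l h11 h12
        have e4 := Nat.lt_floor_add_one ((sn l w + (1 + (s - 1) / s) * u) * (J : ℝ))
        rw [← hN', ← hξe] at e4
        linarith only [e3, e4, hyJ]) (by positivity) (fun l' hl' => by
        obtain ⟨i1, i2, i3⟩ := Nn.li hl'
        rw [Nf0]
        unfold nfP
        push_cast
        linarith only [hx'T.1, i1, hφ0]) (fun l' hl' => by
        have e3 := hPT l' hl'
        rw [Nf1]
        push_cast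
        linarith only [e3, hu]) hcww
    rw [he₁]
    push_cast at e2
    linarith only [e1, e2, t1]
  have hjt' : ∀ l, k ≤ l → l ≤ k + 1 → CH (Pool.Agent.H49.Ent.cond F.p A True)
      (Pool.AVG57.cod F ⌊w * J⌋₊ (fun s => H' s l) (c l) (γ l + q) 0 (D' + 1))
      (fun ω => (jetm F c (fun i : Fin k => (i : ℕ)) ⌊w * J⌋₊ H' (fun l => Nu l) ω,
        (cR F A (ow (f n)) ω, F.W ω))) ≤ e₁ := by
    intro l h11 h12
    obtain ⟨N', hN'⟩ : ∃ N' : ℕ, N' = ⌊(sn l w + u) * (J : ℝ)⌋₊ := ⟨_, rfl⟩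
    have hl0 : 0 ≤ (sn l w + u) * (J : ℝ) := by
      have e1 := (Nn.lwb h12).1
      have e2 := Nn.room
      have e3 := Nn.Tu0
      have e4 := Nn.ru0
      refine mul_nonneg ?_ hJ0
      linarith only [e1, e2, e3, e4, hu]
    have e1 := hjt l h11 h12 N' (by rw [hN']; exact Nat.floor_le hl0)
    have e2 := code_evp hcl (F := F) (c := c) (w := ⌊w * J⌋₊) (H := H') (k := k) (D := D' + 1)
      (j₀ := 0) (l := l) (N := N') (N' := γ l + q) (d := 501 * y * J)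
      (n := fun (l' j' : ℕ) => sn l' w + u + 400 * ((k : ℝ) + 2) * φ - (j' : ℝ) * w)
      (n' := Nu) (by
        have e3 := NOs.jt l h11 h12
        have e4 := Nat.lt_floor_add_one ((sn l w + u) * (J : ℝ))
        rw [← hN'] at e4
        linarith only [e3, e4, hyJ]) (by positivity) (fun l' hl' => by rw [hNu])
      (fun l' hl' => by rw [hNu]) (zw := cR F A (ow (f n))) (zw' := cR F A (ow (f n)))
      (fun _ _ _ _ e => e)
    rw [he₁]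
    push_cast at e2
    linarith only [e1, e2, t1]
  have g9 : ∀ u' : Fin 2, CH (Pool.Agent.H49.Ent.cond F.p A True)
      (Pool.AVG57.cod F ⌊w * J⌋₊ (fun s => H' s (tg u')) (c (tg u')) (γ (tg u') + q + X) 1
        (D' + 1)) (fun ω => (jetm F c (fun i : Fin k => (i : ℕ)) ⌊w * J⌋₊ H' (fun l => Nf l) ω,
        (cR F A w₁ ω, F.W ω))) ≤ e₁ := by
    refine Fin.forall_fin_two.2 ⟨?_, ?_⟩
    · rw [tg0]
      exact hdj' (k + 1) (by omega) le_rfl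
    · rw [tg1]
      exact hdj' k le_rfl (by omega)
  have g10 : ∀ u' : Fin 2, CH (Pool.Agent.H49.Ent.cond F.p A True)
      (Pool.AVG57.cod F ⌊w * J⌋₊ (fun s => H' s (tg u')) (c (tg u')) (γ (tg u') + q) 0
        (D' + 1)) (fun ω => (jetm F c (fun i : Fin k => (i : ℕ)) ⌊w * J⌋₊ H' (fun l => Nu l) ω,
        (cR F A (ow (f n)) ω, F.W ω))) ≤ e₁ := by
    refine Fin.forall_fin_two.2 ⟨?_, ?_⟩
    · rw [tg0]
      exact hjt' (k + 1) (by omega) le_rfl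
    · rw [tg1]
      exact hjt' k le_rfl (by omega)
  -- the cells
  have hmm2 : (mm : ℝ) ≤ u / 2 * J := MJ.mm2
  have hcells : ∀ ω ν, A ω → A ν → ptr F J ω = ptr F J ν →
      (∀ l < k, |hgt F c G₀ ω l - hgt F c G₀ ν l| ≤ 1 / 2 ^ (γ l + q + (X + mm))) ∧
      |hgt F c G₀ ω k - hgt F c G₀ ν k| ≤ 1 / 2 ^ (γ k + q + X) ∧
      |hgt F c G₀ ω (k + 1) - hgt F c G₀ ν (k + 1)| ≤ 1 / 2 ^ (γ (k + 1) + q + X) := by
    intro ω ν hω hν hpt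
    obtain ⟨e1, e2⟩ := HC WB Nn L.inj (hfb 0 (Nat.zero_le _)) (hf 0 (Nat.zero_le _)) hob how hlv
      hCη hEb zjb zjw big10 hCc2 hmm2 ω ν hω hν hpt
    have e3 := hcellN ω ν hω hν hpt
    rw [← hq, ← hX, ← hγ] at e1 e2
    refine ⟨fun l hl => ?_, ?_, ?_⟩
    · have e4 := e1 l hl
      have e5 : ∀ ω, hgt F c G₀ ω l = hgt F c (Gc (fb 0)) ω l := fun ω => by
        unfold Pool.D2R.hgt
        rw [hG₀]
        unfold frP
        rw [if_pos hl]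
      rw [e5, e5]
      exact e4
    · have e5 : ∀ ω, hgt F c G₀ ω k = hgt F c (Gc (f 0)) ω k := fun ω => by
        unfold Pool.D2R.hgt
        rw [hG₀]
        unfold frP
        rw [if_neg (lt_irrefl _), if_pos rfl]
      rw [e5, e5]
      exact e2
    · have e5 : ∀ ω, hgt F c G₀ ω (k + 1) = F.x ω (c (k + 1)) -
          eval (bt F ω) (GN (ptr F J ω)) := fun ω => by
        unfold Pool.D2R.hgt
        rw [hG₀]
        unfold frP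
        rw [if_neg (by omega), if_neg (by omega)]
      rw [e5, e5]
      refine e3.trans (one_div_le_one_div_of_le (by positivity)
        (pow_le_pow_right₀ one_le_two (Nat.le_floor ?_)))
      have e6 := NOs.dj (k + 1) (by omega) le_rfl
      have e7 := mj (show sn (k + 1) w + (1 + ξ) * u + 500 * y ≤ sn (k + 1) w + 3 * u by
        have e8 : ξ * u ≤ 1 * u := mul_le_mul_of_nonneg_right hξ1.le hu.le
        linarith only [e8, yu, hu, hy0])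
      linarith only [e6, e7]
  -- the rows
  have g11 : ∀ j : ℕ, j * ⌊κ * X⌋₊ ≤ X → ∀ E' : Set F.Ω,
      π₀ ≤ Pr (Pool.Agent.H49.Ent.cond F.p A True) E' →
      CH (rs (Pool.Agent.H49.Ent.cond F.p A True) E')
        (Mm F c tg ⌊w * J⌋₊ H' (fun u' => γ (tg u') + q + j * ⌊κ * X⌋₊))
        (fun ω => (Mm F c tg ⌊w * J⌋₊ H' (fun u' => γ (tg u') + q) ω,
          (jp F c 0 (fun i : Fin k => (i : ℕ)) ⌊w * J⌋₊ H' (fun l => nfP k sn w xr φ l) ω,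
            (F.W ω, cR F A w₁ ω)))) ≤ (2 - h) * (j * (κ * X)) * Real.log 2 + τ * X := by
    intro j hj' E' hE'
    have haκ : (j : ℝ) * κ ≤ 1 := hX₁ X nX1 j hj'
    obtain ⟨B', hB'⟩ : ∃ B' : F.Ω → Prop, B' = fun ω => A ω ∧ ω ∈ E' := ⟨_, rfl⟩
    have r1 : rs (Pool.Agent.H49.Ent.cond F.p A True) E' =
        Pool.Agent.H49.Ent.cond F.p B' True := by
      rw [hB']
      exact Pool.RPL.cond_and_ev F.p (E := fun ω => ω ∈ E') hA.ne'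
    have r2 : π₀ * Pe F.p A ≤ Pe F.p B' := by
      rw [hB']
      exact pe_part hA (E := fun ω => ω ∈ E') hE'
    have r3 : Sub B' A := fun ω hω => by
      rw [hB'] at hω
      exact hω.1
    have hPB' : 0 < Pe F.p B' := lt_of_lt_of_le (mul_pos a3 hA) r2
    rw [r1]
    obtain ⟨n1, n2, n3⟩ := NOs.row j haκ k le_rfl (by omega)
    obtain ⟨n4, n5, n6⟩ := NOs.row j haκ (k + 1) (by omega) le_rfl
    obtain ⟨v1, v2, v3, v4, v5⟩ := Nn.row_c haκ (c' := Cr * φ) (by positivity)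
      (mul_le_mul_of_nonneg_right hCrC hφ0.le)
    have v6 := (v5 k le_rfl (by omega)).2.2.2.2.2.2.2.2.2.2.2.2.2.2.2
    have e1 := row_evp (isLaw_cond F.isLaw hPB') hJpos (F := F) (c := c) (k := k) (w := ⌊w * J⌋₊)
      (H := H') (nb := nfP k sn w xr φ) (N₁ := fun u' => γ (tg u') + q)
      (N₂ := fun u' => γ (tg u') + q + j * ⌊κ * X⌋₊)
      (P₁ := sn (k + 1) w + u + 500 * y - 2 * φ)
      (P₂ := sn (k + 1) w + u + 500 * y + j * κ * (ξ * u))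
      (Q₁ := sn k w + u + 500 * y - 2 * φ) (Q₂ := sn k (xa j) - Cr * φ)
      (by
        show _ ≤ ((γ (tg 0) + q : ℕ) : ℝ)
        rw [tg0]
        exact n4) (by
        show _ ≤ ((γ (tg 1) + q : ℕ) : ℝ)
        rw [tg1]
        exact n1) (by
        show ((γ (tg 0) + q + j * ⌊κ * X⌋₊ : ℕ) : ℝ) ≤ _
        rw [tg0]
        exact n5) (by
        show ((γ (tg 1) + q + j * ⌊κ * X⌋₊ : ℕ) : ℝ) ≤ _
        rw [tg1]
        exact n2.trans (mj v6)) (cR F A w₁)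
    rw [← htg] at e1
    have e2 := H3 _ H' LDh j haκ B' r3 r2
    have e3 := r_lep K a6 hξ0 hu hJ0 hFl.x1 hφ0.le hφθ hyθ hy0 hCrφ hh hh1 a1
      (a := (j : ℝ)) (Nat.cast_nonneg j) haκ z2
    exact e1.trans ((add_le_add_left e2 _).trans e3)
  -- the fullness
  have g12 : ∀ i j : ℕ, i ≤ j → j * ⌊κ * X⌋₊ ≤ X → ∀ (V : Type) (z : PtT F → V)
      (z' : LnT F → V) (E' : F.Ω → Prop), (∀ ω, 0 < Pool.Agent.H49.Ent.cond F.p A True ω →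
        E' ω → z (ptr F J ω) = z' (slam F W ω)) →
      π₀ ≤ Pe (Pool.Agent.H49.Ent.cond F.p A True) E' →
      (j - i) * (κ * X) * Real.log 2 - τ * X ≤
        CH (Pool.Agent.H49.Ent.cond (Pool.Agent.H49.Ent.cond F.p A True) E' True)
          (fun ω => Mm F c tg ⌊w * J⌋₊ H' (fun u' => γ (tg u') + q + j * ⌊κ * X⌋₊) ω 1)
          (fun ω => (z' (slam F W ω),
            (Mm F c tg ⌊w * J⌋₊ H' (fun u' => γ (tg u') + q + i * ⌊κ * X⌋₊) ω,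
              (jp F c 0 (fun i : Fin k => (i : ℕ)) ⌊w * J⌋₊ H' (fun l => nfP k sn w xr φ l) ω,
                (F.W ω, cR F A w₁ ω))))) := by
    intro i j hij hj' V z z' E' hz hE'
    obtain ⟨B', hB'⟩ : ∃ B' : F.Ω → Prop, B' = fun ω => A ω ∧ (E' ω ∧
      z (ptr F J ω) = z' (slam F W ω)) := ⟨_, rfl⟩
    obtain ⟨r0, r0'⟩ := cond_supp h0 (E := E') (E' := fun ω => E' ω ∧
      z (ptr F J ω) = z' (slam F W ω)) (fun ω hω => ⟨fun h1 => ⟨h1, hz ω hω h1⟩, fun h1 => h1.1⟩)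
    have r1 : Pool.Agent.H49.Ent.cond (Pool.Agent.H49.Ent.cond F.p A True) E' True =
        Pool.Agent.H49.Ent.cond F.p B' True := by
      rw [hB', r0]
      exact Pool.RPL.cond_and_ev F.p hA.ne'
    have r2 : π₀ * Pe F.p A ≤ Pe F.p B' := by
      rw [hB']
      refine pe_part hA (E := fun ω => E' ω ∧ z (ptr F J ω) = z' (slam F W ω)) ?_
      rw [← r0']
      exact hE'
    have r3 : Sub B' A := fun ω hω => by
      rw [hB'] at hω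
      exact hω.1
    have hPB' : 0 < Pe F.p B' := lt_of_lt_of_le (mul_pos a3 hA) r2
    have hclB := isLaw_cond F.isLaw hPB'
    rw [r1]
    rcases Nat.lt_or_eq_of_le hij with hlt | rfl
    · have haκ : (j : ℝ) * κ ≤ 1 := hX₁ X nX1 j hj'
      have haκi : (i : ℝ) * κ ≤ 1 :=
        (mul_le_mul_of_nonneg_right (by exact_mod_cast hij) a1.le).trans haκ
      obtain ⟨n1, n2, n3⟩ := NOs.row i haκi k le_rfl (by omega)
      obtain ⟨n4, n5, n6⟩ := NOs.row i haκi (k + 1) (by omega) le_rfl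
      obtain ⟨o1', o2', o3'⟩ := NOs.row j haκ k le_rfl (by omega)
      obtain ⟨v1, v2, v3, v4, v5⟩ := Nn.fiu_c hlt haκ (c' := Cf * φ) (by positivity)
        (mul_le_mul_of_nonneg_right hCfC hφ0.le)
      have v6 := (v5 k le_rfl (by omega)).2.2.2.2.2.2.2.2.2.2.1
      have hw1000 : w + 1000 * φ ≤ 1 := by linarith only [v1, v3, mul_nonneg (zero_le_one.trans hCf) hφ0.le]
      have hcz : Cl2 (ptr F J) (vg (w + 1000 * φ) J F) B'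
          (fun ω => (z' (slam F W ω), cR F A w₁ ω)) := by
        refine Cl2.join ⟨⟨z, fun ω hω => ?_⟩, fun s' => z' (upw W ⌊(w + 1000 * φ) * J⌋₊ s'),
          fun ω _ => ?_⟩ (((cl2_cR A w₁).sub r3).mono ⟨fun x => x, fun _ _ => rfl⟩ ?_)
        · rw [hB'] at hω
          exact hω.2.2.symm
        · show z' (slam F W ω) = z' (upw W ⌊(w + 1000 * φ) * J⌋₊ (slam F ⌊(w + 1000 * φ) * J⌋₊ ω))
          rw [upw_slam F (Nat.le_floor (hW2.trans (mj (by linarith only [hφ0]))))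
            (floor_le hw1000 J)]
        · obtain ⟨φ', hφ'⟩ := vg_mono (w := w₁) (w' := w + 1000 * φ)
            (by linarith only [Nn.hw2, hφ0]) hw1000 J F
          exact ⟨φ', fun ω _ => hφ' ω⟩
      have e1 := ful_evp hclB hJpos (F := F) (c := c) (k := k) (w := ⌊w * J⌋₊)
        (H := H') (nb := nfP k sn w xr φ) (N₁ := fun u' => γ (tg u') + q + i * ⌊κ * X⌋₊)
        (N₂ := fun u' => γ (tg u') + q + j * ⌊κ * X⌋₊)
        (P₁ := sn (k + 1) w + u + 500 * y + i * κ * (ξ * u))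
        (Q₁ := sn k (xa i) - Cf * φ)
        (Q₂ := sn k w + u + 500 * y + j * κ * (ξ * u) - 2 * φ)
        (by
          show ((γ (tg 0) + q + i * ⌊κ * X⌋₊ : ℕ) : ℝ) ≤ _
          rw [tg0]
          exact n5) (by
          show ((γ (tg 1) + q + i * ⌊κ * X⌋₊ : ℕ) : ℝ) ≤ _
          rw [tg1]
          exact n2.trans (mj v6)) (by
          show _ ≤ ((γ (tg 1) + q + j * ⌊κ * X⌋₊ : ℕ) : ℝ)
          rw [tg1]
          exact o3') (cR F A w₁) (fun ω => z' (slam F W ω))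
      rw [← htg] at e1
      have e2 := H4 _ H' LDh i j hlt haκ B' r3 r2 _ _ hcz
      have e3 := f_lep K a6 hξ0 hu hJ0 hFl.x1 hFl.x2 hyθ hy0 hCfφ a1
        (a := (j : ℝ) - i) (sub_nonneg.2 (by exact_mod_cast hij)) z2
      exact e3.trans ((sub_le_sub_right e2 _).trans e1)
    · have e1 : ((i : ℝ) - i) * (κ * X) * Real.log 2 - τ * X ≤ 0 := by
        rw [sub_self, zero_mul, zero_mul, zero_sub]
        have : 0 ≤ τ * X := by positivity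
        linarith only [this]
      exact e1.trans (CH_nonneg hclB.nonneg _ _)
  -- the budget
  have g13 : κ' + 1000 * y * J + e₁ + Ca + θ * u * J ≤ τ * X := by
    rw [hκe, he₁]
    exact e_lep K a6 hξ0 hu hJ0 hFl.x1 hy0 hyθ hφ0.le hφθ hφ₀u z1 a8
  have g15 := det_cR (hchp ks hks (b5.trans ho1')) hsup
  have g16 := det_cR (hchp n le_rfl (b7.trans ho1')) hsup
  have g17 : Det (Pool.Agent.H49.Ent.cond F.p A True) (ptr F J) (cR F A w₁) := by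
    obtain ⟨φ', hφ'⟩ := (cl2_cR A w₁ : Cl2 (ptr F J) (vg w₁ J F) A (cR F A w₁)).1
    intro ω ν hω hν e
    rw [hφ' ω (hsup ω hω), hφ' ν (hsup ν hν), e]
  have m01 : ∀ u' : Fin 2, Mn u' * J ≤ (γ (tg u') + q : ℕ) := by
    refine Fin.forall_fin_two.2 ⟨?_, ?_⟩
    · rw [tg0, Mn0]
      exact NOs.m0 (k + 1) (by omega) le_rfl
    · rw [tg1, Mn1]
      exact NOs.m0 k le_rfl (by omega)
  have m02 : ∀ u' : Fin 2, ((γ (tg u') + q : ℕ) : ℝ) ≤ Mn u' * J + 1000 * y * J := by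
    refine Fin.forall_fin_two.2 ⟨?_, ?_⟩
    · rw [tg0, Mn0]
      exact NOs.m1 (k + 1) (by omega) le_rfl
    · rw [tg1, Mn1]
      exact NOs.m1 k le_rfl (by omega)
  have m03 : ∀ u' : Fin 2, ((γ (tg u') + q + X : ℕ) : ℝ) ≤ Mf u' * J := by
    refine Fin.forall_fin_two.2 ⟨?_, ?_⟩
    · rw [tg0, Mf0]
      exact NOs.f2
    · rw [tg1, Mf1]
      exact NOs.f4 k le_rfl (by omega)
  have m04 : ∀ u' : Fin 2, Mf u' * J ≤ (γ (tg u') + q + X : ℕ) + 1000 * y * J := by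
    refine Fin.forall_fin_two.2 ⟨?_, ?_⟩
    · rw [tg0, Mf0]
      exact NOs.f3
    · rw [tg1, Mf1]
      exact NOs.f5 k le_rfl (by omega)
  have g18 : ∀ ω ν, 0 < Pool.Agent.H49.Ent.cond F.p A True ω →
      0 < Pool.Agent.H49.Ent.cond F.p A True ν → ptr F J ω = ptr F J ν →
      (∀ j : Fin k, |hgt F c G₀ ω j - hgt F c G₀ ν j| ≤ 1 / 2 ^ (γ j + q + (X + mm))) ∧
      ∀ u' : Fin 2, |hgt F c G₀ ω (tg u') - hgt F c G₀ ν (tg u')| ≤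
        1 / 2 ^ (γ (tg u') + q + X) := by
    intro ω ν hω hν hpt
    obtain ⟨e1, e2, e3⟩ := hcells ω ν (hsup ω hω) (hsup ν hν) hpt
    refine ⟨fun j => e1 j j.2, Fin.forall_fin_two.2 ⟨?_, ?_⟩⟩
    · rw [tg0]
      exact e3
    · rw [tg1]
      exact e2
  have hHF := HF (c := c) (mv := fun i : Fin k => (i : ℕ)) (tg := tg) (qt := fun _ => q) (q := q)
    (w := ⌊w * J⌋₊) (W := W) (X := X) (mm := mm) (D := D') (γ := γ) (B := A) (G₀ := G₀) (H := H')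
    (gg := gg) (zw := cR F A w₁) (Cj := chP F k ks Gc GN (fb 0) (f 0) f)
    (Cx := chP F k n Gc GN (fb 0) (f 0) f)
    (Rj := cR F A (ow (f ks))) (Rx := cR F A (ow (f n))) (R' := cR F A x')
    (XJ := fun ω => fun l : Fin k => F.X J ω (c l))
    (p := Pool.Agent.H49.Ent.cond F.p A True) (Nf := fun l => Nf l) (Nn := fun l => Na l)
    (Nu := fun l => Nu l) (Nv := fun l => Nv l)
    (nb := fun l => nfP k sn w xr φ l) (Mf := Mf) (Mn := Mn) (vt := fun _ => -(|E| + 3))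
    (U := 2 ^ (Cg * Y)) (κ' := κ')
    (e₁ := e₁) (d := 1000 * y * J) (ψ := θ * u) hcl hsup hwW NOs.WX g14 le_rfl
    (fun ω hω => ⟨fun u' => hcls0 ω hω _, fun j => hcls0 ω hω _⟩) hGrd hmmU V g15 g16
    (det_slam hw₁W WJ hsup) g17
    (fun l => by rw [Na0]; exact NOs.n0 l l.2) g1 g3 g4 m01 m02 m03 m04 g5 g6 g7
    (fun l => by rw [Nf0]; exact NOs.f0 l l.2)
    (fun l => by rw [Nf1]; exact NOs.f1 l l.2)
    (fun l => by rw [Nv0, div_mul_cancel₀ _ hJp.ne']) g2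
    (fun l => by rw [Nv1, Na1]) (by positivity) g8 g9 g10 hVD (hVF X hFl.x2)
    (fun l => NOs.nb1 l l.2) (fun l => NOs.nb2 l l.2) g18 g11 g12 TW
    ((Nat.le_add_right X₀ X₂).trans nX0) g13 nmm
  obtain ⟨la, laP, mu, Gd, l1, l2, l3, l4⟩ := hHF
  have hU : (2 : ℝ) ^ (Cg * Y) ≤ 2 ^ (ι * u * J) := by
    rw [← Real.rpow_natCast]
    refine Real.rpow_le_rpow_of_exponent_le one_le_two ?_
    push_cast
    exact m3
  have hcx : ∀ ω ν : F.Ω, ptr F J ω = ptr F J ν →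
      chP F k n Gc GN (fb 0) (f 0) f ω = chP F k n Gc GN (fb 0) (f 0) f ν := by
    intro ω ν e
    unfold chP chs
    rw [e]
  have hgc : ∀ ω ν, A ω → A ν → ptr F J ω = ptr F J ν → ∀ (u' : Fin 2) (i : Fin k),
      |gg ω u' i - gg ν u' i| ≤ 2 ^ (-((s - 1) / s / 2 * u * J)) := by
    intro ω ν hω hν hpt u' i
    have e1 := gg_cell (mm := mm) hGrd hcx (fun ω ν hω hν e l hl =>
      (hcells ω ν hω hν e).1 l hl) hω hν hpt u' i
    refine e1.trans ?_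
    rw [div_le_iff₀ (by positivity), ← Real.rpow_natCast, ← Real.rpow_natCast,
      ← Real.rpow_add two_pos]
    refine Real.rpow_le_rpow_of_exponent_le one_le_two ?_
    push_cast
    rw [← hξe]
    linarith only [m4]
  obtain ⟨E', hE'⟩ : ∃ E' : F.Ω → Prop, E' = fun ω => Gd ω ∧
    0 < Pool.Agent.H49.Ent.cond F.p A True ω := ⟨_, rfl⟩
  have hPE : m₀ ≤ Pe (Pool.Agent.H49.Ent.cond F.p A True) E' := by
    have e1 := (cond_supp h0 (E := Gd) (E' := E') (fun ω hω => by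
      rw [hE']
      exact ⟨fun h1 => ⟨h1, hω⟩, fun h1 => h1.1⟩)).2
    rw [← e1]
    exact l3
  obtain ⟨mu', hmu'⟩ : ∃ mu' : LnT F → ℕ → Polynomial ℝ, mu' = fun s' i =>
    if h : i < k then mu s' ⟨i, h⟩ else 0 := ⟨_, rfl⟩
  have hmu1 : ∀ s' i (hi : i < k), mu' s' i = mu s' ⟨i, hi⟩ := fun s' i hi => by
    rw [hmu']
    exact dif_pos hi
  have hmu2 : ∀ s' i, ¬ i < k → mu' s' i = 0 := fun s' i hi => by
    rw [hmu']
    exact dif_neg hi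
  refine ⟨fun ω hω i hi => ?_, fun ω hω i hi => (hNb ω hω i hi).trans hU,
    fun ω ν hω hν hpt i hi => ⟨?_, ?_⟩, W, fun ω => A ω ∧ E' ω, la, laP, mu', hwW, hW2, fun ω hω => hω.1,
    pe_part hA hPE, fun s' => ?_, fun s' i => ?_, fun ω hω => ?_⟩
  · rw [← gg1 ω ⟨i, hi⟩]
    exact (hGrd.bm ω hω 1 ⟨i, hi⟩).trans hU
  · have e1 := hgc ω ν hω hν hpt 1 ⟨i, hi⟩
    rw [gg1, gg1] at e1
    exact e1
  · have e1 := hgc ω ν hω hν hpt 0 ⟨i, hi⟩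
    rw [gg0, gg0] at e1
    exact e1
  · refine (l1 s').trans (Real.rpow_le_rpow_of_exponent_le one_le_two ?_)
    have e1 : ζ / ξ * X ≤ ζ / ξ * (ξ * u * J) :=
      mul_le_mul_of_nonneg_left hFl.x2 hdl0.le
    have e2 : ζ / ξ * (ξ * u * J) = ζ * u * J := by
      field_simp
    linarith only [e1, e2]
  · by_cases hi : i < k
    · rw [hmu1 s' i hi]
      exact l2 s' ⟨i, hi⟩
    · rw [hmu2 s' i hi, Polynomial.natDegree_zero]
      exact Nat.zero_le _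
  · obtain ⟨-, h2⟩ := hω
    rw [hE'] at h2
    obtain ⟨e1, e2⟩ := l4 ω h2.2 h2.1
    refine ⟨e1, fun i hi => ?_⟩
    have e3 := e2 ⟨i, hi⟩
    rw [gg0, gg1] at e3
    rw [hmu1 _ i hi]
    refine e3.trans (Real.rpow_le_rpow_of_exponent_le one_le_two ?_)
    have e4 := k2_lep hξ0 hκ₂ hδ0 hFl.x1 hX₂ ((Nat.le_add_left X₂ X₀).trans nX0)
    rw [← hκ₂'] at e4
    linarith only [e4]

end Pool.V0Q
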