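import Pool.Agent.H83.VT.Vcg
import Pool.Agent.H44.V0F.S5
import Pool.Agent.H64.LV.Cls
import Pool.Agent.H71.V0R.S

/-!
# Two places of one slope over slope-one places: statements

`LadP`: a chain `c 0, …, c (k - 1)` of slopes one and two places `c k`, `c (k + 1)` of equal slopes.
The parts: the height of `c (k + 1)` over the charts of `w` (`NuppStmt`, `Nu0pStmt`), no look-ahead
for the pair (`NlqpStmt`), rows of the pair (`RwpStmt`), fullness of the digits of `c k`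
(`FiuStmt`), the gradient of `c (k + 1)`, `c k` following its ball chart (`GfStmt`).
-/

set_option autoImplicit false

namespace Pool.V0Q

open Finset Real MvPolynomial
open Pool.Agent.H49.Ent Pool.Agent.H32.Dense Pool.STK Pool.KA Pool.KSAT Pool.K2S Pool.PB Pool.GEN
open Pool.S6C Pool.RCD Pool.LA91 Pool.AVG96 Pool.OWN68 Pool.V0F
open Pool.VT83 (NlqI)
open Pool.D2R (WinB gnh hgt hyb hybH chs)
open Pool.LV64 (GrdV NrH)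

/-- **The ladder of windows** with two places of equal slopes. -/
structure LadP {m : ℕ} (S : PCl m) (c : ℕ → Fin m) (k : ℕ) (sn : ℕ → ℝ → ℝ) (G : Set ℝ)
    (b o φ : ℝ) : Prop where
  k1 : 1 ≤ k
  tm : ∃ C₀, TmC S C₀
  pos : ∀ (τ : ℝ) (J : ℕ) (F : Fam m J) (A : F.Ω → Prop), S.St τ J F A → 0 < Pe F.p A
  inj : Set.InjOn c (Set.Iio (k + 2))
  ch : ChG S c (k + 1) sn G
  att : ∀ w ∈ G, ∃ rk E : ℝ, 0 ≤ rk ∧ rk < 1 ∧ 0 ≤ E ∧ E + sn (k + 1) w < 1 ∧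
    ∀ e : ℝ, 0 < e → ∃ K : ℕ, Bas S (fun J F A =>
      Lb F ((range (k + 1)).image c) (c (k + 1)) K ⌊(E + e) * J⌋₊ J ⌊w * J⌋₊
        ⌊(rk + e) * J⌋₊ ⌊(sn (k + 1) w - e) * J⌋₊ A)
  bG : b ∈ G
  oG : o ∈ G
  b0 : 0 ≤ b
  bo : b ≤ o
  o1 : o < 1
  φ0 : 0 < φ
  fm : ∃ φ' : ℝ, 0 < φ' ∧ φ' ≤ φ ∧ (∀ x, b ≤ x → x ≤ o → ∃ v ∈ G, |v - x| ≤ φ') ∧
    ∀ l, k ≤ l → l ≤ k + 1 → ∀ v ∈ G, ∀ v' ∈ G, b ≤ v → v ≤ v' → v' ≤ o → v' ≤ v + 3 * φ' →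
      sn l v' ≤ sn l v + 2 * φ
  fl : ∀ i < k, ∀ v ∈ G, b ≤ v → v ≤ o → |(sn i v - v) - (sn i o - o)| ≤ φ
  st : ∀ l, k ≤ l → l ≤ k + 1 → ∀ v ∈ G, ∀ v' ∈ G, b ≤ v → v ≤ v' → v' ≤ o →
    sn l v + (v' - v) ≤ sn l v' + φ
  eq : ∀ v ∈ G, ∀ v' ∈ G, b ≤ v → v ≤ v' → v' ≤ o →
    |(sn (k + 1) v' - sn (k + 1) v) - (sn k v' - sn k v)| ≤ φ

namespace LadP

variable {m : ℕ} {S : PCl m} {c : ℕ → Fin m} {k : ℕ} {sn : ℕ → ℝ → ℝ} {G : Set ℝ} {b o φ : ℝ}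

theorem gap (L : LadP S c k sn G b o φ) : ∀ x, b ≤ x → x ≤ o → ∃ v ∈ G, |v - x| ≤ φ := by
  obtain ⟨φ', -, h1, h2, -⟩ := L.fm
  intro x hx hx'
  obtain ⟨v, hv, h3⟩ := h2 x hx hx'
  exact ⟨v, hv, h3.trans h1⟩

/-- **Larger errors.** -/
theorem mono (L : LadP S c k sn G b o φ) {φ₁ : ℝ} (h : φ ≤ φ₁) : LadP S c k sn G b o φ₁ where
  k1 := L.k1
  tm := L.tm
  pos := L.pos
  inj := L.inj
  ch := L.ch
  att := L.att
  bG := L.bG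
  oG := L.oG
  b0 := L.b0
  bo := L.bo
  o1 := L.o1
  φ0 := L.φ0.trans_le h
  fm := by
    obtain ⟨φ', h1, h2, h3, h4⟩ := L.fm
    exact ⟨φ', h1, h2.trans h, h3, fun l a b v hv v' hv' h5 h6 h7 h8 =>
      (h4 l a b v hv v' hv' h5 h6 h7 h8).trans (by linarith)⟩
  fl := fun i hi v hv h3 h4 => (L.fl i hi v hv h3 h4).trans h
  st := fun l a b v hv v' hv' h3 h4 h5 => (L.st l a b v hv v' hv' h3 h4 h5).trans (by linarith)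
  eq := fun v hv v' hv' h3 h4 h5 => (L.eq v hv v' hv' h3 h4 h5).trans h

/-- **One follower.** -/
theorem toR (L : LadP S c k sn G b o φ) : Pool.V0R.LadR S c k 1 sn G b o φ where
  tm := L.tm
  pos := L.pos
  inj := L.inj
  ch := L.ch
  att := L.att
  bG := L.bG
  oG := L.oG
  b0 := L.b0
  bo := L.bo
  o1 := L.o1
  φ0 := L.φ0
  fm := L.fm
  fl := L.fl
  st := L.st
  eq := fun l a b v _ v' _ _ _ _ => by
    obtain rfl : l = k := by omega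
    rw [sub_self, abs_zero]
    exact L.φ0.le

/-- **The ladder of the place `c k`.** -/
theorem lad (L : LadP S c k sn G b o φ) : Lad S c k sn G b o φ where
  tm := L.tm
  pos := L.pos
  inj := L.inj.mono fun y hy => by
    rw [Set.mem_Iio] at hy ⊢
    omega
  ch := ⟨fun w hw => by
    obtain ⟨u₁, rd, h1, h2⟩ := L.ch.ch w hw
    exact ⟨u₁, rd, fun i hi => h1 i (by omega), h2.take (Nat.zero_le _) (Nat.le_succ _)⟩⟩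
  att := fun w hw => by
    obtain ⟨u₁, rd, h1, h2⟩ := L.ch.ch w hw
    refine ⟨rd k, 0, h1 k (Nat.lt_succ_self k), h2.r1 k (Nat.zero_le _) (Nat.lt_succ_self k),
      le_rfl, ?_, fun e he => ?_⟩
    · have := (h2.s0 k (Nat.zero_le _) (Nat.lt_succ_self k)).2
      linarith
    · obtain ⟨K, hK⟩ := h2.att k (Nat.zero_le _) (Nat.lt_succ_self k) e he
      refine ⟨K, ?_⟩
      rw [zero_add]
      exact hK
  bG := L.bG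
  oG := L.oG
  b0 := L.b0
  bo := L.bo
  o1 := L.o1
  φ0 := L.φ0
  gap := L.gap
  fl := L.fl
  st := fun v hv v' hv' h1 h2 h3 => L.st k le_rfl (Nat.le_succ k) v hv v' hv' h1 h2 h3

/-- **One window**, all places. -/
theorem one (L : LadP S c k sn G b o φ) {w : ℝ} (hw : w ∈ G) :
    Lad S c (k + 1) sn {w} w w φ := by
  obtain ⟨u₁, rd, h1, h2⟩ := L.ch.ch w hw
  exact {
    tm := L.tm
    pos := L.pos
    inj := L.inj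
    ch := L.ch.mono (Set.singleton_subset_iff.2 hw)
    att := fun v hv => by
      rw [Set.mem_singleton_iff.1 hv]
      exact L.att w hw
    bG := Set.mem_singleton w
    oG := Set.mem_singleton w
    b0 := h2.w0
    bo := le_rfl
    o1 := h2.u0
    φ0 := L.φ0
    gap := fun x h3 h4 => ⟨w, Set.mem_singleton w, by
      rw [le_antisymm h4 h3, sub_self, abs_zero]
      exact L.φ0.le⟩
    fl := fun i _ v hv _ _ => by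
      rw [Set.mem_singleton_iff.1 hv, sub_self, abs_zero]
      exact L.φ0.le
    st := fun v hv v' hv' _ _ _ => by
      rw [Set.mem_singleton_iff.1 hv, Set.mem_singleton_iff.1 hv']
      linarith [L.φ0] }

end LadP

/-- **(NUPP)** The height of the place `c (k + 1)` over the charts of `w`, from the record at `j` and
from the positions of the slope-one places over the charts of `b`. -/
def NuppStmt : Prop :=
  ∀ {m : ℕ} {S : PCl m} {c : ℕ → Fin m} {k : ℕ} {sn : ℕ → ℝ → ℝ} {G : Set ℝ} {b o φ : ℝ},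
    LadP S c k sn G b o φ → ∀ {α γ : ∀ J : ℕ, Fam m J → Type}
    {f : ∀ (J : ℕ) (F : Fam m J), F.Ω → α J F} {y : ∀ (J : ℕ) (F : Fam m J), F.Ω → γ J F},
    (∀ (J : ℕ) (F : Fam m J), ∃ χ : α J F → PtT F, ∀ ω, ptr F J ω = χ (f J F ω)) →
    Kn ((range 0).image c) 1 1 y → ∀ {w j oj pr N : ℝ} {p n : ℕ → ℝ}, w ∈ G → j ∈ G → b ≤ w →
    w ≤ j → j ≤ o → j ≤ oj → oj ≤ 1 → (∀ i < k, sn i b - φ ≤ p i) → sn (k + 1) w - φ ≤ pr →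
    Nst k sn w φ n → (∀ i < k, sn i j + 20 * φ ≤ n i) → N + 60 * φ ≤ sn (k + 1) j →
    (∀ i < k, N + 60 * φ ≤ sn (k + 1) w + (n i - sn i w)) →
    Few S f (vg oj) y (qJets m c 0 k 0 (fun _ _ => b) (fun l _ => p l) (fun l _ => n l))
      (qJet m ((range (k + 1)).image c) (c (k + 1)) 0 w pr N)

/-- **(NU0P)** The height of the place `c (k + 1)` over the charts of `w` is few bits given a later
record. -/
def Nu0pStmt : Prop :=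
  ∀ {m : ℕ} {S : PCl m} {c : ℕ → Fin m} {k : ℕ} {sn : ℕ → ℝ → ℝ} {G : Set ℝ} {b o φ : ℝ},
    LadP S c k sn G b o φ → ∀ {α γ : ∀ J : ℕ, Fam m J → Type}
    {f : ∀ (J : ℕ) (F : Fam m J), F.Ω → α J F} {y : ∀ (J : ℕ) (F : Fam m J), F.Ω → γ J F},
    (∀ (J : ℕ) (F : Fam m J), ∃ χ : α J F → PtT F, ∀ ω, ptr F J ω = χ (f J F ω)) →
    Kn ((range 0).image c) 1 1 y → ∀ {w x x' ox pr N : ℝ}, w ∈ G → x ∈ G → x' ∈ G → b ≤ w →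
    w ≤ x → x + 100 * ((k : ℝ) + 2) * φ ≤ x' → x' ≤ o → x' ≤ ox → ox ≤ 1 →
    x' + 100 * ((k : ℝ) + 2) * φ ≤ 1 → sn (k + 1) w - φ ≤ pr →
    N + 100 * ((k : ℝ) + 2) * φ ≤ sn (k + 1) x →
    N + 100 * ((k : ℝ) + 2) * φ ≤ sn (k + 1) w + (x' - w) →
    Few0 S f (vg ox) y (qJet m ((range (k + 1)).image c) (c (k + 1)) 0 w pr N)

/-- **(NLQP)** No look-ahead for the pair, over the exact positions of the slope-one places. `M₁`,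
`M₂`: near and far digits of the height of `c (k + 1)`, `U₁`, `U₂`: of the height of `c k`. `x₄`: a
window whose record knows the far digits. -/
def NlqpStmt : Prop :=
  ∀ k : ℕ, ∃ Cn : ℝ, 1 ≤ Cn ∧
  ∀ {m : ℕ} {S : PCl m} {c : ℕ → Fin m} {sn : ℕ → ℝ → ℝ} {G : Set ℝ} {b o φ : ℝ},
    LadP S c k sn G b o φ → (range (k + 1)).image c = univ.erase (c (k + 1)) →
    ∀ {w w₁ vq j x₄ pN pU M₁ M₂ U₁ U₂ Λ₁ E₁ κn : ℝ}, w ∈ G → j ∈ G → x₄ ∈ G →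
    b ≤ w → w ≤ w₁ → w₁ ≤ j → j ≤ vq → j ≤ x₄ → x₄ ≤ o → x₄ + Cn * φ ≤ 1 →
    sn (k + 1) w - φ ≤ pN → sn k w - φ ≤ pU →
    -- the digits
    0 ≤ M₁ → Λ₁ ≤ M₁ + Cn * φ → M₁ ≤ M₂ → 0 ≤ U₁ → sn k j ≤ U₁ + Cn * φ → U₁ ≤ U₂ →
    sn k x₄ ≤ U₂ + 2 * Cn * φ → U₂ + Cn * φ ≤ 1 → U₂ + Cn * φ ≤ sn k x₄ →
    M₂ + Cn * φ ≤ sn (k + 1) x₄ → M₂ + Cn * φ ≤ sn (k + 1) w + (1 - w) →
    U₂ + Cn * φ ≤ sn k w + (1 - w) →
    (∀ l ≤ k, M₂ + Cn * φ ≤ sn (k + 1) w + (1 - sn l w)) →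
    (∀ l < k, U₂ + Cn * φ ≤ sn k w + (1 - sn l w)) →
    (∀ l < k, sn l x₄ + Cn * φ ≤ 1) →
    -- the label of the last place
    (∃ rk : ℝ, rk < 1 ∧ 0 ≤ E₁ ∧
      AttG S ((range (k + 1)).image c) (c (k + 1)) w (sn (k + 1) w) rk E₁ ∧ M₂ + E₁ ≤ 1) →
    NlI S (c (k + 1)) w₁ vq Λ₁ M₂ κn → 0 ≤ κn → ∀ κ : ℝ, κn + 4 * Cn * φ ≤ κ →
    NlqI S c k w₁ j
      ((qJet m ((range (k + 1)).image c) (c (k + 1)) 0 w pN M₁).prod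
        (qJet m ((range k).image c) (c k) 0 w pU U₁))
      ((qJet m ((range (k + 1)).image c) (c (k + 1)) 0 w pN M₂).prod
        (qJet m ((range k).image c) (c k) 0 w pU U₂)) κ

/-- **(RWP)** The rows of the pair on parts of the event. `P₁`, `P₂`: digits of the height of
`c (k + 1)`, `Q₁`, `Q₂`: of `c k`. -/
def RwpStmt : Prop :=
  ∀ k : ℕ, ∃ Cr : ℝ, 1 ≤ Cr ∧
  ∀ {m : ℕ} {S : PCl m} {c : ℕ → Fin m} {sn : ℕ → ℝ → ℝ} {G : Set ℝ} {b o φ : ℝ},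
    LadP S c k sn G b o φ → (range (k + 1)).image c = univ.erase (c (k + 1)) →
    ∀ {w w₁ x x' η : ℝ} {p n : ℕ → ℝ} {pN pU P₁ P₂ Q₁ Q₂ h δ E₁ : ℝ}, w ∈ G → x ∈ G → x' ∈ G →
    b ≤ w → w ≤ x → x + Cr * φ ≤ x' → x' ≤ o → x' + Cr * φ ≤ 1 →
    (∀ i < k, sn i b - φ ≤ p i) → sn (k + 1) w - φ ≤ pN → sn k w - φ ≤ pU →
    (∀ i < k, sn i x' ≤ n i ∧ n i ≤ 1) → Tp k sn b φ n → 0 ≤ P₁ → P₁ ≤ P₂ → P₂ ≤ 1 →
    0 ≤ Q₁ → Q₁ ≤ Q₂ → Q₂ ≤ 1 → P₂ + Cr * φ ≤ sn (k + 1) x →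
    P₂ + Cr * φ ≤ sn (k + 1) w + (x' - w) → sn k x ≤ Q₂ + 2 * Cr * φ → Q₂ + Cr * φ ≤ sn k x →
    Q₂ + Cr * φ ≤ sn k w + (x' - w) →
    (∀ l ≤ k, P₂ + Cr * φ ≤ sn (k + 1) w + (1 - sn l w)) →
    (∀ l < k, Q₂ + Cr * φ ≤ sn k w + (1 - sn l w)) →
    (∃ rk : ℝ, rk < 1 ∧ 0 ≤ E₁ ∧
      AttG S ((range (k + 1)).image c) (c (k + 1)) w (sn (k + 1) w) rk E₁ ∧ P₂ + E₁ ≤ 1) →
    RawN S (univ.erase (c (k + 1))) (c (k + 1)) P₁ (P₂ - P₁) h δ → w ≤ w₁ → w₁ ≤ 1 →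
    RNum S (fun J F => ptr F J) (vg w₁) η → ∀ π₀ : ℝ, 0 < π₀ → ∀ ε : ℝ, 0 < ε →
    ∃ κ : ℝ, 0 < κ ∧ ∃ e₀ : ℝ, 0 < e₀ ∧ ∀ K : ℕ, Bas S (fun J F A =>
      ∀ (V : Type) (z : F.Ω → V), Cl2 (ptr F J) (vg w₁ J F) A z →
      (∀ v, (cnt F.p (ptr F J) (fun ω => A ω ∧ z ω = v) : ℝ) ≤ Real.exp (-((-η - κ) * J))) →
      ∀ u u₁ u₂ v₁ v₂,
      (qJets m c 0 k 0 (fun _ _ => b) (fun l _ => p l) (fun l _ => n l)).P K e₀ J F A u →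
      (qJet m ((range (k + 1)).image c) (c (k + 1)) 0 w pN P₁).P K e₀ J F A u₁ →
      (qJet m ((range (k + 1)).image c) (c (k + 1)) 0 w pN P₂).P K e₀ J F A u₂ →
      (qJet m ((range k).image c) (c k) 0 w pU Q₁).P K e₀ J F A v₁ →
      (qJet m ((range k).image c) (c k) 0 w pU Q₂).P K e₀ J F A v₂ →
      ∀ B : F.Ω → Prop, Sub B A → π₀ * Pe F.p A ≤ Pe F.p B →
      CH (Pool.Agent.H49.Ent.cond F.p B True) (fun ω => (u₂ ω, v₂ ω))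
          (fun ω => ((u₁ ω, v₁ ω), (u ω, (z ω, F.W ω)))) ≤
        (((1 - h) * (P₂ - P₁) + (Q₂ - Q₁)) * Real.log 2 + δ + 8 * Cr * φ + ε) * J)

/-- **(FIU)** The digits `U₁, …, U₂` of the height of `c k` over the charts of `w` are full, given
its digits `U₁`, the digits `M₁` of the height of `c (k + 1)`, the near positions of the slope-one
places and functions closed at the window `v`. -/
def FiuStmt : Prop :=
  ∀ k : ℕ, ∃ Cf : ℝ, 1 ≤ Cf ∧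
  ∀ {m : ℕ} {S : PCl m} {c : ℕ → Fin m} {sn : ℕ → ℝ → ℝ} {G : Set ℝ} {b o φ : ℝ},
    LadP S c k sn G b o φ → ∀ {w v : ℝ} {p n : ℕ → ℝ} {pN pU M₁ U₁ U₂ : ℝ},
    w ∈ G → v ∈ G → b ≤ w → w ≤ v → v ≤ o → v + Cf * φ ≤ 1 →
    (∀ i < k, sn i b - φ ≤ p i) → sn (k + 1) w - φ ≤ pN → sn k w - φ ≤ pU →
    (∀ i < k, n i ≤ 1) → Tp k sn b φ n → Nst k sn w φ n →
    0 ≤ U₁ → U₁ ≤ U₂ → U₂ + Cf * φ ≤ 1 → M₁ + Cf * φ ≤ sn (k + 1) v → U₁ + Cf * φ ≤ sn k v →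
    sn k v ≤ U₁ + 2 * Cf * φ → (∀ i < k, sn i v + Cf * φ ≤ n i) →
    (∀ i < k, M₁ + Cf * φ ≤ sn (k + 1) w + (n i - sn i w)) →
    (∀ i < k, U₁ + Cf * φ ≤ sn k w + (n i - sn i w)) →
    U₂ + Cf * φ ≤ sn k w + (1 - w) → (∀ l < k, U₂ + Cf * φ ≤ sn k w + (1 - sn l w)) →
    ∀ π₀ : ℝ, 0 < π₀ → ∀ ε : ℝ, 0 < ε → ∃ e₀ : ℝ, 0 < e₀ ∧ ∀ K : ℕ, Bas S (fun J F A =>
      ∀ u m₁ u₁ u₂,
      (qJets m c 0 k 0 (fun _ _ => b) (fun l _ => p l) (fun l _ => n l)).P K e₀ J F A u →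
      (qJet m ((range (k + 1)).image c) (c (k + 1)) 0 w pN M₁).P K e₀ J F A m₁ →
      (qJet m ((range k).image c) (c k) 0 w pU U₁).P K e₀ J F A u₁ →
      (qJet m ((range k).image c) (c k) 0 w pU U₂).P K e₀ J F A u₂ →
      ∀ B : F.Ω → Prop, Sub B A → π₀ * Pe F.p A ≤ Pe F.p B →
      ∀ (V : Type) (z : F.Ω → V), Cl2 (ptr F J) (vg v J F) B z →
      ((U₂ - U₁) * Real.log 2 - 4 * Cf * φ - ε) * J ≤
        CH (Pool.Agent.H49.Ent.cond F.p B True) u₂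
          (fun ω => ((m₁ ω, u₁ ω), (u ω, (z ω, F.W ω)))))

/-! ### The gradient of the last place -/

/-- **The hybrid charts with a follower**: the charts of the window `kb` for the places below `i`,
the chart of `kn` for the place `i`, the charts of `kw` for the others. -/
def folh {m J : ℕ} {F : Fam m J} (G : ℕ → PtT F → ℕ → MvPolynomial (Option (Fin m)) ℝ)
    (kb kw kn i : ℕ) : PtT F → ℕ → MvPolynomial (Option (Fin m)) ℝ := fun y l =>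
  if l < i then G kb y l else if l = i then G kn y l else G kw y l

/-- **(GF)** The relative gradient of the place `c (k + 1)` in the directions of the places below
`k`, the place `c k` on its chart of the last window. Slope `≤ S` for the moved places, slope `b'`
for `c k`, `c (k + 1)`. -/
def GfStmt : Prop := ∀ D k : ℕ, ∃ C : ℕ, 1 ≤ C ∧ ∀ {m J : ℕ} {F : Fam m J} {c : ℕ → Fin m}
    {Dr N M : ℕ} {C₀ a Eb ηm : ℝ} {o η σ : ℕ → ℝ} {lv b : ℕ → ℕ → ℝ} {κ : ℝ}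
    {z : ℕ → ℕ → ℕ} {B : F.Ω → Prop} {g₀ : ℕ → ℕ → ℕ}
    {G : ℕ → PtT F → ℕ → MvPolynomial (Option (Fin m)) ℝ}
    {H : ℕ → LnT F → ℕ → MvPolynomial (Option (Fin m)) ℝ}
    (_ : WinB F c (k + 1) D Dr N M C₀ a Eb ηm o η σ lv b κ z B g₀ G H)
    {fb jb f jj : ℕ → ℕ} {nb n ks q X Y : ℕ} {S b' : ℝ},
    (∀ t ≤ nb, fb t ≤ N) →
    (∀ t < nb, jb t ≤ M ∧ z (fb t) (jb t) = ⌊o (fb (t + 1)) * J⌋₊ - ⌊o (fb t) * J⌋₊ ∧
      o (fb t) ≤ o (fb (t + 1))) → (nb : ℝ) ≤ 2 ^ Y →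
    (∀ t ≤ nb, ∀ l < k, (lv (fb t) l - o (fb t) - (lv (fb nb) l - o (fb nb))) * J ≤ Y ∧
      (lv (fb nb) l - o (fb nb) - (lv (fb t) l - o (fb t))) * J ≤ Y) → f 0 = fb nb →
    Set.InjOn c (Set.Iio (k + 2)) → 1 ≤ n → (∀ t ≤ n, f t ≤ N) →
    (∀ t < n, jj t ≤ M ∧ z (f t) (jj t) = ⌊o (f (t + 1)) * J⌋₊ - ⌊o (f t) * J⌋₊ ∧
      o (f t) ≤ o (f (t + 1))) →
    C₀ * (ηm * J) ≤ Y → 3 ≤ Y → (n : ℝ) ≤ 2 ^ Y → 0 ≤ S → S ≤ b' →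
    (∀ t < n, ∀ l ≤ k + 1, (lv (f (t + 1)) l - lv (f t) l) * J ≤ Y ∧
      (lv (f t) l - lv (f (t + 1)) l) * J ≤ Y) →
    (∀ t < n, b' * ((o (f (t + 1)) - o (f t)) * J) ≤ Y) →
    (∀ t t', t ≤ t' → t' ≤ n → ∀ l < k,
      (lv (f t') l - lv (f t) l) * J ≤ S * ((o (f t') - o (f t)) * J) + Y) →
    (∀ t ≤ n, ∀ l, k ≤ l → l ≤ k + 1 →
      b' * ((o (f t) - o (f 0)) * J) ≤ (lv (f t) l - lv (f 0) l) * J + Y ∧
      (lv (f t) l - lv (f 0) l) * J ≤ b' * ((o (f t) - o (f 0)) * J) + Y) →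
    S * ((o (f n) - o (f 0)) * J) + 3 ≤ q →
    (q : ℝ) + X ≤ b' * ((o (f n) - o (f 0)) * J) + Y → X ≤ q → ks ≤ n →
    (X : ℝ) ≤ (b' - S) * ((o (f ks) - o (f 0)) * J) + Y →
    (∀ ω, B ω → ∀ j < k,
      |gnh F c (k + 1) (g₀ (f 0)) (folh G (fb 0) (f 0) (f n) k) (G (f n)) ω j| ≤ 2 ^ (C * Y)) ∧
    ∀ ω ν, B ω → B ν → F.t ω = F.t ν →
      (∀ j < k, |hgt F c (hyb G (fb 0) (f 0) k) ω j - hgt F c (hyb G (fb 0) (f 0) k) ν j| ≤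
        2 ^ 2 / 2 ^ (g₀ (f 0) j + q)) →
      (∀ l < k, G (fb 0) (ptr F J ω) l = G (fb 0) (ptr F J ν) l) →
      ((∀ t ≤ ks, ∀ l ≤ k + 1, G (f t) (ptr F J ω) l = G (f t) (ptr F J ν) l) → ∀ j < k,
        |gnh F c (k + 1) (g₀ (f 0)) (folh G (fb 0) (f 0) (f n) k) (G (f n)) ω j -
          gnh F c (k + 1) (g₀ (f 0)) (folh G (fb 0) (f 0) (f n) k) (G (f n)) ν j| ≤
            2 ^ (C * Y) / 2 ^ X) ∧
      ((∀ t ≤ n, ∀ l ≤ k + 1, G (f t) (ptr F J ω) l = G (f t) (ptr F J ν) l) →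
        (∀ j < k, |gnh F c (k + 1) (g₀ (f 0)) (folh G (fb 0) (f 0) (f n) k) (G (f n)) ω j -
          gnh F c (k + 1) (g₀ (f 0)) (folh G (fb 0) (f 0) (f n) k) (G (f n)) ν j| ≤
            2 ^ (C * Y) / 2 ^ X) ∧
        |2 ^ (g₀ (f 0) (k + 1) + q) * (hgt F c (hyb G (fb 0) (f 0) k) ω (k + 1) -
            hgt F c (hyb G (fb 0) (f 0) k) ν (k + 1)) -
          ∑ j ∈ range k,
            gnh F c (k + 1) (g₀ (f 0)) (folh G (fb 0) (f 0) (f n) k) (G (f n)) ω j *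
            (2 ^ (g₀ (f 0) j + q) * (hgt F c (hyb G (fb 0) (f 0) k) ω j -
              hgt F c (hyb G (fb 0) (f 0) k) ν j))| ≤ 2 ^ (C * Y) / 2 ^ X)

end Pool.V0Q
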