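import Pool.Agent.H44.V0P.Num4
import Pool.Agent.H44.V0P.S
import Pool.Agent.H44.V0F.V0c1

/-!
# The numbers of the class theorem for a pair, fifth part

`np_ex`: the windows exist; `pqp_ex`: the digits of the velocities; `cst_p`: the numbers from the
small constants; `e_lep`, `r_lep`, `f_lep`, `k2_lep`: all errors are small.
-/

set_option autoImplicit false

namespace Pool.V0Q

open Finset Real MvPolynomial
open Pool.Agent.H49.Ent Pool.Agent.H32.Dense Pool.STK Pool.KA Pool.KSAT Pool.K2S Pool.PB Pool.GEN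
open Pool.S6C Pool.RCD Pool.LA91 Pool.AVG96 Pool.V0F

/-- **The windows exist.** -/
theorem np_ex {k : ℕ} {s T Λ : ℝ} (hs : 1 < s) (hT : 60 ≤ T) (hΛ : 4 * T + 4 * k + 40 ≤ Λ)
    {m : ℕ} {S : PCl m} {c : ℕ → Fin m} {sn : ℕ → ℝ → ℝ} {G : Set ℝ} {b o φ : ℝ}
    (L : LadP S c k sn G b o φ) {w u y ξ C κ e : ℝ} {lam : ℝ → ℝ} (hC : 0 ≤ C) (hκ : 0 < κ)
    (hκ1 : κ ≤ 1) (hy : y = ((k : ℝ) + 3 + s + C) * φ) (hξ : s * ξ = s - 1)
    (yu : 4000 * y ≤ u) (ys : 4000 * (s * y) ≤ u) (yξ : 4000 * y ≤ ξ * u)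
    (yd : 4000 * y ≤ (s - 1 - ξ) * u) (yκ : 4000 * y ≤ κ * (ξ * u)) (he : (s + 70) * φ ≤ e)
    (heC : e ≤ C * φ) (hu : 0 < u)
    (hw : w ∈ G) (bw : b + Λ * u ≤ w) (wo : w + Λ * u ≤ o) (o1 : o + Λ * u ≤ 1)
    (b0 : Λ * u ≤ b) (hlb : ∀ l ≤ k + 1, Λ * u ≤ sn l b ∧ sn l o + Λ * u ≤ 1)
    (st : ∀ l, k ≤ l → l ≤ k + 1 → ∀ v ∈ G, b ≤ v → v ≤ o → |sn l v - sn l w - s * (v - w)| ≤ φ)
    (sv : ∀ v : ℝ, b ≤ v → v ≤ o → |lam v - sn (k + 1) w - s * (v - w)| ≤ φ) {j x : ℝ}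
    (jG : j ∈ G) (xG : x ∈ G) (hj : |j - (w + u / s)| ≤ φ) (hx : |x - (w + u)| ≤ φ) :
    ∃ (x' xr xq : ℝ) (w₁ vq oq : ℚ) (xa : ℕ → ℝ),
      NP k 1 s sn G b o φ w u y ξ T Λ C κ e lam j x x' xr xq w₁ vq oq xa := by
  have hφ := L.φ0
  have hk1 : (1 : ℝ) ≤ k := by exact_mod_cast L.k1
  have hΛu : (4 * T + 4 * k + 40) * u ≤ Λ * u := mul_le_mul_of_nonneg_right hΛ hu.le
  have hTu : 60 * u ≤ T * u := mul_le_mul_of_nonneg_right hT hu.le
  have hru : 0 ≤ (k : ℝ) * u := by positivity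
  have hs0 : 0 < s := one_pos.trans hs
  have hy0 : φ ≤ y := by
    rw [hy]
    have : 0 ≤ ((k : ℝ) + 2 + s + C) * φ := by positivity
    linarith
  have hξ0 : 0 < ξ := by
    by_contra h
    push Not at h
    nlinarith
  have hξ1 : ξ < 1 := by
    by_contra h
    push Not at h
    nlinarith
  have hξu : 0 ≤ ξ * u ∧ ξ * u ≤ u := ⟨by positivity, by nlinarith⟩
  have hwo : w ≤ o := by linarith
  have hbw : b ≤ w := by linarith
  have hdv : ∀ t : ℝ, 0 ≤ t → 0 ≤ t / s ∧ t / s ≤ t := fun t ht =>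
    ⟨by positivity, div_le_self ht hs.le⟩
  obtain ⟨x', hx', hx''⟩ := L.gap (w + T * u) (by linarith) (by linarith)
  obtain ⟨xr, hxr, hxr'⟩ := L.gap (w + (1 + ξ) * u + 600 * y) (by linarith) (by linarith)
  obtain ⟨d1, d2⟩ := hdv ((1 + ξ) * u + 520 * y) (by linarith)
  obtain ⟨xq, hxq, hxq'⟩ := L.gap (w + ((1 + ξ) * u + 520 * y) / s) (by linarith) (by linarith)
  have hxa : ∀ a : ℕ, ∃ v : ℝ, (a : ℝ) * κ ≤ 1 →
      v ∈ G ∧ |v - (w + (u + 520 * y + a * κ * (ξ * u)) / s)| ≤ φ := by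
    intro a
    by_cases ha : (a : ℝ) * κ ≤ 1
    · have e0 : 0 ≤ (a : ℝ) * κ * (ξ * u) := mul_nonneg (by positivity) hξu.1
      have e1 : (a : ℝ) * κ * (ξ * u) ≤ 1 * (ξ * u) := mul_le_mul_of_nonneg_right ha hξu.1
      obtain ⟨f1, f2⟩ := hdv (u + 520 * y + a * κ * (ξ * u)) (by linarith)
      obtain ⟨v, hv, hv'⟩ := L.gap (w + (u + 520 * y + a * κ * (ξ * u)) / s) (by linarith)
        (by linarith)
      exact ⟨v, fun _ => ⟨hv, hv'⟩⟩
    · exact ⟨0, fun h => absurd h ha⟩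
  choose xa hxa using hxa
  obtain ⟨w₁, h1, h2⟩ := exists_rat_btwn (show w < w + φ by linarith)
  obtain ⟨vq, h3, h4⟩ := exists_rat_btwn (show j < j + φ by linarith)
  obtain ⟨oq, h5, h6⟩ := exists_rat_btwn (show w + ((1 + ξ) * u + 505 * y) / s <
    w + ((1 + ξ) * u + 505 * y) / s + φ by linarith)
  refine ⟨x', xr, xq, w₁, vq, oq, xa,
    { k1 := L.k1
      s1 := hs
      φ0 := hφ
      u0 := hu
      C0 := hC
      κ0 := hκ
      κ1 := hκ1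
      hy := hy
      hξ := hξ
      yu := yu
      ys := ys
      yξ := yξ
      yd := yd
      yκ := yκ
      he := he
      heC := heC
      hT := hT
      TΛ := hΛ
      bw := bw
      wo := wo
      o1 := o1
      b0 := b0
      lb := fun l hl => (hlb l hl).1
      lo := fun l hl => (hlb l hl).2
      sl := fun i hi v hv h1 h2 => ?_
      st := st
      sv := sv
      bG := L.bG
      oG := L.oG
      wG := hw
      jG := jG
      xG := xG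
      xG' := hx'
      rG := hxr
      qG := hxq
      aG := fun a ha => (hxa a ha).1
      hj := hj
      hx := hx
      hx' := hx''
      hxr := hxr'
      hxq := hxq'
      hxa := fun a ha => (hxa a ha).2
      hw1 := h1.le
      hw2 := h2.le
      hq1 := h3.le
      hq2 := h4.le
      ho1 := h5.le
      ho2 := h6.le }⟩
  have e1 := abs_le.1 (L.fl i hi v hv h1 h2)
  have e2 := abs_le.1 (L.fl i hi w hw hbw hwo)
  rw [abs_le]
  constructor <;> linarith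

/-- **The digits of the velocities.** -/
theorem pqp_ex {k f : ℕ} {s : ℝ} {sn : ℕ → ℝ → ℝ} {G : Set ℝ} {b o φ w u y ξ T Λ C κ e : ℝ}
    {lam : ℝ → ℝ} {j x x' xr xq w₁ vq oq : ℝ} {xa : ℕ → ℝ}
    (Nn : NP k f s sn G b o φ w u y ξ T Λ C κ e lam j x x' xr xq w₁ vq oq xa) : ∃ Pq : ℕ → ℚ,
    (∀ l < k, sn l w - w + (T + 1) * u ≤ (Pq l : ℝ)) ∧
    (∀ i : Fin k, sn i w - w + u ≤ (Pq i : ℝ) ∧ (Pq i : ℝ) ≤ sn i w - w + Λ * u) ∧
    (∀ l i : Fin k, l < i → (Pq i : ℝ) - (sn i w - w) + u / 2 ≤ Pq l - (sn l w - w)) ∧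
    w₁ ≤ x' ∧ x' ≤ w + Λ * u ∧ w₁ ≤ vq ∧ vq ≤ oq ∧ oq ≤ w + Λ * u := by
  obtain ⟨i1, i2, i3, i4, i5, i6, i7, i8, i9, i10, i11, i12, i13, i14, i15⟩ := Nn.wins
  have hu := Nn.u0
  have hTu := Nn.Tu0
  have hroom := Nn.room
  have hru := Nn.ru0
  have hyu := Nn.yu
  obtain ⟨t1, t2, t3, t4, t5, t6, t7, -⟩ := Nn.sm
  have hPex : ∀ l : ℕ, ∃ q : ℚ, sn l w - w + (T + 1 + ((k : ℝ) - l)) * u < q ∧
      (q : ℝ) < sn l w - w + (T + 1 + ((k : ℝ) - l)) * u + u / 4 := fun l =>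
    exists_rat_btwn (by linarith only [hu])
  choose Pq hPq1 hPq2 using hPex
  have hrl : ∀ l < k, 0 ≤ ((k : ℝ) - l) * u ∧ ((k : ℝ) - l) * u ≤ k * u := by
    intro l hl
    have h1 : (l : ℝ) ≤ k := by exact_mod_cast hl.le
    have h2 : (0 : ℝ) ≤ l := Nat.cast_nonneg l
    exact ⟨mul_nonneg (by linarith) hu.le, mul_le_mul_of_nonneg_right (by linarith) hu.le⟩
  refine ⟨Pq, fun l hl => ?_, fun i => ⟨?_, ?_⟩, fun l i hli => ?_,
    by linarith only [i4, i5, i6, i14, hu], by linarith only [i13, hroom, hTu, hru, t4, hyu, t1,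
      t2, t3, t7, hu], i3.trans Nn.hq1, i11, by linarith only [i12, i6, i13, hroom, hTu, hru, t4,
      hyu, t1, t2, t3, t7, hu]⟩
  · have h1 := hPq1 l
    have h2 := hrl l hl
    linarith only [h1, h2.1]
  · have h1 := hPq1 i
    have h2 := hrl i i.2
    linarith only [h1, h2.1, hTu, hu]
  · have h1 := hPq2 i
    have h2 := hrl i i.2
    linarith only [h1, h2.2, hTu, hu, hroom, hru]
  · have h1 := hPq1 (l : ℕ)
    have h2 := hPq2 (i : ℕ)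
    have h3 : ((l : ℕ) : ℝ) + 1 ≤ ((i : ℕ) : ℝ) := by exact_mod_cast hli
    have h4 : (((k : ℝ) - (i : ℕ)) + 1) * u ≤ ((k : ℝ) - (l : ℕ)) * u :=
      mul_le_mul_of_nonneg_right (by linarith only [h3]) hu.le
    linarith only [h1, h2, h4, hu]

/-- **The numbers from the small constants.** -/
theorem cst_p {k D Cg Cc : ℕ} {s τ ξ ι κ C δ₁ θ β φ φ₀ u y : ℝ}
    (K : CS (k + 1) D Cg Cc s τ ξ ι δ₁ (1 / (2 * s)) θ β) (hs : 1 < s) (hC : 0 ≤ C)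
    (d1 : δ₁ ≤ 1 / 2) (d2 : δ₁ ≤ ξ / 2) (d3 : δ₁ ≤ (s - 1 - ξ) / 2) (d4 : δ₁ ≤ κ * ξ / 2)
    (hφ₀' : φ₀ = θ / ((k : ℝ) + 3 + s + C))
    (hu : 0 < u) (hφ0 : 0 < φ) (hφ₀ : φ ≤ φ₀ * u) (hy : y = ((k : ℝ) + 3 + s + C) * φ) :
    φ₀ * u ≤ θ * u ∧ 0 ≤ φ₀ * u ∧ y ≤ θ * u ∧ 0 ≤ y ∧ φ ≤ θ * u ∧ 4000 * y ≤ u ∧
      4000 * (s * y) ≤ u ∧ 4000 * y ≤ ξ * u ∧ 4000 * y ≤ (s - 1 - ξ) * u ∧
      4000 * y ≤ κ * (ξ * u) ∧ (Cc : ℝ) * (2 * φ) ≤ u ∧ C * φ ≤ y := by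
  have hr0 : (0 : ℝ) ≤ k := Nat.cast_nonneg k
  have hθ0 := K.θ0
  have hs0 : 0 < s := one_pos.trans hs
  have hrs : (0 : ℝ) < (k : ℝ) + 3 + s + C := by linarith
  have hφ₀θ : φ₀ ≤ θ := by
    rw [hφ₀']
    exact div_le_self hθ0.le (by linarith)
  have hφ₀0 : 0 < φ₀ := by rw [hφ₀']; positivity
  have hφ₀u : φ₀ * u ≤ θ * u := mul_le_mul_of_nonneg_right hφ₀θ hu.le
  have hyθ : y ≤ θ * u := by
    have h1 : ((k : ℝ) + 3 + s + C) * φ ≤ ((k : ℝ) + 3 + s + C) * (φ₀ * u) :=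
      mul_le_mul_of_nonneg_left hφ₀ hrs.le
    have h2 : ((k : ℝ) + 3 + s + C) * (φ₀ * u) = θ * u := by
      rw [hφ₀']
      field_simp
    rw [hy]
    linarith
  have hy0 : 0 ≤ y := by rw [hy]; positivity
  have hφθ : φ ≤ θ * u := hφ₀.trans hφ₀u
  have t1 := K.t1
  have hβδ := K.β3
  have hβs := K.β4
  have e0 : 4000 * θ ≤ 2 * β := by linarith
  have mu : ∀ {a : ℝ}, 4000 * θ ≤ a → 4000 * y ≤ a * u := fun {a} ha => by
    have h1 := mul_le_mul_of_nonneg_right ha hu.le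
    linarith
  have c7 := mul_le_mul_of_nonneg_right K.t3 hu.le
  have c8 := mul_le_mul_of_nonneg_right K.β1 hu.le
  have h5 : 2 * (Cc : ℝ) * φ ≤ 2 * (Cc : ℝ) * (θ * u) :=
    mul_le_mul_of_nonneg_left hφθ (by positivity)
  have e1 : 4000 * y ≤ 1 * u := mu (by linarith)
  have e2 : 4000 * y ≤ 1 / s * u := mu (by
    have : 2 * (1 / (2 * s)) = 1 / s := by field_simp
    linarith)
  have e3 : 4000 * (s * y) ≤ u := by
    have h1 := mul_le_mul_of_nonneg_left e2 hs0.le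
    have h2 : s * (1 / s * u) = u := by field_simp
    linarith
  have e4 : 0 ≤ ((k : ℝ) + 3 + s) * φ := by positivity
  refine ⟨hφ₀u, by positivity, hyθ, hy0, hφθ, by linarith, e3, mu (by linarith),
    mu (by linarith), ?_, by linarith, ?_⟩
  · have h1 : 4000 * y ≤ κ * ξ * u := mu (by linarith)
    linarith
  · rw [hy]
    linarith

/-- **All errors are small.** -/
theorem e_lep {k D Cg Cc : ℕ} {s τ ξ ι δ₁ δ₂ θ β : ℝ} (C : CS (k + 1) D Cg Cc s τ ξ ι δ₁ δ₂ θ β)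
    (hτ : 0 < τ) (hξ : 0 < ξ)
    {u J X y φ φ₀ Ca : ℝ} (hu : 0 < u) (hJ : 0 ≤ J) (hX : ξ * u * J - 1 ≤ X) (hy : 0 ≤ y)
    (hyu : y ≤ θ * u) (hφ : 0 ≤ φ) (hφu : φ ≤ θ * u) (hφ₀ : φ₀ * u ≤ θ * u)
    (hZ : 1 + Z2 (k + 1) D Ca ≤ θ * u * J) (hCa : 0 ≤ Ca) :
    ((k * (40 * y) + 20 * (k : ℝ) ^ 2 * φ + φ₀ * u + (φ₀ * u + 8 * y) + θ * u) * J +
        k * Real.log 5) + 1000 * y * J +
      (θ * u * J + τ * ξ / 8 * u * J + ((D : ℝ) + 2) * (501 * y * J * Real.log 2 + Real.log 5) +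
        2 * k * Real.log 5) + Ca + θ * u * J ≤ τ * X := by
  have hr0 : (0 : ℝ) ≤ k := Nat.cast_nonneg k
  have hD0 : (0 : ℝ) ≤ D := Nat.cast_nonneg D
  have hl2 : 0 < Real.log 2 := Real.log_pos one_lt_two
  have hl5 : 0 < Real.log 5 := Real.log_pos (by norm_num)
  have hl2' : Real.log 2 ≤ 1 := by
    have := Real.log_two_lt_d9
    linarith
  have hZ0 := Z2_nonneg (k + 1) D hCa
  obtain ⟨-, -, h3⟩ := C.X_le hτ hu hJ hX (by linarith)
  obtain ⟨V, hV⟩ : ∃ V : ℝ, V = θ * u * J := ⟨_, rfl⟩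
  have hV0 : 0 ≤ V := by
    rw [hV]
    have := C.θ0
    positivity
  have yV : y * J ≤ V := by
    rw [hV]
    exact mul_le_mul_of_nonneg_right hyu hJ
  have φV : φ * J ≤ V := by
    rw [hV]
    exact mul_le_mul_of_nonneg_right hφu hJ
  have φ₀V : φ₀ * u * J ≤ V := by
    rw [hV]
    exact mul_le_mul_of_nonneg_right hφ₀ hJ
  have yl : y * J * Real.log 2 ≤ V := by
    have : y * J * Real.log 2 ≤ y * J * 1 := mul_le_mul_of_nonneg_left hl2' (by positivity)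
    linarith
  have e1 : (k : ℝ) * (y * J) ≤ k * V := mul_le_mul_of_nonneg_left yV hr0
  have e2 : (k : ℝ) ^ 2 * (φ * J) ≤ k ^ 2 * V := mul_le_mul_of_nonneg_left φV (by positivity)
  have e4 : ((D : ℝ) + 2) * (y * J * Real.log 2) ≤ ((D : ℝ) + 2) * V :=
    mul_le_mul_of_nonneg_left yl (by positivity)
  have e7 : 8 * (A2 (k + 1) D * V) ≤ β * u * J := by
    have := mul_le_mul_of_nonneg_right C.t5 (show 0 ≤ u * J by positivity)
    rw [hV]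
    linarith
  have e8 : β * (u * J) ≤ τ * ξ * (u * J) := mul_le_mul_of_nonneg_right C.β5 (by positivity)
  have e10 : A2 (k + 1) D * V = 2575 * (k * V) + 1300 * (k ^ 2 * V) + 2600 * (k * V) + 5000 * V -
      (0 : ℝ) * V + (k * V) + 500 * (((k : ℝ) + 2) * (((D : ℝ) + 2) * V)) + (299 - 873 + 295) * V +
      (65 * 20 - 1300) * V + (2 + 1 - 3 : ℝ) * V + (65 * (35 + 20 + 13) + 300 + 2 + 1 - 5000 + 279) *
        V := by
    unfold A2
    push_cast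
    ring
  have e11 : 1 * (((D : ℝ) + 2) * V) * 2 ≤ ((k : ℝ) + 2) * (((D : ℝ) + 2) * V) := by
    have : 0 ≤ (k : ℝ) * (((D : ℝ) + 2) * V) := by positivity
    linarith
  have e12 : Z2 (k + 1) D Ca = 65 * ((k + 1) * Real.log 5) + Real.log 2 + (k + 1) * Real.log 5 +
      ((k : ℝ) + 2) * ((k + 1) * Real.log 5 + ((D : ℝ) + 2) * Real.log 5) + Ca := by
    unfold Z2
    push_cast
    ring
  have e13 : ((D : ℝ) + 2) * Real.log 5 ≤
      ((k : ℝ) + 2) * ((k + 1) * Real.log 5 + ((D : ℝ) + 2) * Real.log 5) := by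
    have h1 : 0 ≤ ((k : ℝ) + 1) * (((D : ℝ) + 2) * Real.log 5) := by positivity
    have h2 : 0 ≤ ((k : ℝ) + 2) * ((k + 1) * Real.log 5) := by positivity
    linarith
  have e14 : 0 ≤ (k : ℝ) * Real.log 5 := by positivity
  have e15 : 0 ≤ (k : ℝ) * V := by positivity
  have e16 : 0 ≤ (k : ℝ) ^ 2 * V := by positivity
  have e17 : 0 ≤ ((D : ℝ) + 2) * V := by positivity
  rw [← hV] at hZ
  have hVe : θ * u * J = V := hV.symm
  have g1 : ((k * (40 * y) + 20 * (k : ℝ) ^ 2 * φ + φ₀ * u + (φ₀ * u + 8 * y) + θ * u) * J +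
        k * Real.log 5) + 1000 * y * J +
      (θ * u * J + τ * ξ / 8 * u * J + ((D : ℝ) + 2) * (501 * y * J * Real.log 2 + Real.log 5) +
        2 * k * Real.log 5) + Ca + θ * u * J =
      40 * (k * (y * J)) + 20 * ((k : ℝ) ^ 2 * (φ * J)) + 2 * (φ₀ * u * J) + 1008 * (y * J) +
        3 * V + τ * ξ * u * J / 8 + 501 * (((D : ℝ) + 2) * (y * J * Real.log 2)) +
        ((D : ℝ) + 2) * Real.log 5 + 3 * (k * Real.log 5) + Ca := by
    rw [← hVe]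
    ring
  rw [g1]
  have g2 : 3 * (k * Real.log 5) + ((D : ℝ) + 2) * Real.log 5 + Ca ≤ V := by
    linarith
  have g3 : 0 ≤ τ * ξ * u * J := by positivity
  linarith

/-- **The rows.** -/
theorem r_lep {k D Cg Cc : ℕ} {s τ ξ ι δ₁ δ₂ θ β : ℝ} (C : CS (k + 1) D Cg Cc s τ ξ ι δ₁ δ₂ θ β)
    (hτ : 0 < τ) (hξ : 0 < ξ)
    {u J X φ y h κ Cr a : ℝ} (hu : 0 < u) (hJ : 0 ≤ J) (hX : ξ * u * J - 1 ≤ X) (hφ : 0 ≤ φ)
    (hφu : φ ≤ θ * u) (hyu : y ≤ θ * u) (hy : 0 ≤ y) (hCr : Cr * φ ≤ y) (hh : 0 < h)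
    (hh1 : h ≤ 1) (hκ : 0 < κ) (ha : 0 ≤ a) (haκ : a * κ ≤ 1)
    (hZ : 2 + 2 * Real.log 5 ≤ θ * u * J) :
    (((1 - h) * (a * κ * (ξ * u) + 2 * φ) + (a * κ * (ξ * u) + 22 * y)) * Real.log 2 + φ +
          8 * Cr * φ + θ * u) * J + 4 * Real.log 5 ≤
      (2 - h) * (a * (κ * X)) * Real.log 2 + τ * X := by
  have hl2 : 0 < Real.log 2 := Real.log_pos one_lt_two
  have hl2' : Real.log 2 ≤ 1 := by
    have := Real.log_two_lt_d9
    linarith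
  have hl5 : 0 < Real.log 5 := Real.log_pos (by norm_num)
  obtain ⟨-, -, h3⟩ := C.X_le hτ hu hJ hX (by linarith)
  obtain ⟨V, hV⟩ : ∃ V : ℝ, V = θ * u * J := ⟨_, rfl⟩
  have hV0 : 0 ≤ V := by
    rw [hV]
    have := C.θ0
    positivity
  have φV : φ * J ≤ V := by
    rw [hV]
    exact mul_le_mul_of_nonneg_right hφu hJ
  have yV : y * J ≤ V := by
    rw [hV]
    exact mul_le_mul_of_nonneg_right hyu hJ
  have CV : Cr * φ * J ≤ V := (mul_le_mul_of_nonneg_right hCr hJ).trans yV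
  have c0 : 0 ≤ (1 - h) * Real.log 2 := mul_nonneg (by linarith) hl2.le
  have c1 : (1 - h) * Real.log 2 ≤ 1 := by nlinarith
  have e1 : (1 - h) * Real.log 2 * (φ * J) ≤ φ * J :=
    mul_le_of_le_one_left (by positivity) c1
  have c2 : 0 ≤ (2 - h) * Real.log 2 := mul_nonneg (by linarith) hl2.le
  have c3 : (2 - h) * Real.log 2 ≤ 2 := by nlinarith
  have c4 : 0 ≤ a * κ := by positivity
  have e2 : (2 - h) * Real.log 2 * (a * κ) * (ξ * u * J - 1) ≤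
      (2 - h) * Real.log 2 * (a * κ) * X := mul_le_mul_of_nonneg_left hX (by positivity)
  have e3 : (2 - h) * Real.log 2 * (a * κ) ≤ 2 := by
    have h1 : (2 - h) * Real.log 2 * (a * κ) ≤ (2 - h) * Real.log 2 * 1 :=
      mul_le_mul_of_nonneg_left haκ c2
    linarith
  have e6 : y * J * Real.log 2 ≤ y * J := mul_le_of_le_one_right (by positivity) hl2'
  have e5 : 656 * V ≤ β * u * J := by
    have h1 := mul_le_mul_of_nonneg_right C.t1 (show 0 ≤ u * J by positivity)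
    rw [hV]
    have h2 : 0 ≤ θ * u * J := by rw [← hV]; exact hV0
    linarith
  have e8 : β * (u * J) ≤ τ * ξ * (u * J) := mul_le_mul_of_nonneg_right C.β5 (by positivity)
  rw [← hV] at hZ
  have g1 : (((1 - h) * (a * κ * (ξ * u) + 2 * φ) + (a * κ * (ξ * u) + 22 * y)) * Real.log 2 +
      φ + 8 * Cr * φ + θ * u) * J + 4 * Real.log 5 =
      (2 - h) * Real.log 2 * (a * κ) * (ξ * u * J - 1) + (2 - h) * Real.log 2 * (a * κ) +
      2 * ((1 - h) * Real.log 2 * (φ * J)) + 22 * (y * J * Real.log 2) + φ * J +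
      8 * (Cr * φ * J) + V + 4 * Real.log 5 := by
    rw [hV]
    ring
  have g2 : (2 - h) * (a * (κ * X)) * Real.log 2 = (2 - h) * Real.log 2 * (a * κ) * X := by ring
  rw [g1, g2]
  linarith

/-- **The fullness.** -/
theorem f_lep {k D Cg Cc : ℕ} {s τ ξ ι δ₁ δ₂ θ β : ℝ} (C : CS (k + 1) D Cg Cc s τ ξ ι δ₁ δ₂ θ β)
    (hτ : 0 < τ) (hξ : 0 < ξ)
    {u J X φ y κ Cf a : ℝ} (hu : 0 < u) (hJ : 0 ≤ J) (hX : ξ * u * J - 1 ≤ X)
    (hX2 : X ≤ ξ * u * J) (hyu : y ≤ θ * u) (hy : 0 ≤ y)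
    (hCf : Cf * φ ≤ y) (hκ : 0 < κ) (ha : 0 ≤ a) (hZ : 2 + 2 * Real.log 5 ≤ θ * u * J) :
    a * (κ * X) * Real.log 2 - τ * X ≤
      ((a * κ * (ξ * u) - 30 * y) * Real.log 2 - 4 * Cf * φ - θ * u) * J - 3 * Real.log 5 := by
  have hl2 : 0 < Real.log 2 := Real.log_pos one_lt_two
  have hl2' : Real.log 2 ≤ 1 := by
    have := Real.log_two_lt_d9
    linarith
  have hl5 : 0 < Real.log 5 := Real.log_pos (by norm_num)
  obtain ⟨-, -, h3⟩ := C.X_le hτ hu hJ hX (by linarith)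
  obtain ⟨V, hV⟩ : ∃ V : ℝ, V = θ * u * J := ⟨_, rfl⟩
  have hV0 : 0 ≤ V := by
    rw [hV]
    have := C.θ0
    positivity
  have yV : y * J ≤ V := by
    rw [hV]
    exact mul_le_mul_of_nonneg_right hyu hJ
  have CV : Cf * φ * J ≤ V := (mul_le_mul_of_nonneg_right hCf hJ).trans yV
  have e2 : a * κ * Real.log 2 * X ≤ a * κ * Real.log 2 * (ξ * u * J) :=
    mul_le_mul_of_nonneg_left hX2 (by positivity)
  have e6 : y * J * Real.log 2 ≤ y * J := mul_le_of_le_one_right (by positivity) hl2'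
  have e5 : 656 * V ≤ β * u * J := by
    have h1 := mul_le_mul_of_nonneg_right C.t1 (show 0 ≤ u * J by positivity)
    rw [hV]
    have h2 : 0 ≤ θ * u * J := by rw [← hV]; exact hV0
    linarith
  have e8 : β * (u * J) ≤ τ * ξ * (u * J) := mul_le_mul_of_nonneg_right C.β5 (by positivity)
  rw [← hV] at hZ
  have g1 : ((a * κ * (ξ * u) - 30 * y) * Real.log 2 - 4 * Cf * φ - θ * u) * J -
      3 * Real.log 5 = a * κ * Real.log 2 * (ξ * u * J) - 30 * (y * J * Real.log 2) -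
      4 * (Cf * φ * J) - V - 3 * Real.log 5 := by
    rw [hV]
    ring
  have g2 : a * (κ * X) * Real.log 2 = a * κ * Real.log 2 * X := by ring
  rw [g1, g2]
  linarith

/-- **The exponents.** -/
theorem k2_lep {ξ κ₂ δ u J : ℝ} {X X₂ : ℕ} (hξ : 0 < ξ) (hκ : 0 < κ₂)
    (hδ : 0 < δ) (hX : ξ * u * J - 1 ≤ X) (h2 : κ₂ / (ξ * δ) ≤ X₂) (h3 : X₂ ≤ X) :
    κ₂ * u * J ≤ (κ₂ / ξ + δ) * X := by
  have h4 : κ₂ / (ξ * δ) ≤ X := h2.trans (by exact_mod_cast h3)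
  have h5 : κ₂ / ξ ≤ δ * X := by
    rw [div_le_iff₀ (by positivity)] at h4
    rw [div_le_iff₀ hξ]
    linarith
  have h6 : κ₂ / ξ * (ξ * u * J - 1) ≤ κ₂ / ξ * X := mul_le_mul_of_nonneg_left hX (by positivity)
  have h7 : κ₂ / ξ * (ξ * u * J - 1) = κ₂ * u * J - κ₂ / ξ := by
    field_simp
  linarith

end Pool.V0Q
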