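import Pool.Agent.H44.V0P.Evp
import Pool.Agent.H44.V0P.Num5

/-!
# Small steps of the class theorem for a pair

`frp_cls`: the frame is closed; `chp_cl2`: the charts of the first windows and the frame are closed;
`gg_cell`: the gradients of two samples of one point; `cond_supp`: events equal on the support.
-/

set_option autoImplicit false

namespace Pool.V0Q

open Finset Real MvPolynomial
open Pool.Agent.H49.Ent Pool.Agent.H32.Dense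
open Pool.STK hiding pr2
open Pool.KA Pool.KSAT Pool.K2S Pool.PB Pool.S6C
open Pool.GEN Pool.CHT Pool.CHX Pool.ISO Pool.LA91 Pool.AVG71 Pool.AVG5 Pool.D2F2 Pool.AVG57
open Pool.RCD Pool.AVG96 Pool.OWN68 Pool.V0F
open Pool.AJW (CfB)
open Pool.D2R (WinB gnh hgt hyb chs)
open Pool.LV64 (GrdV NrH)

section law

variable {Ω : Type} [Fintype Ω] {p : Ω → ℝ}

/-- Events which are equal on the support. -/
theorem cond_supp (h0 : ∀ ω, 0 ≤ p ω) {E E' : Ω → Prop} (h : ∀ ω, 0 < p ω → (E ω ↔ E' ω)) :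
    Pool.Agent.H49.Ent.cond p E True = Pool.Agent.H49.Ent.cond p E' True ∧ Pe p E = Pe p E' := by
  classical
  have h1 : Pe p E = Pe p E' := by
    rw [Pe_eq, Pe_eq]
    refine Finset.sum_congr rfl fun ω _ => ?_
    rcases (h0 ω).lt_or_eq with h2 | h2
    · by_cases h3 : E ω
      · rw [if_pos h3, if_pos ((h ω h2).1 h3)]
      · rw [if_neg h3, if_neg (fun h4 => h3 ((h ω h2).2 h4))]
    · rw [← h2, ite_self, ite_self]
  refine ⟨funext fun ω => ?_, h1⟩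
  rw [Pool.RPL.cond_ev_eq, Pool.RPL.cond_ev_eq, h1]
  rcases (h0 ω).lt_or_eq with h2 | h2
  · by_cases h3 : E ω
    · rw [if_pos h3, if_pos ((h ω h2).1 h3)]
    · rw [if_neg h3, if_neg (fun h4 => h3 ((h ω h2).2 h4))]
  · rw [← h2, zero_div, ite_self, ite_self]

/-- The mass of a part. -/
theorem pe_part {A E : Ω → Prop} (hA : 0 < Pe p A) {π₀ : ℝ}
    (h : π₀ ≤ Pe (Pool.Agent.H49.Ent.cond p A True) E) :
    π₀ * Pe p A ≤ Pe p (fun ω => A ω ∧ E ω) := by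
  rw [Pe_cond, le_div_iff₀ hA] at h
  exact h

end law

variable {m J : ℕ} {F : Fam m J} {c : ℕ → Fin m}

/-- The canonical record is closed. -/
theorem cl2_cR (A : F.Ω → Prop) (w : ℝ) : Cl2 (ptr F J) (vg w J F) A (cR F A w) :=
  Cl2.pi (V := fun _ => Prop) fun D => D.2

section

variable {k D D' Dr N M : ℕ} {C₀ a Eb ηm : ℝ} {o η σ : ℕ → ℝ} {lv bb : ℕ → ℕ → ℝ} {κ : ℝ}
  {z : ℕ → ℕ → ℕ} {A : F.Ω → Prop} {g₀ : ℕ → ℕ → ℕ}
  {G : ℕ → PtT F → ℕ → MvPolynomial (Option (Fin m)) ℝ}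
  {H : ℕ → LnT F → ℕ → MvPolynomial (Option (Fin m)) ℝ}
  {GN : PtT F → MvPolynomial (Option (Fin m)) ℝ} {HN : LnT F → MvPolynomial (Option (Fin m)) ℝ}

/-- **The frame is closed.** -/
theorem frp_cls (W : WinB F c (k + 1) D Dr N M C₀ a Eb ηm o η σ lv bb κ z A g₀ G H)
    {kb kw : ℕ} (hb : kb ≤ N) (hw : kw ≤ N) (hbw : o kb ≤ o kw) (hw1 : o kw ≤ 1)
    (hcl : ∀ ω, A ω → GN (ptr F J ω) = HN (slam F ⌊o kw * J⌋₊ ω)) {ω : F.Ω} (hω : A ω) (l : ℕ) :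
    frP G GN kb kw k (ptr F J ω) l =
      frH H HN kb kw k ⌊o kb * J⌋₊ ⌊o kw * J⌋₊ (slam F ⌊o kw * J⌋₊ ω) l := by
  have hJ : (0 : ℝ) ≤ J := Nat.cast_nonneg J
  unfold frP frH
  by_cases h1 : l < k
  · rw [if_pos h1, if_pos h1, upw_slam F (Nat.floor_le_floor
      (mul_le_mul_of_nonneg_right hbw hJ)) (floor_le hw1 J)]
    exact (W.ev kb hb).cls ω hω l (by omega)
  · rw [if_neg h1, if_neg h1]
    by_cases h2 : l = k
    · rw [if_pos h2, if_pos h2]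
      exact (W.ev kw hw).cls ω hω l (by omega)
    · rw [if_neg h2, if_neg h2]
      exact hcl ω hω

theorem frh_deg (W : WinB F c (k + 1) D Dr N M C₀ a Eb ηm o η σ lv bb κ z A g₀ G H)
    {kb kw : ℕ} (hb : kb ≤ N) (hw : kw ≤ N) (hD : D ≤ D')
    (hdg : ∀ s', (HN s').totalDegree ≤ D') {wb w : ℕ} (s : LnT F) (l : ℕ) :
    (frH H HN kb kw k wb w s l).totalDegree ≤ D' := by
  unfold frH
  by_cases h1 : l < k
  · rw [if_pos h1]
    exact ((W.ev kb hb).ball.degH _ _).trans hD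
  · rw [if_neg h1]
    by_cases h2 : l = k
    · rw [if_pos h2]
      exact ((W.ev kw hw).ball.degH _ _).trans hD
    · rw [if_neg h2]
      exact hdg s

/-- **The charts of the first windows and the frame are closed.** -/
theorem chp_cl2 (W : WinB F c (k + 1) D Dr N M C₀ a Eb ηm o η σ lv bb κ z A g₀ G H)
    {kb : ℕ} {f : ℕ → ℕ} {n : ℕ} {v : ℝ} (hv : v ≤ 1) (hb : kb ≤ N) (hf : ∀ t ≤ n, f t ≤ N)
    (hbw : o kb ≤ o (f 0)) (hof : ∀ t ≤ n, o (f t) ≤ v)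
    (hcl : ∀ ω, A ω → GN (ptr F J ω) = HN (slam F ⌊o (f 0) * J⌋₊ ω)) :
    Cl2 (ptr F J) (vg v J F) A (chP F k n G GN kb (f 0) f) := by
  have hJ : (0 : ℝ) ≤ J := Nat.cast_nonneg J
  have h0v : o (f 0) ≤ v := hof 0 (Nat.zero_le _)
  refine Cl2.join (chs_cl2 hv (W := fun t => ⌊o (f t) * J⌋₊) (H := fun t => H (f t))
    (fun t ht => Nat.floor_le_floor (mul_le_mul_of_nonneg_right (hof t ht) hJ))
    (fun t ht ω hω l hl => (W.ev (f t) (hf t ht)).cls ω hω l (by omega))) ?_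
  refine ⟨⟨fun y l => frP G GN kb (f 0) k y l, fun ω _ => rfl⟩, fun s l =>
    frH H HN kb (f 0) k ⌊o kb * J⌋₊ ⌊o (f 0) * J⌋₊ (upw ⌊o (f 0) * J⌋₊ ⌊v * J⌋₊ s) l,
    fun ω hω => ?_⟩
  funext l
  show frP G GN kb (f 0) k (ptr F J ω) l = frH H HN kb (f 0) k ⌊o kb * J⌋₊ ⌊o (f 0) * J⌋₊
    (upw ⌊o (f 0) * J⌋₊ ⌊v * J⌋₊ (slam F ⌊v * J⌋₊ ω)) l
  rw [upw_slam F (Nat.floor_le_floor (mul_le_mul_of_nonneg_right h0v hJ)) (floor_le hv J)]
  exact frp_cls W hb (hf 0 (Nat.zero_le _)) hbw (h0v.trans hv) hcl hω l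

end

/-- **The codes** over other digits of the own jets, and other records. -/
theorem code_evp {p : F.Ω → ℝ} (hp : IsLaw p) {w : ℕ}
    {H : LnT F → ℕ → MvPolynomial (Option (Fin m)) ℝ} {k D j₀ l N N' : ℕ} {d : ℝ}
    (hd : (N' : ℝ) - N ≤ d) (hd0 : 0 ≤ d) {n n' : ℕ → ℕ → ℝ} (h0' : ∀ l < k, n l 0 ≤ n' l 0)
    (h1' : ∀ l < k, n l 1 ≤ n' l 1) {ζ ζ' : Type} {zw : F.Ω → ζ} {zw' : F.Ω → ζ'}
    (hz : Det p zw zw') :
    CH p (Pool.AVG57.cod F w (fun s => H s l) (c l) N' j₀ D)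
        (fun ω => (jetm F c (fun i : Fin k => (i : ℕ)) w H (fun l => n' l) ω,
          (zw ω, F.W ω))) ≤
      CH p (Pool.AVG57.cod F w (fun s => H s l) (c l) N j₀ D)
        (fun ω => (jet2 F c w H 0 k n ω, (zw' ω, F.W ω))) +
        ((D : ℝ) + 1) * (d * Real.log 2 + Real.log 5) + 2 * k * Real.log 5 := by
  have s1 := cod_evp hp (F := F) (c := c) (w := w) (H := H) (D := D) (j₀ := j₀) (l := l) hd hd0
    (fun ω => (jetm F c (fun i : Fin k => (i : ℕ)) w H (fun l => n' l) ω, (zw ω, F.W ω)))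
  have s2 := jet_evp hp (F := F) (c := c) (w := w) (H := H) h0' h1'
    (Pool.AVG57.cod F w (fun s => H s l) (c l) N j₀ D) (fun ω => (zw ω, F.W ω))
  have s3 : CH p (Pool.AVG57.cod F w (fun s => H s l) (c l) N j₀ D)
      (fun ω => (jet2 F c w H 0 k n ω, (zw ω, F.W ω))) ≤
      CH p (Pool.AVG57.cod F w (fun s => H s l) (c l) N j₀ D)
      (fun ω => (jet2 F c w H 0 k n ω, (zw' ω, F.W ω))) :=
    CH_mono_cond hp.nonneg fun ω ν hω hν e => by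
      simp only [Prod.mk.injEq] at e ⊢
      exact ⟨e.1, hz ω ν hω hν e.2.1, e.2.2⟩
  linarith

/-- **The gradients** of two samples of one point. -/
theorem gg_cell {k : ℕ} {tg qt Xt : Fin 2 → ℕ} {q X mm : ℕ} {γ : ℕ → ℕ} {U : ℝ}
    {B : F.Ω → Prop} {G₀ : PtT F → ℕ → MvPolynomial (Option (Fin m)) ℝ}
    {gg : F.Ω → Fin 2 → Fin k → ℝ} {χ₁ χ₂ : Type} {Cj : F.Ω → χ₁} {Cx : F.Ω → χ₂}
    (h : GrdV F c (fun j : Fin k => (j : ℕ)) tg qt Xt q X γ U B G₀ gg (fun _ => ()) Cj Cx)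
    (hC : ∀ ω ν, ptr F J ω = ptr F J ν → Cx ω = Cx ν)
    (hc : ∀ ω ν, B ω → B ν → ptr F J ω = ptr F J ν → ∀ l < k,
      |hgt F c G₀ ω l - hgt F c G₀ ν l| ≤ 1 / 2 ^ (γ l + q + (X + mm))) {ω ν : F.Ω} (hω : B ω)
    (hν : B ν) (e : ptr F J ω = ptr F J ν) (u : Fin 2) (j : Fin k) :
    |gg ω u j - gg ν u j| ≤ U / 2 ^ X := by
  have ht : F.t ω = F.t ν := by
    have hT : F.T ω = F.T ν := (Prod.ext_iff.1 (Prod.ext_iff.1 e).2).1
    unfold Fam.t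
    rw [hT]
  refine h.bx ω ν hω hν ht rfl (hC ω ν e) (fun i => ?_) u j
  have h1 := hc ω ν hω hν e i i.2
  refine h1.trans ?_
  have h2 : (2 : ℝ) ^ (γ i + q) ≤ 2 ^ (γ (i : ℕ) + q + (X + mm)) :=
    pow_le_pow_right₀ one_le_two (by omega)
  have h3 : (0 : ℝ) < 2 ^ (γ (i : ℕ) + q) := by positivity
  calc (1 : ℝ) / 2 ^ (γ (i : ℕ) + q + (X + mm)) ≤ 1 / 2 ^ (γ (i : ℕ) + q) :=
        one_div_le_one_div_of_le h3 h2
    _ ≤ 2 ^ 2 / 2 ^ (γ (i : ℕ) + q) := by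
        refine div_le_div_of_nonneg_right (by norm_num) h3.le

end Pool.V0Q
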