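import Pool.Agent.H44.V0P.Num3
import Pool.Agent.H44.V0F.Num3

/-!
# The numbers of the class theorems for several targets of one slope, fourth part

`NOP`: the conditions of the event theorems; `NP.no`: from the numbers of one event.
-/

set_option autoImplicit false

namespace Pool.V0Q

open Finset Real
open Pool.LA91 Pool.V0F

/-- **The conditions of the event theorem**, targets `k, …, k + f`. -/
structure NOP (k f : ℕ) (sn : ℕ → ℝ → ℝ) (lam : ℝ → ℝ) (P : ℕ → ℝ)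
    (φ w u y ξ κ e j x' xr xq oq : ℝ) (J : ℕ) (γ : ℕ → ℕ) (q X mm W : ℕ) : Prop where
  WX : W + X ≤ J
  n0 : ∀ l < k, nnP k sn w u y φ l * J ≤ (γ l + q : ℕ)
  u0 : ∀ l < k, (sn l w + u + 400 * ((k : ℝ) + 2) * φ) * J ≤ (γ l + q : ℕ)
  u1 : ∀ l < k, (sn l w + u + 400 * ((k : ℝ) + 2) * φ - w) * J + W ≤ (γ l + q + (X + mm) : ℕ)
  m0 : ∀ l, k ≤ l → l ≤ k + f → (sn l j - 60 * φ) * J ≤ (γ l + q : ℕ)
  m1 : ∀ l, k ≤ l → l ≤ k + f → ((γ l + q : ℕ) : ℝ) ≤ (sn l j - 60 * φ) * J + 1000 * y * J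
  f2 : ((γ (k + f) + q + X : ℕ) : ℝ) ≤ lam oq * J
  f3 : lam oq * J ≤ (γ (k + f) + q + X : ℕ) + 1000 * y * J
  f4 : ∀ l, k ≤ l → l ≤ k + f → ((γ l + q + X : ℕ) : ℝ) ≤ (sn l xq - e) * J
  f5 : ∀ l, k ≤ l → l ≤ k + f → (sn l xq - e) * J ≤ (γ l + q + X : ℕ) + 1000 * y * J
  f0 : ∀ l < k, ((γ l + q + (X + mm) : ℕ) : ℝ) ≤ nfP k sn w x' φ l * J
  f1 : ∀ l < k, ((γ l + q + (X + mm) : ℕ) : ℝ) ≤ P l * J + W
  d : ∀ l < k, ((γ l + q : ℕ) : ℝ) - nnP k sn w u y φ l * J ≤ 1000 * y * J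
  nb1 : ∀ l < k, ((γ l + q + X : ℕ) : ℝ) ≤ nfP k sn w xr φ l * J
  nb2 : ∀ l < k, nfP k sn w xr φ l * J ≤ (γ l + q + (X + mm) : ℕ)
  dj : ∀ l, k ≤ l → l ≤ k + f →
    ((γ l + q + X : ℕ) : ℝ) ≤ (sn l w + (1 + ξ) * u) * J + 500 * y * J
  jt : ∀ l, k ≤ l → l ≤ k + f → ((γ l + q : ℕ) : ℝ) ≤ (sn l w + u) * J + 500 * y * J
  k9 : ∀ l < k, ((γ l + q + (X + mm) : ℕ) : ℝ) ≤ (sn l w + 3 * u) * J
  row : ∀ a : ℕ, (a : ℝ) * κ ≤ 1 → ∀ l, k ≤ l → l ≤ k + f →
    (sn l w + u + 500 * y - 2 * φ) * J ≤ (γ l + q : ℕ) ∧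
    ((γ l + q + a * ⌊κ * X⌋₊ : ℕ) : ℝ) ≤ (sn l w + u + 500 * y + a * κ * (ξ * u)) * J ∧
    (sn l w + u + 500 * y + a * κ * (ξ * u) - 2 * φ) * J ≤ (γ l + q + a * ⌊κ * X⌋₊ : ℕ)

theorem NP.no {k f : ℕ} {s : ℝ} {sn : ℕ → ℝ → ℝ} {G : Set ℝ} {b o φ w u y ξ T Λ C κ e : ℝ}
    {lam : ℝ → ℝ} {j x x' xr xq w₁ vq oq : ℝ} {xa : ℕ → ℝ} {J : ℕ} {γ : ℕ → ℕ}
    {q X mm W : ℕ} {P : ℕ → ℝ}
    (N : NP k f s sn G b o φ w u y ξ T Λ C κ e lam j x x' xr xq w₁ vq oq xa)
    (M : NJ (k + f) sn φ w u y ξ κ J γ q X mm W)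
    (hP : ∀ l < k, sn l w - w + (T + 1) * u ≤ P l) :
    NOP k f sn lam P φ w u y ξ κ e j x' xr xq oq J γ q X mm W := by
  obtain ⟨a1, a2, a3, a4, a5, a6, a7, a8, a9, a10, a11, a12, a13, a14, a15⟩ := N.wins
  obtain ⟨b1, b2, b3, b4, b5, b6, b7, b8, b9, b10, b11, b12, b13, b14, b15, b16, b17⟩ := N.wb
  obtain ⟨h1, h2, h3, h4, h5, h6, h7, h8, h9, h10⟩ := N.sm
  obtain ⟨c1, c2, c3, c4, c5, c6, c7, c8, c9, c10, c11, c12⟩ := N.sw
  obtain ⟨d1, d2⟩ := N.ξu
  obtain ⟨l1, l2⟩ := N.lmo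
  have hx' := abs_le.1 N.hx'
  have hxr := abs_le.1 N.hxr
  have hu := N.u0
  have hyu := N.yu
  have hyξ := N.yξ
  have hr := N.room
  have hT := N.Tu0
  have hru := N.ru0
  have hwo := N.wo
  have ho1 := N.o1
  have hy0 := N.y0
  have hJ : (0 : ℝ) ≤ J := Nat.cast_nonneg J
  have hκ := M.κ0
  have hκ' : 0 < 1 / κ := by positivity
  have big := M.big
  have q1 := M.q1
  have q2 := M.q2
  have X1 := M.X1
  have X2 := M.X2
  have m1 := M.mm1
  have m2 := M.mm2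
  have W1 := M.W1
  have W2 := M.W2
  have g1 := M.g1
  have g2 := M.g2
  have hX0 : (0 : ℝ) ≤ X := Nat.cast_nonneg X
  have hm0 : (0 : ℝ) ≤ mm := Nat.cast_nonneg mm
  have m400 : 400 * ((k : ℝ) + 2) * φ ≤ 400 * y := by linarith
  have mj : ∀ {a a' : ℝ}, a ≤ a' → a * J ≤ a' * J := fun h => mul_le_mul_of_nonneg_right h hJ
  refine ⟨?_, fun l hl => ?_, fun l hl => ?_, fun l hl => ?_, fun l h11 h12 => ?_,
    fun l h11 h12 => ?_, ?_, ?_, fun l h11 h12 => ?_, fun l h11 h12 => ?_, fun l hl => ?_,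
    fun l hl => ?_, fun l hl => ?_, fun l hl => ?_, fun l hl => ?_, fun l h11 h12 => ?_,
    fun l h11 h12 => ?_, fun l hl => ?_, fun a ha l h11 h12 => ⟨?_, ?_, ?_⟩⟩
  · have e1 := mj (show w + 2 * φ + ξ * u ≤ 1 by linarith)
    have e2 : ((W + X : ℕ) : ℝ) ≤ J := by
      push_cast
      linarith
    exact_mod_cast e2
  · obtain ⟨i1, i2, i3⟩ := N.li hl
    have e1 := g1 l (by omega)
    have e2 := mj (show nnP k sn w u y φ l + φ ≤ sn l w - φ + (u + 500 * y) by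
      unfold nnP
      linarith)
    push_cast
    linarith
  · obtain ⟨i1, i2, i3⟩ := N.li hl
    have e1 := g1 l (by omega)
    have e2 := mj (show sn l w + u + 400 * ((k : ℝ) + 2) * φ + φ ≤
      sn l w - φ + (u + 500 * y) by linarith)
    push_cast
    linarith
  · obtain ⟨i1, i2, i3⟩ := N.li hl
    have e1 := g1 l (by omega)
    have e2 := mj (show sn l w + u + 400 * ((k : ℝ) + 2) * φ - w + (w + 2 * φ) + φ ≤
        sn l w - φ + (u + 500 * y) by linarith)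
    push_cast
    linarith
  · have e1 := g1 l h12
    have e3 := N.stv h11 h12 N.jG b4 b5
    have e2 := mj (show sn l j - 60 * φ + φ ≤ sn l w - φ + (u + 500 * y) by linarith)
    push_cast
    linarith
  · have e1 := g2 l h12
    have e3 := N.stv h11 h12 N.jG b4 b5
    have e2 := mj (show sn l w + (u + 500 * y) ≤ sn l j - 60 * φ + 1000 * y by linarith)
    push_cast
    linarith
  · have e1 := g2 (k + f) le_rfl
    have e2 := mj (show sn (k + f) w + (u + 500 * y) + ξ * u ≤ lam oq by linarith)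
    push_cast
    linarith
  · have e1 := g1 (k + f) le_rfl
    have e2 := mj (show lam oq + φ ≤ sn (k + f) w - φ + (u + 500 * y) + ξ * u + 1000 * y by
      linarith)
    push_cast
    linarith
  · have e1 := g2 l h12
    have e3 := N.lmq h11 h12
    have e2 := mj (show sn l w + (u + 500 * y) + ξ * u ≤ sn l xq - e by linarith)
    push_cast
    linarith
  · have e1 := g1 l h12
    have e3 := N.lmq h11 h12
    have e2 := mj (show sn l xq - e + φ ≤ sn l w - φ + (u + 500 * y) + ξ * u + 1000 * y by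
      linarith)
    push_cast
    linarith
  · obtain ⟨i1, i2, i3⟩ := N.li hl
    have e1 := g2 l (by omega)
    have e2 := mj (show sn l w + (u + 500 * y) + ξ * u + u / 2 ≤ nfP k sn w x' φ l by
      unfold nfP
      linarith)
    push_cast
    linarith
  · have e1 := g2 l (by omega)
    have e2 := mj (show sn l w + (u + 500 * y) + ξ * u + u / 2 + φ ≤ P l + w by
      have := hP l hl
      linarith)
    push_cast
    linarith
  · obtain ⟨i1, i2, i3⟩ := N.li hl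
    have e1 := g2 l (by omega)
    have e2 := mj (show sn l w + (u + 500 * y) ≤ nnP k sn w u y φ l + 1000 * y by
      unfold nnP
      linarith)
    push_cast
    linarith
  · obtain ⟨i1, i2, i3⟩ := N.li hl
    have e1 := g2 l (by omega)
    have e2 := mj (show sn l w + (u + 500 * y) + ξ * u ≤ nfP k sn w xr φ l by
      unfold nfP
      linarith)
    push_cast
    linarith
  · obtain ⟨i1, i2, i3⟩ := N.li hl
    have e1 := g1 l (by omega)
    have e2 := mj (show nfP k sn w xr φ l ≤ sn l w - φ + (u + 500 * y) + ξ * u + 1000 * y by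
      unfold nfP
      linarith)
    push_cast
    linarith
  · have e1 := g2 l h12
    have e2 := mj (show sn l w + (u + 500 * y) + ξ * u ≤ sn l w + (1 + ξ) * u + 500 * y by
      linarith)
    push_cast
    linarith
  · have e1 := g2 l h12
    push_cast
    linarith
  · have e1 := g2 l (by omega)
    have e2 := mj (show sn l w + (u + 500 * y) + ξ * u + u / 2 ≤ sn l w + 3 * u by linarith)
    push_cast
    linarith
  · have e1 := g1 l h12
    have e2 := mj (show sn l w + u + 500 * y - 2 * φ + φ ≤ sn l w - φ + (u + 500 * y) by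
      linarith)
    push_cast
    linarith
  · have e1 := g2 l h12
    have ha0 : (0 : ℝ) ≤ a := Nat.cast_nonneg a
    have k1 : (⌊κ * X⌋₊ : ℝ) ≤ κ * X := Nat.floor_le (by positivity)
    have k2 : (a : ℝ) * ⌊κ * X⌋₊ ≤ a * (κ * X) :=
      mul_le_mul_of_nonneg_left k1 (by positivity)
    have k3 : (a : ℝ) * κ * X ≤ a * κ * (ξ * u * J) :=
      mul_le_mul_of_nonneg_left X2 (by positivity)
    push_cast
    linarith
  · have e1 := g1 l h12
    have ha0 : (0 : ℝ) ≤ a := Nat.cast_nonneg a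
    have k1 : κ * X - 1 ≤ (⌊κ * X⌋₊ : ℝ) := by
      have := Nat.lt_floor_add_one (κ * (X : ℝ))
      linarith
    have k2 : (a : ℝ) * (κ * X - 1) ≤ a * ⌊κ * X⌋₊ := mul_le_mul_of_nonneg_left k1 ha0
    have k3 : (a : ℝ) * κ * (ξ * u * J - 1) ≤ a * κ * X :=
      mul_le_mul_of_nonneg_left X1 (by positivity)
    have k5 : (a : ℝ) ≤ 1 / κ := by
      rw [le_div_iff₀ hκ]
      exact ha
    push_cast
    linarith

end Pool.V0Q
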