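import Pool.Agent.H44.V0P.Vlp
import Pool.Agent.H44.V0P.Num4

/-!
# Conversions of one event for a pair

`row_evp`: rows of the pair from rows with fixed digits; `ful_evp`: fullness; `jet_evp`: codes over
other digits of the own jets.
-/

set_option autoImplicit false

namespace Pool.V0Q

open Finset Real MvPolynomial
open Pool.Agent.H49.Ent Pool.Agent.H32.Dense
open Pool.STK hiding pr2
open Pool.KA Pool.KSAT Pool.K2S Pool.PB Pool.S6C
open Pool.GEN Pool.CHT Pool.CHX Pool.ISO Pool.LA91 Pool.AVG71 Pool.AVG5 Pool.D2F2 Pool.AVG57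
open Pool.RCD Pool.AVG96 Pool.OWN68 Pool.V0F
open Pool.AJW (CfB)
open Pool.V0P (jp)
open Pool.LV64 (Mm)

section

variable {m J : ℕ} {F : Fam m J} {c : ℕ → Fin m} {w : ℕ}
  {H : LnT F → ℕ → MvPolynomial (Option (Fin m)) ℝ} {p : F.Ω → ℝ}

/-- Other digits of the own jets. -/
theorem CH_jp (hp : IsLaw p) {a C : ℕ} {tg : Fin C → ℕ} {n n' : Fin C → ℝ} {d : ℝ}
    (hd : ∀ l, (n' l - n l) * J ≤ d) (hd0 : 0 ≤ d) {𝓦 : Type} (Z : F.Ω → 𝓦)
    (hZ : Det p Z (jp F c a tg w H n)) :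
    CH p (jp F c a tg w H n') Z ≤ C * (d * Real.log 2 + Real.log 5) := by
  have h0 := hp.nonneg
  have hl2 : 0 < Real.log 2 := Real.log_pos one_lt_two
  refine ch_vec h0 Z C _ fun l => ?_
  have h2 := CH_dig hp (a := n l * J) (b := n' l * J)
    (fun ω => ojet F (c (tg l)) a (H (slam F w ω) (tg l)) ω) Z (fun ω ν hω hν e =>
      congrFun (hZ ω ν hω hν e) l)
  refine h2.trans (add_le_add (mul_le_mul_of_nonneg_right (max_le ?_ hd0) hl2.le) le_rfl)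
  have := hd l
  linarith

/-- The digits of the heights as digits of the own jets. -/
theorem mm_jp (hJ : 0 < J) {C : ℕ} (tg : Fin C → ℕ) (N : Fin C → ℕ) :
    Mm F c tg w H N = jp F c 0 tg w H (fun u => (N u : ℝ) / J) := by
  have hJ' : (J : ℝ) ≠ 0 := by exact_mod_cast hJ.ne'
  funext ω u
  unfold Mm jp Mh
  rw [div_mul_cancel₀ _ hJ', Real.rpow_natCast]

/-- **The rows of the pair** from rows with fixed digits. -/
theorem row_evp (hp : IsLaw p) (hJ : 0 < J) {k : ℕ} {nb : ℕ → ℝ} {N₁ N₂ : Fin 2 → ℕ}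
    {P₁ P₂ Q₁ Q₂ : ℝ} (h1 : P₁ * J ≤ N₁ 0) (h2 : Q₁ * J ≤ N₁ 1) (h3 : N₂ 0 ≤ P₂ * J)
    (h4 : N₂ 1 ≤ Q₂ * J) {ζ : Type} (zw : F.Ω → ζ) :
    CH p (Mm F c (fun u : Fin 2 => if u = 0 then k + 1 else k) w H N₂)
      (fun ω => (Mm F c (fun u : Fin 2 => if u = 0 then k + 1 else k) w H N₁ ω,
        (jp F c 0 (fun i : Fin k => (i : ℕ)) w H (fun l => nb l) ω, (F.W ω, zw ω)))) ≤
    CH p (fun ω => (th0 F c (k + 1) w H P₂ ω, th0 F c k w H Q₂ ω))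
      (fun ω => ((th0 F c (k + 1) w H P₁ ω, th0 F c k w H Q₁ ω), (jh F c k w H nb ω,
        (zw ω, F.W ω)))) + 4 * Real.log 5 := by
  have h0 := hp.nonneg
  have hJ' : (J : ℝ) ≠ 0 := by exact_mod_cast hJ.ne'
  obtain ⟨tg, htg⟩ : ∃ tg : Fin 2 → ℕ, tg = fun u : Fin 2 => if u = 0 then k + 1 else k :=
    ⟨_, rfl⟩
  obtain ⟨M₁, hM₁⟩ : ∃ M : Fin 2 → ℝ, M = fun u => if u = 0 then P₁ else Q₁ := ⟨_, rfl⟩
  obtain ⟨M₂, hM₂⟩ : ∃ M : Fin 2 → ℝ, M = fun u => if u = 0 then P₂ else Q₂ := ⟨_, rfl⟩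
  have d1 : Deq p (fun ω => (th0 F c (k + 1) w H P₁ ω, th0 F c k w H Q₁ ω))
      (jp F c 0 tg w H M₁) := by
    rw [htg]
    exact deq_th _ _ (by rw [hM₁]; rfl) (by rw [hM₁]; rfl)
  have d2 : Deq p (fun ω => (th0 F c (k + 1) w H P₂ ω, th0 F c k w H Q₂ ω))
      (jp F c 0 tg w H M₂) := by
    rw [htg]
    exact deq_th _ _ (by rw [hM₂]; rfl) (by rw [hM₂]; rfl)
  rw [← htg, mm_jp hJ, mm_jp hJ]
  obtain ⟨Z, hZ⟩ : ∃ Z : F.Ω → _, Z = fun ω => (jp F c 0 tg w H (fun u => (N₁ u : ℝ) / J) ω,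
    (jp F c 0 (fun i : Fin k => (i : ℕ)) w H (fun l => nb l) ω, (F.W ω, zw ω))) := ⟨_, rfl⟩
  rw [← hZ]
  have s1 := CH_le_add h0 (jp F c 0 tg w H (fun u => (N₂ u : ℝ) / J)) (jp F c 0 tg w H M₂) Z
  have s2 := CH_jp hp (a := 0) (tg := tg) (n := M₂) (n' := fun u => (N₂ u : ℝ) / J) (d := 0)
    (F := F) (c := c) (w := w) (H := H) (fun u => by
      rw [hM₂, sub_mul, div_mul_cancel₀ _ hJ']
      fin_cases u
      · simpa using h3
      · simpa using h4) le_rfl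
    (fun ω => (jp F c 0 tg w H M₂ ω, Z ω)) (fun ω ν _ _ e => (Prod.ext_iff.mp e).1)
  have s3 := CH_le_add h0 (jp F c 0 tg w H M₂) (jp F c 0 tg w H M₁) Z
  have s4 := CH_jp hp (a := 0) (tg := tg) (n := fun u => (N₁ u : ℝ) / J) (n' := M₁) (d := 0)
    (F := F) (c := c) (w := w) (H := H) (fun u => by
      rw [hM₁, sub_mul, div_mul_cancel₀ _ hJ']
      fin_cases u
      · simpa using h1
      · simpa using h2) le_rfl Z (fun ω ν _ _ e => by
        rw [hZ] at e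
        exact (Prod.ext_iff.mp e).1)
  have s5 : CH p (jp F c 0 tg w H M₂) (fun ω => (jp F c 0 tg w H M₁ ω, Z ω)) ≤
      CH p (fun ω => (th0 F c (k + 1) w H P₂ ω, th0 F c k w H Q₂ ω))
        (fun ω => ((th0 F c (k + 1) w H P₁ ω, th0 F c k w H Q₁ ω), (jh F c k w H nb ω,
          (zw ω, F.W ω)))) := by
    rw [Deq.ch h0 d2 (Deq.rfl' _)]
    refine CH_mono_cond h0 fun ω ν hω hν e => ?_
    rw [hZ] at e
    simp only [Prod.mk.injEq] at e ⊢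
    have e1 := d1.2 ω ν hω hν e.1
    have e2 := (deq_jh (p := p) (F := F) (c := c) (k := k) (w := w) (H := H) nb).2 ω ν hω hν
      e.2.2.1
    exact ⟨⟨(Prod.ext_iff.mp e1).1, (Prod.ext_iff.mp e1).2⟩, e2, e.2.2.2.2, e.2.2.2.1⟩
  have c2 : ((2 : ℕ) : ℝ) = 2 := by norm_num
  rw [c2] at s2 s4
  linarith

/-- **The fullness** of the digits of the place `k` from fixed digits. -/
theorem ful_evp (hp : IsLaw p) (hJ : 0 < J) {k : ℕ} {nb : ℕ → ℝ} {N₁ N₂ : Fin 2 → ℕ}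
    {P₁ Q₁ Q₂ : ℝ} (h1 : N₁ 0 ≤ P₁ * J) (h2 : N₁ 1 ≤ Q₁ * J) (h4 : Q₂ * J ≤ N₂ 1)
    {ζ V : Type} (zw : F.Ω → ζ) (z : F.Ω → V) :
    CH p (th0 F c k w H Q₂)
      (fun ω => ((th0 F c (k + 1) w H P₁ ω, th0 F c k w H Q₁ ω), (jh F c k w H nb ω,
        ((z ω, zw ω), F.W ω)))) - 3 * Real.log 5 ≤
    CH p (fun ω => Mm F c (fun u : Fin 2 => if u = 0 then k + 1 else k) w H N₂ ω 1)
      (fun ω => (z ω, (Mm F c (fun u : Fin 2 => if u = 0 then k + 1 else k) w H N₁ ω,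
        (jp F c 0 (fun i : Fin k => (i : ℕ)) w H (fun l => nb l) ω, (F.W ω, zw ω))))) := by
  have h0 := hp.nonneg
  have hJ' : (J : ℝ) ≠ 0 := by exact_mod_cast hJ.ne'
  obtain ⟨tg, htg⟩ : ∃ tg : Fin 2 → ℕ, tg = fun u : Fin 2 => if u = 0 then k + 1 else k :=
    ⟨_, rfl⟩
  obtain ⟨M₁, hM₁⟩ : ∃ M : Fin 2 → ℝ, M = fun u => if u = 0 then P₁ else Q₁ := ⟨_, rfl⟩
  have d1 : Deq p (fun ω => (th0 F c (k + 1) w H P₁ ω, th0 F c k w H Q₁ ω))
      (jp F c 0 tg w H M₁) := by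
    rw [htg]
    exact deq_th _ _ (by rw [hM₁]; rfl) (by rw [hM₁]; rfl)
  have tg1 : tg 1 = k := by rw [htg]; rfl
  have hX : (fun ω => Mm F c tg w H N₂ ω 1) = fun ω =>
      ⌊(2 : ℝ) ^ ((N₂ 1 : ℕ) : ℝ) * ojet F (c k) 0 (H (slam F w ω) k) ω⌋ := by
    funext ω
    unfold Mm Mh
    rw [Real.rpow_natCast, tg1]
  rw [← htg, hX]
  obtain ⟨Z, hZ⟩ : ∃ Z : F.Ω → _, Z = fun ω => (z ω, (Mm F c tg w H N₁ ω,
    (jp F c 0 (fun i : Fin k => (i : ℕ)) w H (fun l => nb l) ω, (F.W ω, zw ω)))) := ⟨_, rfl⟩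
  rw [← hZ]
  obtain ⟨Z', hZ'⟩ : ∃ Z' : F.Ω → _, Z' = fun ω => ((th0 F c (k + 1) w H P₁ ω,
    th0 F c k w H Q₁ ω), (jh F c k w H nb ω, ((z ω, zw ω), F.W ω))) := ⟨_, rfl⟩
  rw [← hZ']
  obtain ⟨X₂, hX₂⟩ : ∃ X₂ : F.Ω → ℤ, X₂ = fun ω =>
    ⌊(2 : ℝ) ^ ((N₂ 1 : ℕ) : ℝ) * ojet F (c k) 0 (H (slam F w ω) k) ω⌋ := ⟨_, rfl⟩
  rw [← hX₂]
  -- more digits
  have s1 : CH p (th0 F c k w H Q₂) Z' ≤ CH p X₂ Z' + Real.log 5 := by
    have e1 := CH_le_add h0 (th0 F c k w H Q₂) X₂ Z'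
    have e2 := CH_dig hp (a := ((N₂ 1 : ℕ) : ℝ)) (b := Q₂ * J)
      (fun ω => ojet F (c k) 0 (H (slam F w ω) k) ω) (fun ω => (X₂ ω, Z' ω))
      (fun ω ν _ _ e => by
        have e3 := (Prod.ext_iff.mp e).1
        rw [hX₂] at e3
        exact e3)
    rw [max_eq_right (by linarith), zero_mul, zero_add] at e2
    have e4 : CH p (th0 F c k w H Q₂) (fun ω => (X₂ ω, Z' ω)) ≤ Real.log 5 := e2
    linarith
  -- the condition
  have s2 : CH p X₂ Z' ≤ CH p X₂ Z + 2 * Real.log 5 := by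
    have e1 := CH_le_add h0 X₂ (Mm F c tg w H N₁) Z'
    have e2 : CH p X₂ (fun ω => (Mm F c tg w H N₁ ω, Z' ω)) ≤ CH p X₂ Z := by
      refine CH_mono_cond h0 fun ω ν hω hν e => ?_
      rw [hZ'] at e
      rw [hZ]
      simp only [Prod.mk.injEq] at e ⊢
      refine ⟨e.2.2.2.1.1, e.1, ?_, e.2.2.2.2, e.2.2.2.1.2⟩
      exact (deq_jh (p := p) (F := F) (c := c) (k := k) (w := w) (H := H) nb).1 ω ν hω hν
        e.2.2.1
    have e3 : CH p (Mm F c tg w H N₁) Z' ≤ 2 * Real.log 5 := by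
      rw [mm_jp hJ]
      have e4 := CH_jp hp (a := 0) (tg := tg) (n := M₁) (n' := fun u => (N₁ u : ℝ) / J) (d := 0)
        (F := F) (c := c) (w := w) (H := H) (fun u => by
          rw [hM₁, sub_mul, div_mul_cancel₀ _ hJ']
          fin_cases u
          · simpa using h1
          · simpa using h2) le_rfl Z' (fun ω ν hω hν e => by
            rw [hZ'] at e
            exact d1.1 ω ν hω hν (Prod.ext_iff.mp e).1)
      have c2 : ((2 : ℕ) : ℝ) = 2 := by norm_num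
      rw [c2, zero_mul, zero_add] at e4
      exact e4
    linarith
  linarith

/-- **Other digits of the own jets of the chain** in the condition. -/
theorem jet_evp (hp : IsLaw p) {k : ℕ} {N N' : ℕ → ℕ → ℝ} (h0' : ∀ l < k, N l 0 ≤ N' l 0)
    (h1' : ∀ l < k, N l 1 ≤ N' l 1) {𝓧 𝓨 : Type} (X : F.Ω → 𝓧) (Y : F.Ω → 𝓨) :
    CH p X (fun ω => (jetm F c (fun i : Fin k => (i : ℕ)) w H (fun l => N' l) ω, Y ω)) ≤
      CH p X (fun ω => (jet2 F c w H 0 k N ω, Y ω)) + 2 * k * Real.log 5 := by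
  have h0 := hp.nonneg
  have hJ : (0 : ℝ) ≤ J := Nat.cast_nonneg J
  have hr : 0 + k = k := Nat.zero_add k
  obtain ⟨Z, hZ⟩ : ∃ Z : F.Ω → _, Z = fun ω => (jetm F c (fun i : Fin k => (i : ℕ)) w H
    (fun l => N' l) ω, Y ω) := ⟨_, rfl⟩
  rw [← hZ]
  have hh : Det p Z (jh F c k w H fun l => N' l 0) := fun ω ν hω hν e => by
    rw [hZ] at e
    have e2 := (Prod.ext_iff.mp e).1
    funext l j'
    unfold jh
    by_cases h : l < k ∧ j' = 0
    · rw [if_pos h, if_pos h]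
      exact congrFun e2 (⟨l, h.1⟩, 0)
    · rw [if_neg h, if_neg h]
  have hv : Det p Z (jv F c k w H fun l => N' l 1) := fun ω ν hω hν e => by
    rw [hZ] at e
    have e2 := (Prod.ext_iff.mp e).1
    funext l
    exact congrFun e2 (l, 1)
  have s1 := CH_le_add h0 X (jet2 F c w H 0 k N) Z
  have s2 : CH p X (fun ω => (jet2 F c w H 0 k N ω, Z ω)) ≤
      CH p X (fun ω => (jet2 F c w H 0 k N ω, Y ω)) := CH_mono_cond h0 fun ω ν _ _ e => by
    rw [hZ] at e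
    exact Prod.ext (Prod.ext_iff.mp e).1 (Prod.ext_iff.mp (Prod.ext_iff.mp e).2).2
  have s3 : CH p (jet2 F c w H 0 k N) Z ≤ CH p (fun ω => (jv F c k w H (fun l => N l 1) ω,
      jh F c k w H (fun l => N l 0) ω)) Z := by
    refine CH_mono_left h0 fun ω ν hω hν e => ?_
    have e2 := Prod.ext_iff.mp (Prod.ext_iff.mp e).1
    have e3 := jhv_jet2 (p := p) (F := F) (c := c) (r := k) (w := w) (H := H) N ω ν hω hν
      (Prod.ext e2.2 e2.1)
    rw [hr] at e3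
    exact e3
  have s4 := CH_subadd h0 (jv F c k w H fun l => N l 1) (jh F c k w H fun l => N l 0) Z
  have s5 := CH_jv hp (n := fun l => N' l 1) (n' := fun l => N l 1) (d := 0) (fun l hl => by
    have := mul_nonneg (sub_nonneg.2 (h1' l hl)) hJ
    linarith) le_rfl Z hv
  have s6 := CH_jh hp (n := fun l => N' l 0)
    (n' := fun l => N l 0) (d := 0) (fun l hl => by
      have := mul_nonneg (sub_nonneg.2 (h0' l hl)) hJ
      linarith) le_rfl Z hh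
  linarith

/-- **More digits of the codes** of a label. -/
theorem cod_evp (hp : IsLaw p) {D j₀ l N N' : ℕ} {d : ℝ} (hd : (N' : ℝ) - N ≤ d) (hd0 : 0 ≤ d)
    {𝓦 : Type} (Z : F.Ω → 𝓦) :
    CH p (Pool.AVG57.cod F w (fun s => H s l) (c l) N' j₀ D) Z ≤
      CH p (Pool.AVG57.cod F w (fun s => H s l) (c l) N j₀ D) Z +
        ((D : ℝ) + 1) * (d * Real.log 2 + Real.log 5) := by
  have e1 : ∀ n : ℕ, Pool.AVG57.cod F w (fun s => H s l) (c l) n j₀ D =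
      Pool.AVG71.cod F w j₀ D (2 ^ (n : ℝ)) (c l) (fun s : LnT F => s) (fun s => H s l) := by
    intro n
    have e4 := cod_congr (F := F) (W := w) (j₀ := j₀) (D := D) (σ := 2 ^ n) (κ := c l)
      (z := fun s : LnT F => s) (z' := fun s : LnT F => s) (G := fun s => H s l)
      (G' := fun s => H s l) (fun ω => rfl)
    rw [Real.rpow_natCast]
    exact e4
  rw [e1, e1]
  exact cod_more hp hd hd0 _ _ _

end

end Pool.V0Q
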