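import Pool.Agent.H44.V0P.S
import Pool.Agent.H50.V0F.Rwe

/-!
# Fullness of the digits of the first of the two places

`fiu`: the statement `FiuStmt`, from `NuppStmt`.
-/

set_option autoImplicit false

namespace Pool.V0Q

open Finset Real MvPolynomial
open Pool.Agent.H49.Ent Pool.Agent.H32.Dense Pool.STK Pool.KA Pool.KSAT Pool.K2S Pool.PB Pool.GEN
open Pool.S6C Pool.RCD Pool.LA91 Pool.AVG96 Pool.OWN68 Pool.V0F
open Pool.UNJ (ceI)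

/-- **(FIU)** -/
theorem fiu (HN : NuppStmt) : FiuStmt := by
  intro k
  have hk0 : (0 : ℝ) ≤ k := Nat.cast_nonneg k
  obtain ⟨Cf, hCf⟩ : ∃ Cf : ℝ, Cf = 60 * ((k : ℝ) + 2) := ⟨_, rfl⟩
  refine ⟨Cf, by rw [hCf]; linarith, ?_⟩
  intro m S c sn G b o φ L w v p n pN pU M₁ U₁ U₂ hw hv hbw hwv hvo hv1 hp hpN hpU hn1 tp nst hU0
    hU hU1 hM1 hU1v hvU hlo hMn hUn hU2 hU2l π₀ hπ ε hε
  have L' := L.lad
  have hφ := L.φ0
  have hbv : b ≤ v := hbw.trans hwv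
  have hCφ : 0 ≤ Cf * φ := by rw [hCf]; positivity
  have h120 : 120 * φ ≤ Cf * φ := mul_le_mul_of_nonneg_right (by rw [hCf]; linarith) hφ.le
  have h20k : 20 * ((k : ℝ) + 1) * φ ≤ Cf * φ :=
    mul_le_mul_of_nonneg_right (by rw [hCf]; linarith) hφ.le
  have hv1' : v ≤ 1 := by linarith
  have hw1 : w ≤ 1 := hwv.trans hv1'
  have hl2 : 0 < Real.log 2 := Real.log_pos one_lt_two
  have hl1 : Real.log 2 ≤ 1 := by
    have := Real.log_two_lt_d9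
    linarith
  have hf : ∀ (J : ℕ) (F : Fam m J), ∃ φ : PtT F → PtT F, ∀ ω, ptr F J ω = φ (ptr F J ω) :=
    fun J F => ⟨fun y => y, fun _ => rfl⟩
  have hy := kn_W (c := c)
  obtain ⟨ρ, hρ⟩ : ∃ ρ : ℝ, ρ = ε / 16 := ⟨_, rfl⟩
  have hρ0 : 0 < ρ := by rw [hρ]; positivity
  obtain ⟨e₁, he₁, H₁⟩ := (HN L hf hy (w := w) (j := v) (oj := v) (pr := pN) (N := M₁) (p := p)
    (n := n) hw hv hbw hwv hvo le_rfl hv1' hp hpN nst (fun i hi => by linarith [hlo i hi])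
    (by linarith) (fun i hi => by linarith [hMn i hi])).mx L.pos ρ hρ0
  obtain ⟨e₂, he₂, H₂⟩ := (t_nup L' hf hy (w := w) (j := v) (oj := v) (pr := pU) (N := U₁) (p := p)
    (n := n) hw hv hbw hwv hvo le_rfl hv1' hp hpU nst (fun i hi => by linarith [hlo i hi])
    (by linarith) (fun i hi => by linarith [hUn i hi])).mx L.pos ρ hρ0
  obtain ⟨k₃, hk₃, e₃, he₃, H₃⟩ := fux L' hv hbv hvo hp (fun i hi => ⟨by
    linarith [hlo i hi], hn1 i hi⟩) tp ρ hρ0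
  obtain ⟨ua, rda, -, hcw⟩ := L.ch.ch w hw
  obtain ⟨ub, rdb, -, hcv⟩ := L.ch.ch v hv
  obtain ⟨k₄, hk₄, e₄, he₄, H₄⟩ := exj L' (i := k) (w := w) (pr := pU) (N := U₂) (E := 0)
    le_rfl hw (hcw.r1 k (Nat.zero_le _) (Nat.lt_succ_self k)) le_rfl
    ((hcw.att k (Nat.zero_le _) (Nat.lt_succ_self k)).attG hw1 le_rfl) hpU (hU0.trans hU)
    (by linarith) (by linarith) (fun l hl => by linarith [hU2l l hl]) ρ hρ0
  obtain ⟨e₀, he₀, l1, l2, l3, l4⟩ : ∃ e₀ : ℝ, 0 < e₀ ∧ e₀ ≤ e₁ ∧ e₀ ≤ e₂ ∧ e₀ ≤ e₃ ∧ e₀ ≤ e₄ :=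
    ⟨min (min e₁ e₂) (min e₃ e₄), lt_min (lt_min he₁ he₂) (lt_min he₃ he₄),
      (min_le_left _ _).trans (min_le_left _ _), (min_le_left _ _).trans (min_le_right _ _),
      (min_le_right _ _).trans (min_le_left _ _), (min_le_right _ _).trans (min_le_right _ _)⟩
  obtain ⟨J₁, hJ₁⟩ := exists_nat_ge (1 / ρ)
  refine ⟨e₀, he₀, fun K => Bas.mono J₁ ((Pool.GRW.bas_part (((H₁ K).and (H₂ K)).and
    (((H₃ K).and (H₄ K)).and (hcv.ful ρ hρ0))) (inv_pos.2 hπ)).and (pos_bas L.pos)) ?_⟩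
  rintro J hJ F A ⟨H, hA⟩ u m₁ u₁ u₂ hu hm₁ hu₁ hu₂ B hB hPB V z hz
  have hJ0 : (0 : ℝ) ≤ J := Nat.cast_nonneg J
  have hJ1 : (J₁ : ℝ) ≤ J := by exact_mod_cast hJ
  have h1J : 1 ≤ ρ * J := by
    have := hJ₁.trans hJ1
    rw [div_le_iff₀ hρ0] at this
    linarith
  have hPB' : Pe F.p A ≤ π₀⁻¹ * Pe F.p B := by
    rw [inv_mul_eq_div, le_div_iff₀ hπ, mul_comm]
    exact hPB
  have hB0 : 0 < Pe F.p B := lt_of_lt_of_le (mul_pos hπ hA) hPB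
  obtain ⟨⟨H₁, H₂⟩, ⟨H₃, H₄⟩, H₅⟩ := H B hB hPB'
  obtain ⟨V', z', hz', hfin⟩ := mx_fin (fun J F => ptr F J) (vg v) F hB0
  obtain ⟨Vb, zb, hzb, -⟩ := mx_fin (fun J F => ptr F J) (vg b) F hB0
  obtain ⟨Vw, zw, hzw, -⟩ := mx_fin (fun J F => ptr F J) (vg w) F hB0
  have hu' := (qJets m c 0 k 0 _ _ _).sub hB hu
  have hm₁' := (qJet m _ _ _ _ _ _).sub hB hm₁
  have hu₁' := (qJet m _ _ _ _ _ _).sub hB hu₁
  have hu₂' := (qJet m _ _ _ _ _ _).sub hB hu₂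
  have h1 := H₁ V' z' (hz' _ (half_pos hρ0).le) u m₁ ((qJets m c 0 k 0 _ _ _).mono le_rfl l1 hu')
    ((qJet m _ _ _ _ _ _).mono le_rfl l1 hm₁')
  have h2 := H₂ V' z' (hz' _ (half_pos hρ0).le) u u₁ ((qJets m c 0 k 0 _ _ _).mono le_rfl l2 hu')
    ((qJet m _ _ _ _ _ _).mono le_rfl l2 hu₁')
  have h3 := (H₃ V' z' (hz' k₃ hk₃.le) u ((qJets m c 0 k 0 _ _ _).mono le_rfl l3 hu')).2.2 Vb zb
    (hzb k₃ hk₃.le)
  have h4 := (H₄ Vw zw (hzw k₄ hk₄.le) u₂ ((qJet m _ _ _ _ _ _).mono le_rfl l4 hu₂')).2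
  -- the finest record at `v` as a function of the line
  obtain ⟨⟨ψp, hψp⟩, ψ, hψ⟩ := (hz' 0 le_rfl).1
  have h5 := H₅ V' ψp (fun s => ψ s) (fun ω hω => by
    rw [← hψp ω hω]
    exact hψ ω hω) k (Nat.zero_le _) (Nat.lt_succ_self k)
  obtain ⟨q', hq'⟩ : ∃ q' : F.Ω → ℝ, q' = Pool.Agent.H49.Ent.cond F.p B True := ⟨_, rfl⟩
  have hq'l : IsLaw q' := by
    rw [hq']
    exact isLaw_cond F.isLaw hB0
  have h0 := hq'l.nonneg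
  have hq'B : ∀ ω, 0 < q' ω → B ω := fun ω hω => by
    rw [hq'] at hω
    exact of_cond_pos hω
  have hzb' : ∀ ω ω', B ω → B ω' → z' ω = z' ω' → zb ω = zb ω' := by
    refine hfin Vb zb ((hzb 0 le_rfl).1.mono ⟨fun x => x, fun _ _ => rfl⟩ ?_)
    obtain ⟨χ, hχ⟩ := vg_mono hbv hv1' J F
    exact ⟨χ, fun ω _ => hχ ω⟩
  have hzw' : ∀ ω ω', B ω → B ω' → z' ω = z' ω' → zw ω = zw ω' := by
    refine hfin Vw zw ((hzw 0 le_rfl).1.mono ⟨fun x => x, fun _ _ => rfl⟩ ?_)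
    obtain ⟨χ, hχ⟩ := vg_mono hwv hv1' J F
    exact ⟨χ, fun ω _ => hχ ω⟩
  have hzz := hfin V z hz
  rw [← hq'] at h1 h2 h3 h4 h5 ⊢
  obtain ⟨X, hXd⟩ : ∃ X : F.Ω → Fin k → ℤ, X = fun ω (l : Fin k) => F.X J ω (c l) := ⟨_, rfl⟩
  have hXe : ∀ ω ω', X ω = X ω' → ceI ((range k).image c) (fun _ => J) (F.x ω) =
      ceI ((range k).image c) (fun _ => J) (F.x ω') := by
    intro ω ω' e
    refine ceI_tup le_rfl fun l hl => ?_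
    rw [hXd] at e
    exact congrFun e ⟨l, hl⟩
  obtain ⟨Y, hYd⟩ : ∃ Y : F.Ω → (Fin k → ℤ) × (V' × (ℕ × F.ζ)), Y = fun ω =>
    (X ω, (z' ω, F.W ω)) := ⟨_, rfl⟩
  -- more in the condition
  have r1 : CH q' u₂ (fun ω => (((m₁ ω, u₁ ω), u ω), Y ω)) ≤
      CH q' u₂ (fun ω => ((m₁ ω, u₁ ω), (u ω, (z ω, F.W ω)))) :=
    CH_mono_cond h0 fun ω ω' hω hω' e => by
      rw [hYd] at e
      simp only [Prod.mk.injEq] at e ⊢
      exact ⟨e.1.1, e.1.2, hzz ω ω' (hq'B ω hω) (hq'B ω' hω') e.2.2.1, e.2.2.2⟩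
  have r2 := CH_exch h0 u₂ (fun ω => ((m₁ ω, u₁ ω), u ω)) Y
  have r2' := CH_nonneg h0 (fun ω => ((m₁ ω, u₁ ω), u ω)) (fun ω => (u₂ ω, Y ω))
  have r3 := CH_le_add h0 (fun ω => ((m₁ ω, u₁ ω), u ω)) u Y
  have r4 := CH_subadd h0 m₁ u₁ (fun ω => (u ω, Y ω))
  have r5 : CH q' (fun ω => ((m₁ ω, u₁ ω), u ω)) (fun ω => (u ω, Y ω)) ≤
      CH q' (fun ω => (m₁ ω, u₁ ω)) (fun ω => (u ω, Y ω)) := by
    refine CH_mono_left h0 fun ω ω' _ _ e => ?_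
    simp only [Prod.mk.injEq] at e ⊢
    exact ⟨e.1, e.2.1⟩
  have r6 : CH q' u Y ≤ ρ * J := by
    refine le_trans (CH_mono_cond h0 fun ω ω' hω hω' e => ?_) h3
    rw [hYd, hXd] at e
    simp only [Prod.mk.injEq] at e ⊢
    exact ⟨e.1, hzb' ω ω' (hq'B ω hω) (hq'B ω' hω') e.2.1, e.2.2⟩
  have r7 : CH q' m₁ (fun ω => (u ω, Y ω)) ≤ ρ * J := by
    refine le_trans (CH_mono_cond h0 fun ω ω' _ _ e => ?_) h1
    rw [hYd] at e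
    simp only [Prod.mk.injEq] at e ⊢
    exact ⟨e.1, e.2.2⟩
  have r8 : CH q' u₁ (fun ω => (u ω, Y ω)) ≤ ρ * J := by
    refine le_trans (CH_mono_cond h0 fun ω ω' _ _ e => ?_) h2
    rw [hYd] at e
    simp only [Prod.mk.injEq] at e ⊢
    exact ⟨e.1, e.2.2⟩
  -- the exact position
  obtain ⟨x₁, hx₁⟩ : ∃ x₁ : F.Ω → ℤ, x₁ = fun ω => F.X J ω (c k) := ⟨_, rfl⟩
  obtain ⟨x₂, hx₂⟩ : ∃ x₂ : F.Ω → ℤ, x₂ = fun ω => F.X ⌊U₂ * J⌋₊ ω (c k) := ⟨_, rfl⟩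
  have s1 : ((1 - sn k v) - ρ) * Real.log 2 * J ≤ CH q' x₁ Y := by
    refine h5.trans ?_
    rw [← hx₁]
    refine CH_mono_cond h0 fun ω ω' hω hω' e => ?_
    rw [hYd, hXd]
    simp only [Prod.mk.injEq] at e ⊢
    refine ⟨e.1, ?_, e.2.2⟩
    rw [hψ ω (hq'B ω hω), hψ ω' (hq'B ω' hω')]
    exact e.2.1
  have s2 := CH_le_add h0 x₁ u₂ Y
  have s3 := CH_le_add h0 x₁ x₂ (fun ω => (u₂ ω, Y ω))
  have s4 : CH q' x₂ (fun ω => (u₂ ω, Y ω)) ≤ ρ * J := by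
    rw [hx₂]
    refine le_trans (CH_mono_cond h0 fun ω ω' hω hω' e => ?_) h4
    rw [hYd] at e
    simp only [Prod.mk.injEq] at e ⊢
    exact ⟨e.1, hXe ω ω' e.2.1, hzw' ω ω' (hq'B ω hω) (hq'B ω' hω') e.2.2.1, e.2.2.2⟩
  have hfl : ⌊U₂ * J⌋₊ ≤ J := by
    have e1 : U₂ * J ≤ 1 * J := mul_le_mul_of_nonneg_right (by linarith) hJ0
    have e2 : (⌊U₂ * (J : ℝ)⌋₊ : ℝ) ≤ U₂ * J := Nat.floor_le (mul_nonneg (hU0.trans hU) hJ0)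
    have e3 : (⌊U₂ * (J : ℝ)⌋₊ : ℝ) ≤ J := by linarith
    exact_mod_cast e3
  have s5 : CH q' x₁ (fun ω => (x₂ ω, (u₂ ω, Y ω))) ≤ ((J : ℝ) - ⌊U₂ * J⌋₊) * Real.log 2 := by
    rw [hx₁, hx₂]
    exact X_more hq'l hfl (c k) fun ω => (u₂ ω, Y ω)
  have s6 : ((J : ℝ) - ⌊U₂ * J⌋₊) * Real.log 2 ≤ (1 - U₂) * Real.log 2 * J + ρ * J := by
    have e1 := Nat.lt_floor_add_one (U₂ * (J : ℝ))
    have e2 : ((J : ℝ) - ⌊U₂ * J⌋₊) * Real.log 2 ≤ ((1 - U₂) * J + 1) * Real.log 2 :=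
      mul_le_mul_of_nonneg_right (by linarith) hl2.le
    have e3 : 1 * Real.log 2 ≤ ρ * J := by linarith
    linarith
  have e1 : ρ * Real.log 2 * J ≤ ρ * J := by
    have := mul_le_mul_of_nonneg_left hl1 (mul_nonneg hρ0.le hJ0)
    linarith
  have e2 : (sn k v - U₁) * Real.log 2 * J ≤ 2 * Cf * φ * J := by
    have a1 : (sn k v - U₁) * Real.log 2 ≤ 2 * Cf * φ * Real.log 2 :=
      mul_le_mul_of_nonneg_right (by linarith) hl2.le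
    have a2 : 2 * Cf * φ * Real.log 2 ≤ 2 * Cf * φ * 1 :=
      mul_le_mul_of_nonneg_left hl1 (by linarith)
    exact mul_le_mul_of_nonneg_right (by linarith) hJ0
  have e3 : 0 ≤ Cf * φ * J := mul_nonneg hCφ hJ0
  have e4 : ρ * 16 = ε := by rw [hρ]; ring
  have e5 : 0 ≤ ρ * J := by positivity
  have e6 : ((U₂ - U₁) * Real.log 2 - 4 * Cf * φ - ε) * J = ((1 - sn k v) - ρ) * Real.log 2 * J -
      (1 - U₂) * Real.log 2 * J + (sn k v - U₁) * Real.log 2 * J + ρ * Real.log 2 * J -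
      4 * (Cf * φ * J) - 16 * (ρ * J) := by
    rw [← e4]
    ring
  rw [e6]
  linarith only [r1, r2, r2', r3, r4, r5, r6, r7, r8, s1, s2, s3, s4, s5, s6, e1, e2, e3, e5]

end Pool.V0Q
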