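import Pool.Agent.H44.V0P.P5

/-!
# The labels of the two targets over canonical charts

`lbt_che`: the chart of a window for the first target and the slab for the second one are labels of
the targets. `lbt_near`: they are near the charts of another family at the same window.
-/

set_option autoImplicit false

namespace Pool.TW44

open Finset Real MvPolynomial
open Pool.Agent.H49.Ent Pool.Agent.H32.Dense Pool.STK Pool.KA Pool.KSAT Pool.K2S Pool.PB Pool.GEN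
open Pool.S6C Pool.RCD Pool.LA91 Pool.AVG96 Pool.V0F Pool.D2R Pool.NVT16 Pool.CHT Pool.AVG71
open Pool.AVG57 (jet2 upw upw_slam)
open Pool.GRD (LbP)
open Pool.AJW (CfB)
open Pool.T462 (GNs HNs cell_q)
open Pool.V0T (LbT LadT)

/-- **The labels of the two targets** over the charts of a chain of windows. -/
theorem lbt_che (D k : ℕ) : ∃ C : ℕ, 1 ≤ C ∧ ∀ {m : ℕ} {S : PCl m} {c : ℕ → Fin m}
    {sn : ℕ → ℝ → ℝ} {G : Set ℝ} {b o φ s : ℝ} {al : ℕ → ℝ} {Dr N M : ℕ} {C₀ a Eb ηm : ℝ}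
    {ow η σ : ℕ → ℝ} {lv bb : ℕ → ℕ → ℝ} {f : ℕ → ℕ} {n : ℕ}, LadT S c k 1 sn G b o φ →
    Lns k sn G b o φ s al → 0 ≤ s → ChW k sn G b o φ N C₀ ηm ow lv f n → ∀ {t : ℕ} {u ψ : ℝ},
    t ≤ n → 0 < u → ψ ≤ u → C * ((s + 3) * φ) ≤ ψ →
    (∀ l, k ≤ l → l ≤ k + 1 → ψ ≤ sn l (ow (f t))) →
    (∀ l ≤ k + 1, Eb + sn l (ow (f t)) + 8 * u ≤ 1) → ∃ J₀ : ℕ, ∀ J ≥ J₀, ∀ {F : Fam m J}
      {A : F.Ω → Prop} {κ : ℝ} {z : ℕ → ℕ → ℕ} {g₀ : ℕ → ℕ → ℕ}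
      {Gc : ℕ → PtT F → ℕ → MvPolynomial (Option (Fin m)) ℝ}
      {H : ℕ → LnT F → ℕ → MvPolynomial (Option (Fin m)) ℝ},
      ChE F c k D Dr N M C₀ a Eb ηm ow η σ lv bb f n κ z A g₀ Gc H →
      LbT F c k 1 (D * D + D) (ow (f t)) u ψ 1 sn A (g₀ (f t)) (Gc (f t))
        (GNs c Gc k (f 0) (f t))
        (HNs c H k (f 0) (f t) ⌊ow (f 0) * J⌋₊ ⌊ow (f t) * J⌋₊) := by
  classical
  obtain ⟨C₁, hC₁, hslab⟩ := slab_near D k
  obtain ⟨C₂, hC₂, hcell⟩ := cell_q D (D * D + D) (k + 1)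
  refine ⟨4 * C₁ + 4, by omega, ?_⟩
  intro m S c sn G b o φ' s al Dr N M C₀ a Eb ηm ow η σ lv bb f n L hl hs hw t u φ ht hu hφu hCφ
    hlev hEbl
  have hφ' := L.φ0
  obtain ⟨w, hwd⟩ : ∃ w, w = ow (f t) := ⟨_, rfl⟩
  rw [← hwd] at hlev hEbl ⊢
  have hw0 : 0 ≤ w := by rw [hwd]; exact L.b0.trans (hw.bo ht)
  have hw1 : w < 1 := by rw [hwd]; exact lt_of_le_of_lt (hw.oo t ht) L.o1
  obtain ⟨y, hy⟩ : ∃ y : ℝ, y = (s + 3) * φ' := ⟨_, rfl⟩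
  rw [← hy] at hCφ
  have hsφ : 0 ≤ s * φ' := mul_nonneg hs hφ'.le
  have hy3 : y = s * φ' + 3 * φ' := by rw [hy]; ring
  have hy0 : 0 < y := by linarith
  have hCφ' : 4 * (C₁ * y) + 4 * y ≤ φ := by
    push_cast at hCφ
    linarith
  have hC1y : y ≤ C₁ * y := le_mul_of_one_le_left hy0.le (by exact_mod_cast hC₁)
  have hφ : 0 < φ := by linarith
  have hinj := L.inj
  have htN := hw.fN t ht
  obtain ⟨J₂, hJ₂⟩ := exists_nat_ge ((2 * (C₂ : ℝ) + 2 * C₁ + 8) / (φ / 4))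
  obtain ⟨J₃, hJ₃⟩ := exists_nat_ge ((n : ℝ) / φ')
  refine ⟨max J₂ J₃, ?_⟩
  intro J hJ F A κ z g₀ Gc H hE
  have W := hE.W
  have hJ0 : (0 : ℝ) ≤ J := Nat.cast_nonneg J
  have hJ1 : 2 * (C₂ : ℝ) + 2 * C₁ + 8 ≤ φ / 4 * J := by
    have h3 : (J₂ : ℝ) ≤ J := by exact_mod_cast (le_max_left _ _).trans hJ
    have h4 := hJ₂.trans h3
    rw [div_le_iff₀ (by positivity)] at h4
    linarith
  have hJ4 : (n : ℝ) ≤ φ' * J := by
    have h3 : (J₃ : ℝ) ≤ J := by exact_mod_cast (le_max_right _ _).trans hJ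
    have h4 := hJ₃.trans h3
    rw [div_le_iff₀ hφ'] at h4
    linarith
  have hfw : ⌊w * (J : ℝ)⌋₊ ≤ J := floor_le hw1.le J
  -- the slab is near the chart
  have hSl := sln_of L hl hs (hw.take ht) (J := J) (M := M) (z := z) (by
      have : (t : ℝ) ≤ n := by exact_mod_cast ht
      linarith) (fun i hi => hE.zz i (by omega))
  rw [← hy] at hSl
  have hnear0 := hslab (n := t) (f := f) (y := y) W hinj hSl.fN hSl.mo hSl.zz hSl.C0 hSl.nJ hSl.s1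
    (fun i hi i' hi' hii l hll => hSl.s2 i hi i' hi' hii l (by omega))
    (fun i hi => hSl.s3 i hi t le_rfl hi)
  rw [← hwd] at hnear0
  -- numbers of the window
  obtain ⟨g, hg⟩ : ∃ g, g = g₀ (f t) := ⟨_, rfl⟩
  have hev := W.ev _ htN
  rw [← hwd, ← hg] at hev
  rw [← hg] at hnear0 ⊢
  have hηm0 : 0 ≤ ηm := (W.hη _ htN).1.trans (W.hη _ htN).2
  have hηm : ηm ≤ φ' := (le_mul_of_one_le_left hηm0 W.C1).trans hw.C0
  have hg1 : ∀ l ≤ k + 1, (sn l w - φ / 4) * J ≤ g l ∧ (g l : ℝ) ≤ sn l w * J := by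
    intro l hl
    obtain ⟨h4, h5⟩ := W.sds _ htN l hl
    rw [hw.lv _ ht l hl, ← hwd, ← hg] at h4 h5
    refine ⟨le_trans (mul_le_mul_of_nonneg_right ?_ hJ0) h4, h5⟩
    linarith [(W.hσ _ htN).2]
  have hg2 : ∀ l ≤ k + 1, (sn l w - φ') * J ≤ g l := by
    intro l hl
    obtain ⟨h4, h5⟩ := W.sds _ htN l hl
    rw [hw.lv _ ht l hl, ← hwd, ← hg] at h4 h5
    refine le_trans (mul_le_mul_of_nonneg_right ?_ hJ0) h4
    linarith [(W.hσ _ htN).2]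
  -- the exponents
  obtain ⟨E₁, hE₁⟩ : ∃ E₁ : ℝ, E₁ = C₁ * (y * J + 1) := ⟨_, rfl⟩
  rw [← hE₁] at hnear0
  have hC1r : (1 : ℝ) ≤ C₁ := by exact_mod_cast hC₁
  have hE0 : 0 ≤ E₁ := by rw [hE₁]; positivity
  have hE1 : E₁ ≤ (φ / 4 - y) * J + C₁ := by
    have h3 : C₁ * y * J ≤ (φ / 4 - y) * J := mul_le_mul_of_nonneg_right (by linarith) hJ0
    rw [hE₁]
    linarith
  obtain ⟨X, hX⟩ : ∃ X : ℕ, X = ⌈E₁⌉₊ := ⟨_, rfl⟩
  have hX1 : E₁ ≤ X := by rw [hX]; exact Nat.le_ceil _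
  have hX2 : (X : ℝ) ≤ E₁ + 1 := by rw [hX]; exact (Nat.ceil_lt_add_one hE0).le
  have hyJ : 0 ≤ y * J := by positivity
  have hφ'y : φ' * J ≤ y * J := mul_le_mul_of_nonneg_right (by linarith) hJ0
  have e1 : (φ / 4 - y) * (J : ℝ) = φ / 4 * J - y * J := by ring
  rw [e1] at hE1
  have e2 : φ * (J : ℝ) = 4 * (φ / 4 * J) := by ring
  have hC20 : (0 : ℝ) ≤ C₂ := Nat.cast_nonneg C₂
  have hEφ : E₁ ≤ φ * J := by linarith
  have hXp : (2 : ℝ) ^ E₁ ≤ 2 ^ X := by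
    rw [← Real.rpow_natCast 2 X]
    exact Real.rpow_le_rpow_of_exponent_le (by norm_num) hX1
  -- the labels
  obtain ⟨GN, hGN⟩ : ∃ GN, GN = GNs c Gc k (f 0) (f t) := ⟨_, rfl⟩
  obtain ⟨HN, hHN⟩ : ∃ HN, HN = HNs c H k (f 0) (f t) ⌊ow (f 0) * J⌋₊ ⌊w * J⌋₊ := ⟨_, rfl⟩
  rw [← hGN, ← hHN]
  have eG : ∀ y', GN y' k = Gc (f t) y' k := fun y' => by
    rw [hGN]
    exact if_pos le_rfl
  have eG1 : ∀ y', GN y' (k + 1) = slG c Gc k (f 0) (f t) y' := fun y' => by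
    rw [hGN]
    exact if_neg (by omega)
  have eH : ∀ s', HN s' k = H (f t) s' k := fun s' => by
    rw [hHN]
    exact if_pos le_rfl
  have eH1 : ∀ s', HN s' (k + 1) = slH c H k (f 0) (f t) ⌊ow (f 0) * J⌋₊ ⌊w * J⌋₊ s' :=
    fun s' => by
      rw [hHN]
      exact if_neg (by omega)
  have hbN := hw.fN 0 (Nat.zero_le _)
  have hcases : ∀ l, k ≤ l → l ≤ k + 1 → l = k ∨ l = k + 1 := fun l a b => by omega
  have hDD : D ≤ D * D + D := Nat.le_add_left _ _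
  have hdeg : ∀ l, k ≤ l → l ≤ k + 1 → (∀ y', (GN y' l).totalDegree ≤ D * D + D) ∧
      ∀ s', (HN s' l).totalDegree ≤ D * D + D := by
    intro l a b
    rcases hcases l a b with rfl | rfl
    · exact ⟨fun y' => by rw [eG]; exact (hev.ball.degG _ _).trans hDD,
        fun s' => by rw [eH]; exact (hev.ball.degH _ _).trans hDD⟩
    · exact ⟨fun y' => by
        rw [eG1]
        exact deg_slb' ((W.ev _ hbN).ball.degG _ _) ((W.ev _ htN).ball.degG _ _)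
          ((W.ev _ htN).ball.degG _ _), fun s' => by
        rw [eH1]
        exact deg_slb' ((W.ev _ hbN).ball.degH _ _) ((W.ev _ htN).ball.degH _ _)
          ((W.ev _ htN).ball.degH _ _)⟩
  have hdep : ∀ l, k ≤ l → l ≤ k + 1 → (∀ y', DepC c l (GN y' l)) ∧ ∀ s', DepC c l (HN s' l) := by
    intro l a b
    rcases hcases l a b with rfl | rfl
    · exact ⟨fun y' => by rw [eG]; exact hev.ball.depG _ _,
        fun s' => by rw [eH]; exact hev.ball.depH _ _⟩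
    · exact ⟨fun y' => by
        rw [eG1]
        exact dep_slb ((W.ev _ hbN).ball.depG _ _) ((W.ev _ htN).ball.depG _ _)
          ((W.ev _ htN).ball.depG _ _), fun s' => by
        rw [eH1]
        exact dep_slb ((W.ev _ hbN).ball.depH _ _) ((W.ev _ htN).ball.depH _ _)
          ((W.ev _ htN).ball.depH _ _)⟩
  have hcls : ∀ l, k ≤ l → l ≤ k + 1 → ∀ ω, A ω → GN (ptr F J ω) l =
      HN (slam F ⌊w * J⌋₊ ω) l := by
    intro l a b ω hω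
    rcases hcases l a b with rfl | rfl
    · rw [eG, eH]
      exact hev.cls ω hω l (by omega)
    · rw [eG1, eH1, hwd]
      exact sl_cls W hbN htN (hw.mo t ht 0 (Nat.zero_le _)) (by rw [← hwd]; exact hw1.le) hω
  have hbtN : ∀ ω, A ω → NBx c (Gc (f t) (ptr F J ω)) g ⌊w * J⌋₊ (F.t ω) (k + 1) (bt F ω) := by
    intro ω hω
    refine ⟨?_, fun l hl => hev.ball.pos ω hω l (by omega)⟩
    show |bt F ω none - bt F ω none| ≤ _
    rw [sub_self, abs_zero]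
    positivity
  have hnear : ∀ l, k ≤ l → l ≤ k + 1 → ∀ ω, A ω → ∀ x,
      NBx c (Gc (f t) (ptr F J ω)) g ⌊w * J⌋₊ (F.t ω) l x →
      |eval x (GN (ptr F J ω) l) - eval x (Gc (f t) (ptr F J ω) l)| ≤ 2 ^ E₁ / 2 ^ g l := by
    intro l a b ω hω x hx
    rcases hcases l a b with rfl | rfl
    · rw [eG, sub_self, abs_zero]
      positivity
    · rw [eG1]
      exact hnear0 ω hω x hx
  have hposl : ∀ l, k ≤ l → l ≤ k + 1 → ∀ ω, A ω →
      |F.x ω (c l) - eval (bt F ω) (GN (ptr F J ω) l)| ≤ 1 / 2 ^ ⌊(sn l w - φ) * J⌋₊ := by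
    intro l a b ω hω
    have h3 : NBx c (Gc (f t) (ptr F J ω)) g ⌊w * J⌋₊ (F.t ω) l (bt F ω) :=
      ⟨(hbtN ω hω).1, fun i hi => (hbtN ω hω).2 i (by omega)⟩
    have h4 := hnear l a b ω hω _ h3
    have h5 := hev.ball.pos ω hω l (by omega)
    have h6 : |F.x ω (c l) - eval (bt F ω) (GN (ptr F J ω) l)| ≤ (2 : ℝ) ^ (E₁ + 1) / 2 ^ g l := by
      have h7 : (2 : ℝ) ^ (E₁ + 1) = 2 ^ E₁ + 2 ^ E₁ := by
        rw [Real.rpow_add (by norm_num), Real.rpow_one]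
        ring
      have h8 : (1 : ℝ) ≤ 2 ^ E₁ := Real.one_le_rpow (by norm_num) hE0
      rw [h7, add_div]
      have h9 : (1 : ℝ) / 2 ^ g l ≤ 2 ^ E₁ / 2 ^ g l := div_le_div_of_nonneg_right h8 (by positivity)
      rw [abs_le] at h4 h5 ⊢
      constructor <;> linarith only [h4.1, h4.2, h5.1, h5.2, h9]
    refine h6.trans ?_
    rw [div_le_div_iff₀ (by positivity) (by positivity), one_mul, ← Real.rpow_natCast,
      ← Real.rpow_natCast, ← Real.rpow_add (by norm_num)]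
    refine Real.rpow_le_rpow_of_exponent_le (by norm_num) ?_
    have h7 := Nat.floor_le (show 0 ≤ (sn l w - φ) * (J : ℝ) from
      mul_nonneg (by linarith [hlev l a b]) hJ0)
    have h8 := hg2 l b
    have e3 : (sn l w - φ) * (J : ℝ) = sn l w * J - φ * J := by ring
    have e4 : (sn l w - φ') * (J : ℝ) = sn l w * J - φ' * J := by ring
    have h9 := h7.trans (le_of_eq e3)
    rw [e4] at h8
    linarith
  refine ⟨hdeg, hdep, hcls, fun l a b => ?_, hposl, ⟨fun _ _ => 0, fun l a b ω hω x hx => ?_⟩,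
    fun l a b ω ν hω hν hpt => ?_⟩
  · rcases hcases l a b with rfl | rfl
    · simp only [eH, hwd]
      exact hE.cf t ht _ le_rfl
    · simp only [eH1, hwd]
      exact hE.cs t ht
  · rw [add_zero]
    exact (hnear l a b ω hω x hx).trans (div_le_div_of_nonneg_right
      (Real.rpow_le_rpow_of_exponent_le (by norm_num) hEφ) (by positivity))
  · obtain ⟨v, hv⟩ : ∃ v, v = ⌈(3 * u + φ / 4) * J⌉₊ + X + C₂ + 1 := ⟨_, rfl⟩
    have hv1 : (3 * u + φ / 4) * J ≤ ⌈(3 * u + φ / 4) * (J : ℝ)⌉₊ := Nat.le_ceil _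
    have hv2 : (⌈(3 * u + φ / 4) * (J : ℝ)⌉₊ : ℝ) ≤ (3 * u + φ / 4) * J + 1 :=
      (Nat.ceil_lt_add_one (by positivity)).le
    have hvr : (v : ℝ) = ⌈(3 * u + φ / 4) * (J : ℝ)⌉₊ + X + C₂ + 1 := by
      rw [hv]
      push_cast
      ring
    have hEr : ((⌊(Eb + σ (f t) + η (f t)) * J⌋₊ : ℕ) : ℝ) ≤ (Eb + 2 * φ') * J := by
      refine (Nat.floor_le (mul_nonneg (by linarith [W.Eb0, (W.hσ _ htN).1, (W.hη _ htN).1])
        hJ0)).trans (mul_le_mul_of_nonneg_right ?_ hJ0)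
      linarith [(W.hσ _ htN).2, (W.hη _ htN).2]
    have huJ : φ * J ≤ u * J := mul_le_mul_of_nonneg_right hφu hJ0
    have e1' := hcell hinj hev.ball (v := v) (l := l) (M := 2 ^ X) (fun i hi => by
      have h4 : (((⌊(Eb + σ (f t) + η (f t)) * J⌋₊ + g i + v + C₂ : ℕ)) : ℝ) ≤ (J : ℕ) := by
        push_cast
        rw [hvr]
        have h5 := (hg1 i hi).2
        have h6 := mul_le_mul_of_nonneg_right (hEbl i hi) hJ0
        nlinarith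
      exact_mod_cast h4) b (by positivity) (fun y' => GN y' l)
      (fun y' => (hdeg l a b).1 y') (fun y' => (hdep l a b).1 y')
      (fun ω' hω' x hx => (hnear l a b ω' hω' x hx).trans
        (div_le_div_of_nonneg_right hXp (by positivity))) ω ν hω hν hpt
    refine e1'.trans ?_
    have h4 : (2 : ℝ) ^ C₂ * (1 + 2 ^ X) ≤ 2 ^ (C₂ + X + 1) := by
      have h5 : (1 : ℝ) ≤ 2 ^ X := one_le_pow₀ (by norm_num)
      rw [pow_succ, pow_add]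
      nlinarith [(by positivity : (0 : ℝ) < 2 ^ C₂)]
    refine (div_le_div_of_nonneg_right h4 (by positivity)).trans ?_
    rw [div_le_div_iff₀ (by positivity) (by positivity), one_mul, ← pow_add]
    refine pow_le_pow_right₀ (by norm_num) ?_
    have h5 : ⌊(sn l w + 3 * u) * (J : ℝ)⌋₊ ≤ g l + ⌈(3 * u + φ / 4) * (J : ℝ)⌉₊ := by
      refine Nat.floor_le_of_le ?_
      push_cast
      have h6 := (hg1 l b).1
      nlinarith
    omega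

/-- **One label near a chart** of another family at the same window. -/
theorem near_one {m J k D D' Dr N M : ℕ} {F : Fam m J} {c : ℕ → Fin m} {C₀ a Eb ηm : ℝ}
    {ow η σ : ℕ → ℝ} {lv bb : ℕ → ℕ → ℝ} {κ : ℝ} {z : ℕ → ℕ → ℕ} {A : F.Ω → Prop}
    {g₀ : ℕ → ℕ → ℕ} {Gc : ℕ → PtT F → ℕ → MvPolynomial (Option (Fin m)) ℝ}
    {H : ℕ → LnT F → ℕ → MvPolynomial (Option (Fin m)) ℝ}
    (W : WinB F c (k + 1) D Dr N M C₀ a Eb ηm ow η σ lv bb κ z A g₀ Gc H)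
    (hc : Set.InjOn c (Set.Iio (k + 2))) {j₀ : ℕ} (hj : j₀ ≤ N) {w ψ φ : ℝ} {sn : ℕ → ℝ → ℝ}
    (hw : ow j₀ = w) (hlv : ∀ l ≤ k + 1, lv j₀ l = sn l w) (hD : D ≤ Dr) (hD' : D' ≤ Dr)
    {l : ℕ} (hl : l ≤ k + 1) {G₁ : PtT F → MvPolynomial (Option (Fin m)) ℝ}
    {H₁ : LnT F → MvPolynomial (Option (Fin m)) ℝ} (hψ : 0 ≤ ψ)
    (hlev : ψ ≤ sn l w) (hφ : 2 ≤ (φ - ψ - ηm) * J)
    (d1 : ∀ y, (G₁ y).totalDegree ≤ D') (d2 : ∀ s, (H₁ s).totalDegree ≤ D')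
    (p1 : ∀ y, DepC c l (G₁ y)) (p2 : ∀ s, DepC c l (H₁ s))
    (cl : ∀ ω, A ω → G₁ (ptr F J ω) = H₁ (slam F ⌊w * J⌋₊ ω))
    (ps : ∀ ω, A ω → |F.x ω (c l) - eval (bt F ω) (G₁ (ptr F J ω))| ≤
      1 / 2 ^ ⌊(sn l w - ψ) * J⌋₊) {B : F.Ω → Prop} (hB : Sub B A) (hP : κ * Pe F.p A ≤ Pe F.p B) :
    ∃ B' : F.Ω → Prop, Sub B' B ∧ Pe F.p B / 2 ≤ Pe F.p B' ∧ ∀ ω, B' ω → ∀ x,
      NBx c (Gc j₀ (ptr F J ω)) (g₀ j₀) ⌊w * J⌋₊ (F.t ω) l x →
      |eval x (G₁ (ptr F J ω)) - eval x (Gc j₀ (ptr F J ω) l)| ≤ 2 ^ (φ * J) / 2 ^ g₀ j₀ l := by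
  have hJ0 : (0 : ℝ) ≤ J := Nat.cast_nonneg J
  have hev := W.ev _ hj
  rw [hw] at hev
  obtain ⟨M₁, hM₁⟩ : ∃ M₁ : ℝ, M₁ = 2 ^ (ψ * J + 2) / 2 ^ g₀ j₀ l := ⟨_, rfl⟩
  have hM0 : 0 < M₁ := by rw [hM₁]; positivity
  obtain ⟨-, -, -, hg⟩ := W.g_num hj hl
  rw [hlv l hl] at hg
  obtain ⟨B', b1, b2, b3⟩ := hev.relb B hB hP (fun y => G₁ y - Gc j₀ y l) (fun s => H₁ s - H j₀ s l)
    M₁ (fun y => (totalDegree_sub _ _).trans (max_le ((d1 y).trans hD')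
      ((hev.ball.degG y l).trans hD))) (fun s => (totalDegree_sub _ _).trans
      (max_le ((d2 s).trans hD') ((hev.ball.degH s l).trans hD)))
    (fun y x x' h1 h2 => by
      rw [map_sub, map_sub, p1 y x x' h1 fun i hi => h2 i (by omega),
        hev.ball.depG y l x x' h1 fun i hi => h2 i (by omega)])
    (fun s x x' h1 h2 => by
      rw [map_sub, map_sub, p2 s x x' h1 fun i hi => h2 i (by omega),
        hev.ball.depH s l x x' h1 fun i hi => h2 i (by omega)]) hM0 (fun ω hω => by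
      have h1 := ps ω (hB ω hω)
      have h2 := hev.ball.pos ω (hB ω hω) l (by omega)
      rw [map_sub]
      have h3 : (1 : ℝ) / 2 ^ ⌊(sn l w - ψ) * J⌋₊ ≤ 2 ^ (ψ * J + 1) / 2 ^ g₀ j₀ l := by
        rw [div_le_div_iff₀ (by positivity) (by positivity), one_mul, ← Real.rpow_natCast,
          ← Real.rpow_natCast, ← Real.rpow_add (by norm_num)]
        refine Real.rpow_le_rpow_of_exponent_le (by norm_num) ?_
        have h4 := (Nat.lt_floor_add_one ((sn l w - ψ) * (J : ℝ))).le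
        have e1 : (sn l w - ψ) * (J : ℝ) = sn l w * J - ψ * J := by ring
        rw [e1] at h4 ⊢
        linarith
      have h5 : (1 : ℝ) / 2 ^ g₀ j₀ l ≤ 2 ^ (ψ * J + 1) / 2 ^ g₀ j₀ l :=
        div_le_div_of_nonneg_right (Real.one_le_rpow (by norm_num) (by positivity)) (by positivity)
      have h6 : M₁ = 2 ^ (ψ * J + 1) / 2 ^ g₀ j₀ l + 2 ^ (ψ * J + 1) / 2 ^ g₀ j₀ l := by
        rw [hM₁, show ψ * (J : ℝ) + 2 = ψ * J + 1 + 1 by ring, Real.rpow_add (by norm_num),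
          Real.rpow_one]
        ring
      rw [h6]
      rw [abs_le] at h1 h2 ⊢
      constructor <;> linarith only [h1.1, h1.2, h2.1, h2.2, h3, h5]) (fun ω hω x _ => by
      rw [cl ω (hB ω hω), hev.cls ω (hB ω hω) l (by omega), sub_self, abs_zero]
      exact hM0.le)
  refine ⟨B', b1, b2, fun ω hω x hx => ?_⟩
  obtain ⟨x', e1, e2, e3, -⟩ := Pool.ISO.nbx_ext (hc.mono fun i hi => by
    rw [Set.mem_Iio] at hi ⊢
    omega) (fun i => hev.ball.depG (ptr F J ω) i) hl hx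
  have h1 := b3 ω hω x' e1
  rw [map_sub, p1 _ x' x e2 e3, hev.ball.depG _ l x' x e2 e3] at h1
  refine h1.trans ?_
  have hη := W.hη _ hj
  have h7 : ((2 : ℝ) ^ ⌊η j₀ * J⌋₊) ≤ 2 ^ (ηm * J) := by
    rw [← Real.rpow_natCast]
    refine Real.rpow_le_rpow_of_exponent_le (by norm_num) ?_
    exact (Nat.floor_le (mul_nonneg hη.1 hJ0)).trans (mul_le_mul_of_nonneg_right hη.2 hJ0)
  rw [hM₁, ← mul_div_assoc]
  refine div_le_div_of_nonneg_right ?_ (by positivity)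
  calc (2 : ℝ) ^ ⌊η j₀ * J⌋₊ * 2 ^ (ψ * J + 2) ≤ 2 ^ (ηm * J) * 2 ^ (ψ * J + 2) :=
        mul_le_mul_of_nonneg_right h7 (by positivity)
    _ = 2 ^ (ηm * J + (ψ * J + 2)) := by rw [← Real.rpow_add (by norm_num)]
    _ ≤ _ := Real.rpow_le_rpow_of_exponent_le (by norm_num) (by
        have e1 : (φ - ψ - ηm) * (J : ℝ) = φ * J - ψ * J - ηm * J := by ring
        rw [e1] at hφ
        linarith)

/-- **The labels of two targets over other charts** at the same window. -/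
theorem lbt_near {m J k D D' Dr N M : ℕ} {F : Fam m J} {c : ℕ → Fin m} {C₀ a Eb ηm : ℝ}
    {ow η σ : ℕ → ℝ} {lv bb : ℕ → ℕ → ℝ} {κ : ℝ} {z : ℕ → ℕ → ℕ} {A : F.Ω → Prop}
    {g₀ : ℕ → ℕ → ℕ} {Gc : ℕ → PtT F → ℕ → MvPolynomial (Option (Fin m)) ℝ}
    {H : ℕ → LnT F → ℕ → MvPolynomial (Option (Fin m)) ℝ}
    (W : WinB F c (k + 1) D Dr N M C₀ a Eb ηm ow η σ lv bb κ z A g₀ Gc H)
    (hc : Set.InjOn c (Set.Iio (k + 2))) {j₀ : ℕ} (hj : j₀ ≤ N) {w u ψ φ E : ℝ} {sn : ℕ → ℝ → ℝ}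
    (hw : ow j₀ = w) (hlv : ∀ l ≤ k + 1, lv j₀ l = sn l w) (hD : D ≤ Dr) (hD' : D' ≤ Dr)
    (hψ : 0 ≤ ψ) (hψφ : ψ ≤ φ) (hlev : ∀ l, k ≤ l → l ≤ k + 1 → ψ ≤ sn l w)
    (hφ : 2 ≤ (φ - ψ - ηm) * J) (hκ : κ ≤ 1 / 2) {g₁ : ℕ → ℕ}
    {G₁ GN : PtT F → ℕ → MvPolynomial (Option (Fin m)) ℝ}
    {HN : LnT F → ℕ → MvPolynomial (Option (Fin m)) ℝ}
    (L : LbT F c k 1 D' w u ψ E sn A g₁ G₁ GN HN) :
    ∃ B : F.Ω → Prop, Sub B A ∧ 1 / 4 * Pe F.p A ≤ Pe F.p B ∧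
      LbT F c k 1 D' w u φ E sn B (g₀ j₀) (Gc j₀) GN HN := by
  have hA0 := Pe_nonneg F.isLaw A
  have one : ∀ l, k ≤ l → l ≤ k + 1 → ∀ B : F.Ω → Prop, Sub B A → κ * Pe F.p A ≤ Pe F.p B →
      ∃ B' : F.Ω → Prop, Sub B' B ∧ Pe F.p B / 2 ≤ Pe F.p B' ∧ ∀ ω, B' ω → ∀ x,
        NBx c (Gc j₀ (ptr F J ω)) (g₀ j₀) ⌊w * J⌋₊ (F.t ω) l x →
        |eval x (GN (ptr F J ω) l) - eval x (Gc j₀ (ptr F J ω) l)| ≤ 2 ^ (φ * J) / 2 ^ g₀ j₀ l :=
    fun l h1 h2 B hB hP => near_one W hc hj hw hlv hD hD' h2 hψ (hlev l h1 h2) hφ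
      (fun y => (L.deg l h1 h2).1 y) (fun s => (L.deg l h1 h2).2 s)
      (fun y => (L.dep l h1 h2).1 y) (fun s => (L.dep l h1 h2).2 s)
      (fun ω hω => L.cls l h1 h2 ω hω) (fun ω hω => L.pos l h1 h2 ω hω) hB hP
  obtain ⟨B₁, b1, b2, b3⟩ := one k le_rfl (Nat.le_succ k) A (fun _ h => h) (by
    nlinarith)
  obtain ⟨B₂, c1, c2, c3⟩ := one (k + 1) (Nat.le_succ k) le_rfl B₁ b1 (by
    have := mul_le_mul_of_nonneg_right hκ hA0
    linarith)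
  have hs : Sub B₂ A := fun ω h => b1 ω (c1 ω h)
  refine ⟨B₂, hs, by linarith, ⟨L.deg, L.dep, fun l h1 h2 ω hω => L.cls l h1 h2 ω (hs ω hω),
    fun l h1 h2 ω hω => L.cfb l h1 h2 ω (hs ω hω), fun l h1 h2 ω hω => ?_,
    ⟨fun _ _ => 0, fun l h1 h2 ω hω x hx => ?_⟩,
    fun l h1 h2 ω ν hω hν => L.cell l h1 h2 ω ν (hs ω hω) (hs ν hν)⟩⟩
  · refine (L.pos l h1 h2 ω (hs ω hω)).trans ?_
    refine one_div_le_one_div_of_le (by positivity) (pow_le_pow_right₀ (by norm_num) ?_)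
    exact Nat.floor_le_floor (mul_le_mul_of_nonneg_right (by linarith) (Nat.cast_nonneg J))
  · rw [add_zero]
    rcases (show l = k ∨ l = k + 1 by omega) with rfl | rfl
    · exact b3 ω (c1 ω hω) x hx
    · exact c3 ω hω x hx

end Pool.TW44
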