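import Pool.Agent.H44.V0F.Num

/-!
# The numbers of the class theorems for several targets of one slope

`NP`: windows and digits; slopes one below `k`, slope `s` of the targets `k, …, k + f`.
-/

set_option autoImplicit false

namespace Pool.V0Q

open Finset Real
open Pool.V0F

/-- **The windows and digits** for targets `k, …, k + f` of slope `s`. -/
structure NP (k f : ℕ) (s : ℝ) (sn : ℕ → ℝ → ℝ) (G : Set ℝ) (b o φ w u y ξ T Λ C κ e : ℝ)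
    (lam : ℝ → ℝ) (j x x' xr xq w₁ vq oq : ℝ) (xa : ℕ → ℝ) : Prop where
  k1 : 1 ≤ k
  s1 : 1 < s
  φ0 : 0 < φ
  u0 : 0 < u
  C0 : 0 ≤ C
  κ0 : 0 < κ
  κ1 : κ ≤ 1
  hy : y = ((k : ℝ) + 3 + s + C) * φ
  hξ : s * ξ = s - 1
  yu : 4000 * y ≤ u
  ys : 4000 * (s * y) ≤ u
  yξ : 4000 * y ≤ ξ * u
  yd : 4000 * y ≤ (s - 1 - ξ) * u
  yκ : 4000 * y ≤ κ * (ξ * u)
  he : (s + 70) * φ ≤ e
  heC : e ≤ C * φ
  hT : 60 ≤ T
  TΛ : 4 * T + 4 * k + 40 ≤ Λ
  bw : b + Λ * u ≤ w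
  wo : w + Λ * u ≤ o
  o1 : o + Λ * u ≤ 1
  b0 : Λ * u ≤ b
  lb : ∀ l ≤ k + f, Λ * u ≤ sn l b
  lo : ∀ l ≤ k + f, sn l o + Λ * u ≤ 1
  sl : ∀ i < k, ∀ v ∈ G, b ≤ v → v ≤ o → |(sn i v - v) - (sn i w - w)| ≤ 2 * φ
  st : ∀ l, k ≤ l → l ≤ k + f → ∀ v ∈ G, b ≤ v → v ≤ o → |sn l v - sn l w - s * (v - w)| ≤ φ
  sv : ∀ v : ℝ, b ≤ v → v ≤ o → |lam v - sn (k + f) w - s * (v - w)| ≤ φ
  bG : b ∈ G
  oG : o ∈ G
  wG : w ∈ G
  jG : j ∈ G
  xG : x ∈ G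
  xG' : x' ∈ G
  rG : xr ∈ G
  qG : xq ∈ G
  aG : ∀ a : ℕ, (a : ℝ) * κ ≤ 1 → xa a ∈ G
  hj : |j - (w + u / s)| ≤ φ
  hx : |x - (w + u)| ≤ φ
  hx' : |x' - (w + T * u)| ≤ φ
  hxr : |xr - (w + (1 + ξ) * u + 600 * y)| ≤ φ
  hxq : |xq - (w + ((1 + ξ) * u + 520 * y) / s)| ≤ φ
  hxa : ∀ a : ℕ, (a : ℝ) * κ ≤ 1 → |xa a - (w + (u + 520 * y + a * κ * (ξ * u)) / s)| ≤ φ
  hw1 : w ≤ w₁
  hw2 : w₁ ≤ w + φ
  hq1 : j ≤ vq
  hq2 : vq ≤ j + φ
  ho1 : w + ((1 + ξ) * u + 505 * y) / s ≤ oq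
  ho2 : oq ≤ w + ((1 + ξ) * u + 505 * y) / s + φ

/-- The near digits of the positions. -/
noncomputable def nnP (k : ℕ) (sn : ℕ → ℝ → ℝ) (w u y φ : ℝ) (l : ℕ) : ℝ :=
  sn l w + u + 200 * y + 20 * ((k : ℝ) - l) * φ

/-- The far digits of the positions. -/
noncomputable def nfP (k : ℕ) (sn : ℕ → ℝ → ℝ) (w x' φ : ℝ) (l : ℕ) : ℝ :=
  sn l w + (x' - w) + (30 * ((k : ℝ) - l) + 5) * φ

namespace NP

variable {k f : ℕ} {s : ℝ} {sn : ℕ → ℝ → ℝ} {G : Set ℝ} {b o φ w u y ξ T Λ C κ e : ℝ}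
  {lam : ℝ → ℝ} {j x x' xr xq w₁ vq oq : ℝ} {xa : ℕ → ℝ}

section

variable (N : NP k f s sn G b o φ w u y ξ T Λ C κ e lam j x x' xr xq w₁ vq oq xa)

include N

theorem rR : (1 : ℝ) ≤ k := by exact_mod_cast N.k1

/-- The small quantities. -/
theorem sm : 0 ≤ (k : ℝ) * φ ∧ 0 ≤ s * φ ∧ 0 < φ ∧ y = k * φ + 3 * φ + s * φ + C * φ ∧
    φ ≤ k * φ ∧ φ ≤ s * φ ∧ 0 ≤ C * φ ∧ s * φ + 70 * φ ≤ e ∧ e ≤ C * φ ∧ 70 * φ ≤ y := by
  have h1 := N.rR
  have h2 := N.s1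
  have h3 := N.φ0
  have h4 := N.hy
  have h5 := N.C0
  have h6 := N.he
  have h7 := N.heC
  have e1 : 0 ≤ (k : ℝ) * φ := by positivity
  have e2 : 0 ≤ s * φ := by positivity
  have e3 : 0 ≤ C * φ := by positivity
  have e4 : y = k * φ + 3 * φ + s * φ + C * φ := by
    rw [h4]
    ring
  have e5 : 1 * φ ≤ k * φ := mul_le_mul_of_nonneg_right h1 h3.le
  have e6 : 1 * φ ≤ s * φ := mul_le_mul_of_nonneg_right h2.le h3.le
  refine ⟨e1, e2, h3, e4, by linarith, by linarith, e3, by linarith, h7, by linarith⟩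

theorem y0 : 0 < y := by
  obtain ⟨h1, h2, h3, h4, h5, h6, h7, -⟩ := N.sm
  linarith

theorem ξ0 : 0 < ξ := by
  have h1 := N.hξ
  have h2 := N.s1
  by_contra h
  push Not at h
  nlinarith

theorem ξ1 : ξ < 1 := by
  have h1 := N.hξ
  have h2 := N.s1
  by_contra h
  push Not at h
  nlinarith

theorem ξu : 0 < ξ * u ∧ ξ * u ≤ u := by
  have h1 := N.ξ0
  have h2 := N.ξ1
  have h3 := N.u0
  refine ⟨by positivity, by nlinarith⟩

/-- Products with the room. -/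
theorem room : (4 * T + 4 * k + 40) * u ≤ Λ * u :=
  mul_le_mul_of_nonneg_right N.TΛ N.u0.le

theorem Tu0 : 60 * u ≤ T * u := mul_le_mul_of_nonneg_right N.hT N.u0.le

theorem ru0 : 0 ≤ (k : ℝ) * u := by
  have := N.u0
  positivity

/-- The blocks. -/
theorem blk {a : ℕ} (ha : (a : ℝ) * κ ≤ 1) :
    0 ≤ (a : ℝ) * κ * (ξ * u) ∧ (a : ℝ) * κ * (ξ * u) ≤ ξ * u := by
  have h1 := N.ξu
  have h2 := N.κ0
  have h3 : 0 ≤ (a : ℝ) * κ := by positivity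
  refine ⟨mul_nonneg h3 h1.1.le, ?_⟩
  have := mul_le_mul_of_nonneg_right ha h1.1.le
  linarith

/-- Division by the slope. -/
theorem dv {t : ℝ} (ht : 0 ≤ t) : s * (t / s) = t ∧ 0 ≤ t / s ∧ t / s ≤ t := by
  have hs : 0 < s := by linarith [N.s1]
  exact ⟨mul_div_cancel₀ _ hs.ne', by positivity, div_le_self ht N.s1.le⟩

/-- Products of the slope with the windows. -/
theorem sw : s * (j - w) ≤ u + s * φ ∧ u - s * φ ≤ s * (j - w) ∧ s * (x - w) ≤ s * u + s * φ ∧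
    s * u - s * φ ≤ s * (x - w) ∧ s * (j - w) ≤ s * (vq - w) ∧
    s * (vq - w) ≤ s * (j - w) + s * φ ∧ (1 + ξ) * u + 505 * y ≤ s * (oq - w) ∧
    s * (oq - w) ≤ (1 + ξ) * u + 505 * y + s * φ ∧ (1 + ξ) * u + 4000 * y ≤ s * u ∧
    s * (xq - w) ≤ (1 + ξ) * u + 520 * y + s * φ ∧ (1 + ξ) * u + 520 * y - s * φ ≤
      s * (xq - w) ∧ s * ((1 + ξ) * u + 600 * y) - s * φ ≤ s * (xr - w) := by
  have hs : 0 < s := by linarith [N.s1]
  have hj := abs_le.1 N.hj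
  have hx := abs_le.1 N.hx
  have hq := abs_le.1 N.hxq
  have hr := abs_le.1 N.hxr
  have hu : s * (u / s) = u := mul_div_cancel₀ _ hs.ne'
  have ho : s * (((1 + ξ) * u + 505 * y) / s) = (1 + ξ) * u + 505 * y :=
    mul_div_cancel₀ _ hs.ne'
  have hq' : s * (((1 + ξ) * u + 520 * y) / s) = (1 + ξ) * u + 520 * y :=
    mul_div_cancel₀ _ hs.ne'
  have e1 := mul_le_mul_of_nonneg_left hj.1 hs.le
  have e2 := mul_le_mul_of_nonneg_left hj.2 hs.le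
  have e3 := mul_le_mul_of_nonneg_left hx.1 hs.le
  have e4 := mul_le_mul_of_nonneg_left hx.2 hs.le
  have e5 := mul_le_mul_of_nonneg_left N.hq1 hs.le
  have e6 := mul_le_mul_of_nonneg_left N.hq2 hs.le
  have e7 := mul_le_mul_of_nonneg_left N.ho1 hs.le
  have e8 := mul_le_mul_of_nonneg_left N.ho2 hs.le
  have e9 := N.yd
  have e10 := mul_le_mul_of_nonneg_left hq.1 hs.le
  have e11 := mul_le_mul_of_nonneg_left hq.2 hs.le
  have e12 := mul_le_mul_of_nonneg_left hr.1 hs.le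
  refine ⟨by linarith, by linarith, by linarith, by linarith, by linarith, by linarith,
    by linarith, by linarith, by linarith, by linarith, by linarith, by linarith⟩

theorem swa {a : ℕ} (ha : (a : ℝ) * κ ≤ 1) :
    s * (xa a - w) ≤ u + 520 * y + a * κ * (ξ * u) + s * φ ∧
    u + 520 * y + a * κ * (ξ * u) - s * φ ≤ s * (xa a - w) := by
  have hs : 0 < s := by linarith [N.s1]
  have hq := abs_le.1 (N.hxa a ha)
  have hq' : s * ((u + 520 * y + a * κ * (ξ * u)) / s) = u + 520 * y + a * κ * (ξ * u) :=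
    mul_div_cancel₀ _ hs.ne'
  have e10 := mul_le_mul_of_nonneg_left hq.1 hs.le
  have e11 := mul_le_mul_of_nonneg_left hq.2 hs.le
  refine ⟨by linarith, by linarith⟩

/-- `u / s` is large. -/
theorem us1 : 3000 * φ ≤ u / s ∧ u / s ≤ u := by
  obtain ⟨h1, h2, h3, h4, h5, h6, h7, -⟩ := N.sm
  have hs := N.s1
  have hu := N.u0
  have hyu := N.yu
  obtain ⟨d1, d2, d3⟩ := N.dv hu.le
  refine ⟨?_, d3⟩
  rw [le_div_iff₀ (by linarith)]
  linarith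

/-- The unit divided by the slope. -/
theorem us : u / s = u - ξ * u := by
  have h1 := N.hξ
  have h2 := N.s1
  have h3 : s * (u - ξ * u) = u := by
    have : s * (u - ξ * u) = s * u - (s * ξ) * u := by ring
    rw [this, h1]
    ring
  rw [div_eq_iff (by linarith)]
  linarith

/-- The windows are between `b` and `o`. -/
theorem wins : b + 3 * u ≤ w ∧ w + 1000 * φ ≤ j ∧ w₁ ≤ j ∧ j ≤ x ∧ x ≤ xr ∧ xr + 10 * u ≤ x' ∧
    x' + 10 * u ≤ o ∧ w + 1000 * φ ≤ xq ∧ xq + 10 * y ≤ xr ∧ j ≤ xq ∧ vq ≤ oq ∧ oq ≤ xr ∧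
    x' ≤ w + T * u + φ ∧ w₁ ≤ x ∧ vq ≤ xr := by
  obtain ⟨h1, h2, h3, h4, h5, h6, h7, h8, h9, h10⟩ := N.sm
  obtain ⟨u1, u2⟩ := N.us1
  obtain ⟨x1, x2⟩ := N.ξu
  have hj := abs_le.1 N.hj
  have hx := abs_le.1 N.hx
  have hx' := abs_le.1 N.hx'
  have hxr := abs_le.1 N.hxr
  have hxq := abs_le.1 N.hxq
  have hu := N.u0
  have hyu := N.yu
  have hyξ := N.yξ
  have hr := N.room
  have hT := N.Tu0
  have hru := N.ru0
  have hs := N.s1
  have hy0 := N.y0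
  have hus := N.us
  obtain ⟨a1, a2, a3⟩ := N.dv (t := (1 + ξ) * u + 520 * y) (by linarith)
  obtain ⟨c1, c2, c3⟩ := N.dv (t := (1 + ξ) * u + 505 * y) (by linarith)
  have a4 : u / s + 500 * φ ≤ ((1 + ξ) * u + 520 * y) / s := by
    rw [← sub_nonneg, ← mul_nonneg_iff_of_pos_left (show 0 < s by linarith)]
    have e1 : s * (((1 + ξ) * u + 520 * y) / s - (u / s + 500 * φ)) =
        s * (((1 + ξ) * u + 520 * y) / s) - s * (u / s) - 500 * (s * φ) := by ring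
    rw [e1, a1, (N.dv hu.le).1]
    linarith
  have c4 : u / s + 500 * φ ≤ ((1 + ξ) * u + 505 * y) / s := by
    rw [← sub_nonneg, ← mul_nonneg_iff_of_pos_left (show 0 < s by linarith)]
    have e1 : s * (((1 + ξ) * u + 505 * y) / s - (u / s + 500 * φ)) =
        s * (((1 + ξ) * u + 505 * y) / s) - s * (u / s) - 500 * (s * φ) := by ring
    rw [e1, c1, (N.dv hu.le).1]
    linarith
  have hω1 := N.ho1
  have hω2 := N.ho2
  have hq1 := N.hq1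
  have hq2 := N.hq2
  have hw1 := N.hw1
  have hw2 := N.hw2
  have b1 := N.bw
  have b2 := N.wo
  refine ⟨by linarith, by linarith, by linarith, by linarith, by linarith, by linarith,
    by linarith, by linarith, by linarith, by linarith, by linarith, by linarith, by linarith,
    by linarith, by linarith⟩

theorem wina {a : ℕ} (ha : (a : ℝ) * κ ≤ 1) : w + 1000 * φ ≤ xa a ∧ xa a + 10 * y ≤ xr := by
  obtain ⟨h1, h2, h3, h4, h5, h6, h7, h8, h9, h10⟩ := N.sm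
  obtain ⟨u1, u2⟩ := N.us1
  obtain ⟨x1, x2⟩ := N.ξu
  obtain ⟨d1, d2⟩ := N.blk ha
  have hxr := abs_le.1 N.hxr
  have hxa := abs_le.1 (N.hxa a ha)
  have hs := N.s1
  have hy0 := N.y0
  have hu := N.u0
  obtain ⟨a1, a2, a3⟩ := N.dv (t := u + 520 * y + a * κ * (ξ * u)) (by linarith)
  have a4 : u / s ≤ (u + 520 * y + a * κ * (ξ * u)) / s :=
    div_le_div_of_nonneg_right (by linarith) (by linarith)
  constructor <;> linarith

/-- The windows between `b` and `o`, all bounds. -/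
theorem wb : b ≤ w ∧ w ≤ o ∧ b ≤ o ∧ b ≤ j ∧ j ≤ o ∧ b ≤ x ∧ x ≤ o ∧ b ≤ x' ∧ x' ≤ o ∧ b ≤ xr ∧
    xr ≤ o ∧ b ≤ xq ∧ xq ≤ o ∧ b ≤ vq ∧ vq ≤ o ∧ b ≤ oq ∧ oq ≤ o := by
  obtain ⟨a1, a2, a3, a4, a5, a6, a7, a8, a9, a10, a11, a12, a13, a14, a15⟩ := N.wins
  have := N.hq1
  have := N.u0
  have := N.φ0
  have := N.y0
  refine ⟨by linarith, by linarith, by linarith, by linarith, by linarith, by linarith,
    by linarith, by linarith, by linarith, by linarith, by linarith, by linarith, by linarith,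
    by linarith, by linarith, by linarith, by linarith⟩

/-- The levels of the chain. -/
theorem slv {i : ℕ} (hi : i < k) {v : ℝ} (hv : v ∈ G) (h1 : b ≤ v) (h2 : v ≤ o) :
    sn i v ≤ sn i w + (v - w) + 2 * φ ∧ sn i w + (v - w) - 2 * φ ≤ sn i v := by
  have := abs_le.1 (N.sl i hi v hv h1 h2)
  constructor <;> linarith [this.1, this.2]

/-- The levels of the targets. -/
theorem stv {l : ℕ} (h3 : k ≤ l) (h4 : l ≤ k + f) {v : ℝ} (hv : v ∈ G) (h1 : b ≤ v)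
    (h2 : v ≤ o) :
    sn l v ≤ sn l w + s * (v - w) + φ ∧ sn l w + s * (v - w) - φ ≤ sn l v := by
  have := abs_le.1 (N.st l h3 h4 v hv h1 h2)
  constructor <;> linarith [this.1, this.2]

theorem lwb {l : ℕ} (hl : l ≤ k + f) : Λ * u ≤ sn l w ∧ sn l w + 2 * (Λ * u) ≤ 1 + 2 * φ := by
  obtain ⟨b1, b2, b3, -⟩ := N.wb
  obtain ⟨h1, h2, h3, h4, h5, h6, h7, h8, h9, h10⟩ := N.sm
  have c1 := N.lb l hl
  have c2 := N.lo l hl
  have hbw := N.bw
  have hwo := N.wo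
  have hr := N.room
  have hT := N.Tu0
  have hru := N.ru0
  have hyu := N.yu
  have hu := N.u0
  rcases Nat.lt_or_ge l k with h | h
  · have e1 := N.slv h N.bG le_rfl b3
    have e2 := N.slv h N.oG b3 le_rfl
    constructor <;> linarith
  · have e1 := N.stv h hl N.bG le_rfl b3
    have e2 := N.stv h hl N.oG b3 le_rfl
    have hs := N.s1
    have a1 : s * (b - w) ≤ 1 * (b - w) := by
      have : 0 ≤ (s - 1) * (w - b) := mul_nonneg (by linarith) (by linarith)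
      linarith
    have a2 : 1 * (o - w) ≤ s * (o - w) := mul_le_mul_of_nonneg_right hs.le (by linarith)
    constructor <;> linarith

theorem li {i : ℕ} (hi : i < k) : φ ≤ ((k : ℝ) - i) * φ ∧ ((k : ℝ) - i) * φ ≤ k * φ ∧
    0 ≤ (i : ℝ) * φ := by
  have h1 : (i : ℝ) + 1 ≤ k := by exact_mod_cast hi
  have h2 := N.φ0
  have h3 : (0 : ℝ) ≤ i := Nat.cast_nonneg i
  refine ⟨?_, ?_, by positivity⟩
  · nlinarith
  · nlinarith

theorem lij {i l : ℕ} (hl : l < i) : ((k : ℝ) - i) * φ + φ ≤ ((k : ℝ) - l) * φ := by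
  have h1 : (l : ℝ) + 1 ≤ i := by exact_mod_cast hl
  have h2 := N.φ0
  nlinarith

end

end NP

end Pool.V0Q
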