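import Pool.Agent.H44.V0P.Num1
import Pool.Agent.H83.VT.Vcg

/-!
# The numbers of the class theorems for several targets of one slope, second part

`NP.vb`: the base; `NP.few_c`, `NP.few0_c`: the near and far digits of the targets; `NP.nlq_c`: no
look-ahead; `NP.row_c`: the rows; `NP.fiu_c`: fullness; `NP.k9_c`: codes of the order `≥ 2`.
-/

set_option autoImplicit false

namespace Pool.V0Q

open Finset Real
open Pool.LA91 Pool.V0F
open Pool.VT83 (VB)

namespace NP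

variable {k f : ℕ} {s : ℝ} {sn : ℕ → ℝ → ℝ} {G : Set ℝ} {b o φ w u y ξ T Λ C κ e : ℝ}
  {lam : ℝ → ℝ} {j x x' xr xq w₁ vq oq : ℝ} {xa : ℕ → ℝ}

section

variable (N : NP k f s sn G b o φ w u y ξ T Λ C κ e lam j x x' xr xq w₁ vq oq xa)

include N

/-- **The base.** -/
theorem vb : VB k sn G b o φ (fun l => sn l b - φ) (nnP k sn w u y φ) (nfP k sn w x' φ) w₁ j x x'
    (40 * y) := by
  obtain ⟨a1, a2, a3, a4, a5, a6, a7, a8, a9, a10, a11, a12, a13, a14, a15⟩ := N.wins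
  obtain ⟨b1, b2, b3, b4, b5, b6, b7, b8, b9, b10, b11, b12, b13, b14, b15, b16, b17⟩ := N.wb
  obtain ⟨h1, h2, h3, h4, h5, h6, h7, h8, h9, h10⟩ := N.sm
  have hj := abs_le.1 N.hj
  have hx := abs_le.1 N.hx
  have hx' := abs_le.1 N.hx'
  have hu := N.u0
  have hyu := N.yu
  have hr := N.room
  have hT := N.Tu0
  have hru := N.ru0
  have hy0 := N.y0
  obtain ⟨u1, u2⟩ := N.us1
  have hbw := N.bw
  have hwo := N.wo
  have ho1 := N.o1
  have hw1 := N.hw1
  refine ⟨N.jG, N.xG, N.xG', by linarith, a3, a14, by linarith, by linarith, b9, by linarith,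
    by linarith, fun i _ => le_rfl, fun i hi => ?_, fun i hi => ?_, fun i hi => ?_,
    fun i hi => ?_, fun i hi => ?_, fun i hi => ?_, ⟨fun i hi => ?_, fun i hi l hl => ?_⟩⟩
  · obtain ⟨i1, i2, i3⟩ := N.li hi
    have e1 := N.slv hi N.jG b4 b5
    unfold nnP
    linarith
  · obtain ⟨i1, i2, i3⟩ := N.li hi
    have e1 := N.slv hi N.xG b6 b7
    unfold nnP
    linarith
  · obtain ⟨i1, i2, i3⟩ := N.li hi
    unfold nnP nfP
    linarith
  · obtain ⟨i1, i2, i3⟩ := N.li hi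
    have e1 := N.slv hi N.xG' b8 b9
    unfold nfP
    linarith
  · obtain ⟨i1, i2, i3⟩ := N.li hi
    have e1 := N.slv hi N.xG' b8 b9
    unfold nfP
    linarith
  · obtain ⟨i1, i2, i3⟩ := N.li hi
    have e1 := N.lwb (show i ≤ k + f by omega)
    unfold nfP
    linarith
  · obtain ⟨i1, i2, i3⟩ := N.li hi
    have e1 := N.slv hi N.bG le_rfl b3
    unfold nfP
    linarith
  · obtain ⟨i1, i2, i3⟩ := N.li hi
    have e1 := N.slv hi N.bG le_rfl b3
    have e2 := N.slv (hl.trans hi) N.bG le_rfl b3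
    have e3 := N.slv (hl.trans hi) N.oG b3 le_rfl
    have e4 := N.lo l (show l ≤ k + f by omega)
    unfold nfP
    linarith

/-- **The near digits of the targets.** -/
theorem few_c : b ≤ w ∧ w ≤ j ∧ j ≤ o ∧ j ≤ 1 ∧ Nst k sn w φ (nnP k sn w u y φ) ∧
    (∀ i < k, sn i j + 20 * φ ≤ nnP k sn w u y φ i) ∧
    ∀ l, k ≤ l → l ≤ k + f → ∀ i < k, sn l j + 40 * φ ≤
      sn l w + (nnP k sn w u y φ i - sn i w) := by
  obtain ⟨a1, a2, a3, a4, a5, a6, a7, a8, a9, a10, a11, a12, a13, a14, a15⟩ := N.wins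
  obtain ⟨b1, b2, b3, b4, b5, b6, b7, b8, b9, b10, b11, b12, b13, b14, b15, b16, b17⟩ := N.wb
  obtain ⟨h1, h2, h3, h4, h5, h6, h7, h8, h9, h10⟩ := N.sm
  obtain ⟨c1, c2, c3, c4, c5, c6, c7, c8, c9, c10, c11, c12⟩ := N.sw
  have hj := abs_le.1 N.hj
  have hu := N.u0
  have hyu := N.yu
  have hr := N.room
  have hT := N.Tu0
  have hru := N.ru0
  have hy0 := N.y0
  obtain ⟨u1, u2⟩ := N.us1
  have hbw := N.bw
  have hwo := N.wo
  have ho1 := N.o1
  refine ⟨b1, by linarith, b5, by linarith, ⟨fun i hi => ?_, fun i hi => ?_,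
    fun i hi l hl => ?_⟩, fun i hi => ?_, fun l h11 h12 i hi => ?_⟩
  · obtain ⟨i1, i2, i3⟩ := N.li hi
    unfold nnP
    linarith
  · obtain ⟨i1, i2, i3⟩ := N.li hi
    unfold nnP
    linarith
  · have i4 := N.lij hl
    unfold nnP
    linarith
  · obtain ⟨i1, i2, i3⟩ := N.li hi
    have e1 := N.slv hi N.jG b4 b5
    unfold nnP
    linarith
  · obtain ⟨i1, i2, i3⟩ := N.li hi
    have e1 := N.stv h11 h12 N.jG b4 b5
    unfold nnP
    linarith

/-- The far digits of the last target. -/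
theorem lmo : lam oq ≤ sn (k + f) w + (1 + ξ) * u + 506 * y ∧
    sn (k + f) w + (1 + ξ) * u + 504 * y ≤ lam oq := by
  obtain ⟨b1, b2, b3, b4, b5, b6, b7, b8, b9, b10, b11, b12, b13, b14, b15, b16, b17⟩ := N.wb
  obtain ⟨h1, h2, h3, h4, h5, h6, h7, h8, h9, h10⟩ := N.sm
  obtain ⟨c1, c2, c3, c4, c5, c6, c7, c8, c9, c10, c11, c12⟩ := N.sw
  have ot := abs_le.1 (N.sv oq b16 b17)
  constructor <;> linarith

/-- The far digits of the followers. -/
theorem lmq {l : ℕ} (h11 : k ≤ l) (h12 : l ≤ k + f) :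
    sn l xq ≤ sn l w + (1 + ξ) * u + 521 * y ∧ sn l w + (1 + ξ) * u + 519 * y ≤ sn l xq := by
  obtain ⟨b1, b2, b3, b4, b5, b6, b7, b8, b9, b10, b11, b12, b13, b14, b15, b16, b17⟩ := N.wb
  obtain ⟨h1, h2, h3, h4, h5, h6, h7, h8, h9, h10⟩ := N.sm
  obtain ⟨c1, c2, c3, c4, c5, c6, c7, c8, c9, c10, c11, c12⟩ := N.sw
  have ot := N.stv h11 h12 N.qG b12 b13
  constructor <;> linarith

/-- **The far digits of the targets** are known at `x'`. -/
theorem few0_c : w ≤ xr ∧ xr + 100 * ((k : ℝ) + 2) * φ ≤ x' ∧ x' ≤ o ∧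
    x' + 100 * ((k : ℝ) + 2) * φ ≤ 1 ∧
    ∀ l, k ≤ l → l ≤ k + f → ∀ P : ℝ, P ≤ sn l w + (1 + ξ) * u + 521 * y →
      P + 100 * ((k : ℝ) + 2) * φ ≤ sn l xr ∧
      P + 100 * ((k : ℝ) + 2) * φ ≤ sn l w + (x' - w) := by
  obtain ⟨a1, a2, a3, a4, a5, a6, a7, a8, a9, a10, a11, a12, a13, a14, a15⟩ := N.wins
  obtain ⟨b1, b2, b3, b4, b5, b6, b7, b8, b9, b10, b11, b12, b13, b14, b15, b16, b17⟩ := N.wb
  obtain ⟨h1, h2, h3, h4, h5, h6, h7, h8, h9, h10⟩ := N.sm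
  obtain ⟨c1, c2, c3, c4, c5, c6, c7, c8, c9, c10, c11, c12⟩ := N.sw
  obtain ⟨d1, d2⟩ := N.ξu
  have hxr := abs_le.1 N.hxr
  have hx' := abs_le.1 N.hx'
  have hu := N.u0
  have hyu := N.yu
  have hr := N.room
  have hT := N.Tu0
  have hru := N.ru0
  have hy0 := N.y0
  have hbw := N.bw
  have hwo := N.wo
  have ho1 := N.o1
  have hs := N.s1
  have e1 : 100 * ((k : ℝ) + 2) * φ ≤ 100 * y := by linarith
  refine ⟨by linarith, by linarith, b9, by linarith, fun l h11 h12 P hP => ⟨?_, by linarith⟩⟩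
  have e2 := N.stv h11 h12 N.rG b10 b11
  have e3 : (s - 1) * ((1 + ξ) * u + 600 * y) ≥ (s - 1) * u := by
    refine mul_le_mul_of_nonneg_left ?_ (by linarith)
    linarith
  have e4 := N.yd
  have e5 : 0 ≤ s * φ := h2
  have e6 : s * ((1 + ξ) * u + 600 * y) = (s - 1) * ((1 + ξ) * u + 600 * y) +
      ((1 + ξ) * u + 600 * y) := by ring
  linarith

/-- **No look-ahead.** -/
theorem nlq_c : w₁ ≤ j ∧ vq ≤ 1 ∧ j ≤ xq ∧ xq ≤ o ∧ xq + e ≤ 1 ∧ w + e ≤ xq ∧
    0 ≤ sn (k + f) j - 60 * φ ∧ lam vq ≤ (sn (k + f) j - 60 * φ) + e ∧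
    sn (k + f) j - 60 * φ ≤ lam oq ∧ lam oq + e ≤ sn (k + f) xq ∧
    (∀ l, k ≤ l → l < k + f → 0 ≤ sn l j - 60 * φ ∧ sn l j ≤ (sn l j - 60 * φ) + e ∧
      sn l j - 60 * φ ≤ sn l xq - e ∧ sn l xq ≤ (sn l xq - e) + 2 * e ∧ sn l xq - e + e ≤ 1 ∧
      (sn l xq - e) + e ≤ sn l xq) ∧
    (∀ l < k + f, lam oq + e ≤ sn (k + f) w + (1 - sn l w)) ∧
    (∀ l, k ≤ l → l < k + f → ∀ l' < k + f, (sn l xq - e) + e ≤ sn l w + (1 - sn l' w)) ∧
    (∀ l < k, sn l xq + e ≤ 1) ∧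
    (∀ l < k, ∀ l' < l, sn l xq - sn l b + e ≤ 1 - sn l' b) ∧
    lam oq + e ≤ sn (k + f) w + (1 - w) ∧
    (∀ l, k ≤ l → l < k + f → (sn l xq - e) + e ≤ sn l w + (1 - w)) := by
  obtain ⟨a1, a2, a3, a4, a5, a6, a7, a8, a9, a10, a11, a12, a13, a14, a15⟩ := N.wins
  obtain ⟨b1, b2, b3, b4, b5, b6, b7, b8, b9, b10, b11, b12, b13, b14, b15, b16, b17⟩ := N.wb
  obtain ⟨h1, h2, h3, h4, h5, h6, h7, h8, h9, h10⟩ := N.sm
  obtain ⟨c1, c2, c3, c4, c5, c6, c7, c8, c9, c10, c11, c12⟩ := N.sw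
  obtain ⟨d1, d2⟩ := N.ξu
  obtain ⟨m1, m2⟩ := N.lmo
  have hj := abs_le.1 N.hj
  have hxr := abs_le.1 N.hxr
  have hxq := abs_le.1 N.hxq
  have hu := N.u0
  have hyu := N.yu
  have hr := N.room
  have hT := N.Tu0
  have hru := N.ru0
  have hy0 := N.y0
  have hbw := N.bw
  have hwo := N.wo
  have ho1 := N.o1
  have hs := N.s1
  have hyξ := N.yξ
  obtain ⟨u1, u2⟩ := N.us1
  have jt := N.stv (show k ≤ k + f by omega) le_rfl N.jG b4 b5
  have vt := abs_le.1 (N.sv vq b14 b15)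
  have lr := N.lwb (show k + f ≤ k + f from le_rfl)
  have qt := N.lmq (show k ≤ k + f by omega) le_rfl
  have hwq : w + e ≤ xq := by
    have e1 : s * (w + e) ≤ s * xq := by
      have e2 : s * e ≤ s * y := mul_le_mul_of_nonneg_left (by linarith) (by linarith)
      have e3 := N.ys
      have e4 : s * (xq - w) = s * xq - s * w := by ring
      have e5 : s * (w + e) = s * w + s * e := by ring
      linarith
    exact le_of_mul_le_mul_left e1 (by linarith)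
  refine ⟨a3, by linarith, a10, b13, by linarith, hwq, by linarith, by linarith, by linarith,
    by linarith, fun l h11 h12 => ⟨?_, by linarith, ?_, by linarith, ?_, by linarith⟩,
    fun l hl => ?_, fun l h11 h12 l' hl' => ?_, fun l hl => ?_, fun l hl l' hl' => ?_,
    by linarith, fun l h11 h12 => ?_⟩
  · have e1 := N.stv h11 h12.le N.jG b4 b5
    have e2 := N.lwb h12.le
    linarith
  · have e1 := N.stv h11 h12.le N.jG b4 b5
    have e2 := N.lmq h11 h12.le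
    linarith
  · have e1 := N.lmq h11 h12.le
    have e2 := N.lwb h12.le
    linarith
  · have e1 := N.lwb hl.le
    linarith
  · have e1 := N.lmq h11 h12.le
    have e2 := N.lwb hl'.le
    have e3 := N.lwb h12.le
    linarith
  · have e1 := N.slv hl N.qG b12 b13
    have e2 := N.lwb (show l ≤ k + f by omega)
    linarith
  · have e1 := N.slv hl N.qG b12 b13
    have e2 := N.slv hl N.bG le_rfl b3
    have e3 := N.slv (hl'.trans hl) N.bG le_rfl b3
    have e4 := N.slv (hl'.trans hl) N.oG b3 le_rfl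
    have e5 := N.lo l' (show l' ≤ k + f by omega)
    linarith
  · have e1 := N.lmq h11 h12.le
    linarith

end

end NP

end Pool.V0Q
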