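import Pool.Agent.H44.V0P.Num2

/-!
# The numbers of the class theorems for several targets of one slope, third part

`NP.row_c`: the rows; `NP.fiu_c`: fullness; `NP.k9_c`: codes of the order `≥ 2`; `NP.nb_c`: the
digits of the base for rows and fullness.
-/

set_option autoImplicit false

namespace Pool.V0Q

open Finset Real
open Pool.LA91 Pool.V0F
open Pool.VT83 (VB)

namespace NP

variable {k f : ℕ} {s : ℝ} {sn : ℕ → ℝ → ℝ} {G : Set ℝ} {b o φ w u y ξ T Λ C κ e : ℝ}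
  {lam : ℝ → ℝ} {j x x' xr xq w₁ vq oq : ℝ} {xa : ℕ → ℝ}

section

variable (N : NP k f s sn G b o φ w u y ξ T Λ C κ e lam j x x' xr xq w₁ vq oq xa)

include N

/-- The levels of the targets at the windows of the blocks. -/
theorem lma {a : ℕ} (ha : (a : ℝ) * κ ≤ 1) {l : ℕ} (h11 : k ≤ l) (h12 : l ≤ k + f) :
    sn l (xa a) ≤ sn l w + u + a * κ * (ξ * u) + 521 * y ∧
    sn l w + u + a * κ * (ξ * u) + 519 * y ≤ sn l (xa a) := by
  obtain ⟨b1, b2, b3, b4, b5, b6, b7, b8, b9, b10, b11, b12, b13, b14, b15, b16, b17⟩ := N.wb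
  obtain ⟨h1, h2, h3, h4, h5, h6, h7, h8, h9, h10⟩ := N.sm
  obtain ⟨a1, a2⟩ := N.wina ha
  obtain ⟨c1, c2⟩ := N.swa ha
  have hy0 := N.y0
  have ot := N.stv h11 h12 (N.aG a ha) (by linarith) (by linarith)
  constructor <;> linarith

/-- **The digits of the base** for rows and fullness. -/
theorem nb_c : (∀ i < k, sn i xr ≤ nfP k sn w xr φ i ∧ nfP k sn w xr φ i ≤ 1) ∧
    Tp k sn b φ (nfP k sn w xr φ) ∧ Nst k sn w φ (nfP k sn w xr φ) ∧
    (∀ i < k, nnP k sn w u y φ i ≤ nfP k sn w xr φ i) ∧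
    (∀ i < k, nfP k sn w xr φ i ≤ nfP k sn w x' φ i) ∧
    (∀ i < k, ξ * u ≤ nfP k sn w xr φ i - nnP k sn w u y φ i) ∧
    (∀ i < k, sn i w + (1 + ξ) * u + 600 * y ≤ nfP k sn w xr φ i) ∧
    ∀ i < k, nfP k sn w xr φ i ≤ sn i w + (1 + ξ) * u + 640 * y := by
  obtain ⟨a1, a2, a3, a4, a5, a6, a7, a8, a9, a10, a11, a12, a13, a14, a15⟩ := N.wins
  obtain ⟨b1, b2, b3, b4, b5, b6, b7, b8, b9, b10, b11, b12, b13, b14, b15, b16, b17⟩ := N.wb
  obtain ⟨h1, h2, h3, h4, h5, h6, h7, h8, h9, h10⟩ := N.sm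
  obtain ⟨d1, d2⟩ := N.ξu
  have hxr := abs_le.1 N.hxr
  have hu := N.u0
  have hyu := N.yu
  have hr := N.room
  have hT := N.Tu0
  have hru := N.ru0
  have hy0 := N.y0
  have hbw := N.bw
  have hwo := N.wo
  have ho1 := N.o1
  refine ⟨fun i hi => ⟨?_, ?_⟩, ⟨fun i hi => ?_, fun i hi l hl => ?_⟩,
    ⟨fun i hi => ?_, fun i hi => ?_, fun i hi l hl => ?_⟩, fun i hi => ?_, fun i hi => ?_,
    fun i hi => ?_, fun i hi => ?_, fun i hi => ?_⟩
  · obtain ⟨i1, i2, i3⟩ := N.li hi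
    have e1 := N.slv hi N.rG b10 b11
    unfold nfP
    linarith
  · obtain ⟨i1, i2, i3⟩ := N.li hi
    have e1 := N.lwb (show i ≤ k + f by omega)
    unfold nfP
    linarith
  · obtain ⟨i1, i2, i3⟩ := N.li hi
    have e1 := N.slv hi N.bG le_rfl b3
    unfold nfP
    linarith
  · obtain ⟨i1, i2, i3⟩ := N.li hi
    have e1 := N.slv hi N.bG le_rfl b3
    have e2 := N.slv (hl.trans hi) N.bG le_rfl b3
    have e3 := N.slv (hl.trans hi) N.oG b3 le_rfl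
    have e4 := N.lo l (show l ≤ k + f by omega)
    unfold nfP
    linarith
  · obtain ⟨i1, i2, i3⟩ := N.li hi
    unfold nfP
    linarith
  · obtain ⟨i1, i2, i3⟩ := N.li hi
    unfold nfP
    linarith
  · have i4 := N.lij hl
    unfold nfP
    linarith
  · obtain ⟨i1, i2, i3⟩ := N.li hi
    unfold nnP nfP
    linarith
  · unfold nfP
    linarith
  · obtain ⟨i1, i2, i3⟩ := N.li hi
    unfold nnP nfP
    linarith
  · obtain ⟨i1, i2, i3⟩ := N.li hi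
    unfold nfP
    linarith
  · obtain ⟨i1, i2, i3⟩ := N.li hi
    unfold nfP
    linarith

/-- **The numbers of the rows.** -/
theorem row_c {a : ℕ} (ha : (a : ℝ) * κ ≤ 1) {c' : ℝ} (hc0 : 0 ≤ c') (hc : c' ≤ C * φ) :
    w ≤ xa a ∧ xa a + c' ≤ xr ∧ xr ≤ o ∧ xr + c' ≤ 1 ∧
    (∀ l, k ≤ l → l ≤ k + f → 0 ≤ sn l w + u + 500 * y - 2 * φ ∧
      sn l w + u + 500 * y - 2 * φ ≤ sn l w + u + 500 * y + a * κ * (ξ * u) ∧
      sn l w + u + 500 * y + a * κ * (ξ * u) ≤ 1 ∧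
      sn l w + u + 500 * y - 2 * φ ≤ sn l (xa a) - c' ∧ sn l (xa a) - c' ≤ 1 ∧
      sn l w + u + 500 * y + a * κ * (ξ * u) + c' ≤ sn l (xa a) ∧
      sn l w + u + 500 * y + a * κ * (ξ * u) + c' ≤ sn l w + (xr - w) ∧
      sn l (xa a) ≤ sn l (xa a) - c' + 2 * c' ∧ sn l (xa a) - c' + c' ≤ sn l (xa a) ∧
      sn l (xa a) - c' + c' ≤ sn l w + (xr - w) ∧
      (∀ l' ≤ k + f, sn l w + u + 500 * y + a * κ * (ξ * u) + c' ≤
        sn l w + (1 - sn l' w)) ∧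
      (∀ l' ≤ k + f, sn l (xa a) - c' + c' ≤ sn l w + (1 - sn l' w)) ∧
      |sn l w + u + 500 * y - 2 * φ - sn l w| ≤ Λ * u ∧
      |sn l w + u + 500 * y + a * κ * (ξ * u) - sn l w| ≤ Λ * u ∧
      sn l (xa a) - c' - (sn l w + u + 500 * y - 2 * φ) ≤ a * κ * (ξ * u) + 22 * y ∧
      sn l w + u + 500 * y + a * κ * (ξ * u) ≤ sn l (xa a) - c') := by
  obtain ⟨a1, a2, a3, a4, a5, a6, a7, a8, a9, a10, a11, a12, a13, a14, a15⟩ := N.wins
  obtain ⟨b1, b2, b3, b4, b5, b6, b7, b8, b9, b10, b11, b12, b13, b14, b15, b16, b17⟩ := N.wb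
  obtain ⟨h1, h2, h3, h4, h5, h6, h7, h8, h9, h10⟩ := N.sm
  obtain ⟨d1, d2⟩ := N.ξu
  obtain ⟨g1, g2⟩ := N.blk ha
  obtain ⟨w1, w2⟩ := N.wina ha
  have hxr := abs_le.1 N.hxr
  have hu := N.u0
  have hyu := N.yu
  have hr := N.room
  have hT := N.Tu0
  have hru := N.ru0
  have hy0 := N.y0
  have hbw := N.bw
  have hwo := N.wo
  have ho1 := N.o1
  refine ⟨by linarith, by linarith, b11, by linarith, fun l h11 h12 => ?_⟩
  obtain ⟨l1, l2⟩ := N.lma ha h11 h12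
  obtain ⟨r1, r2⟩ := N.lwb h12
  refine ⟨by linarith, by linarith, by linarith, by linarith, by linarith, by linarith,
    by linarith, by linarith, by linarith, by linarith, fun l' hl' => ?_, fun l' hl' => ?_,
    ?_, ?_, by linarith, by linarith⟩
  · have e1 := N.lwb hl'
    linarith
  · have e1 := N.lwb hl'
    linarith
  · rw [abs_le]
    constructor <;> linarith
  · rw [abs_le]
    constructor <;> linarith

/-- **The numbers of the fullness** of a block. -/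
theorem fiu_c {i i' : ℕ} (hi : i < i') (ha : (i' : ℝ) * κ ≤ 1) {c' : ℝ} (hc0 : 0 ≤ c')
    (hc : c' ≤ C * φ) :
    w + 1000 * φ ≤ xa i ∧ xa i ≤ o ∧ xa i + c' ≤ 1 ∧ (∀ l < k, sn l (xa i) + c' ≤ nfP k sn w xr φ l) ∧
    (∀ l, k ≤ l → l ≤ k + f → 0 ≤ sn l (xa i) - c' ∧
      sn l (xa i) - c' ≤ sn l w + u + 500 * y + i' * κ * (ξ * u) - 2 * φ ∧
      sn l w + u + 500 * y + i' * κ * (ξ * u) - 2 * φ + c' ≤ 1 ∧
      sn l w + u + 500 * y + i * κ * (ξ * u) + c' ≤ sn l (xa i) ∧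
      sn l (xa i) - c' + c' ≤ sn l (xa i) ∧ sn l (xa i) ≤ sn l (xa i) - c' + 2 * c' ∧
      (∀ l' < k, sn l w + u + 500 * y + i * κ * (ξ * u) + c' ≤
        sn l w + (nfP k sn w xr φ l' - sn l' w)) ∧
      (∀ l' < k, sn l (xa i) - c' + c' ≤ sn l w + (nfP k sn w xr φ l' - sn l' w)) ∧
      sn l w + u + 500 * y + i' * κ * (ξ * u) - 2 * φ + c' ≤ sn l w + (1 - w) ∧
      (∀ l' ≤ k + f, sn l w + u + 500 * y + i' * κ * (ξ * u) - 2 * φ + c' ≤
        sn l w + (1 - sn l' w)) ∧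
      sn l w + u + 500 * y + i * κ * (ξ * u) ≤ sn l (xa i) - c' ∧
      (i' - i) * κ * (ξ * u) - 30 * y ≤
        (sn l w + u + 500 * y + i' * κ * (ξ * u) - 2 * φ) - (sn l (xa i) - c')) := by
  have ha' : (i : ℝ) * κ ≤ 1 := by
    have h1 : (i : ℝ) ≤ i' := by exact_mod_cast hi.le
    exact (mul_le_mul_of_nonneg_right h1 N.κ0.le).trans ha
  obtain ⟨a1, a2, a3, a4, a5, a6, a7, a8, a9, a10, a11, a12, a13, a14, a15⟩ := N.wins
  obtain ⟨b1, b2, b3, b4, b5, b6, b7, b8, b9, b10, b11, b12, b13, b14, b15, b16, b17⟩ := N.wb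
  obtain ⟨h1, h2, h3, h4, h5, h6, h7, h8, h9, h10⟩ := N.sm
  obtain ⟨d1, d2⟩ := N.ξu
  obtain ⟨g1, g2⟩ := N.blk ha
  obtain ⟨g3, g4⟩ := N.blk ha'
  obtain ⟨w1, w2⟩ := N.wina ha'
  obtain ⟨n1, n2, n3, n4, n5, n6, n7, n8⟩ := N.nb_c
  have hstep : (i : ℝ) * κ * (ξ * u) + 4000 * y ≤ i' * κ * (ξ * u) := by
    have e1 : (i : ℝ) + 1 ≤ i' := by exact_mod_cast hi
    have e2 := N.yκ
    have e3 : 0 ≤ κ * (ξ * u) := mul_nonneg N.κ0.le d1.le
    have e4 : ((i : ℝ) + 1) * (κ * (ξ * u)) ≤ i' * (κ * (ξ * u)) :=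
      mul_le_mul_of_nonneg_right e1 e3
    linarith
  have hxr := abs_le.1 N.hxr
  have hu := N.u0
  have hyu := N.yu
  have hr := N.room
  have hT := N.Tu0
  have hru := N.ru0
  have hy0 := N.y0
  have hbw := N.bw
  have hwo := N.wo
  have ho1 := N.o1
  refine ⟨w1, by linarith, by linarith, fun l hl => ?_, fun l h11 h12 => ?_⟩
  · have e1 := N.slv hl (N.aG i ha') (by linarith) (by linarith)
    have e2 := n7 l hl
    linarith
  obtain ⟨l1, l2⟩ := N.lma ha' h11 h12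
  obtain ⟨r1, r2⟩ := N.lwb h12
  refine ⟨by linarith, by linarith, by linarith, by linarith, by linarith, by linarith,
    fun l' hl' => ?_, fun l' hl' => ?_, by linarith, fun l' hl' => ?_, by linarith,
    by linarith⟩
  · have e2 := n7 l' hl'
    linarith
  · have e2 := n7 l' hl'
    linarith
  · have e1 := N.lwb hl'
    linarith

/-- **The numbers of the codes of order `≥ 2`** of the chain. -/
theorem k9_c : 0 ≤ b ∧ b ≤ w ∧ w < 1 ∧ w₁ < 1 ∧ ∀ l < k, sn l w + 3 * u ≤ (sn l b - φ) + 2 * (w - b) := by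
  obtain ⟨b1, b2, b3, b4, b5, b6, b7, b8, b9, b10, b11, b12, b13, b14, b15, b16, b17⟩ := N.wb
  obtain ⟨h1, h2, h3, h4, h5, h6, h7, h8, h9, h10⟩ := N.sm
  have hu := N.u0
  have hyu := N.yu
  have hr := N.room
  have hT := N.Tu0
  have hru := N.ru0
  have hbw := N.bw
  have hwo := N.wo
  have ho1 := N.o1
  have hb0 := N.b0
  have hw2 := N.hw2
  refine ⟨by linarith, b1, by linarith, by linarith, fun l hl => ?_⟩
  have e1 := N.slv hl N.bG le_rfl b3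
  linarith

end

end NP

end Pool.V0Q
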