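import Pool.Agent.H44.V0P.Lab
import Pool.Agent.H44.V0P.Num3

/-!
# Parts of the class theorem for a pair: statements

`GrdPStmt`: the gradients of the pair on one event; `CelPStmt`: two samples of one cell;
`RowFamStmt`, `FulFamStmt`: rows and fullness on parts of the event.
-/

set_option autoImplicit false

namespace Pool.V0Q

open Finset Real MvPolynomial
open Pool.Agent.H49.Ent Pool.Agent.H32.Dense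
open Pool.STK hiding pr2
open Pool.KA Pool.KSAT Pool.K2S Pool.PB Pool.S6C
open Pool.GEN Pool.CHT Pool.CHX Pool.ISO Pool.LA91 Pool.AVG71 Pool.AVG5 Pool.D2F2 Pool.AVG57
open Pool.RCD Pool.AVG96 Pool.OWN68 Pool.V0F
open Pool.AJW (CfB)
open Pool.D2R (WinB gnh hgt hyb chs)
open Pool.LV64 (GrdV NrH)

/-- **The gradients of the pair**: `0`: the last place, `1`: the place `k`. -/
noncomputable def ggP {m J : ℕ} (F : Fam m J) (c : ℕ → Fin m) (k : ℕ)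
    (G : ℕ → PtT F → ℕ → MvPolynomial (Option (Fin m)) ℝ)
    (GN : PtT F → MvPolynomial (Option (Fin m)) ℝ) (kb kw kn : ℕ) (γ : ℕ → ℕ) (ω : F.Ω)
    (u : Fin 2) (j : Fin k) : ℝ :=
  if u = 0 then gnh F c (k + 1) γ (folN G GN kb kn k (k + 1)) (G kn) ω j
  else gnh F c k γ (hyb G kb kw k) (G kn) ω j

/-- The charts and the frame. -/
noncomputable def chP {m J : ℕ} (F : Fam m J) (k n : ℕ)
    (G : ℕ → PtT F → ℕ → MvPolynomial (Option (Fin m)) ℝ)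
    (GN : PtT F → MvPolynomial (Option (Fin m)) ℝ) (kb kw : ℕ) (f : ℕ → ℕ) (ω : F.Ω) :
    (Fin (n + 1) → Fin (k + 1 + 1) → MvPolynomial (Option (Fin m)) ℝ) ×
      (Fin (k + 2) → MvPolynomial (Option (Fin m)) ℝ) :=
  (chs F (k + 1) n (fun t => G (f t)) ω, fun l => frP G GN kb kw k (ptr F J ω) l)

/-- **The gradients on one event.** -/
def GrdPStmt : Prop := ∀ D D' k : ℕ, 1 ≤ k → ∃ Cg : ℕ, 1 ≤ Cg ∧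
  ∀ {s : ℝ} {sn : ℕ → ℝ → ℝ} {Gs : Set ℝ} {b o φ w u y ξ T Λ C κ₀ e : ℝ} {lam : ℝ → ℝ}
    {x' xr xq w₁ vq oq : ℝ} {xa : ℕ → ℝ} {m J : ℕ} {F : Fam m J}
    {c : ℕ → Fin m} {Dr N M : ℕ} {C₀ a Eb ηm : ℝ} {ow η σ : ℕ → ℝ} {lv bb : ℕ → ℕ → ℝ} {κ : ℝ}
    {z : ℕ → ℕ → ℕ} {A : F.Ω → Prop} {g₀ : ℕ → ℕ → ℕ}
    {G : ℕ → PtT F → ℕ → MvPolynomial (Option (Fin m)) ℝ}
    {H : ℕ → LnT F → ℕ → MvPolynomial (Option (Fin m)) ℝ} {fb f : ℕ → ℕ} {nb n ks : ℕ}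
    {GN : PtT F → MvPolynomial (Option (Fin m)) ℝ} {κN : F.Ω → ℝ},
    WinB F c (k + 1) D Dr N M C₀ a Eb ηm ow η σ lv bb κ z A g₀ G H →
    NP k 1 s sn Gs b o φ w u y ξ T Λ C κ₀ e lam (ow (f ks)) (ow (f n)) x' xr xq w₁ vq oq xa →
    Set.InjOn c (Set.Iio (k + 2)) → 1 ≤ n → ks ≤ n → (∀ t ≤ nb, fb t ≤ N) →
    (∀ t ≤ n, f t ≤ N) → f 0 = fb nb → ow (fb 0) = b → ow (f 0) = w →
    (∀ t ≤ nb, ow (fb t) ∈ Gs) → (∀ t ≤ n, ow (f t) ∈ Gs) →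
    (∀ t < nb, ow (fb t) ≤ ow (fb (t + 1)) ∧ ow (fb (t + 1)) ≤ ow (fb t) + φ) →
    (∀ t < n, ow (f t) ≤ ow (f (t + 1)) ∧ ow (f (t + 1)) ≤ ow (f t) + φ) →
    (∀ t ≤ N, ∀ l ≤ k + 1, lv t l = sn l (ow t)) → C₀ * ηm ≤ φ →
    (∀ t < nb, ∃ j ≤ M, z (fb t) j = ⌊ow (fb (t + 1)) * J⌋₊ - ⌊ow (fb t) * J⌋₊) →
    (∀ t < n, ∃ j ≤ M, z (f t) j = ⌊ow (f (t + 1)) * J⌋₊ - ⌊ow (f t) * J⌋₊) →
    10 ≤ φ * J → (nb : ℝ) ≤ φ * J → (n : ℝ) ≤ φ * J →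
    (∀ y, (GN y).totalDegree ≤ D') → (∀ y, DepC c (k + 1) (GN y)) →
    (∀ ω, A ω → ∀ x, NBx c (G (f 0) (ptr F J ω)) (g₀ (f 0)) ⌊ow (f 0) * J⌋₊ (F.t ω)
      (k + 1) x → |eval x (GN (ptr F J ω)) + κN ω - eval x (G (f 0) (ptr F J ω) (k + 1))| ≤
        2 ^ (φ * J) / 2 ^ g₀ (f 0) (k + 1)) →
    GrdV F c (fun j : Fin k => (j : ℕ)) (fun u : Fin 2 => if u = 0 then k + 1 else k)
      (fun _ => ⌊(u + 500 * y) * J⌋₊) (fun _ => ⌊ξ * u * J⌋₊) ⌊(u + 500 * y) * J⌋₊ ⌊ξ * u * J⌋₊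
      (g₀ (f 0)) (2 ^ (Cg * (⌈1000 * y * J⌉₊ + 3))) A (frP G GN (fb 0) (f 0) k)
      (ggP F c k G GN (fb 0) (f 0) (f n) (g₀ (f 0))) (fun _ => ())
      (chP F k ks G GN (fb 0) (f 0) f) (chP F k n G GN (fb 0) (f 0) f) ∧
    ∀ ω, A ω → ∀ i < k + 1, |gnh F c (k + 1) (g₀ (f 0)) (folN G GN (fb 0) (f n) k (k + 1))
      (G (f n)) ω i| ≤ 2 ^ (Cg * (⌈1000 * y * J⌉₊ + 3))

/-- **Two samples of one cell.** -/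
def CelPStmt : Prop := ∀ m D k : ℕ, ∃ Cc : ℕ, 1 ≤ Cc ∧
  ∀ {s : ℝ} {sn : ℕ → ℝ → ℝ} {Gs : Set ℝ} {b o φ w u y ξ T Λ C κ₀ e : ℝ} {lam : ℝ → ℝ}
    {jw xw x' xr xq w₁ vq oq : ℝ} {xa : ℕ → ℝ} {J : ℕ} {F : Fam m J}
    {c : ℕ → Fin m} {Dr N M : ℕ} {C₀ a Eb ηm : ℝ} {ow η σ : ℕ → ℝ} {lv bb : ℕ → ℕ → ℝ} {κ : ℝ}
    {z : ℕ → ℕ → ℕ} {A : F.Ω → Prop} {g₀ : ℕ → ℕ → ℕ}
    {G : ℕ → PtT F → ℕ → MvPolynomial (Option (Fin m)) ℝ}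
    {H : ℕ → LnT F → ℕ → MvPolynomial (Option (Fin m)) ℝ} {kb kw mm : ℕ},
    WinB F c (k + 1) D Dr N M C₀ a Eb ηm ow η σ lv bb κ z A g₀ G H →
    NP k 1 s sn Gs b o φ w u y ξ T Λ C κ₀ e lam jw xw x' xr xq w₁ vq oq xa →
    Set.InjOn c (Set.Iio (k + 2)) → kb ≤ N → kw ≤ N → ow kb = b → ow kw = w →
    (∀ t ≤ N, ∀ l ≤ k + 1, lv t l = sn l (ow t)) → C₀ * ηm ≤ φ →
    (∀ l ≤ k + 1, Eb + sn l w + Λ * u ≤ 1) →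
    (∃ jq ≤ M, ∃ jT ≤ M, (z kb jq : ℝ) ≤ u * J ∧ z kb jq + 1 ≤ z kb jT) →
    (∃ jq ≤ M, ∃ jT ≤ M, (z kw jq : ℝ) ≤ u * J ∧ z kw jq + 1 ≤ z kw jT) →
    10 ≤ φ * J → (Cc : ℝ) * (2 * φ) ≤ u → (mm : ℝ) ≤ u / 2 * J →
    ∀ ω ν, A ω → A ν → ptr F J ω = ptr F J ν →
      (∀ l < k, |hgt F c (G kb) ω l - hgt F c (G kb) ν l| ≤
        1 / 2 ^ (g₀ kw l + ⌊(u + 500 * y) * J⌋₊ + (⌊ξ * u * J⌋₊ + mm))) ∧
      |hgt F c (G kw) ω k - hgt F c (G kw) ν k| ≤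
        1 / 2 ^ (g₀ kw k + ⌊(u + 500 * y) * J⌋₊ + ⌊ξ * u * J⌋₊)

/-- **The rows** of the pair on parts of the event, blocks from the natural digits. -/
def RowFamStmt : Prop := ∀ k : ℕ, ∃ Cr : ℝ, 1 ≤ Cr ∧
  ∀ {m : ℕ} {S : PCl m} {c : ℕ → Fin m} {D : ℕ} {sn : ℕ → ℝ → ℝ} {G : Set ℝ} {b o φ : ℝ},
    LadP S c k sn G b o φ → (range (k + 1)).image c = univ.erase (c (k + 1)) →
    ∀ {s w u y ξ T Λ C κ e : ℝ} {lam : ℝ → ℝ} {j x x' xr xq w₁ vq oq : ℝ} {xa : ℕ → ℝ},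
    NP k 1 s sn G b o φ w u y ξ T Λ C κ e lam j x x' xr xq w₁ vq oq xa → Cr ≤ C →
    ∀ {h : ℝ}, (∀ P₁ P₂ : ℝ, |P₁ - sn (k + 1) w| ≤ Λ * u → |P₂ - sn (k + 1) w| ≤ Λ * u →
      P₁ ≤ P₂ → RawN S (univ.erase (c (k + 1))) (c (k + 1)) P₁ (P₂ - P₁) h φ) →
    (∃ rk E : ℝ, rk < 1 ∧ 0 ≤ E ∧
      AttG S ((range (k + 1)).image c) (c (k + 1)) w (sn (k + 1) w) rk E ∧
      sn (k + 1) w + E + Λ * u ≤ 1) →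
    (∃ η : ℝ, RNum S (fun J F => ptr F J) (vg w₁) η) →
    ∀ π₀ : ℝ, 0 < π₀ → ∀ ε : ℝ, 0 < ε → ∀ Ec : ℝ,
    Bas S (fun J F A => ∀ Hb H : LnT F → ℕ → MvPolynomial (Option (Fin m)) ℝ,
      LDP F c k 1 D b w φ Ec sn A Hb H → ∀ a : ℕ, (a : ℝ) * κ ≤ 1 →
      ∀ B : F.Ω → Prop, Sub B A → π₀ * Pe F.p A ≤ Pe F.p B →
      CH (Pool.Agent.H49.Ent.cond F.p B True)
        (fun ω => (th0 F c (k + 1) ⌊w * J⌋₊ H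
            (sn (k + 1) w + u + 500 * y + a * κ * (ξ * u)) ω,
          th0 F c k ⌊w * J⌋₊ H (sn k (xa a) - Cr * φ) ω))
        (fun ω => ((th0 F c (k + 1) ⌊w * J⌋₊ H (sn (k + 1) w + u + 500 * y - 2 * φ) ω,
            th0 F c k ⌊w * J⌋₊ H (sn k w + u + 500 * y - 2 * φ) ω),
          (jh F c k ⌊w * J⌋₊ H (nfP k sn w xr φ) ω, (cR F A w₁ ω, F.W ω)))) ≤
        (((1 - h) * (a * κ * (ξ * u) + 2 * φ) + (a * κ * (ξ * u) + 22 * y)) * Real.log 2 + φ +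
          8 * Cr * φ + ε) * J)

/-- **The fullness** of the digits of the place `k` on parts of the event, blocks `(i, i']`. -/
def FulFamStmt : Prop := ∀ k : ℕ, ∃ Cf : ℝ, 1 ≤ Cf ∧
  ∀ {m : ℕ} {S : PCl m} {c : ℕ → Fin m} {D : ℕ} {sn : ℕ → ℝ → ℝ} {G : Set ℝ} {b o φ : ℝ},
    LadP S c k sn G b o φ → (range (k + 1)).image c = univ.erase (c (k + 1)) →
    ∀ {s w u y ξ T Λ C κ e : ℝ} {lam : ℝ → ℝ} {j x x' xr xq w₁ vq oq : ℝ} {xa : ℕ → ℝ},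
    NP k 1 s sn G b o φ w u y ξ T Λ C κ e lam j x x' xr xq w₁ vq oq xa → Cf ≤ C →
    ∀ π₀ : ℝ, 0 < π₀ → ∀ ε : ℝ, 0 < ε → ∀ Ec : ℝ,
    Bas S (fun J F A => ∀ Hb H : LnT F → ℕ → MvPolynomial (Option (Fin m)) ℝ,
      LDP F c k 1 D b w φ Ec sn A Hb H → ∀ i i' : ℕ, i < i' → (i' : ℝ) * κ ≤ 1 →
      ∀ B : F.Ω → Prop, Sub B A → π₀ * Pe F.p A ≤ Pe F.p B →
      ∀ (V : Type) (z : F.Ω → V), Cl2 (ptr F J) (vg (w + 1000 * φ) J F) B z →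
      (((i' - i) * κ * (ξ * u) - 30 * y) * Real.log 2 - 4 * Cf * φ - ε) * J ≤
        CH (Pool.Agent.H49.Ent.cond F.p B True)
          (th0 F c k ⌊w * J⌋₊ H (sn k w + u + 500 * y + i' * κ * (ξ * u) - 2 * φ))
          (fun ω => ((th0 F c (k + 1) ⌊w * J⌋₊ H
              (sn (k + 1) w + u + 500 * y + i * κ * (ξ * u)) ω,
            th0 F c k ⌊w * J⌋₊ H (sn k (xa i) - Cf * φ) ω),
            (jh F c k ⌊w * J⌋₊ H (nfP k sn w xr φ) ω, (z ω, F.W ω)))))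

end Pool.V0Q
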