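import Pool.Agent.H44.V0P.Pfn

/-!
# The own jets of the second target over its slab label: orders above the slope

`nj_high`: from an early window, where the jet is natural.
-/

set_option autoImplicit false

namespace Pool.TW44

open Finset Real MvPolynomial
open Pool.Agent.H49.Ent Pool.Agent.H32.Dense Pool.STK Pool.KA Pool.KSAT Pool.K2S Pool.PB Pool.GEN
open Pool.S6C Pool.RCD Pool.LA91 Pool.AVG96 Pool.V0F Pool.V0T Pool.D2R Pool.NVT16
open Pool.BFL (Pb)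
open Pool.AVG57 (jet2 upw upw_slam)
open Pool.GRD (LbP)
open Pool.AJW (CfB)

/-- **The orders above the slope**, over the slab label of the window `f n`, from the window `f t₁`,
where the jet is natural. -/
theorem nj_high (m D k i : ℕ) : ∃ C : ℕ, 1 ≤ C ∧ ∀ {S : PCl m} {c : ℕ → Fin m}
    {sn : ℕ → ℝ → ℝ} {G : Set ℝ} {b o φ s : ℝ} {al : ℕ → ℝ} {Dr N M : ℕ} {C₀ a Eb ηm : ℝ}
    {ow η σ : ℕ → ℝ} {lv bb : ℕ → ℕ → ℝ} {f : ℕ → ℕ} {n : ℕ}, LadT S c k 1 sn G b o φ →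
    Lns k sn G b o φ s al → 0 ≤ s → s ≤ i → ChW k sn G b o φ N C₀ ηm ow lv f n →
    C * ((s + 3) * φ) ≤ sn (k + 1) b → ∀ {t₁ : ℕ} {ν ox X R w' ε : ℝ} {Nf : ℕ → ℕ → ℝ}, t₁ ≤ n →
    ow (f n) ≤ ox → ox ≤ 1 → 0 ≤ X →
    ν + i * ow (f t₁) + C * ((s + 3) * φ) ≤ sn (k + 1) (ow (f t₁)) →
    ν + i * ow (f n) ≤ sn (k + 1) (ow (f n)) + X →
    X + C * ((s + 3) * φ) ≤ R → R ≤ ow (f t₁) - b → R ≤ 1 - ow (f n) →
    (∀ l < k, ∀ j : ℕ, j ≤ 1 → sn l (ow (f n)) + R - j * ow (f n) ≤ Nf l j) → 0 < ε →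
    Bas S (fun J F A => ∀ {κ : ℝ} {z : ℕ → ℕ → ℕ} {g₀ : ℕ → ℕ → ℕ}
      {Gc : ℕ → PtT F → ℕ → MvPolynomial (Option (Fin m)) ℝ}
      {H : ℕ → LnT F → ℕ → MvPolynomial (Option (Fin m)) ℝ},
      ChE F c k D Dr N M C₀ a Eb ηm ow η σ lv bb f n κ z A g₀ Gc H →
      ∀ Hj : LnT F → ℕ → MvPolynomial (Option (Fin m)) ℝ,
      (∀ ω, ∀ l < k, Hj (slam F ⌊w' * J⌋₊ ω) l = H (f 0) (slam F ⌊b * J⌋₊ ω) l) →
      CH (Pool.Agent.H49.Ent.cond F.p A True) (fun ω => ⌊(2 : ℝ) ^ (ν * J) *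
        ojet F (c (k + 1)) i (slG c Gc k (f 0) (f n) (ptr F J ω)) ω⌋)
        (fun ω => (jet2 F c ⌊w' * J⌋₊ Hj 0 k Nf ω, (cR F A ox ω, F.W ω))) ≤ ε * J) := by
  classical
  obtain ⟨Cq, hCq, hup⟩ := nj_up m k D i
  obtain ⟨Cn, hCn, hnat⟩ := nat_ch D k i
  refine ⟨Cq + Cn + 20 * k + 64, by omega, ?_⟩
  intro S c sn G b o φ s al Dr N M C₀ a Eb ηm ow η σ lv bb f n L hl hs hsi hw hlev t₁ ν ox X R w' ε
    Nf ht₁ hox hox1 hX0 hν hνX hR hRb hR1 hNf hε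
  have hφ := L.φ0
  obtain ⟨y, hy⟩ : ∃ y : ℝ, y = (s + 3) * φ := ⟨_, rfl⟩
  have hsφ : 0 ≤ s * φ := mul_nonneg hs hφ.le
  have hy3 : y = s * φ + 3 * φ := by rw [hy]; ring
  have hy0 : 0 < y := by linarith
  have hk0 : (0 : ℝ) ≤ k := Nat.cast_nonneg k
  have hi0 : (0 : ℝ) ≤ i := Nat.cast_nonneg i
  obtain ⟨Cy, hCy⟩ : ∃ Cy : ℝ, Cy = ((Cq + Cn + 20 * k + 64 : ℕ) : ℝ) * y := ⟨_, rfl⟩
  have hCy1 : Cy = Cq * y + Cn * y + (20 * k + 64) * y := by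
    rw [hCy]
    push_cast
    ring
  have hCq0 : 0 ≤ (Cq : ℝ) * y := by positivity
  have hCn0 : 0 ≤ (Cn : ℝ) * y := by positivity
  have hCn1 : y ≤ Cn * y := le_mul_of_one_le_left hy0.le (by exact_mod_cast hCn)
  have hky : (20 * k + 64) * φ ≤ (20 * (k : ℝ) + 64) * y - (20 * (k : ℝ) + 64) * (2 * φ) := by
    have h1 : (20 * (k : ℝ) + 64) * (3 * φ) ≤ (20 * (k : ℝ) + 64) * y :=
      mul_le_mul_of_nonneg_left (by linarith) (by positivity)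
    linarith
  have hkφ : 0 ≤ 20 * (k : ℝ) * φ := by positivity
  rw [← hy] at hlev hν hR
  rw [← hCy] at hlev hν hR
  obtain ⟨v, hv⟩ : ∃ v : ℕ → ℝ, v = fun t => ow (f t) := ⟨_, rfl⟩
  have hvt : ∀ t, ow (f t) = v t := fun t => by rw [hv]
  have hv01 : ∀ t ≤ n, 0 ≤ ow (f t) ∧ ow (f t) < 1 := fun t ht =>
    ⟨L.b0.trans (hw.bo ht), lt_of_le_of_lt (hw.oo t ht) L.o1⟩
  rw [hvt] at hRb hR1 hν hνX
  have hvmo : ∀ t ≤ n, ∀ t' ≤ t, v t' ≤ v t := fun t ht t' ht' => by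
    rw [← hvt, ← hvt]
    exact hw.mo t ht t' ht'
  obtain ⟨ρ, hρ⟩ : ∃ ρ : ℝ, ρ = X + (Cq + 1) * y := ⟨_, rfl⟩
  have hρy : y ≤ ρ := by
    rw [hρ]
    linarith
  -- the radius
  have hρR : ρ + (20 * k + 64) * φ + (20 * k + 64) * (2 * φ) ≤ R := by
    rw [hρ]
    linarith
  obtain ⟨n', hn'⟩ : ∃ n' : ℕ → ℕ → ℝ, n' = fun t l =>
    sn l (v t) + ρ + 20 * ((k : ℝ) - l) * φ + 20 * φ := ⟨_, rfl⟩
  have hn't : ∀ t, n' t = fun l : ℕ => sn l (v t) + ρ + 20 * ((k : ℝ) - l) * φ + 20 * φ :=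
    fun t => by rw [hn']
  have hflat : ∀ t ≤ n, ∀ l < k, |(sn l (v t) - v t) - (sn l (v n) - v n)| ≤ 2 * φ :=
    fun t ht l hl => by
      rw [← hvt, ← hvt]
      exact flat_of L hl (hw.oG _ le_rfl) (hw.oG t ht) (hw.bo le_rfl) (hw.oo _ le_rfl) (hw.bo ht)
        (hw.oo t ht)
  have Ld := L.toLadR.lad
  -- the data
  obtain ⟨ε₁, hε₁⟩ : ∃ ε₁ : ℝ, ε₁ = ε / (4 * (n + 1)) := ⟨_, rfl⟩
  have hε₁0 : 0 < ε₁ := by rw [hε₁]; positivity
  have hdat : Bas S (fun J F A => ∀ t < n + 1, t₁ < t →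
      ∀ Hb Hv H : LnT F → ℕ → MvPolynomial (Option (Fin m)) ℝ,
      LV F c k D b φ 1 sn A Hb → LV F c k D (v t) φ 1 sn A Hv →
      (∀ ω, ∀ l < k, H (slam F ⌊w' * J⌋₊ ω) l = Hb (slam F ⌊b * J⌋₊ ω) l) →
      CH (Pool.Agent.H49.Ent.cond F.p A True) (fun ω (x : Fin k × Fin (i + 1)) =>
          ⌊(2 : ℝ) ^ ((n' t x.1 - ((x.2 : ℕ) : ℝ) * v t) * J) *
            ojet F (c x.1) x.2 (Hv (slam F ⌊v t * J⌋₊ ω) x.1) ω⌋)
        (fun ω => (jet2 F c ⌊w' * J⌋₊ H 0 k Nf ω, (cR F A ox ω, F.W ω))) ≤ ε₁ * J) := by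
    refine Bas.all (n + 1) fun t ht => ?_
    by_cases h1 : t₁ < t
    swap
    · exact ⟨1, one_pos, 0, fun _ _ _ _ _ h2 => absurd h2 h1⟩
    have htn : t ≤ n := by omega
    have hvb : b ≤ v t := by rw [← hvt]; exact hw.bo htn
    have h4 := hvmo t htn t₁ h1.le
    have h5 := hvmo n le_rfl t htn
    have h6 := vd_ev Ld D i (w := w') (v := v t) (ow := ox) (E := 1) (n := n' t)
      (by rw [← hvt]; exact hw.oG t htn) hvb (by rw [← hvt]; exact hw.oo t htn)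
      (h5.trans (by rw [← hvt]; exact hox)) hox1 (by
        rw [hn't]
        refine nst_of hφ (hy0.le.trans hρy) ?_
        linarith) (by
        intro l hl
        rw [hn't]
        have h7 := nst_le hl hφ
        show sn l (v t) + ρ + 20 * ((k : ℝ) - l) * φ + 20 * φ - sn l (v t) + 3 * φ ≤ v t - b
        linarith) (Nf := Nf) (by
        intro l hl j hj
        refine le_trans ?_ (hNf l hl j hj)
        rw [hn't, hvt]
        have h7 := nst_le hl hφ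
        have h8 := abs_le.1 (hflat t htn l hl)
        show sn l (v t) + ρ + 20 * ((k : ℝ) - l) * φ + 20 * φ - (j : ℝ) * v t ≤
          sn l (v n) + R - j * v n
        have h9 : (1 - (j : ℝ)) * v t ≤ (1 - (j : ℝ)) * v n := by
          refine mul_le_mul_of_nonneg_left h5 ?_
          have : (j : ℝ) ≤ 1 := by exact_mod_cast hj
          linarith
        linarith [h8.2]) (ε := ε₁) hε₁0
    exact Bas.mono 0 h6 fun J _ F A h7 _ => h7
  -- the other inputs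
  obtain ⟨M₀, J₁, hM⟩ := cnt_ev D k i ν (c := c) (Dr := Dr) (M := M) (a := a) (Eb := Eb)
    (η := η) (σ := σ) (bb := bb) L.b0 L.o1 hw
  obtain ⟨η', hη'⟩ : ∃ η' : ℝ, η' = ε / (4 * (n + 1) * (M₀ + 1)) := ⟨_, rfl⟩
  have hη'0 : 0 < η' := by rw [hη']; positivity
  have hown := own_ev D k i (Dr := Dr) (M := M) (a := a) (Eb := Eb) (η := η) (σ := σ) (bb := bb)
    L hw hy0 hη'0
  have hst := hnat (Dr := Dr) (M := M) (a := a) (Eb := Eb) (η := η) (σ := σ) (bb := bb) L hl hs hw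
    (by
      rw [← hy]
      have : 0 ≤ (20 * (k : ℝ) + 64) * y := by positivity
      linarith) (t := t₁) (ν := ν) (ε := ε / 4) ht₁ (by
      rw [← hy, hvt]
      have : 0 ≤ (20 * (k : ℝ) + 64) * y := by positivity
      linarith) (by positivity)
  obtain ⟨J₀, hJ₀⟩ := hup hy0
  obtain ⟨J₂, hJ₂⟩ := exists_nat_ge ((n : ℝ) / φ)
  obtain ⟨J₃, hJ₃⟩ := exists_nat_ge ((n : ℝ) * (Real.log 2 + Real.log 7) / (ε / 4))
  refine Bas.mono (max (max J₀ J₁) (max J₂ J₃)) (((hdat.and hown).and hst).and (pos_bas L.pos)) ?_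
  rintro J hJ F A ⟨⟨⟨hdat, hown⟩, hst⟩, hA⟩ κ z g₀ Gc H hE Hj hHj
  have hJ0 : (0 : ℝ) ≤ J := Nat.cast_nonneg J
  have hJn : (n : ℝ) ≤ φ * J := by
    have h3 : (J₂ : ℝ) ≤ J := by
      exact_mod_cast (le_max_left _ _).trans ((le_max_right _ _).trans hJ)
    have h4 := hJ₂.trans h3
    rw [div_le_iff₀ hφ] at h4
    linarith
  have hJl : (n : ℝ) * (Real.log 2 + Real.log 7) ≤ ε / 4 * J := by
    have h3 : (J₃ : ℝ) ≤ J := by
      exact_mod_cast (le_max_right _ _).trans ((le_max_right _ _).trans hJ)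
    have h4 := hJ₃.trans h3
    rw [div_le_iff₀ (by positivity)] at h4
    linarith
  have hSl := sln_of L hl hs hw hJn hE.zz
  rw [← hy] at hSl
  have hνt : ∀ t ≤ n, ν + i * v t ≤ sn (k + 1) (v t) + X + 2 * φ := fun t ht => by
    have h7 := abs_le.1 (lin_of hl (Nat.le_succ k) le_rfl (hw.oG t ht) (hw.oG n le_rfl)
      (hw.bo ht) (hw.oo t ht) (hw.bo le_rfl) (hw.oo n le_rfl))
    rw [hvt, hvt] at h7
    have h8 : s * (v n - v t) ≤ i * (v n - v t) :=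
      mul_le_mul_of_nonneg_right hsi (by linarith [hvmo n le_rfl t ht])
    have h9 : (i : ℝ) * v t = i * v n - i * (v n - v t) := by ring
    linarith [h7.2]
  have key := hJ₀ ((le_max_left _ _).trans ((le_max_left _ _).trans hJ)) hA hE.W L.inj hSl hv01
    (fun ω => (jet2 F c ⌊w' * J⌋₊ Hj 0 k Nf ω, (cR F A ox ω, F.W ω))) (t₁ := t₁)
    (ρ := fun _ => ρ) (ν := fun _ => ν)
    (n' := n') (e := ε₁ * J) (η' := η') (Mc := M₀ * J) (a' := ε / 4 * J) ht₁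
    (fun t _ => hρy) (fun t ht l hl => by
      rw [hw.lv t ht l (by omega), hvt, hn't]
      have h7 : 0 ≤ 20 * ((k : ℝ) - l) * φ := by
        have : (l : ℝ) ≤ k := by exact_mod_cast hl.le
        have := sub_nonneg.2 this
        positivity
      show sn l (v t) + ρ ≤ sn l (v t) + ρ + 20 * ((k : ℝ) - l) * φ + 20 * φ
      linarith) (fun t _ _ => le_rfl) (fun t _ ht => by
      rw [hw.lv t ht (k + 1) le_rfl, hvt]
      show ν + Cq * y + i * v t ≤ sn (k + 1) (v t) + ρ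
      rw [hρ]
      linarith [hνt t ht]) (fun ω ν' hω hν' e => by
      obtain ⟨e1, e2⟩ := det_ev hE.W hw hox hox1 ω ν' hω hν' e
      exact ⟨e1, fun t _ ht => ⟨fun l hl => (e2 t ht).1 l (by omega), (e2 t ht).2⟩⟩)
    (fun t ht => hown hE.W t ht) (by positivity)
    (fun t ht => hM J ((le_max_right _ _).trans ((le_max_left _ _).trans hJ)) hE t ht)
    (fun t h1 ht => by
      have h2 := (lv_of hE hw (Nat.zero_le n)).take (Nat.le_succ k)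
      rw [hw.ob] at h2
      have h3 := (lv_of hE hw ht).take (Nat.le_succ k)
      rw [hvt] at h3
      rw [hvt]
      exact hdat t (by omega) h1 (H (f 0)) (H (f t)) Hj h2 h3 hHj) (by positivity)
    (hst hE _)
  refine key.trans ?_
  rw [hε₁, hη']
  exact sum_err hε (Nat.cast_nonneg _) hJ0 le_rfl hJl

end Pool.TW44
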