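import Pool.Agent.H44.V0P.Pfa

/-!
# The own jets of the second target over its slab label

`nj_low`: the natural digits of a later record. `nj_high`: the orders above the slope.
-/

set_option autoImplicit false

namespace Pool.TW44

open Finset Real MvPolynomial
open Pool.Agent.H49.Ent Pool.Agent.H32.Dense Pool.STK Pool.KA Pool.KSAT Pool.K2S Pool.PB Pool.GEN
open Pool.S6C Pool.RCD Pool.LA91 Pool.AVG96 Pool.V0F Pool.V0T Pool.D2R Pool.NVT16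
open Pool.BFL (Pb)
open Pool.AVG57 (jet2 upw upw_slam)
open Pool.GRD (LbP)
open Pool.AJW (CfB)

/-- Nested digits. -/
theorem nst_of {k : ℕ} {sn : ℕ → ℝ → ℝ} {v φ ρ : ℝ} (hφ : 0 < φ) (hρ : 0 ≤ ρ)
    (h1 : ρ + (20 * k + 40) * φ ≤ 1 - v) :
    Nst k sn v φ (fun l => sn l v + ρ + 20 * ((k : ℝ) - l) * φ + 20 * φ) := by
  have hk : ∀ l < k, (1 : ℝ) ≤ (k : ℝ) - l := fun l hl => by
    have : ((l + 1 : ℕ) : ℝ) ≤ k := by exact_mod_cast hl
    push_cast at this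
    linarith
  refine ⟨fun l hl => ?_, fun l hl => ?_, fun l hl l' hl' => ?_⟩
  · have h2 : 0 ≤ 20 * ((k : ℝ) - l) * φ := by
      have := hk l hl
      positivity
    show sn l v + 20 * φ ≤ sn l v + ρ + 20 * ((k : ℝ) - l) * φ + 20 * φ
    linarith
  · show sn l v + ρ + 20 * ((k : ℝ) - l) * φ + 20 * φ + 20 * φ ≤ sn l v + (1 - v)
    have h2 : 20 * ((k : ℝ) - l) * φ ≤ 20 * k * φ := by
      refine mul_le_mul_of_nonneg_right ?_ hφ.le
      have : (0 : ℝ) ≤ l := Nat.cast_nonneg l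
      linarith
    linarith
  · show sn l v + ρ + 20 * ((k : ℝ) - l) * φ + 20 * φ - sn l v + 20 * φ ≤
      sn l' v + ρ + 20 * ((k : ℝ) - l') * φ + 20 * φ - sn l' v
    have h2 : (l' : ℝ) + 1 ≤ l := by exact_mod_cast hl'
    have h3 : 20 * φ ≤ 20 * ((l : ℝ) - l') * φ := by nlinarith
    linarith

/-- The digits are at most `R` behind the natural ones. -/
theorem nst_le {k l : ℕ} (hl : l < k) {φ : ℝ} (hφ : 0 < φ) :
    20 * ((k : ℝ) - l) * φ + 20 * φ ≤ (20 * k + 20) * φ := by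
  have h2 : 20 * ((k : ℝ) - l) * φ ≤ 20 * k * φ := by
    refine mul_le_mul_of_nonneg_right ?_ hφ.le
    have : (0 : ℝ) ≤ l := Nat.cast_nonneg l
    linarith
  linarith

/-- The sum of the errors. -/
theorem sum_err {n : ℕ} {ε M₀ J a : ℝ} (hε : 0 < ε) (hM : 0 ≤ M₀) (hJ : 0 ≤ J)
    (ha : a ≤ ε / 4 * J) (hl : (n : ℝ) * (Real.log 2 + Real.log 7) ≤ ε / 4 * J) :
    a + n * (ε / (4 * (n + 1)) * J + Real.log 2 + Real.log 7 +
      ε / (4 * (n + 1) * (M₀ + 1)) * (M₀ * J)) ≤ ε * J := by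
  have hn : (0 : ℝ) ≤ n := Nat.cast_nonneg n
  have h1 : (n : ℝ) * (ε / (4 * (n + 1)) * J) ≤ ε / 4 * J := by
    rw [← mul_assoc]
    refine mul_le_mul_of_nonneg_right ?_ hJ
    rw [mul_div_assoc', div_le_div_iff₀ (by positivity) (by norm_num)]
    nlinarith
  have h2 : (n : ℝ) * (ε / (4 * (n + 1) * (M₀ + 1)) * (M₀ * J)) ≤ ε / 4 * J := by
    rw [← mul_assoc, ← mul_assoc]
    refine mul_le_mul_of_nonneg_right ?_ hJ
    rw [mul_div_assoc', div_mul_eq_mul_div, div_le_div_iff₀ (by positivity) (by norm_num)]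
    have h3 : (n : ℝ) * M₀ ≤ (n + 1) * (M₀ + 1) := by nlinarith
    nlinarith [mul_le_mul_of_nonneg_left h3 hε.le]
  have h3 : (n : ℝ) * (ε / (4 * (n + 1)) * J + Real.log 2 + Real.log 7 +
      ε / (4 * (n + 1) * (M₀ + 1)) * (M₀ * J)) = n * (ε / (4 * (n + 1)) * J) +
      n * (Real.log 2 + Real.log 7) + n * (ε / (4 * (n + 1) * (M₀ + 1)) * (M₀ * J)) := by ring
  rw [h3]
  linarith

/-- **The natural digits of a later record**: every order `i`, over the slab label of the window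
`f t₁`, from the record of the window `f n`. -/
theorem nj_low (m D k i : ℕ) : ∃ C : ℕ, 1 ≤ C ∧ ∀ {S : PCl m} {c : ℕ → Fin m}
    {sn : ℕ → ℝ → ℝ} {G : Set ℝ} {b o φ s : ℝ} {al : ℕ → ℝ} {Dr N M : ℕ} {C₀ a Eb ηm : ℝ}
    {ow η σ : ℕ → ℝ} {lv bb : ℕ → ℕ → ℝ} {f : ℕ → ℕ} {n : ℕ}, LadT S c k 1 sn G b o φ →
    Lns k sn G b o φ s al → 0 ≤ s → ChW k sn G b o φ N C₀ ηm ow lv f n →
    C * ((s + 3) * φ) ≤ sn (k + 1) b → ∀ {t₁ : ℕ} {ν ox R w' ε : ℝ} {Nf : ℕ → ℕ → ℝ}, t₁ ≤ n →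
    ow (f n) ≤ ox → ox ≤ 1 →
    ν + i * ow (f n) + C * ((s + 3) * φ) ≤ sn (k + 1) (ow (f n)) →
    max 1 (s - i) * (ow (f n) - ow (f t₁)) + C * ((s + 3) * φ) ≤ R →
    R ≤ ow (f t₁) - b → R ≤ 1 - ow (f n) →
    (∀ l < k, ∀ j : ℕ, j ≤ 1 → sn l (ow (f t₁)) + R - j * ow (f t₁) ≤ Nf l j) → 0 < ε →
    Bas S (fun J F A => ∀ {κ : ℝ} {z : ℕ → ℕ → ℕ} {g₀ : ℕ → ℕ → ℕ}
      {Gc : ℕ → PtT F → ℕ → MvPolynomial (Option (Fin m)) ℝ}
      {H : ℕ → LnT F → ℕ → MvPolynomial (Option (Fin m)) ℝ},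
      ChE F c k D Dr N M C₀ a Eb ηm ow η σ lv bb f n κ z A g₀ Gc H →
      ∀ Hj : LnT F → ℕ → MvPolynomial (Option (Fin m)) ℝ,
      (∀ ω, ∀ l < k, Hj (slam F ⌊w' * J⌋₊ ω) l = H (f 0) (slam F ⌊b * J⌋₊ ω) l) →
      CH (Pool.Agent.H49.Ent.cond F.p A True) (fun ω => ⌊(2 : ℝ) ^ (ν * J) *
        ojet F (c (k + 1)) i (slG c Gc k (f 0) (f t₁) (ptr F J ω)) ω⌋)
        (fun ω => (jet2 F c ⌊w' * J⌋₊ Hj 0 k Nf ω, (cR F A ox ω, F.W ω))) ≤ ε * J) := by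
  classical
  obtain ⟨Cq, hCq, hdn⟩ := nj_dn m k D i
  obtain ⟨Cn, hCn, hnat⟩ := nat_ch D k i
  refine ⟨Cq + Cn + 20 * k + 64, by omega, ?_⟩
  intro S c sn G b o φ s al Dr N M C₀ a Eb ηm ow η σ lv bb f n L hl hs hw hlev t₁ ν ox R w' ε Nf
    ht₁ hox hox1 hν hR hRb hR1 hNf hε
  have hφ := L.φ0
  obtain ⟨y, hy⟩ : ∃ y : ℝ, y = (s + 3) * φ := ⟨_, rfl⟩
  have hsφ : 0 ≤ s * φ := mul_nonneg hs hφ.le
  have hy3 : y = s * φ + 3 * φ := by rw [hy]; ring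
  have hy0 : 0 < y := by linarith
  have hk0 : (0 : ℝ) ≤ k := Nat.cast_nonneg k
  have hi0 : (0 : ℝ) ≤ i := Nat.cast_nonneg i
  obtain ⟨Cy, hCy⟩ : ∃ Cy : ℝ, Cy = ((Cq + Cn + 20 * k + 64 : ℕ) : ℝ) * y := ⟨_, rfl⟩
  have hCy1 : Cy = Cq * y + Cn * y + (20 * k + 64) * y := by
    rw [hCy]
    push_cast
    ring
  have hCq0 : 0 ≤ (Cq : ℝ) * y := by positivity
  have hCn0 : 0 ≤ (Cn : ℝ) * y := by positivity
  have hky : (20 * k + 64) * φ ≤ (20 * (k : ℝ) + 64) * y - (20 * (k : ℝ) + 64) * (2 * φ) := by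
    have h1 : (20 * (k : ℝ) + 64) * (3 * φ) ≤ (20 * (k : ℝ) + 64) * y :=
      mul_le_mul_of_nonneg_left (by linarith) (by positivity)
    linarith
  have hkφ : 0 ≤ 20 * (k : ℝ) * φ := by positivity
  rw [← hy] at hlev hν hR
  rw [← hCy] at hlev hν hR
  obtain ⟨v, hv⟩ : ∃ v : ℕ → ℝ, v = fun t => ow (f t) := ⟨_, rfl⟩
  have hvt : ∀ t, ow (f t) = v t := fun t => by rw [hv]
  have hv01 : ∀ t ≤ n, 0 ≤ ow (f t) ∧ ow (f t) < 1 := fun t ht =>
    ⟨L.b0.trans (hw.bo ht), lt_of_le_of_lt (hw.oo t ht) L.o1⟩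
  rw [hvt, hvt] at hR
  rw [hvt] at hRb hR1 hν
  obtain ⟨Mm, hMm⟩ : ∃ Mm : ℝ, Mm = max 1 (s - i) := ⟨_, rfl⟩
  rw [← hMm] at hR
  have hMm1 : 1 ≤ Mm := by rw [hMm]; exact le_max_left _ _
  obtain ⟨M0, hM0⟩ : ∃ M0 : ℝ, M0 = max 0 (s - i) := ⟨_, rfl⟩
  have hM00 : 0 ≤ M0 := by rw [hM0]; exact le_max_left _ _
  have hM0s : s - i ≤ M0 := by rw [hM0]; exact le_max_right _ _
  have hM0m : M0 ≤ Mm := by
    rw [hM0, hMm]
    exact max_le_max (by norm_num) le_rfl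
  have hvmo : ∀ t ≤ n, ∀ t' ≤ t, v t' ≤ v t := fun t ht t' ht' => by
    rw [← hvt, ← hvt]
    exact hw.mo t ht t' ht'
  obtain ⟨ρ, hρ⟩ : ∃ ρ : ℕ → ℝ, ρ = fun t => M0 * (v n - v t) + y := ⟨_, rfl⟩
  have hρt : ∀ t, ρ t = M0 * (v n - v t) + y := fun t => by rw [hρ]
  have hρy : ∀ t ≤ n, y ≤ ρ t := fun t ht => by
    rw [hρt]
    have := mul_nonneg hM00 (show 0 ≤ v n - v t by linarith [hvmo n le_rfl t ht])
    linarith
  -- the radius
  have hρR : ∀ t, t₁ ≤ t → t ≤ n → (v t - v t₁) + ρ t + (20 * k + 64) * φ + (20 * k + 64) * (2 * φ) ≤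
      R := fun t h1 h2 => by
    rw [hρt]
    have h3 := hvmo t h2 t₁ h1
    have h4 := hvmo n le_rfl t h2
    have h5 : M0 * (v n - v t) ≤ Mm * (v n - v t) := mul_le_mul_of_nonneg_right hM0m (by linarith)
    have h6 : 1 * (v t - v t₁) ≤ Mm * (v t - v t₁) := mul_le_mul_of_nonneg_right hMm1 (by linarith)
    have h7 : Mm * (v n - v t₁) = Mm * (v n - v t) + Mm * (v t - v t₁) := by ring
    have h8 : y ≤ Cq * y := le_mul_of_one_le_left hy0.le (by exact_mod_cast hCq)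
    linarith
  obtain ⟨n', hn'⟩ : ∃ n' : ℕ → ℕ → ℝ, n' = fun t l =>
    sn l (v t) + ρ t + 20 * ((k : ℝ) - l) * φ + 20 * φ := ⟨_, rfl⟩
  have hn't : ∀ t, n' t = fun l : ℕ => sn l (v t) + ρ t + 20 * ((k : ℝ) - l) * φ + 20 * φ :=
    fun t => by rw [hn']
  have hflat : ∀ t ≤ n, ∀ l < k, |(sn l (v t) - v t) - (sn l (v t₁) - v t₁)| ≤ 2 * φ :=
    fun t ht l hl => by
      rw [← hvt, ← hvt]
      exact flat_of L hl (hw.oG _ ht₁) (hw.oG t ht) (hw.bo ht₁) (hw.oo _ ht₁) (hw.bo ht)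
        (hw.oo t ht)
  have Ld := L.toLadR.lad
  -- the data
  obtain ⟨ε₁, hε₁⟩ : ∃ ε₁ : ℝ, ε₁ = ε / (4 * (n + 1)) := ⟨_, rfl⟩
  have hε₁0 : 0 < ε₁ := by rw [hε₁]; positivity
  have hdat : Bas S (fun J F A => ∀ t < n + 1, t₁ < t →
      ∀ Hb Hv H : LnT F → ℕ → MvPolynomial (Option (Fin m)) ℝ,
      LV F c k D b φ 1 sn A Hb → LV F c k D (v t) φ 1 sn A Hv →
      (∀ ω, ∀ l < k, H (slam F ⌊w' * J⌋₊ ω) l = Hb (slam F ⌊b * J⌋₊ ω) l) →
      CH (Pool.Agent.H49.Ent.cond F.p A True) (fun ω (x : Fin k × Fin (i + 1)) =>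
          ⌊(2 : ℝ) ^ ((n' t x.1 - ((x.2 : ℕ) : ℝ) * v t) * J) *
            ojet F (c x.1) x.2 (Hv (slam F ⌊v t * J⌋₊ ω) x.1) ω⌋)
        (fun ω => (jet2 F c ⌊w' * J⌋₊ H 0 k Nf ω, (cR F A ox ω, F.W ω))) ≤ ε₁ * J) := by
    refine Bas.all (n + 1) fun t ht => ?_
    by_cases h1 : t₁ < t
    swap
    · exact ⟨1, one_pos, 0, fun _ _ _ _ _ h2 => absurd h2 h1⟩
    have htn : t ≤ n := by omega
    have hvt1 : ow (f t) = v t := hvt t
    have hvb : b ≤ v t := by rw [← hvt]; exact hw.bo htn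
    have h3 := hρR t h1.le htn
    have h4 := hvmo t htn t₁ h1.le
    have h5 := hvmo n le_rfl t htn
    have h6 := vd_ev Ld D i (w := w') (v := v t) (ow := ox) (E := 1) (n := n' t)
      (by rw [← hvt]; exact hw.oG t htn) hvb (by rw [← hvt]; exact hw.oo t htn)
      (h5.trans (by rw [← hvt]; exact hox)) hox1 (by
        rw [hn't]
        refine nst_of hφ (hy0.le.trans (hρy t htn)) ?_
        linarith) (by
        intro l hl
        rw [hn't]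
        have h7 := nst_le hl hφ
        show sn l (v t) + ρ t + 20 * ((k : ℝ) - l) * φ + 20 * φ - sn l (v t) + 3 * φ ≤ v t - b
        linarith) (Nf := Nf) (by
        intro l hl j hj
        refine le_trans ?_ (hNf l hl j hj)
        rw [hn't, hvt]
        have h7 := nst_le hl hφ
        have h8 := abs_le.1 (hflat t htn l hl)
        show sn l (v t) + ρ t + 20 * ((k : ℝ) - l) * φ + 20 * φ - (j : ℝ) * v t ≤
          sn l (v t₁) + R - j * v t₁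
        have h9 : (j : ℝ) * v t₁ ≤ j * v t := mul_le_mul_of_nonneg_left h4 (Nat.cast_nonneg j)
        linarith [h8.2]) (ε := ε₁) hε₁0
    exact Bas.mono 0 h6 fun J _ F A h7 _ => h7
  -- the other inputs
  obtain ⟨M₀, J₁, hM⟩ := cnt_ev D k i ν (c := c) (Dr := Dr) (M := M) (a := a) (Eb := Eb)
    (η := η) (σ := σ) (bb := bb) L.b0 L.o1 hw
  obtain ⟨η', hη'⟩ : ∃ η' : ℝ, η' = ε / (4 * (n + 1) * (M₀ + 1)) := ⟨_, rfl⟩
  have hη'0 : 0 < η' := by rw [hη']; positivity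
  have hown := own_ev D k i (Dr := Dr) (M := M) (a := a) (Eb := Eb) (η := η) (σ := σ) (bb := bb)
    L hw hy0 hη'0
  have hst := hnat (Dr := Dr) (M := M) (a := a) (Eb := Eb) (η := η) (σ := σ) (bb := bb) L hl hs hw
    (by
      rw [← hy]
      have : 0 ≤ (20 * (k : ℝ) + 64) * y := by positivity
      linarith) (t := n) (ν := ν) (ε := ε / 4) le_rfl (by
      rw [← hy, hvt]
      have : 0 ≤ (20 * (k : ℝ) + 64) * y := by positivity
      linarith) (by positivity)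
  obtain ⟨J₀, hJ₀⟩ := hdn hy0
  obtain ⟨J₂, hJ₂⟩ := exists_nat_ge ((n : ℝ) / φ)
  obtain ⟨J₃, hJ₃⟩ := exists_nat_ge ((n : ℝ) * (Real.log 2 + Real.log 7) / (ε / 4))
  refine Bas.mono (max (max J₀ J₁) (max J₂ J₃)) (((hdat.and hown).and hst).and (pos_bas L.pos)) ?_
  rintro J hJ F A ⟨⟨⟨hdat, hown⟩, hst⟩, hA⟩ κ z g₀ Gc H hE Hj hHj
  have hJ0 : (0 : ℝ) ≤ J := Nat.cast_nonneg J
  have hJn : (n : ℝ) ≤ φ * J := by
    have h3 : (J₂ : ℝ) ≤ J := by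
      exact_mod_cast (le_max_left _ _).trans ((le_max_right _ _).trans hJ)
    have h4 := hJ₂.trans h3
    rw [div_le_iff₀ hφ] at h4
    linarith
  have hJl : (n : ℝ) * (Real.log 2 + Real.log 7) ≤ ε / 4 * J := by
    have h3 : (J₃ : ℝ) ≤ J := by
      exact_mod_cast (le_max_right _ _).trans ((le_max_right _ _).trans hJ)
    have h4 := hJ₃.trans h3
    rw [div_le_iff₀ (by positivity)] at h4
    linarith
  have hSl := sln_of L hl hs hw hJn hE.zz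
  rw [← hy] at hSl
  have key := hJ₀ ((le_max_left _ _).trans ((le_max_left _ _).trans hJ)) hA hE.W L.inj hSl hv01
    (fun ω => (jet2 F c ⌊w' * J⌋₊ Hj 0 k Nf ω, (cR F A ox ω, F.W ω))) (t₁ := t₁) (ρ := ρ) (ν := ν)
    (n' := n') (e := ε₁ * J) (η' := η') (Mc := M₀ * J) (a' := ε / 4 * J) ht₁
    (fun t _ ht => hρy t ht) (fun t _ ht l hl => by
      rw [hw.lv t ht l (by omega), hvt, hn't]
      have h7 : 0 ≤ 20 * ((k : ℝ) - l) * φ := by
        have : (l : ℝ) ≤ k := by exact_mod_cast hl.le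
        have := sub_nonneg.2 this
        positivity
      show sn l (v t) + ρ t ≤ sn l (v t) + ρ t + 20 * ((k : ℝ) - l) * φ + 20 * φ
      linarith) (fun t _ ht => by
      rw [hw.lv t ht (k + 1) le_rfl, hvt, hρt]
      have h7 := abs_le.1 (lin_of hl (Nat.le_succ k) le_rfl (hw.oG t ht) (hw.oG n le_rfl)
        (hw.bo ht) (hw.oo t ht) (hw.bo le_rfl) (hw.oo n le_rfl))
      rw [hvt, hvt] at h7
      have h8 : (s - i) * (v n - v t) ≤ M0 * (v n - v t) :=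
        mul_le_mul_of_nonneg_right hM0s (by linarith [hvmo n le_rfl t ht])
      have h9 : (i : ℝ) * v t = i * v n - i * (v n - v t) := by ring
      have h10 : 64 * y ≤ (20 * (k : ℝ) + 64) * y := by
        have : 0 ≤ 20 * (k : ℝ) * y := by positivity
        linarith
      linarith [h7.2]) (fun ω ν' hω hν' e => by
      obtain ⟨e1, e2⟩ := det_ev hE.W hw hox hox1 ω ν' hω hν' e
      exact ⟨e1, fun t _ ht => ⟨fun l hl => (e2 t ht).1 l (by omega), (e2 t ht).2⟩⟩)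
    (fun t ht => hown hE.W t ht) (by positivity)
    (fun t ht => hM J ((le_max_right _ _).trans ((le_max_left _ _).trans hJ)) hE t ht)
    (fun t h1 ht => by
      have h2 := (lv_of hE hw (Nat.zero_le n)).take (Nat.le_succ k)
      rw [hw.ob] at h2
      have h3 := (lv_of hE hw ht).take (Nat.le_succ k)
      rw [hvt] at h3
      rw [hvt]
      exact hdat t (by omega) h1 (H (f 0)) (H (f t)) Hj h2 h3 hHj) (by positivity)
    (hst hE _)
  refine key.trans ?_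
  rw [hε₁, hη']
  exact sum_err hε (Nat.cast_nonneg _) hJ0 le_rfl hJl

end Pool.TW44
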