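import Pool.Agent.H44.V0P.TwI
import Pool.Agent.H18.PN.Stg7

/-!
# Two targets over two slope-one places: the own jets of the first target

`f1_more`: more digits of a jet. `uj_low`: the jets of the orders at most the slope minus one, from a
later record.
-/

set_option autoImplicit false

namespace Pool.TW44

open Finset Real MvPolynomial
open Pool.Agent.H49.Ent Pool.Agent.H32.Dense Pool.STK Pool.KA Pool.KSAT Pool.K2S Pool.PB Pool.GEN
open Pool.S6C Pool.RCD Pool.LA91 Pool.AVG96 Pool.V0F Pool.V0T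
open Pool.OWN68 (F1 F0 few0_room few0_iff few_iff)
open Pool.NVT16
open Pool.GRD (LbP)
open Pool.PN18 (f1_dig)

/-- Fewer digits of a function have not more values. -/
theorem cnt_dn {Ω : Type} [Fintype Ω] {p : Ω → ℝ} {A : Ω → Prop} {u' : Ω → ℤ} (X : Ω → ℝ)
    {a a' : ℝ} (ha : a ≤ a') (hu : ∀ ω, A ω → u' ω = ⌊(2 : ℝ) ^ a' * X ω⌋) :
    (cnt p (fun ω => ⌊(2 : ℝ) ^ a * X ω⌋) A : ℝ) ≤ cnt p u' A * 5 := by
  obtain ⟨c, hc⟩ : ∃ c : ℝ, c = 2 ^ (a - a') := ⟨_, rfl⟩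
  have hc0 : 0 < c := by
    rw [hc]
    exact Real.rpow_pos_of_pos (by norm_num) _
  have hc1 : c ≤ 1 := by
    rw [hc]
    exact Real.rpow_le_one_of_one_le_of_nonpos (by norm_num) (by linarith)
  have hcc : (2 : ℝ) ^ a = c * 2 ^ a' := by
    rw [hc, ← Real.rpow_add (by norm_num)]
    congr 1
    ring
  obtain ⟨b, hb⟩ : ∃ b : Ω → ℤ, b = fun ω => ⌊(2 : ℝ) ^ a * X ω⌋ - ⌊c * u' ω⌋ := ⟨_, rfl⟩
  have h1 := cnt_le_of_abs (p := p) (u := b) (A := A) (B := 2) (by norm_num) (by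
    intro ω hω
    rw [hb]
    simp only
    push_cast
    have e1 := Int.floor_le ((2 : ℝ) ^ a * X ω)
    have e2 := Int.lt_floor_add_one ((2 : ℝ) ^ a * X ω)
    have e3 := Int.floor_le (c * u' ω)
    have e4 := Int.lt_floor_add_one (c * u' ω)
    have e5 := Int.floor_le ((2 : ℝ) ^ a' * X ω)
    have e6 := Int.lt_floor_add_one ((2 : ℝ) ^ a' * X ω)
    rw [← hu ω hω] at e5 e6
    have e7 : c * u' ω ≤ 2 ^ a * X ω := by
      rw [hcc, mul_assoc]
      exact mul_le_mul_of_nonneg_left e5 hc0.le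
    have e8 : (2 : ℝ) ^ a * X ω ≤ c * u' ω + 1 := by
      rw [hcc, mul_assoc]
      have := mul_le_mul_of_nonneg_left e6.le hc0.le
      linarith
    rw [abs_le]
    constructor <;> linarith)
  have h2 := cnt_comp_le p (fun ω => (u' ω, b ω)) (fun ω => ⌊(2 : ℝ) ^ a * X ω⌋) (A := A)
    (fun q : ℤ × ℤ => q.2 + ⌊c * q.1⌋) (fun ω _ _ => by rw [hb]; simp)
  have h3 := cnt_pair p u' b A
  have h4 : (cnt p (fun ω => ⌊(2 : ℝ) ^ a * X ω⌋) A : ℝ) ≤ cnt p u' A * cnt p b A := by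
    exact_mod_cast h2.trans h3
  refine h4.trans (mul_le_mul_of_nonneg_left ?_ (Nat.cast_nonneg _))
  linarith

section

variable {m : ℕ} {S : PCl m} {C₀ : ℝ} {α γ : ∀ J : ℕ, Fam m J → Type} {U₀ : Type}
  {f : ∀ (J : ℕ) (F : Fam m J), F.Ω → α J F} {y : ∀ (J : ℕ) (F : Fam m J), F.Ω → γ J F}
  {Qu : Qt m U₀} {a : ℝ}

/-- **More digits of a jet.** -/
theorem f1_more (htm : TmC S C₀) {I : Finset (Fin m)} {k : Fin m} {j : ℕ} {w p N N' e η h : ℝ}
    (hN : N ≤ N') (hh : 0 < h) (H : F1 S f (vg a) y Qu (qJet m I k j w p N) e η) :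
    F1 S f (vg a) y Qu (qJet m I k j w p N') e (η + (N' - N) + h) := by
  have hl2 : 0 < Real.log 2 := Real.log_pos one_lt_two
  have hl21 : Real.log 2 ≤ 1 := by
    have := Real.log_two_lt_d9
    linarith
  obtain ⟨J₀, hJ₀⟩ := exists_nat_ge (Real.log 9 / h)
  intro K
  refine Bas.mono (max 1 J₀) ((H (K + 2)).and (Pool.GRW.tmc_bas htm one_pos)) ?_
  rintro J hJ F A ⟨H, hA, -⟩ u u' hu ⟨hc, V, z, z', G, hlb, hu'⟩
  have hJ0 : (0 : ℝ) ≤ J := Nat.cast_nonneg J
  have hJ1 : (1 : ℝ) ≤ J := by exact_mod_cast (le_max_left 1 J₀).trans hJ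
  have hJr : (J₀ : ℝ) ≤ J := by exact_mod_cast (le_max_right 1 J₀).trans hJ
  have hLJ : Real.log 9 ≤ h * J := by
    have := hJ₀.trans hJr
    rw [div_le_iff₀ hh] at this
    linarith
  have hcl := isLaw_cond F.isLaw hA
  have h0 := hcl.nonneg
  obtain ⟨X, hX⟩ : ∃ X : F.Ω → ℝ, X = fun ω => ojet F k j (G (z' (slam F ⌊w * J⌋₊ ω))) ω :=
    ⟨_, rfl⟩
  obtain ⟨v, hv⟩ : ∃ v : F.Ω → ℤ, v = fun ω => ⌊(2 : ℝ) ^ (N * J) * X ω⌋ := ⟨_, rfl⟩
  have hNJ : N * J ≤ N' * J := mul_le_mul_of_nonneg_right hN hJ0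
  have hvP : (qJet m I k j w p N).P (K + 2) e J F A v := by
    refine ⟨?_, V, z, z', G, hlb.mono (Finset.Subset.refl _) (by omega) le_rfl,
      fun ω _ => by rw [hv, hX]⟩
    have h1 := cnt_dn (p := F.p) (A := A) (u' := u') X hNJ (fun ω hω => by rw [hu' ω hω, hX])
    rw [← hv] at h1
    refine h1.trans ?_
    have h2 : (5 : ℝ) ≤ Real.exp (2 * J) := by
      have h3 : (2.7 : ℝ) ≤ Real.exp 1 := by
        have := Real.exp_one_gt_d9
        linarith
      have h4 : Real.exp 1 * Real.exp 1 ≤ Real.exp (2 * J) := by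
        rw [← Real.exp_add]
        exact Real.exp_le_exp.2 (by linarith)
      nlinarith
    calc (cnt F.p u' A : ℝ) * 5
        ≤ Real.exp (K * J) * Real.exp (2 * J) :=
          mul_le_mul hc h2 (by norm_num) (Real.exp_pos _).le
      _ = Real.exp ((K + 2 : ℕ) * J) := by
          rw [← Real.exp_add]
          congr 1
          push_cast
          ring
  obtain ⟨V₁, z₁, hz₁, g1⟩ := H u v (Qu.mono (by omega) le_rfl hu) hvP
  refine ⟨V₁, z₁, hz₁, ?_⟩
  have g2 := CH_le_add h0 u' v (fun ω => (u ω, (z₁ ω, y J F ω)))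
  obtain ⟨Cc, hCc⟩ : ∃ Cc : ℝ, Cc = 2 ^ (N' * J - N * J) := ⟨_, rfl⟩
  have hCc1 : 1 ≤ Cc := by
    rw [hCc]
    exact Real.one_le_rpow (by norm_num) (by linarith)
  have g3 : CH (Pool.Agent.H49.Ent.cond F.p A True) u'
      (fun ω => (v ω, (u ω, (z₁ ω, y J F ω)))) ≤
      Real.log (2 * ((⌈2 * Cc⌉₊ + 1 : ℕ) : ℝ) + 1) := by
    have g4 := Pool.PN18.CH_phi hcl (fun ω => (2 : ℝ) ^ (N' * J) * X ω)
      (fun ω => (v ω, (u ω, (z₁ ω, y J F ω))))
      (fun g => Cc * (g.1 : ℝ)) (C := Cc) (fun ω => by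
        have e1 := Int.floor_le ((2 : ℝ) ^ (N * J) * X ω)
        have e2 := Int.lt_floor_add_one ((2 : ℝ) ^ (N * J) * X ω)
        have e3 : (2 : ℝ) ^ (N' * J) = Cc * 2 ^ (N * J) := by
          rw [hCc, ← Real.rpow_add (by norm_num)]
          congr 1
          ring
        rw [hv]
        dsimp only
        rw [e3, mul_assoc, ← mul_sub, abs_mul, abs_of_nonneg (by linarith : (0 : ℝ) ≤ Cc)]
        have e6 : |(2 : ℝ) ^ (N * J) * X ω - (⌊(2 : ℝ) ^ (N * J) * X ω⌋ : ℝ)| ≤ 1 := by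
          rw [abs_le]
          constructor <;> linarith
        calc Cc * |(2 : ℝ) ^ (N * J) * X ω -
              (⌊(2 : ℝ) ^ (N * J) * X ω⌋ : ℝ)| ≤ Cc * 1 :=
              mul_le_mul_of_nonneg_left e6 (by linarith)
          _ = Cc := mul_one Cc)
    refine le_trans (CH_mono_left h0 fun ω ω' hω hω' hh => ?_) g4
    rw [hu' ω (of_cond_pos hω), hu' ω' (of_cond_pos hω')]
    have := (Prod.ext_iff.mp hh).1
    rw [hX] at this
    exact this
  have g6 : Real.log (2 * ((⌈2 * Cc⌉₊ + 1 : ℕ) : ℝ) + 1) ≤ (N' - N) * J + h * J := by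
    have k1 : ((⌈2 * Cc⌉₊ : ℕ) : ℝ) ≤ 2 * Cc + 1 := (Nat.ceil_lt_add_one (by linarith)).le
    have k2 : 2 * ((⌈2 * Cc⌉₊ + 1 : ℕ) : ℝ) + 1 ≤ 9 * Cc := by
      push_cast
      linarith
    have k3 : Real.log (2 * ((⌈2 * Cc⌉₊ + 1 : ℕ) : ℝ) + 1) ≤ Real.log (9 * Cc) :=
      Real.log_le_log (by positivity) k2
    have k6 : Real.log (9 * Cc) = Real.log 9 + (N' * J - N * J) * Real.log 2 := by
      rw [Real.log_mul (by norm_num) (by positivity), hCc, Real.log_rpow (by norm_num)]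
    have k4 : (N' * J - N * J) * Real.log 2 ≤ (N' * J - N * J) * 1 :=
      mul_le_mul_of_nonneg_left hl21 (by linarith)
    linarith
  have g5 : (η + (N' - N) + h) * J = η * J + ((N' - N) * J + h * J) := by ring
  rw [g5]
  linarith only [g1, g2, g3, g6]

end


section low

variable {m : ℕ} {S : PCl m} {c : ℕ → Fin m} {k f' : ℕ} {sn : ℕ → ℝ → ℝ} {G : Set ℝ} {b o φ : ℝ}
  {α γ : ∀ J : ℕ, Fam m J → Type}
  {f : ∀ (J : ℕ) (F : Fam m J), F.Ω → α J F} {y : ∀ (J : ℕ) (F : Fam m J), F.Ω → γ J F}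

/-- **The own jets of the place `c k` of a low order** over labels of the window `w`, from the record
at a later window `x`, where the order `j` is natural. -/
theorem uj_low (L : LadT S c k f' sn G b o φ) (hf1 : 0 < f')
    (hf : ∀ (J : ℕ) (F : Fam m J), ∃ χ : α J F → PtT F, ∀ ω, ptr F J ω = χ (f J F ω))
    (hy : Kn ((range 0).image c) 1 1 y) {w x ox : ℝ} {n p : ℕ → ℝ} (hw : w ∈ G) (hx : x ∈ G)
    (hbw : b ≤ w) (hwx : w ≤ x) (hxo : x ≤ o) (hox : x ≤ ox) (hox1 : ox ≤ 1)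
    (hp : ∀ i < k, sn i b - φ ≤ p i) (hlo : ∀ i < k, sn i x + 24 * φ ≤ n i)
    (hhi : ∀ i < k, n i + 24 * φ ≤ sn i w + (1 - w))
    (hne : ∀ i < k, ∀ l < i, n i - sn i w + 24 * φ ≤ n l - sn l w)
    (hroom : ∀ i < k, n i - sn i w + 6 * φ ≤ w - b) {Nf : ℕ → ℕ → ℝ}
    (hNf : ∀ i < k, ∀ j : ℕ, j ≤ 1 → n i - (j : ℝ) * w ≤ Nf i j) {j : ℕ} {N : ℝ}
    (hnat : N + j * (x - w) + φ ≤ sn k x)
    (hst : ∀ v ∈ G, w ≤ v → v ≤ x → (∀ l < k, N + j * (v - w) + 12 * φ ≤
      sn k v + (n l - sn l v)) ∧ N + j * (v - w) + 12 * φ ≤ sn k v + (1 - v)) :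
    Few S f (vg ox) y (jetQ m c 0 k b p Nf)
      (qJet m ((range k).image c) (c k) j w (sn k w) (N - (j : ℝ) * w)) := by
  have hφ := L.φ0
  have Ld := L.toLadR.lad
  obtain ⟨C₀, htm⟩ := L.tm
  have hj0 : (0 : ℝ) ≤ j := Nat.cast_nonneg j
  obtain ⟨M, B, hB0, hBM, hBG, hBs⟩ := latt_mesh L hw hx hbw hwx hxo
  have u1 : ∀ i < k, ∀ v ∈ G, w ≤ v → v ≤ x → sn i v ≤ sn i w + (v - w) + 2 * φ :=
    fun i hi v hv h1 h2 => by
      have := abs_le.1 (Ld.flat hi hv hw (hbw.trans h1) (h2.trans hxo) hbw (hwx.trans hxo))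
      linarith [this.2]
  have u2 : ∀ i < k, ∀ v ∈ G, w ≤ v → v ≤ x → sn i w + (v - w) - 2 * φ ≤ sn i v :=
    fun i hi v hv h1 h2 => by
      have := abs_le.1 (Ld.flat hi hv hw (hbw.trans h1) (h2.trans hxo) hbw (hwx.trans hxo))
      linarith [this.1]
  have hup : ∀ v, v ≤ x → ∀ (J : ℕ) (F : Fam m J), ∃ χ : LnT F → LnT F, ∀ ω,
      vg v J F ω = χ (vg ox J F ω) := fun v hv J F => vg_mono (hv.trans hox) hox1 J F
  -- the jets of the slope-one places
  have hV : ∀ v ∈ G, w ≤ v → v ≤ x → Few S f (vg v) y (jetQ m c 0 k b p Nf)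
      (qJets m c 0 k j (fun _ _ => v) (fun l _ => sn l v) (fun l j'' => n l - (j'' : ℝ) * v)) := by
    intro v hv h1 h2
    obtain ⟨u₁, rd, hrd, hch⟩ := L.ch.ch v hv
    refine few_qjets L.pos fun i _ hi j'' _ => vuj_jet Ld hf hy hv (hbw.trans h1) (h2.trans hxo)
      le_rfl hch.u0.le ⟨fun l hl => ?_, fun l hl => ?_, fun l hl l' hl' => ?_⟩ hp (fun l hl => ?_)
      (fun l hl j₂ hj₂ => ?_) hi j''
    · have e1 := u1 l hl v hv h1 h2
      have e2 := u2 l hl x hx hwx le_rfl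
      linarith [hlo l hl]
    · linarith [hhi l hl, u2 l hl v hv h1 h2]
    · linarith [hne l hl l' hl', u2 l hl v hv h1 h2, u1 l' (by omega) v hv h1 h2]
    · linarith [hroom l hl, u2 l hl v hv h1 h2]
    · refine le_trans ?_ (hNf l hl j₂ hj₂)
      have : (j₂ : ℝ) * w ≤ j₂ * v := mul_le_mul_of_nonneg_left h1 (Nat.cast_nonneg _)
      linarith
  -- downwards
  have key : ∀ d ≤ M, Few S f (vg ox) y (jetQ m c 0 k b p Nf)
      (qJet m ((range k).image c) (c k) j (B (M - d)) (sn k (B (M - d))) (N - (j : ℝ) * w)) := by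
    intro d
    induction d with
    | zero =>
      intro _
      obtain ⟨u₁, rd, hrd, hch⟩ := L.ch.ch x hx
      rw [Nat.sub_zero, hBM]
      refine Few0.few L.pos (few0_iff.2 fun h' hh => ⟨φ / 4, by linarith,
        few0_room htm hch.w0 hch.u0 hφ ?_ _ _ _ hh⟩)
      linarith
    | succ d ih =>
      intro hd
      have ih' := ih (by omega)
      obtain ⟨t, ht⟩ : ∃ t, t = M - (d + 1) := ⟨_, rfl⟩
      have ht1 : M - d = t + 1 := by omega
      have htM : t < M := by omega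
      rw [ht1] at ih'
      rw [← ht]
      obtain ⟨v, hv⟩ : ∃ v, v = B (t + 1) := ⟨_, rfl⟩
      obtain ⟨v₀, hv₀⟩ : ∃ v₀, v₀ = B t := ⟨_, rfl⟩
      obtain ⟨g1, g2, g3⟩ := hBG t htM.le
      obtain ⟨g4, g5, g6⟩ := hBG (t + 1) htM
      obtain ⟨g7, g8, g9⟩ := hBs t htM
      rw [← hv] at ih' g4 g5 g6 g7 g8 g9
      rw [← hv₀] at g1 g2 g3 g7 g8 g9 ⊢
      have g10 := g9 k le_rfl (by omega)
      obtain ⟨u₁, rd, hrd, hch⟩ := L.ch.ch v g4
      have hv1 : v < 1 := hch.u0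
      have hmin : min (1 : ℝ) (1 - v) = 1 - v :=
        min_eq_right (by linarith [hch.w0])
      have hmm : sn k v - 2 * φ ≤ min (sn k v) (sn k v₀) := le_min (by linarith) (by linarith)
      have a1 : ∀ i < k, sn i v + 20 * φ ≤ n i := fun l hl => by
        have e1 := u1 l hl v g4 g5 g6
        have e2 := u2 l hl x hx hwx le_rfl
        linarith [hlo l hl]
      have a2 : ∀ i < k, n i + 20 * φ ≤ sn i v + (1 - v) := fun l hl => by
        linarith [hhi l hl, u2 l hl v g4 g5 g6]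
      have a3 : ∀ i < k, ∀ l < i, n i - sn i v + 20 * φ ≤ n l - sn l v := fun l hl l' hl' => by
        linarith [hne l hl l' hl', u2 l hl v g4 g5 g6, u1 l' (by omega) v g4 g5 g6]
      obtain ⟨s1, s2⟩ := hst v g4 g5 g6
      have ej : (j : ℝ) * (v - w) = j * v - j * w := by ring
      have key := few_jetN (f := f) (y := y) htm (hch.take (Nat.zero_le k) (by omega)) (k := c k)
        (j := j) (wv := fun _ _ => v) (pv := fun l _ => sn l v)
        (Nv := fun l j'' => n l - (j'' : ℝ) * v)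
        (lv := fun l => n l - sn l v - 8 * φ) (w₁ := v) (w₂ := v₀) (p₁ := sn k v) (p₂ := sn k v₀)
        (N₁ := N - (j : ℝ) * w) (N₂ := N - (j : ℝ) * w) (p₀ := 1) (lam := 1) (σ₀ := φ)
        (fun _ _ _ _ _ => le_rfl) le_rfl g7 hv1 le_rfl one_pos hφ (by
          intro l _ hl
          show 0 < n l - sn l v - 8 * φ
          linarith [a1 l hl]) (by
          intro l _ hl j'' hj''
          show sn l v + (n l - sn l v - 8 * φ) + φ ≤ n l - (j'' : ℝ) * v + j'' * v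
          linarith) (by
          intro l _ hl j'' hj''
          rw [hmin, min_self]
          show sn l v + (n l - sn l v - 8 * φ) + φ ≤ sn l v + (1 - v)
          linarith [a2 l hl]) (by
          intro l _ hl j'' hj'' l' _ hl'
          rw [min_self]
          show sn l v + (n l - sn l v - 8 * φ) + φ ≤ sn l v + (n l' - sn l' v - 8 * φ)
          linarith [a3 l hl l' hl']) le_rfl (by
          rw [hmin]
          linarith) (by
          intro l _ hl
          show _ ≤ min (sn k v) (sn k v₀) + (n l - sn l v - 8 * φ)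
          linarith [s1 l hl]) hf hy
      have hxs : Exs S ((qJets m c 0 k j (fun _ _ => v) (fun l _ => sn l v)
          (fun l j'' => n l - (j'' : ℝ) * v)).prod
          (qJet m ((range k).image c) (c k) j v (sn k v) (N - (j : ℝ) * w))) :=
        Exs.prod (exs_qjets fun l l0 l1 j' _ => exs_jet (hrd l (by omega))
          (hch.att l l0 (by omega)))
          (exs_jet (hrd k (by omega)) (hch.att k (Nat.zero_le _) (by omega)))
      exact Few.trans L.pos hxs (Few.pair L.pos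
        (Few.up (f' := f) (y' := y) L.pos (fun J F => ⟨fun x => x, fun _ => rfl⟩) (hup v g6)
          (fun J F => ⟨fun x => x, fun _ => rfl⟩) (hV v g4 g5 g6)) ih')
        (Few.up (f' := f) (y' := y) L.pos (fun J F => ⟨fun x => x, fun _ => rfl⟩) (hup v g6)
          (fun J F => ⟨fun x => x, fun _ => rfl⟩) key)
  have h1 := key M le_rfl
  rw [Nat.sub_self, hB0] at h1
  exact h1

end low

end Pool.TW44
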