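import Pool.Agent.H44.V0P.Pfh
import Pool.Agent.H44.V0P.TwU

/-!
# The own jets of the first target over its chart

`uj_lo`, `uj_hi`: class level, labels of a slightly lower precision. `few_lv`: from the class level to
one event. `ju_low`, `ju_high`: the jets of the place `c k` over the chart of a window.
-/

set_option autoImplicit false

namespace Pool.TW44

open Finset Real MvPolynomial
open Pool.Agent.H49.Ent Pool.Agent.H32.Dense Pool.STK Pool.KA Pool.KSAT Pool.K2S Pool.PB Pool.GEN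
open Pool.S6C Pool.RCD Pool.LA91 Pool.AVG96 Pool.V0F Pool.V0T Pool.D2R Pool.NVT16
open Pool.BFL (Pb)
open Pool.OWN68 (few_iff)
open Pool.AVG57 (jet2 upw upw_slam)
open Pool.GRD (LbP)
open Pool.AJW (CfB)

section rel

variable {m : ℕ} {S : PCl m} {c : ℕ → Fin m} {k : ℕ} {sn : ℕ → ℝ → ℝ} {G : Set ℝ} {b o φ : ℝ}

variable {α γ : ∀ J : ℕ, Fam m J → Type}
  {f : ∀ (J : ℕ) (F : Fam m J), F.Ω → α J F} {y : ∀ (J : ℕ) (F : Fam m J), F.Ω → γ J F}

/-- **A slightly lower precision** of the labels of the first target. -/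
theorem u_rel (L : LadT S c k 1 sn G b o φ)
    (hf : ∀ (J : ℕ) (F : Fam m J), ∃ χ : α J F → PtT F, ∀ ω, ptr F J ω = χ (f J F ω))
    (hy : Kn ((range 0).image c) 1 1 y) {w ow : ℝ} {n p : ℕ → ℝ} (hw : w ∈ G) (hbw : b ≤ w)
    (hwo : w ≤ o) (how : w ≤ ow) (how1 : ow ≤ 1) (hn : Nst k sn w φ n)
    (hp : ∀ i < k, sn i b - φ ≤ p i)
    (hnat : ∀ i < k, n i - sn i w + 3 * φ ≤ w - b) {Nf : ℕ → ℕ → ℝ}
    (hNf : ∀ i < k, ∀ j : ℕ, j ≤ 1 → n i - (j : ℝ) * w ≤ Nf i j) {j : ℕ} {ν : ℝ}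
    (h1 : ν + j * w + 2 * φ ≤ sn k w + (1 - w))
    (h2 : ∀ l < k, ν + j * w + 5 * φ ≤ sn k w + (n l - sn l w))
    (H : Few S f (vg ow) y (jetQ m c 0 k b p Nf)
      (qJet m ((range k).image c) (c k) j w (sn k w) ν)) :
    Few S f (vg ow) y (jetQ m c 0 k b p Nf)
      (qJet m ((range k).image c) (c k) j w (sn k w - φ) ν) := by
  have hφ := L.φ0
  have Ld := L.toLadR.lad
  obtain ⟨C₀, htm⟩ := L.tm
  obtain ⟨u₁, rd, hrd, hch⟩ := L.ch.ch w hw
  have hw1 : w < 1 := hch.u0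
  have hmin : min (1 : ℝ) (1 - w) = 1 - w := min_eq_right (by linarith [hch.w0])
  have h3 : Few S f (vg ow) y (jetQ m c 0 k b p Nf)
      ((qJets m c 0 k j (fun _ _ => w) (fun l _ => sn l w) (fun l j' => n l - (j' : ℝ) * w)).prod
        (qJet m ((range k).image c) (c k) j w (sn k w) ν)) :=
    Few.pair L.pos (few_qjets L.pos fun l _ hl j' _ =>
      vuj_jet Ld hf hy hw hbw hwo how how1 hn hp hnat hNf hl j') H
  have h4 := few_jetN (f := f) (y := y) htm (hch.take (Nat.zero_le k) (by omega)) (k := c k) (j := j)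
    (wv := fun _ _ => w) (pv := fun l _ => sn l w) (Nv := fun l j' => n l - (j' : ℝ) * w)
    (lv := fun l => n l - sn l w - 3 * φ) (w₁ := w) (w₂ := w) (p₁ := sn k w) (p₂ := sn k w - φ)
    (N₁ := ν) (N₂ := ν) (p₀ := 1) (lam := 1) (σ₀ := φ)
    (fun _ _ _ _ _ => le_rfl) le_rfl le_rfl hw1 le_rfl one_pos hφ (by
      intro l _ hl
      show 0 < n l - sn l w - 3 * φ
      linarith [hn.lo l hl]) (by
      intro l _ hl j' _
      show sn l w + (n l - sn l w - 3 * φ) + φ ≤ n l - (j' : ℝ) * w + j' * w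
      linarith) (by
      intro l _ hl j' _
      rw [hmin, min_self]
      show sn l w + (n l - sn l w - 3 * φ) + φ ≤ sn l w + (1 - w)
      linarith [hn.hi l hl]) (by
      intro l _ hl j' _ l' _ hl'
      rw [min_self]
      show sn l w + (n l - sn l w - 3 * φ) + φ ≤ sn l w + (n l' - sn l' w - 3 * φ)
      linarith [hn.ne l hl l' hl']) le_rfl (by
      rw [hmin, min_eq_right (by linarith : sn k w - φ ≤ sn k w)]
      linarith) (by
      intro l _ hl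
      rw [min_eq_right (by linarith : sn k w - φ ≤ sn k w)]
      show ν + j * w + φ ≤ sn k w - φ + (n l - sn l w - 3 * φ)
      linarith [h2 l hl]) hf hy
  have hxs : Exs S ((qJets m c 0 k j (fun _ _ => w) (fun l _ => sn l w)
      (fun l j' => n l - (j' : ℝ) * w)).prod
      (qJet m ((range k).image c) (c k) j w (sn k w) ν)) :=
    Exs.prod (exs_qjets fun l l0 l1 j' _ => exs_jet (hrd l (by omega)) (hch.att l l0 (by omega)))
      (exs_jet (hrd k (by omega)) (hch.att k (Nat.zero_le _) (by omega)))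
  exact Few.trans L.pos hxs h3 (Few.up (f' := f) (y' := y) L.pos
    (fun J F => ⟨fun x => x, fun _ => rfl⟩) (fun J F => vg_mono how how1 J F)
    (fun J F => ⟨fun x => x, fun _ => rfl⟩) h4)

/-- **The natural digits of a later record**, first target. -/
theorem uj_lo (L : LadT S c k 1 sn G b o φ) {s : ℝ} {al : ℕ → ℝ} (hl : Lns k sn G b o φ s al)
    (hf : ∀ (J : ℕ) (F : Fam m J), ∃ χ : α J F → PtT F, ∀ ω, ptr F J ω = χ (f J F ω))
    (hy : Kn ((range 0).image c) 1 1 y) {w x ox ν R : ℝ} {p : ℕ → ℝ} (hw : w ∈ G) (hx : x ∈ G)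
    (hbw : b ≤ w) (hwx : w ≤ x) (hxo : x ≤ o) (hox : x ≤ ox) (hox1 : ox ≤ 1)
    (hp : ∀ i < k, sn i b - φ ≤ p i) {j : ℕ} (hν : ν + j * x + φ ≤ sn k x)
    (hR : max 1 (s - j) * (x - w) + (24 * k + 80) * φ ≤ R) (hRb : R ≤ w - b) (hR1 : R ≤ 1 - x)
    {Nf : ℕ → ℕ → ℝ}
    (hNf : ∀ l < k, ∀ j' : ℕ, j' ≤ 1 → sn l w + R - j' * w ≤ Nf l j') :
    Few S f (vg ox) y (jetQ m c 0 k b p Nf)
      (qJet m ((range k).image c) (c k) j w (sn k w - φ) ν) := by
  have hφ := L.φ0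
  obtain ⟨Mm, hMm⟩ : ∃ Mm : ℝ, Mm = max 1 (s - j) := ⟨_, rfl⟩
  rw [← hMm] at hR
  have hMm1 : 1 ≤ Mm := by rw [hMm]; exact le_max_left _ _
  have hMms : s - j ≤ Mm := by rw [hMm]; exact le_max_right _ _
  obtain ⟨n, hn⟩ : ∃ n : ℕ → ℝ, n = fun l : ℕ =>
    sn l w + (Mm * (x - w) + 40 * φ) + 24 * ((k : ℝ) - l) * φ := ⟨_, rfl⟩
  have hnl : ∀ l : ℕ, n l = sn l w + (Mm * (x - w) + 40 * φ) + 24 * ((k : ℝ) - l) * φ :=
    fun l => by rw [hn]
  have hkl : ∀ l < k, 24 * φ ≤ 24 * ((k : ℝ) - l) * φ ∧ 24 * ((k : ℝ) - l) * φ ≤ 24 * k * φ :=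
    fun l hl => by
      have h1 : ((l + 1 : ℕ) : ℝ) ≤ k := by exact_mod_cast hl
      have h2 : (0 : ℝ) ≤ l := Nat.cast_nonneg l
      push_cast at h1
      constructor <;> nlinarith
  have hM0 : 1 * (x - w) ≤ Mm * (x - w) := mul_le_mul_of_nonneg_right hMm1 (by linarith)
  have hkφ : 0 ≤ 24 * (k : ℝ) * φ := by positivity
  have hwo : w ≤ o := hwx.trans hxo
  have flat : ∀ l < k, ∀ v ∈ G, w ≤ v → v ≤ x → |(sn l v - v) - (sn l w - w)| ≤ 2 * φ :=
    fun l hl' v hv h1 h2 => flat_of L hl' hw hv hbw hwo (hbw.trans h1) (h2.trans hxo)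
  have hνv : ∀ v ∈ G, w ≤ v → v ≤ x → ν + j * v ≤ sn k v + (s - j) * (x - v) + φ :=
    fun v hv h1 h2 => by
      have h3 := abs_le.1 (lin_of hl le_rfl (Nat.le_succ k) hv hx (hbw.trans h1) (h2.trans hxo)
        (hbw.trans hwx) hxo)
      have h4 : (j : ℝ) * v = j * x - j * (x - v) := by ring
      linarith [h3.2]
  have hMv : ∀ v, w ≤ v → v ≤ x → (s - j) * (x - v) + (v - w) ≤ Mm * (x - w) := fun v h1 h2 => by
    have h3 : (s - j) * (x - v) ≤ Mm * (x - v) := mul_le_mul_of_nonneg_right hMms (by linarith)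
    have h4 : 1 * (v - w) ≤ Mm * (v - w) := mul_le_mul_of_nonneg_right hMm1 (by linarith)
    have h5 : Mm * (x - w) = Mm * (x - v) + Mm * (v - w) := by ring
    linarith
  have hne : ∀ i < k, ∀ l < i, n i - sn i w + 24 * φ ≤ n l - sn l w := fun i hi l hli => by
    rw [hnl, hnl]
    have h1 : ((l + 1 : ℕ) : ℝ) ≤ i := by exact_mod_cast hli
    push_cast at h1
    nlinarith
  have hNf' : ∀ i < k, ∀ j' : ℕ, j' ≤ 1 → n i - (j' : ℝ) * w ≤ Nf i j' := fun i hi j' hj' => by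
    refine le_trans ?_ (hNf i hi j' hj')
    rw [hnl]
    linarith [(hkl i hi).2]
  have h1 := uj_low L one_pos hf hy (n := n) (p := p) (N := ν + j * w) hw hx hbw hwx hxo hox hox1 hp
    (fun i hi => by
      rw [hnl]
      have h2 := abs_le.1 (flat i hi x hx hwx le_rfl)
      linarith [h2.2, (hkl i hi).1]) (fun i hi => by
      rw [hnl]
      linarith [(hkl i hi).2]) hne (fun i hi => by
      rw [hnl]
      linarith [(hkl i hi).2]) hNf' (j := j) (by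
      have : ν + j * w + j * (x - w) = ν + j * x := by ring
      linarith) (fun v hv h2 h3 => by
      have e1 : ν + j * w + j * (v - w) = ν + j * v := by ring
      have e2 := hνv v hv h2 h3
      have e3 := hMv v h2 h3
      refine ⟨fun l hl' => ?_, by linarith⟩
      have e4 := abs_le.1 (flat l hl' v hv h2 h3)
      rw [hnl]
      linarith [e4.2, (hkl l hl').1])
  have e0 : ν + (j : ℝ) * w - j * w = ν := by ring
  rw [e0] at h1
  have e2 := hνv w hw le_rfl hwx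
  have e3 := hMv w le_rfl hwx
  refine u_rel L hf hy hw hbw hwo (hwx.trans hox) hox1 (n := n) ⟨fun i hi => ?_, fun i hi => ?_,
    fun i hi l hli => by linarith [hne i hi l hli]⟩ hp (fun i hi => ?_) hNf' (by linarith)
    (fun l hl' => ?_) h1
  · rw [hnl]
    linarith [(hkl i hi).1]
  · rw [hnl]
    linarith [(hkl i hi).2]
  · rw [hnl]
    linarith [(hkl i hi).2]
  · rw [hnl]
    linarith [(hkl l hl').1]

/-- **The orders above the slope**, first target. -/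
theorem uj_hi (L : LadT S c k 1 sn G b o φ) {s : ℝ} {al : ℕ → ℝ} (hl : Lns k sn G b o φ s al)
    (hf : ∀ (J : ℕ) (F : Fam m J), ∃ χ : α J F → PtT F, ∀ ω, ptr F J ω = χ (f J F ω))
    (hy : Kn ((range 0).image c) 1 1 y) {w ox X R : ℝ} {p : ℕ → ℝ} (hw : w ∈ G)
    (hbw : b ≤ w) (hwo : w ≤ o) (hox : w ≤ ox) (hox1 : ox ≤ 1)
    (hp : ∀ i < k, sn i b - φ ≤ p i) {j : ℕ} (hj : 2 ≤ j) (hsj : s < j) (hX0 : 0 ≤ X)
    (hR : X + (20 * k + 80) * φ ≤ R) (hRb : R ≤ min 1 (j - s) * (w - b)) (hR1 : R ≤ 1 - w)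
    {Nf : ℕ → ℕ → ℝ}
    (hNf : ∀ l < k, ∀ j' : ℕ, j' ≤ 1 → sn l w + R - j' * w ≤ Nf l j') :
    Few S f (vg ox) y (jetQ m c 0 k b p Nf)
      (qJet m ((range k).image c) (c k) j w (sn k w - φ) (sn k w + (X + 20 * φ) - j * w)) := by
  have hφ := L.φ0
  obtain ⟨μ, hμ⟩ : ∃ μ : ℝ, μ = min 1 (j - s) := ⟨_, rfl⟩
  rw [← hμ] at hRb
  have hμ0 : 0 < μ := by rw [hμ]; exact lt_min one_pos (by linarith)
  have hμ1 : μ ≤ 1 := by rw [hμ]; exact min_le_left _ _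
  have hμs : μ ≤ j - s := by rw [hμ]; exact min_le_right _ _
  obtain ⟨n, hn⟩ : ∃ n : ℕ → ℝ, n = fun l : ℕ =>
    sn l w + (X + 20 * φ) + 20 * ((k : ℝ) - l) * φ := ⟨_, rfl⟩
  have hnl : ∀ l : ℕ, n l = sn l w + (X + 20 * φ) + 20 * ((k : ℝ) - l) * φ :=
    fun l => by rw [hn]
  have hkl : ∀ l ≤ k, 0 ≤ 20 * ((k : ℝ) - l) * φ ∧ 20 * ((k : ℝ) - l) * φ ≤ 20 * k * φ :=
    fun l hl => by
      have h1 : (l : ℝ) ≤ k := by exact_mod_cast hl
      have h2 : (0 : ℝ) ≤ l := Nat.cast_nonneg l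
      constructor <;> nlinarith
  have hne : ∀ i < k + 1, ∀ l < i, n i - sn i w + 20 * φ ≤ n l - sn l w := fun i hi l hli => by
    rw [hnl, hnl]
    have h1 : ((l + 1 : ℕ) : ℝ) ≤ i := by exact_mod_cast hli
    push_cast at h1
    nlinarith
  have hkφ : 0 ≤ 20 * (k : ℝ) * φ := by positivity
  have hRb1 : μ * (w - b) ≤ 1 * (w - b) := mul_le_mul_of_nonneg_right hμ1 (by linarith)
  have hNf' : ∀ i < k, ∀ j' : ℕ, j' ≤ 1 → n i - (j' : ℝ) * w ≤ Nf i j' := fun i hi j' hj' => by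
    refine le_trans ?_ (hNf i hi j' hj')
    rw [hnl]
    linarith [(hkl i hi.le).2]
  have hnk : Nst (k + 1) sn w φ n := ⟨fun i hi => by
      rw [hnl]
      linarith [(hkl i (by omega)).1], fun i hi => by
      rw [hnl]
      linarith [(hkl i (by omega)).2], hne⟩
  have h1 := uj_high L one_pos hf hy (n := n) (p := p) hw hbw hwo hox hox1 hnk hμ0 hμ1 hp
    (fun i hi => by
      rw [hnl]
      linarith [(hkl i hi).2]) hNf' hj (fun v hv h2 h3 => by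
      have h4 := abs_le.1 (lin_of hl le_rfl (Nat.le_succ k) hv hw h2 (h3.trans hwo) hbw hwo)
      have h5 : s * (w - v) ≤ (j - μ) * (w - v) :=
        mul_le_mul_of_nonneg_right (by linarith) (by linarith)
      linarith [h4.2])
  have e0 : n k - (j : ℝ) * w = sn k w + (X + 20 * φ) - j * w := by
    rw [hnl, sub_self]
    ring
  rw [e0] at h1
  refine u_rel L hf hy hw hbw hwo hox hox1 (n := n) ⟨fun i hi => hnk.lo i (by omega),
    fun i hi => hnk.hi i (by omega), fun i hi l hli => hne i (by omega) l hli⟩ hp (fun i hi => ?_)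
    hNf' (by linarith) (fun l hl' => ?_) h1
  · rw [hnl]
    linarith [(hkl i hi.le).2]
  · have h5 := hne k (by omega) l hl'
    rw [hnl, sub_self] at h5
    linarith

end rel

/-- **From the class to one event**: one jet. -/
theorem few_lv {m : ℕ} {S : PCl m} {c : ℕ → Fin m} {k l : ℕ} {sn : ℕ → ℝ → ℝ} {b φ : ℝ}
    (hpos : ∀ (τ : ℝ) (J : ℕ) (F : Fam m J) (A : F.Ω → Prop), S.St τ J F A → 0 < Pe F.p A)
    (D j : ℕ) {w' v ox ν : ℝ} (hb0 : 0 ≤ b) (hb1 : b ≤ 1) (hv0 : 0 ≤ v) (hv1 : v ≤ 1)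
    {Nf : ℕ → ℕ → ℝ}
    (H : Few S (fun J F => ptr F J) (vg ox) (fun _ F => F.W)
      (jetQ m c 0 k b (fun l => sn l b - φ) Nf)
      (qJet m ((range l).image c) (c l) j v (sn l v - φ) ν)) {ε : ℝ} (hε : 0 < ε) :
    Bas S (fun J F A => ∀ Hb Hv H : LnT F → ℕ → MvPolynomial (Option (Fin m)) ℝ,
      LV F c k D b φ 1 sn A Hb → LV F c (l + 1) D v φ 1 sn A Hv →
      (∀ ω, ∀ l < k, H (slam F ⌊w' * J⌋₊ ω) l = Hb (slam F ⌊b * J⌋₊ ω) l) →
      CH (Pool.Agent.H49.Ent.cond F.p A True) (fun ω => ⌊(2 : ℝ) ^ (ν * J) *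
            ojet F (c l) j (Hv (slam F ⌊v * J⌋₊ ω) l) ω⌋)
        (fun ω => (jet2 F c ⌊w' * J⌋₊ H 0 k Nf ω, (cR F A ox ω, F.W ω))) ≤ ε * J) := by
  obtain ⟨M₀, J₀, hM₀⟩ := lv_j2 m D k Nf (E := 1) hb0 hb1
  obtain ⟨e₀, he₀, H1⟩ := few_iff.1 H ε hε
  obtain ⟨M₁, J₁, hM₁⟩ := qj_win m D j (N := ν) (E := 1) hv0 hv1
  refine Bas.mono (max J₀ J₁) ((H1 (max M₀ M₁)).and (pos_bas hpos)) ?_
  rintro J hJ F A ⟨H2, hA⟩ Hb Hv H lb lv hb
  have hcl := isLaw_cond F.isLaw hA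
  have h0 := hcl.nonneg
  have q1 := hM₀ _ (le_max_left M₀ M₁) J ((le_max_left _ _).trans hJ) lb (w := w') (H := H) hb e₀
    he₀.le
  obtain ⟨V, z, z', G', l1, l2⟩ := lv.lb l (Nat.lt_succ_self l)
  have q2 := hM₁ _ (le_max_right M₀ M₁) J ((le_max_right _ _).trans hJ) F _ (c l) A V z z' G' _
    (sn l v - φ) e₀ l1 (cfb_of (lv.cf l (Nat.lt_succ_self l)) l2) (Nat.floor_le_floor
      (mul_le_mul_of_nonneg_right (by linarith) (Nat.cast_nonneg J)))
  obtain ⟨V₁, z₁, hz₁, H3⟩ := H2 _ _ q1 q2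
  have hd : Det (Pool.Agent.H49.Ent.cond F.p A True) (cR F A ox) z₁ :=
    det_cR hz₁ fun ω hω => of_cond_pos hω
  have e1 : (fun ω => ⌊(2 : ℝ) ^ (ν * J) * ojet F (c l) j (Hv (slam F ⌊v * J⌋₊ ω) l) ω⌋) =
      fun ω => ⌊(2 : ℝ) ^ (ν * J) * ojet F (c l) j (G' (z' (slam F ⌊v * J⌋₊ ω))) ω⌋ := by
    funext ω
    rw [l2]
  rw [e1]
  refine le_trans (CH_mono_cond h0 fun ω ν hω hν e => ?_) H3
  simp only [Prod.mk.injEq] at e ⊢
  exact ⟨e.1, hd ω ν hω hν e.2.1, e.2.2⟩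

end Pool.TW44
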