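import Pool.Agent.H44.V0P.Dif
import Pool.Agent.H44.V0F.Evd
import Pool.Agent.H18.PN.Stg7

/-!
# The jets of a small polynomial along the own path, on one event

`rjet_pt`: the jet of a polynomial which is small on the natural box of the charts, from the digits of
the own jets of the charts.
-/

set_option autoImplicit false

namespace Pool.TW44

open Finset Real MvPolynomial
open Pool.Agent.H49.Ent Pool.Agent.H32.Dense Pool.STK Pool.KA Pool.KSAT Pool.K2S Pool.PB Pool.GEN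
open Pool.S6C Pool.RCD Pool.LA91
open Pool.CHT (nbx_dbl)

/-- The value of the jet from digits of the own jets. -/
noncomputable def rval {m : ℕ} (c : ℕ → Fin m) (j r : ℕ) (g : ℕ → MvPolynomial (Option (Fin m)) ℝ)
    (R : MvPolynomial (Option (Fin m)) ℝ) (t : ℝ) (N : ℕ → ℕ → ℝ) (uu : ℕ → ℕ → ℤ) : ℝ :=
  apv c j g t (fjt c 0 0 0 N (fun _ => 0) (fun _ => 0) uu) (fun _ _ => 0) r R

/-- **The jet of a small polynomial**, at one point. -/
theorem rjet_pt (m r K K' j : ℕ) : ∃ C : ℝ, 1 ≤ C ∧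
    ∀ {J : ℕ} {F : Fam m J} {ω : F.Ω} {c : ℕ → Fin m} {W : ℕ} {g : ℕ → ℕ}
      {G : ℕ → MvPolynomial (Option (Fin m)) ℝ} {R : MvPolynomial (Option (Fin m)) ℝ}
      {uu : ℕ → ℕ → ℤ} {N : ℕ → ℕ → ℝ} {σ M B : ℝ},
      Set.InjOn c (Set.Iio r) → W < J → (∀ l, DepC c l (G l)) → (∀ l, (G l).totalDegree ≤ K') →
      DepC c r R → R.totalDegree ≤ K → 1 ≤ M → 0 < σ → 4 * ((j : ℝ) + 1) * σ ≤ 1 → 0 ≤ B →
      (∀ x, NBx c G g W (F.t ω) r x → |eval x R| ≤ B) →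
      (∀ i < r, |F.x ω (c i) - eval (bt F ω) (G i)| ≤ 1 / 2 ^ g i) →
      (∀ i < r, ∀ j', 1 ≤ j' → j' ≤ j →
        |ojet F (c i) j' (G i) ω| ≤ M * (1 / 2 ^ g i) * (4 * 2 ^ W) ^ j') →
      (∀ i < r, ∀ j' ≤ j, |(uu i j' : ℝ) / 2 ^ N i j' - ojet F (c i) j' (G i) ω| ≤
        σ * (1 / 2 ^ g i) / 2 * (4 * 2 ^ W) ^ j') →
      |jet j R (bt F ω) (bd F ω) - rval c j r G R ((F.T ω : ℝ) / 2 ^ J) N uu| ≤
        C * M ^ j * B * σ * (4 * 2 ^ W) ^ j := by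
  obtain ⟨C, hC, key⟩ := jetN_pt m r (max K K') K' j
  obtain ⟨c₀, hdb⟩ := nbx_dbl (r + 1) (fun _ => max K K')
  refine ⟨C * 2 ^ c₀, ?_, ?_⟩
  · have : (1 : ℝ) ≤ 2 ^ c₀ := one_le_pow₀ (by norm_num)
    nlinarith
  intro J F ω c W g G R uu N σ M B hc hW hdep hdeg hR hRd hM hσ hσ1 hB hbox hpos hown huu
  have hdj : djt 0 r j (fun i _ => G i) G = fun _ _ => 0 := by
    funext i j'
    unfold djt
    split_ifs with h
    · rw [sub_self]
    · rfl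
  have h1 := key J F ω c 0 W 0 0 g G (fun i _ => G i) R uu N (fun _ => σ) (fun _ => σ)
    (fun _ _ => 0) M (2 ^ c₀ * B) (Nat.zero_le _) hc hW (fun i hi => absurd hi (Nat.not_lt_zero i))
    (fun i _ _ => hdep i) (fun i _ => hdeg i) (fun i _ _ j' _ => hdep i)
    (fun i _ _ j' _ => (hdeg i).trans (le_max_right _ _)) hR (hRd.trans (le_max_left _ _)) hM
    (fun _ _ => hσ) (fun _ _ => hσ1) (fun _ _ _ _ => le_rfl) (fun _ _ => hσ)
    (fun _ _ _ _ _ => le_rfl) (fun i _ _ j' _ x _ => by rw [sub_self, map_zero, abs_zero])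
    (fun x hx => ?_) (fun i _ hi => hpos i hi) (fun i _ hi j' h1 h2 => hown i hi j' h1 h2)
    (fun i hi => absurd hi (Nat.not_lt_zero i)) (fun i hi => absurd hi (Nat.not_lt_zero i))
    (fun i _ hi j' hj' => huu i hi j' hj') (fun i _ _ j' _ => by
      rw [zero_mul, mul_zero, mul_zero]
      positivity)
  · rw [hdj] at h1
    have e1 : fjt c 0 0 0 N (fun i => F.X 0 ω i) (fun i => F.D 0 ω i) uu =
        fjt c 0 0 0 N (fun _ => 0) (fun _ => 0) uu :=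
      fjt_congr (fun i hi => absurd hi (Nat.not_lt_zero i))
        (fun i hi => absurd hi (Nat.not_lt_zero i)) uu
    rw [e1] at h1
    refine h1.trans (le_of_eq ?_)
    ring
  · refine hdb (c := c) (i := r) (G := G) (Q := R) (g := g) (a := W) (t := F.t ω) (M := B)
      (by omega) hc (fun l => (hdeg l).trans (le_max_right _ _)) hdep hR
      (hRd.trans (le_max_left _ _)) hB hbox x hx.1 (fun l hl => ?_)
    have h2 := hx.2.2 l (Nat.zero_le _) hl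
    refine h2.trans (div_le_div_of_nonneg_right (by norm_num) (by positivity))

/-- **The data of the jets**: digits `N` of the own jets of the charts `H`. -/
def JtD {m J : ℕ} (F : Fam m J) (c : ℕ → Fin m) (r j W : ℕ)
    (H : LnT F → ℕ → MvPolynomial (Option (Fin m)) ℝ) (N : ℕ → ℕ → ℝ) (ω ν : F.Ω) : Prop :=
  F.T ω = F.T ν ∧ (∀ l < r, H (slam F W ω) l = H (slam F W ν) l) ∧ ∀ i < r, ∀ j' ≤ j,
    ⌊(2 : ℝ) ^ N i j' * ojet F (c i) j' (H (slam F W ω) i) ω⌋ =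
      ⌊(2 : ℝ) ^ N i j' * ojet F (c i) j' (H (slam F W ν) i) ν⌋

/-- **The jet of a small polynomial** at two points with the same data. -/
theorem rjet_two (m r K K' j : ℕ) : ∃ C : ℝ, 1 ≤ C ∧
    ∀ {J : ℕ} {F : Fam m J} {c : ℕ → Fin m} {W : ℕ} {g : ℕ → ℕ} {A : F.Ω → Prop}
      {G : PtT F → ℕ → MvPolynomial (Option (Fin m)) ℝ}
      {H : LnT F → ℕ → MvPolynomial (Option (Fin m)) ℝ}
      {R : LnT F → MvPolynomial (Option (Fin m)) ℝ} {N : ℕ → ℕ → ℝ} {σ M B : ℝ},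
      Set.InjOn c (Set.Iio r) → W < J → (∀ s l, DepC c l (H s l)) →
      (∀ s l, (H s l).totalDegree ≤ K') →
      (∀ ω, A ω → ∀ l < r, G (ptr F J ω) l = H (slam F W ω) l) →
      (∀ s, DepC c r (R s)) → (∀ s, (R s).totalDegree ≤ K) → 1 ≤ M → 0 < σ →
      4 * ((j : ℝ) + 1) * σ ≤ 1 → 0 ≤ B →
      (∀ ω, A ω → ∀ x, NBx c (G (ptr F J ω)) g W (F.t ω) r x →
        |eval x (R (slam F W ω))| ≤ B) →
      (∀ ω, A ω → ∀ i < r, |F.x ω (c i) - eval (bt F ω) (H (slam F W ω) i)| ≤ 1 / 2 ^ g i) →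
      (∀ ω, A ω → ∀ i < r, ∀ j', 1 ≤ j' → j' ≤ j →
        |ojet F (c i) j' (H (slam F W ω) i) ω| ≤ M * (1 / 2 ^ g i) * (4 * 2 ^ W) ^ j') →
      (∀ i < r, ∀ j' ≤ j, 1 / (2 : ℝ) ^ N i j' ≤ σ * (1 / 2 ^ g i) / 2 * (4 * 2 ^ W) ^ j') →
      ∀ ω ν, A ω → A ν → JtD F c r j W H N ω ν → R (slam F W ω) = R (slam F W ν) →
      |jet j (R (slam F W ω)) (bt F ω) (bd F ω) - jet j (R (slam F W ν)) (bt F ν) (bd F ν)| ≤
        C * M ^ j * B * σ * (4 * 2 ^ W) ^ j := by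
  obtain ⟨C, hC, key⟩ := rjet_pt m r K K' j
  refine ⟨2 * C, by linarith, ?_⟩
  intro J F c W g A G H R N σ M B hc hW hdep hdeg hcl hR hRd hM hσ hσ1 hB hbox hpos hown hN ω ν
    hω hν hd hRe
  obtain ⟨Hr, hHr⟩ : ∃ Hr : F.Ω → ℕ → MvPolynomial (Option (Fin m)) ℝ,
    Hr = fun ω l => if l < r then H (slam F W ω) l else 0 := ⟨_, rfl⟩
  have hr1 : ∀ ω, ∀ l < r, Hr ω l = H (slam F W ω) l := fun ω l hl => by
    rw [hHr]
    exact if_pos hl
  have hr2 : ∀ ω, ∀ l, r ≤ l → Hr ω l = 0 := fun ω l hl => by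
    rw [hHr]
    exact if_neg (not_lt.2 hl)
  have hdepr : ∀ ω l, DepC c l (Hr ω l) := fun ω l => by
    rcases Nat.lt_or_ge l r with h | h
    · rw [hr1 ω l h]
      exact hdep _ l
    · rw [hr2 ω l h]
      intro b b' _ _
      rw [map_zero, map_zero]
  have hdegr : ∀ ω l, (Hr ω l).totalDegree ≤ K' := fun ω l => by
    rcases Nat.lt_or_ge l r with h | h
    · rw [hr1 ω l h]
      exact hdeg _ l
    · rw [hr2 ω l h, totalDegree_zero]
      exact Nat.zero_le _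
  obtain ⟨uu, huu⟩ : ∃ uu : F.Ω → ℕ → ℕ → ℤ, uu = fun ω i j' => if i < r ∧ j' ≤ j then
    ⌊(2 : ℝ) ^ N i j' * ojet F (c i) j' (H (slam F W ω) i) ω⌋ else 0 := ⟨_, rfl⟩
  have hu1 : ∀ ω, ∀ i < r, ∀ j' ≤ j, uu ω i j' =
      ⌊(2 : ℝ) ^ N i j' * ojet F (c i) j' (H (slam F W ω) i) ω⌋ := fun ω i hi j' hj' => by
    rw [huu]
    exact if_pos ⟨hi, hj'⟩
  have one : ∀ ω, A ω → |jet j (R (slam F W ω)) (bt F ω) (bd F ω) -
      rval c j r (Hr ω) (R (slam F W ω)) ((F.T ω : ℝ) / 2 ^ J) N (uu ω)| ≤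
      C * M ^ j * B * σ * (4 * 2 ^ W) ^ j := by
    intro ω hω
    refine key (g := g) hc hW (hdepr ω) (hdegr ω) (hR _) (hRd _) hM hσ hσ1 hB (fun x hx => ?_)
      (fun i hi => by
        rw [hr1 ω i hi]
        exact hpos ω hω i hi) (fun i hi j' h1 h2 => by
        rw [hr1 ω i hi]
        exact hown ω hω i hi j' h1 h2) (fun i hi j' hj' => ?_)
    · refine hbox ω hω x ⟨hx.1, fun l hl => ?_⟩
      have h1 := hx.2 l hl
      rw [hr1 ω l hl] at h1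
      rw [hcl ω hω l hl]
      exact h1
    · refine le_trans ?_ (hN i hi j' hj')
      rw [hu1 ω i hi j' hj', hr1 ω i hi]
      obtain ⟨X, hX⟩ : ∃ X, X = ojet F (c i) j' (H (slam F W ω) i) ω := ⟨_, rfl⟩
      have hN0 : (0 : ℝ) < 2 ^ N i j' := Real.rpow_pos_of_pos (by norm_num) _
      rw [← hX]
      have e1 := Int.floor_le ((2 : ℝ) ^ N i j' * X)
      have e2 := Int.lt_floor_add_one ((2 : ℝ) ^ N i j' * X)
      have e3 : (⌊(2 : ℝ) ^ N i j' * X⌋ : ℝ) / 2 ^ N i j' - X =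
        (⌊(2 : ℝ) ^ N i j' * X⌋ - 2 ^ N i j' * X) / 2 ^ N i j' := by
        field_simp
      rw [e3, abs_div, abs_of_pos hN0]
      refine div_le_div_of_nonneg_right ?_ hN0.le
      rw [abs_le]
      constructor <;> linarith
  have a1 := one ω hω
  have a2 := one ν hν
  obtain ⟨hT, hH, hJ⟩ := hd
  have e1 : Hr ω = Hr ν := by
    funext l
    rcases Nat.lt_or_ge l r with h | h
    · rw [hr1 ω l h, hr1 ν l h, hH l h]
    · rw [hr2 ω l h, hr2 ν l h]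
  have e2 : uu ω = uu ν := by
    funext i j'
    by_cases h : i < r ∧ j' ≤ j
    · rw [hu1 ω i h.1 j' h.2, hu1 ν i h.1 j' h.2, hJ i h.1 j' h.2]
    · rw [huu]
      show (if i < r ∧ j' ≤ j then _ else (0 : ℤ)) = if i < r ∧ j' ≤ j then _ else (0 : ℤ)
      rw [if_neg h, if_neg h]
  rw [← hT, ← e1, ← e2, ← hRe] at a2
  rw [← hRe]
  rw [abs_le] at a1 a2 ⊢
  constructor <;> linarith [a1.1, a1.2, a2.1, a2.2]

end Pool.TW44
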