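import Pool.Agent.H44.V0P.S

/-!
# The gradient of a target over slope-one places, several followers, any label: statement

`folN`: the frame of the gradient. `GfrStmt`: the relative gradient of the place `i` in the
directions of the places below `k`, the places `k, …, i - 1` on their charts of the last window; the
label `GN` of the place `i` is near the chart of the first window.
-/

set_option autoImplicit false

namespace Pool.V0Q

open Finset Real MvPolynomial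
open Pool.Agent.H49.Ent Pool.Agent.H32.Dense Pool.STK Pool.KA Pool.KSAT Pool.K2S Pool.PB Pool.GEN
open Pool.S6C Pool.RCD Pool.LA91 Pool.CHT Pool.CHX Pool.ISO
open Pool.D2R (WinB gnh hgt hyb hybH chs)

/-- **The frame**: the charts of the window `kb` for the places below `k`, the charts of the window
`kn` for the followers `k, …, i - 1`, the label `GN` for the others. -/
def folN {m J : ℕ} {F : Fam m J} (G : ℕ → PtT F → ℕ → MvPolynomial (Option (Fin m)) ℝ)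
    (GN : PtT F → MvPolynomial (Option (Fin m)) ℝ) (kb kn k i : ℕ) :
    PtT F → ℕ → MvPolynomial (Option (Fin m)) ℝ := fun y l =>
  if l < k then G kb y l else if l < i then G kn y l else GN y

/-- **(GFR)** The relative gradient of the place `i`, followers `k, …, i - 1`, any label `GN` near
the chart of the first window. `S`: slope of the moved places, `b'`: lower slope of the followers and
of the target. -/
def GfrStmt : Prop := ∀ D D' r : ℕ, ∃ C : ℕ, 1 ≤ C ∧ ∀ {m J : ℕ} {F : Fam m J} {c : ℕ → Fin m}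
    {Dr N M : ℕ} {C₀ a Eb ηm : ℝ} {o η σ : ℕ → ℝ} {lv b : ℕ → ℕ → ℝ} {κ : ℝ}
    {z : ℕ → ℕ → ℕ} {B : F.Ω → Prop} {g₀ : ℕ → ℕ → ℕ}
    {G : ℕ → PtT F → ℕ → MvPolynomial (Option (Fin m)) ℝ}
    {H : ℕ → LnT F → ℕ → MvPolynomial (Option (Fin m)) ℝ}
    (_ : WinB F c r D Dr N M C₀ a Eb ηm o η σ lv b κ z B g₀ G H)
    {GN : PtT F → MvPolynomial (Option (Fin m)) ℝ} {κN : F.Ω → ℝ}
    {fb jb f jj : ℕ → ℕ} {k i nb n ks q X Y : ℕ} {S b' : ℝ}, k ≤ i → i ≤ r →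
    (∀ t ≤ nb, fb t ≤ N) →
    (∀ t < nb, jb t ≤ M ∧ z (fb t) (jb t) = ⌊o (fb (t + 1)) * J⌋₊ - ⌊o (fb t) * J⌋₊ ∧
      o (fb t) ≤ o (fb (t + 1))) → (nb : ℝ) ≤ 2 ^ Y →
    (∀ t ≤ nb, ∀ l < k, (lv (fb t) l - o (fb t) - (lv (fb nb) l - o (fb nb))) * J ≤ Y ∧
      (lv (fb nb) l - o (fb nb) - (lv (fb t) l - o (fb t))) * J ≤ Y) → f 0 = fb nb →
    Set.InjOn c (Set.Iio (r + 1)) → 1 ≤ n → (∀ t ≤ n, f t ≤ N) →
    (∀ t < n, jj t ≤ M ∧ z (f t) (jj t) = ⌊o (f (t + 1)) * J⌋₊ - ⌊o (f t) * J⌋₊ ∧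
      o (f t) ≤ o (f (t + 1))) →
    C₀ * (ηm * J) ≤ Y → 3 ≤ Y → (n : ℝ) ≤ 2 ^ Y → 0 ≤ S → S ≤ b' →
    (∀ t < n, ∀ l ≤ i, (lv (f (t + 1)) l - lv (f t) l) * J ≤ Y ∧
      (lv (f t) l - lv (f (t + 1)) l) * J ≤ Y) →
    (∀ t < n, b' * ((o (f (t + 1)) - o (f t)) * J) ≤ Y) →
    -- the slopes
    (∀ t t', t ≤ t' → t' ≤ n → ∀ l < k,
      (lv (f t') l - lv (f t) l) * J ≤ S * ((o (f t') - o (f t)) * J) + Y) →
    (∀ t t', t ≤ t' → t' ≤ n → ∀ l, k ≤ l → l ≤ i →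
      b' * ((o (f t') - o (f t)) * J) ≤ (lv (f t') l - lv (f t) l) * J + Y) →
    -- the label of the target
    (∀ y, (GN y).totalDegree ≤ D') → (∀ y, DepC c i (GN y)) →
    (∀ ω, B ω → ∀ x, NBx c (G (f 0) (ptr F J ω)) (g₀ (f 0)) ⌊o (f 0) * J⌋₊ (F.t ω) i x →
      |eval x (GN (ptr F J ω)) + κN ω - eval x (G (f 0) (ptr F J ω) i)| ≤
        2 ^ Y / 2 ^ g₀ (f 0) i) →
    -- the numbers
    S * ((o (f n) - o (f 0)) * J) + 3 ≤ q →
    (q : ℝ) + X ≤ b' * ((o (f n) - o (f 0)) * J) + Y → X ≤ q → ks ≤ n →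
    (X : ℝ) ≤ (b' - S) * ((o (f ks) - o (f 0)) * J) + Y →
    -- the bounds, also in the directions of the slower followers
    (∀ ω, B ω → ∀ j < i, (k ≤ j → ∀ t ≤ n,
        (lv (f t) j - lv (f 0) j) * J ≤ (lv (f t) i - lv (f 0) i) * J + Y) →
      |gnh F c i (g₀ (f 0)) (folN G GN (fb 0) (f n) k i) (G (f n)) ω j| ≤ 2 ^ (C * Y)) ∧
    ∀ ω ν, B ω → B ν → F.t ω = F.t ν → GN (ptr F J ω) = GN (ptr F J ν) →
      (∀ j < k, |hgt F c (folN G GN (fb 0) (f n) k i) ω j -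
        hgt F c (folN G GN (fb 0) (f n) k i) ν j| ≤ 2 ^ 2 / 2 ^ (g₀ (f 0) j + q)) →
      (∀ l < k, G (fb 0) (ptr F J ω) l = G (fb 0) (ptr F J ν) l) →
      ((∀ t ≤ ks, ∀ l ≤ i, G (f t) (ptr F J ω) l = G (f t) (ptr F J ν) l) → ∀ j < k,
        |gnh F c i (g₀ (f 0)) (folN G GN (fb 0) (f n) k i) (G (f n)) ω j -
          gnh F c i (g₀ (f 0)) (folN G GN (fb 0) (f n) k i) (G (f n)) ν j| ≤
            2 ^ (C * Y) / 2 ^ X) ∧
      ((∀ t ≤ n, ∀ l ≤ i, G (f t) (ptr F J ω) l = G (f t) (ptr F J ν) l) →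
        (∀ j < k, |gnh F c i (g₀ (f 0)) (folN G GN (fb 0) (f n) k i) (G (f n)) ω j -
          gnh F c i (g₀ (f 0)) (folN G GN (fb 0) (f n) k i) (G (f n)) ν j| ≤
            2 ^ (C * Y) / 2 ^ X) ∧
        |2 ^ (g₀ (f 0) i + q) * (hgt F c (folN G GN (fb 0) (f n) k i) ω i -
            hgt F c (folN G GN (fb 0) (f n) k i) ν i) -
          ∑ j ∈ range k,
            gnh F c i (g₀ (f 0)) (folN G GN (fb 0) (f n) k i) (G (f n)) ω j *
            (2 ^ (g₀ (f 0) j + q) * (hgt F c (folN G GN (fb 0) (f n) k i) ω j -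
              hgt F c (folN G GN (fb 0) (f n) k i) ν j))| ≤ 2 ^ (C * Y) / 2 ^ X)

end Pool.V0Q
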