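import Pool.Agent.H44.V0P.S2
import Pool.Agent.H44.V0F.S6
import Pool.Agent.H44.V0F.Evg

/-!
# Two places of one slope over slope-one places: the class theorem, statement

`frP`, `frH`: the charts of the earlier window for the slope-one places, the chart of the window `w`
for the place `c k`, any closed label for the place `c (k + 1)`. `V0cPStmt`: on a part of constant
mass the gradient of the last place minus a closed multiple of the gradient of `c k` is closed.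
-/

set_option autoImplicit false

namespace Pool.V0Q

open Finset Real MvPolynomial
open Pool.Agent.H49.Ent Pool.Agent.H32.Dense
open Pool.STK hiding pr2
open Pool.KA Pool.KSAT Pool.K2S Pool.PB Pool.S6C
open Pool.GEN Pool.CHT Pool.CHX Pool.ISO Pool.LA91 Pool.AVG71 Pool.AVG5 Pool.D2F2 Pool.AVG57
open Pool.RCD Pool.AVG96 Pool.OWN68 Pool.V0F
open Pool.AJW (CfB)
open Pool.D2R (WinB gnh hgt hyb)
open Pool.PB.Trl (rt)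

/-- **The frame**: charts of the window `kb` below `k`, chart of `kw` at `k`, the label `GN` above. -/
def frP {m J : ℕ} {F : Fam m J} (G : ℕ → PtT F → ℕ → MvPolynomial (Option (Fin m)) ℝ)
    (GN : PtT F → MvPolynomial (Option (Fin m)) ℝ) (kb kw k : ℕ) :
    PtT F → ℕ → MvPolynomial (Option (Fin m)) ℝ := fun y l =>
  if l < k then G kb y l else if l = k then G kw y l else GN y

/-- The frame from the line; `wb`, `w`: the two windows. -/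
def frH {m J : ℕ} {F : Fam m J} (H : ℕ → LnT F → ℕ → MvPolynomial (Option (Fin m)) ℝ)
    (HN : LnT F → MvPolynomial (Option (Fin m)) ℝ) (kb kw k wb w : ℕ) :
    LnT F → ℕ → MvPolynomial (Option (Fin m)) ℝ := fun s l =>
  if l < k then H kb (upw wb w s) l else if l = k then H kw s l else HN s

/-- **(V0CP)** The class theorem for a pair: slopes one below the place `k`, slope `s` of the places
`k`, `k + 1`; the unit `u`. The charts of the chain are those of the window `b`, the chart of the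
place `k` is that of `w`, the label `GN` of the last place is near the chart of `w`. -/
def V0cPStmt : Prop := ∀ (D D' k : ℕ) (s h κ₂ ζ : ℝ), 1 ≤ D → D ≤ D' → 1 ≤ k → 1 < s → 0 < h →
  h ≤ 1 → 0 < κ₂ → 0 < ζ → 4 * ζ + κ₂ < (s - 1) / s * (h ^ 2 / 16) →
  ∃ m₀ δ₀ T₀ : ℝ, 0 < m₀ ∧ 0 < δ₀ ∧ ∀ T : ℝ, T₀ ≤ T → ∃ Λ : ℝ, 1 ≤ Λ ∧ ∀ ι : ℝ, 0 < ι →
  ∃ φ₀ : ℝ, 0 < φ₀ ∧
  ∀ {m : ℕ} {S : PCl m} {c : ℕ → Fin m} {sn : ℕ → ℝ → ℝ} {G : Set ℝ} {b o φ : ℝ},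
    LadP S c k sn G b o φ → (range (k + 1)).image c = univ.erase (c (k + 1)) →
    ∀ {w u : ℝ} {lam : ℝ → ℝ} {sp : ℕ → ℝ → ℝ}, 0 < u → w ∈ G → φ ≤ φ₀ * u →
    -- the room
    b + Λ * u ≤ w → w + Λ * u ≤ o → o + Λ * u ≤ 1 → Λ * u ≤ b →
    (∀ l ≤ k + 1, Λ * u ≤ sn l b ∧ sn l o + Λ * u ≤ 1) →
    -- the levels of the targets, the digits of the position of the last place
    (∀ l, k ≤ l → l ≤ k + 1 → ∀ v ∈ G, b ≤ v → v ≤ o → |sn l v - sn l w - s * (v - w)| ≤ φ) →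
    (∀ v : ℝ, b ≤ v → v ≤ o → |lam v - sn (k + 1) w - s * (v - w)| ≤ φ) →
    -- the rows
    (∀ P₁ P₂ : ℝ, |P₁ - sn (k + 1) w| ≤ Λ * u → |P₂ - sn (k + 1) w| ≤ Λ * u → P₁ ≤ P₂ →
      RawN S (univ.erase (c (k + 1))) (c (k + 1)) P₁ (P₂ - P₁) h φ) →
    (∃ rk E : ℝ, rk < 1 ∧ 0 ≤ E ∧
      AttG S ((range (k + 1)).image c) (c (k + 1)) w (sn (k + 1) w) rk E ∧
      sn (k + 1) w + E + Λ * u ≤ 1) →
    -- free velocities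
    (∀ i < k, sp i b ≤ sn i b - φ) →
    (∀ (P : Fin k → ℚ) (w₁ : ℚ) (x' : ℝ), w ≤ w₁ → (w₁ : ℝ) ≤ w + φ → x' ∈ G → w₁ ≤ x' →
      x' ≤ w + Λ * u → (∀ i : Fin k, sn i w - w + u ≤ P i ∧ (P i : ℝ) ≤ sn i w - w + Λ * u) →
      (∀ l i : Fin k, l < i → (P i : ℝ) - (sn i w - w) + u / 2 ≤ P l - (sn l w - w)) →
      FrI S c k sp b (fun i => (P i : ℝ)) w₁ x' (φ₀ * u)) →
    -- no look-ahead
    (∀ w₁ v y : ℚ, w ≤ w₁ → w₁ ≤ v → v ≤ y → (y : ℝ) ≤ w + Λ * u →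
      NlI S (c (k + 1)) w₁ v (lam v) (lam y) (φ₀ * u)) →
    -- the records
    (∀ w₁ : ℚ, w ≤ w₁ → (w₁ : ℝ) ≤ w + φ →
      ∃ η : ℝ, RNum S (fun J F => ptr F J) (vg (w₁ : ℝ)) η) →
    -- the windows of the charts
    ∀ {Dr N M : ℕ} {C₀ a Eb ηm : ℝ} {ow η σ : ℕ → ℝ} {lv bb : ℕ → ℕ → ℝ} {fb f : ℕ → ℕ}
      {nb n ks : ℕ}, 1 ≤ n → ks ≤ n → (∀ t ≤ nb, fb t ≤ N) → (∀ t ≤ n, f t ≤ N) →
    f 0 = fb nb → ow (fb 0) = b → ow (f 0) = w → ow (f ks) ≤ ow (f n) →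
    |ow (f ks) - (w + u / s)| ≤ φ → |ow (f n) - (w + u)| ≤ φ →
    (∀ t ≤ nb, ow (fb t) ∈ G) → (∀ t ≤ n, ow (f t) ∈ G) →
    (∀ t < nb, ow (fb t) ≤ ow (fb (t + 1)) ∧ ow (fb (t + 1)) ≤ ow (fb t) + φ) →
    (∀ t < n, ow (f t) ≤ ow (f (t + 1)) ∧ ow (f (t + 1)) ≤ ow (f t) + φ) →
    (∀ t ≤ N, ∀ l ≤ k + 1, lv t l = sn l (ow t)) → C₀ * ηm ≤ φ →
    (∀ l ≤ k + 1, Eb + sn l w + Λ * u ≤ 1) →
    ∀ E : ℝ, Bas S (fun J F A => ∀ {κ : ℝ} {z : ℕ → ℕ → ℕ}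
      {g₀ : ℕ → ℕ → ℕ} {Gc : ℕ → PtT F → ℕ → MvPolynomial (Option (Fin m)) ℝ}
      {H : ℕ → LnT F → ℕ → MvPolynomial (Option (Fin m)) ℝ}
      {GN : PtT F → MvPolynomial (Option (Fin m)) ℝ}
      {HN : LnT F → MvPolynomial (Option (Fin m)) ℝ} {κN : F.Ω → ℝ},
      WinB F c (k + 1) D Dr N M C₀ a Eb ηm ow η σ lv bb κ z A g₀ Gc H →
      (∀ t < nb, ∃ j ≤ M, z (fb t) j = ⌊ow (fb (t + 1)) * J⌋₊ - ⌊ow (fb t) * J⌋₊) →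
      (∀ t < n, ∃ j ≤ M, z (f t) j = ⌊ow (f (t + 1)) * J⌋₊ - ⌊ow (f t) * J⌋₊) →
      (∃ jq ≤ M, ∃ jT ≤ M, (z (fb 0) jq : ℝ) ≤ u * J ∧ z (fb 0) jq + 1 ≤ z (fb 0) jT) →
      (∃ jq ≤ M, ∃ jT ≤ M, (z (f 0) jq : ℝ) ≤ u * J ∧ z (f 0) jq + 1 ≤ z (f 0) jT) →
      (∀ l < k, CfB F ⌊b * J⌋₊ E (c l) A (fun s => s) (fun s => H (fb 0) s l)) →
      CfB F ⌊w * J⌋₊ E (c k) A (fun s => s) (fun s => H (f 0) s k) →
      -- the label of the last place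
      CfB F ⌊w * J⌋₊ E (c (k + 1)) A (fun s => s) HN →
      (∀ ω, A ω → GN (ptr F J ω) = HN (slam F ⌊w * J⌋₊ ω)) →
      (∀ y, (GN y).totalDegree ≤ D') → (∀ s', (HN s').totalDegree ≤ D') →
      (∀ y, DepC c (k + 1) (GN y)) → (∀ s', DepC c (k + 1) (HN s')) →
      (∀ ω, A ω → |F.x ω (c (k + 1)) - eval (bt F ω) (GN (ptr F J ω))| ≤
        1 / 2 ^ ⌊(sn (k + 1) w - φ) * J⌋₊) →
      (∀ ω, A ω → ∀ x, NBx c (Gc (f 0) (ptr F J ω)) (g₀ (f 0)) ⌊ow (f 0) * J⌋₊ (F.t ω)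
        (k + 1) x → |eval x (GN (ptr F J ω)) + κN ω - eval x (Gc (f 0) (ptr F J ω) (k + 1))| ≤
          2 ^ (φ * J) / 2 ^ g₀ (f 0) (k + 1)) →
      (∀ ω ν, A ω → A ν → ptr F J ω = ptr F J ν → |(F.x ω (c (k + 1)) -
        eval (bt F ω) (GN (ptr F J ω))) - (F.x ν (c (k + 1)) - eval (bt F ν) (GN (ptr F J ν)))| ≤
          1 / 2 ^ ⌊(sn (k + 1) w + 3 * u) * J⌋₊) →
      -- the codes of the targets
      (∀ l, k ≤ l → l ≤ k + 1 → ∀ N' : ℕ, (N' : ℝ) ≤ (sn l w + (1 + (s - 1) / s) * u) * J →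
        CH (Pool.Agent.H49.Ent.cond F.p A True)
          (Pool.AVG57.cod F ⌊w * J⌋₊ (fun s' => frH H HN (fb 0) (f 0) k ⌊b * J⌋₊ ⌊w * J⌋₊ s' l)
            (c l) N' 1 (D' + 1))
          (fun ω => (jet2 F c ⌊w * J⌋₊ (frH H HN (fb 0) (f 0) k ⌊b * J⌋₊ ⌊w * J⌋₊) 0 k
            (fun l' j' => sn l' w + T * u - (j' : ℝ) * w) ω, (cR F A w ω, F.W ω))) ≤
          δ₀ * u * J) →
      (∀ l, k ≤ l → l ≤ k + 1 → ∀ N' : ℕ, (N' : ℝ) ≤ (sn l w + u) * J →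
        CH (Pool.Agent.H49.Ent.cond F.p A True)
          (Pool.AVG57.cod F ⌊w * J⌋₊ (fun s' => frH H HN (fb 0) (f 0) k ⌊b * J⌋₊ ⌊w * J⌋₊ s' l)
            (c l) N' 0 (D' + 1))
          (fun ω => (jet2 F c ⌊w * J⌋₊ (frH H HN (fb 0) (f 0) k ⌊b * J⌋₊ ⌊w * J⌋₊) 0 k
            (fun l' j' => sn l' w + u + 400 * ((k : ℝ) + 2) * φ - (j' : ℝ) * w) ω,
            (cR F A (ow (f n)) ω, F.W ω))) ≤ δ₀ * u * J) →
      (∀ ω, A ω → ∀ i < k, |gnh F c k (g₀ (f 0)) (hyb Gc (fb 0) (f 0) k) (Gc (f n)) ω i| ≤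
        2 ^ (ι * u * J)) ∧
      (∀ ω, A ω → ∀ i < k + 1, |gnh F c (k + 1) (g₀ (f 0)) (folN Gc GN (fb 0) (f n) k (k + 1))
        (Gc (f n)) ω i| ≤ 2 ^ (ι * u * J)) ∧
      (∀ ω ν, A ω → A ν → ptr F J ω = ptr F J ν → ∀ i < k,
        |gnh F c k (g₀ (f 0)) (hyb Gc (fb 0) (f 0) k) (Gc (f n)) ω i -
          gnh F c k (g₀ (f 0)) (hyb Gc (fb 0) (f 0) k) (Gc (f n)) ν i| ≤
          2 ^ (-((s - 1) / s / 2 * u * J)) ∧
        |gnh F c (k + 1) (g₀ (f 0)) (folN Gc GN (fb 0) (f n) k (k + 1)) (Gc (f n)) ω i -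
          gnh F c (k + 1) (g₀ (f 0)) (folN Gc GN (fb 0) (f n) k (k + 1)) (Gc (f n)) ν i| ≤
          2 ^ (-((s - 1) / s / 2 * u * J))) ∧
      ∃ (W : ℕ) (A' : F.Ω → Prop) (la : LnT F → ℝ) (laP : PtT F → ℝ)
        (mu : LnT F → ℕ → Polynomial ℝ), ⌊w * J⌋₊ ≤ W ∧ (W : ℝ) ≤ (w + 2 * φ) * J ∧
        Sub A' A ∧ m₀ * Pe F.p A ≤ Pe F.p A' ∧ (∀ s', |la s'| ≤ 2 ^ (ζ * u * J)) ∧
        (∀ s' i, (mu s' i).natDegree ≤ D' + 1) ∧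
        ∀ ω, A' ω → la (slam F W ω) = laP (ptr F J ω) ∧ ∀ i < k,
          |gnh F c (k + 1) (g₀ (f 0)) (folN Gc GN (fb 0) (f n) k (k + 1)) (Gc (f n)) ω i -
            la (slam F W ω) * gnh F c k (g₀ (f 0)) (hyb Gc (fb 0) (f 0) k) (Gc (f n)) ω i -
            (mu (slam F W ω) i).eval (rt F W ω)| ≤ 2 ^ (-(κ₂ * u * J)))

end Pool.V0Q
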