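import Pool.Agent.H44.V0P.Sml

/-!
# Two places of one slope over slope-one places, labels of both places: statement

`V0cLStmt`: the class theorem `V0cPStmt` in the letters of `V0cTStmt`: closed labels `LbT` of the
window `w` for both places, the frame `frT`, the gradients `ggT`. The pivot is the last place.
-/

set_option autoImplicit false

namespace Pool.V0Q

open Finset Real MvPolynomial
open Pool.Agent.H49.Ent Pool.Agent.H32.Dense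
open Pool.STK hiding pr2
open Pool.KA Pool.KSAT Pool.K2S Pool.PB Pool.S6C
open Pool.GEN Pool.CHT Pool.CHX Pool.ISO Pool.LA91 Pool.AVG71 Pool.AVG5 Pool.D2F2 Pool.AVG57
open Pool.RCD Pool.AVG96 Pool.OWN68 Pool.V0F
open Pool.V0T (LadT frT fhT ggT LbT)
open Pool.AJW (CfB)
open Pool.D2R (WinB)
open Pool.PB.Trl (rt)

/-- **(V0CL)** The class theorem for a pair, the pivot is the last place: slopes one below the place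
`k`, slope `s` of the places `k`, `k + 1`; the unit `u`. The charts of the slope-one places are those
of the window `b`, the labels `GN` of both targets are near the charts of `w`. -/
def V0cLStmt : Prop := ∀ (D D' k : ℕ) (s h κ₂ ζ : ℝ), 1 ≤ D → D ≤ D' → 1 ≤ k → 1 < s → 0 < h →
  h ≤ 1 → 0 < κ₂ → 0 < ζ → 4 * ζ + κ₂ < (s - 1) / s * (h ^ 2 / 16) →
  ∃ m₀ δ₀ T₀ : ℝ, 0 < m₀ ∧ 0 < δ₀ ∧ ∀ T : ℝ, T₀ ≤ T → ∃ Λ : ℝ, 1 ≤ Λ ∧ ∀ ι : ℝ, 0 < ι →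
  ∃ φ₀ : ℝ, 0 < φ₀ ∧
  ∀ {m : ℕ} {S : PCl m} {c : ℕ → Fin m} {sn : ℕ → ℝ → ℝ} {G : Set ℝ} {b o φ : ℝ},
    LadT S c k 1 sn G b o φ → (range (k + 1)).image c = univ.erase (c (k + 1)) →
    ∀ {w u : ℝ} {lam : ℝ → ℝ} {sp : ℕ → ℝ → ℝ}, 0 < u → w ∈ G → φ ≤ φ₀ * u →
    -- the room
    b + Λ * u ≤ w → w + Λ * u ≤ o → o + Λ * u ≤ 1 → Λ * u ≤ b →
    (∀ l ≤ k + 1, Λ * u ≤ sn l b ∧ sn l o + Λ * u ≤ 1) →
    -- the levels of the targets, the digits of the position of the last place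
    (∀ l, k ≤ l → l ≤ k + 1 → ∀ v ∈ G, b ≤ v → v ≤ o → |sn l v - sn l w - s * (v - w)| ≤ φ) →
    (∀ v : ℝ, b ≤ v → v ≤ o → |lam v - sn (k + 1) w - s * (v - w)| ≤ φ) →
    -- the rows
    (∀ P₁ P₂ : ℝ, |P₁ - sn (k + 1) w| ≤ Λ * u → |P₂ - sn (k + 1) w| ≤ Λ * u → P₁ ≤ P₂ →
      RawN S (univ.erase (c (k + 1))) (c (k + 1)) P₁ (P₂ - P₁) h φ) →
    (∃ rk E : ℝ, rk < 1 ∧ 0 ≤ E ∧
      AttG S ((range (k + 1)).image c) (c (k + 1)) w (sn (k + 1) w) rk E ∧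
      sn (k + 1) w + E + Λ * u ≤ 1) →
    -- free velocities
    (∀ i < k, sp i b ≤ sn i b - φ) →
    (∀ (P : Fin k → ℚ) (w₁ : ℚ) (x' : ℝ), w ≤ w₁ → (w₁ : ℝ) ≤ w + φ → x' ∈ G → w₁ ≤ x' →
      x' ≤ w + Λ * u → (∀ i : Fin k, sn i w - w + u ≤ P i ∧ (P i : ℝ) ≤ sn i w - w + Λ * u) →
      (∀ l i : Fin k, l < i → (P i : ℝ) - (sn i w - w) + u / 2 ≤ P l - (sn l w - w)) →
      FrI S c k sp b (fun i => (P i : ℝ)) w₁ x' (φ₀ * u)) →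
    -- no look-ahead
    (∀ w₁ v y : ℚ, w ≤ w₁ → w₁ ≤ v → v ≤ y → (y : ℝ) ≤ w + Λ * u →
      NlI S (c (k + 1)) w₁ v (lam v) (lam y) (φ₀ * u)) →
    -- the records
    (∀ w₁ : ℚ, w ≤ w₁ → (w₁ : ℝ) ≤ w + φ →
      ∃ η : ℝ, RNum S (fun J F => ptr F J) (vg (w₁ : ℝ)) η) →
    -- the windows of the charts
    ∀ {Dr N M : ℕ} {C₀ a Eb ηm : ℝ} {ow η σ : ℕ → ℝ} {lv bb : ℕ → ℕ → ℝ} {fb f : ℕ → ℕ}
      {nb n ks : ℕ}, 1 ≤ n → ks ≤ n → (∀ t ≤ nb, fb t ≤ N) → (∀ t ≤ n, f t ≤ N) →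
    f 0 = fb nb → ow (fb 0) = b → ow (f 0) = w → ow (f ks) ≤ ow (f n) →
    |ow (f ks) - (w + u / s)| ≤ φ → |ow (f n) - (w + u)| ≤ φ →
    (∀ t ≤ nb, ow (fb t) ∈ G) → (∀ t ≤ n, ow (f t) ∈ G) →
    (∀ t < nb, ow (fb t) ≤ ow (fb (t + 1)) ∧ ow (fb (t + 1)) ≤ ow (fb t) + φ) →
    (∀ t < n, ow (f t) ≤ ow (f (t + 1)) ∧ ow (f (t + 1)) ≤ ow (f t) + φ) →
    (∀ t ≤ N, ∀ l ≤ k + 1, lv t l = sn l (ow t)) → C₀ * ηm ≤ φ →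
    (∀ l ≤ k + 1, Eb + sn l w + Λ * u ≤ 1) →
    ∀ E : ℝ, Bas S (fun J F A => ∀ {κ : ℝ} {z : ℕ → ℕ → ℕ}
      {g₀ : ℕ → ℕ → ℕ} {Gc : ℕ → PtT F → ℕ → MvPolynomial (Option (Fin m)) ℝ}
      {H : ℕ → LnT F → ℕ → MvPolynomial (Option (Fin m)) ℝ}
      {GN : PtT F → ℕ → MvPolynomial (Option (Fin m)) ℝ}
      {HN : LnT F → ℕ → MvPolynomial (Option (Fin m)) ℝ},
      WinB F c (k + 1) D Dr N M C₀ a Eb ηm ow η σ lv bb κ z A g₀ Gc H →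
      (∀ t < nb, ∃ j ≤ M, z (fb t) j = ⌊ow (fb (t + 1)) * J⌋₊ - ⌊ow (fb t) * J⌋₊) →
      (∀ t < n, ∃ j ≤ M, z (f t) j = ⌊ow (f (t + 1)) * J⌋₊ - ⌊ow (f t) * J⌋₊) →
      (∃ jq ≤ M, ∃ jT ≤ M, (z (fb 0) jq : ℝ) ≤ u * J ∧ z (fb 0) jq + 1 ≤ z (fb 0) jT) →
      (∀ l < k, CfB F ⌊b * J⌋₊ E (c l) A (fun s => s) (fun s => H (fb 0) s l)) →
      -- the labels of the targets
      LbT F c k 1 D' w u φ E sn A (g₀ (f 0)) (Gc (f 0)) GN HN →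
      -- the codes of the targets
      (∀ l, k ≤ l → l ≤ k + 1 → ∀ N' : ℕ, (N' : ℝ) ≤ (sn l w + (1 + (s - 1) / s) * u) * J →
        CH (Pool.Agent.H49.Ent.cond F.p A True)
          (Pool.AVG57.cod F ⌊w * J⌋₊ (fun s' => HN s' l) (c l) N' 1 (D' + 1))
          (fun ω => (jet2 F c ⌊w * J⌋₊ (fhT H HN (fb 0) k ⌊b * J⌋₊ ⌊w * J⌋₊) 0 k
            (fun l' j' => sn l' w + T * u - (j' : ℝ) * w) ω, (cR F A w ω, F.W ω))) ≤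
          δ₀ * u * J) →
      (∀ l, k ≤ l → l ≤ k + 1 → ∀ N' : ℕ, (N' : ℝ) ≤ (sn l w + u) * J →
        CH (Pool.Agent.H49.Ent.cond F.p A True)
          (Pool.AVG57.cod F ⌊w * J⌋₊ (fun s' => HN s' l) (c l) N' 0 (D' + 1))
          (fun ω => (jet2 F c ⌊w * J⌋₊ (fhT H HN (fb 0) k ⌊b * J⌋₊ ⌊w * J⌋₊) 0 k
            (fun l' j' => sn l' w + u + 400 * ((k : ℝ) + 2) * φ - (j' : ℝ) * w) ω,
            (cR F A (ow (f n)) ω, F.W ω))) ≤ δ₀ * u * J) →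
      (∀ ω, A ω → ∀ l, k ≤ l → l ≤ k + 1 → ∀ i < l,
        |ggT F c k Gc GN (fb 0) (f n) (g₀ (f 0)) l ω i| ≤ 2 ^ (ι * u * J)) ∧
      (∀ ω ν, A ω → A ν → ptr F J ω = ptr F J ν → ∀ l, k ≤ l → l ≤ k + 1 → ∀ i < k,
        |ggT F c k Gc GN (fb 0) (f n) (g₀ (f 0)) l ω i -
          ggT F c k Gc GN (fb 0) (f n) (g₀ (f 0)) l ν i| ≤ 2 ^ (-((s - 1) / s / 2 * u * J))) ∧
      ∃ (W : ℕ) (A' : F.Ω → Prop) (la : LnT F → ℝ) (laP : PtT F → ℝ)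
        (mu : LnT F → ℕ → Polynomial ℝ), ⌊w * J⌋₊ ≤ W ∧ (W : ℝ) ≤ (w + 2 * φ) * J ∧
        Sub A' A ∧ m₀ * Pe F.p A ≤ Pe F.p A' ∧ (∀ s', |la s'| ≤ 2 ^ (ζ * u * J)) ∧
        (∀ s' i, (mu s' i).natDegree ≤ D' + 1) ∧
        ∀ ω, A' ω → la (slam F W ω) = laP (ptr F J ω) ∧ ∀ i < k,
          |ggT F c k Gc GN (fb 0) (f n) (g₀ (f 0)) (k + 1) ω i -
            la (slam F W ω) * ggT F c k Gc GN (fb 0) (f n) (g₀ (f 0)) k ω i -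
            (mu (slam F W ω) i).eval (rt F W ω)| ≤ 2 ^ (-(κ₂ * u * J)))

end Pool.V0Q
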