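import Pool.Agent.H44.V0P.Vda

/-!
# Chains of windows: the jets over slab labels

`ch_step`, `ch_chain`: jets over a chain of windows; the difference of two consecutive ones is known
up to the last digit. `SlN`: the windows of slab labels. `slab_lb`: the slab labels are closed labels.
-/

set_option autoImplicit false

namespace Pool.TW44

open Finset Real MvPolynomial
open Pool.Agent.H49.Ent Pool.Agent.H32.Dense Pool.STK Pool.KA Pool.KSAT Pool.K2S Pool.PB Pool.GEN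
open Pool.S6C Pool.RCD Pool.LA91 Pool.D2R Pool.NVT16
open Pool.BFL (Pb)
open Pool.AVG57 (upw upw_slam)
open Pool.GRD (LbP)

/-- **One step** of a chain. -/
theorem ch_step {Ω γ δ : Type} [Fintype Ω] {p : Ω → ℝ} (hp : IsLaw p) (Y : Ω → γ) (Z : Ω → δ)
    (X X' : Ω → ℝ) {N N' : ℝ} (Bad : Ω → Prop) {η M e : ℝ} (hη : Pb p Bad ≤ η) (hM : 0 ≤ M)
    (hN : N' ≤ N)
    (hc : (cnt p (fun ω => ⌊(2 : ℝ) ^ N' * X' ω⌋) (fun _ => True) : ℝ) ≤ Real.exp M)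
    (hZ : CH p Z Y ≤ e)
    (hs : ∀ ω ν, 0 < p ω → 0 < p ν → ¬ Bad ω → ¬ Bad ν → Y ω = Y ν → Z ω = Z ν →
      |(X' ω - X ω) - (X' ν - X ν)| ≤ 1 / 2 ^ N') :
    CH p (fun ω => ⌊(2 : ℝ) ^ N' * X' ω⌋) Y ≤ CH p (fun ω => ⌊(2 : ℝ) ^ N * X ω⌋) Y +
      (e + Real.log 2 + Real.log 7 + η * M) := by
  have h0 := hp.nonneg
  have hP : ∀ r : ℝ, (0 : ℝ) < 2 ^ r := fun r => Real.rpow_pos_of_pos (by norm_num) _
  have h1 := CH_le_add h0 (fun ω => ⌊(2 : ℝ) ^ N' * X' ω⌋) (fun ω => ⌊(2 : ℝ) ^ N * X ω⌋) Y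
  have h2 := CH_le_add h0 (fun ω => ⌊(2 : ℝ) ^ N' * X' ω⌋) Z
    (fun ω => (⌊(2 : ℝ) ^ N * X ω⌋, Y ω))
  have h3 : CH p Z (fun ω => (⌊(2 : ℝ) ^ N * X ω⌋, Y ω)) ≤ CH p Z Y :=
    CH_mono_cond h0 fun ω ν _ _ e => (Prod.ext_iff.mp e).2
  have h4 := ch_two hp (fun ω => (2 : ℝ) ^ N' * X' ω)
    (fun ω => (Z ω, (⌊(2 : ℝ) ^ N * X ω⌋, Y ω))) Bad (D := 2) hη hM (by norm_num) hc
    (fun ω ν hω hν hb hb' e => by
      simp only [Prod.mk.injEq] at e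
      obtain ⟨e1, e2, e3⟩ := e
      have k1 := hs ω ν hω hν hb hb' e3 e1
      have k2 : |X ω - X ν| ≤ 1 / 2 ^ N := Pool.AVG5.of_fl (hP N) e2
      have k3 : |X' ω - X' ν| ≤ 1 / 2 ^ N' + 1 / 2 ^ N := by
        rw [abs_le] at k1 k2 ⊢
        constructor <;> linarith [k1.1, k1.2, k2.1, k2.2]
      rw [← mul_sub, abs_mul, abs_of_pos (hP N')]
      refine (mul_le_mul_of_nonneg_left k3 (hP N').le).trans ?_
      have k4 : (2 : ℝ) ^ N' * (1 / 2 ^ N') = 1 := by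
        rw [mul_one_div, div_self (hP N').ne']
      have k5 : (2 : ℝ) ^ N' * (1 / 2 ^ N) ≤ 1 := by
        rw [mul_one_div, div_le_one (hP N)]
        exact Real.rpow_le_rpow_of_exponent_le (by norm_num) hN
      rw [mul_add]
      linarith)
  have e7 : (2 * (2 + 1) + 1 : ℝ) = 7 := by norm_num
  rw [e7] at h4
  linarith

/-- **A natural number** has few bits. -/
theorem ch_nat {Ω γ : Type} [Fintype Ω] {p : Ω → ℝ} (hp : IsLaw p) (Y : Ω → γ) (X : Ω → ℝ)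
    {N : ℝ} (Bad : Ω → Prop) {η M : ℝ} (hη : Pb p Bad ≤ η) (hM : 0 ≤ M)
    (hc : (cnt p (fun ω => ⌊(2 : ℝ) ^ N * X ω⌋) (fun _ => True) : ℝ) ≤ Real.exp M)
    (hs : ∀ ω, 0 < p ω → ¬ Bad ω → |X ω| ≤ 1 / 2 ^ N) :
    CH p (fun ω => ⌊(2 : ℝ) ^ N * X ω⌋) Y ≤ Real.log 2 + Real.log 7 + η * M := by
  have hP : (0 : ℝ) < 2 ^ N := Real.rpow_pos_of_pos (by norm_num) _
  have h4 := ch_two hp (fun ω => (2 : ℝ) ^ N * X ω) Y Bad (D := 2) hη hM (by norm_num) hc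
    (fun ω ν hω hν hb hb' e => by
      have k1 := hs ω hω hb
      have k2 := hs ν hν hb'
      have k3 : |X ω - X ν| ≤ 2 * (1 / 2 ^ N) := by
        rw [abs_le] at k1 k2 ⊢
        constructor <;> linarith [k1.1, k1.2, k2.1, k2.2]
      rw [← mul_sub, abs_mul, abs_of_pos hP]
      refine (mul_le_mul_of_nonneg_left k3 hP.le).trans (le_of_eq ?_)
      field_simp)
  have e7 : (2 * (2 + 1) + 1 : ℝ) = 7 := by norm_num
  rwa [e7] at h4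

/-- **A chain** of windows. -/
theorem ch_chain {Ω γ : Type} [Fintype Ω] {p : Ω → ℝ} (hp : IsLaw p) (Y : Ω → γ) {δ : ℕ → Type}
    (Z : ∀ t, Ω → δ t) (X : ℕ → Ω → ℝ) (N : ℕ → ℝ) (Bad : ℕ → Ω → Prop) {n : ℕ} {η M e a : ℝ}
    (hη : ∀ t < n, Pb p (Bad t) ≤ η) (hM : 0 ≤ M) (hN : ∀ t < n, N (t + 1) ≤ N t)
    (hc : ∀ t < n, (cnt p (fun ω => ⌊(2 : ℝ) ^ N (t + 1) * X (t + 1) ω⌋) (fun _ => True) : ℝ) ≤
      Real.exp M)
    (hZ : ∀ t < n, CH p (Z t) Y ≤ e)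
    (hs : ∀ t < n, ∀ ω ν, 0 < p ω → 0 < p ν → ¬ Bad t ω → ¬ Bad t ν → Y ω = Y ν → Z t ω = Z t ν →
      |(X (t + 1) ω - X t ω) - (X (t + 1) ν - X t ν)| ≤ 1 / 2 ^ N (t + 1))
    (ha : CH p (fun ω => ⌊(2 : ℝ) ^ N 0 * X 0 ω⌋) Y ≤ a) :
    CH p (fun ω => ⌊(2 : ℝ) ^ N n * X n ω⌋) Y ≤
      a + n * (e + Real.log 2 + Real.log 7 + η * M) := by
  have key : ∀ t ≤ n, CH p (fun ω => ⌊(2 : ℝ) ^ N t * X t ω⌋) Y ≤
      a + t * (e + Real.log 2 + Real.log 7 + η * M) := by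
    intro t
    induction t with
    | zero =>
      intro _
      rw [Nat.cast_zero, zero_mul, add_zero]
      exact ha
    | succ t ih =>
      intro ht
      have h1 := ch_step hp Y (Z t) (X t) (X (t + 1)) (Bad t) (hη t ht) hM (hN t ht) (hc t ht)
        (hZ t ht) (hs t ht)
      have h2 := ih (by omega)
      push_cast
      linarith
  exact key n le_rfl

/-- **The windows of slab labels**: the slope of the window `f 0`. -/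
structure SlN (k J N M n : ℕ) (C₀ ηm : ℝ) (ow : ℕ → ℝ) (lv : ℕ → ℕ → ℝ) (z : ℕ → ℕ → ℕ)
    (f : ℕ → ℕ) (y : ℝ) : Prop where
  fN : ∀ t ≤ n, f t ≤ N
  mo : ∀ t < n, ow (f t) ≤ ow (f (t + 1))
  zz : ∀ t < n, ∃ j ≤ M, z (f t) j = ⌊ow (f (t + 1)) * J⌋₊ - ⌊ow (f t) * J⌋₊
  C0 : C₀ * ηm ≤ y
  nJ : (n : ℝ) ≤ y * J
  s1 : ∀ t < n, ∀ l ≤ k + 1, lv (f (t + 1)) l ≤ lv (f t) l + y
  s2 : ∀ t ≤ n, ∀ t' ≤ n, t ≤ t' → ∀ l ≤ k + 1, lv (f t) l ≤ lv (f t') l + y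
  s3 : ∀ t ≤ n, ∀ t' ≤ n, t ≤ t' →
    lv (f t') (k + 1) + lv (f t) k ≤ lv (f t') k + lv (f t) (k + 1) + y

theorem SlN.mono_ow {k J N M n : ℕ} {C₀ ηm : ℝ} {ow : ℕ → ℝ} {lv : ℕ → ℕ → ℝ} {z : ℕ → ℕ → ℕ}
    {f : ℕ → ℕ} {y : ℝ} (h : SlN k J N M n C₀ ηm ow lv z f y) :
    ∀ t ≤ n, ∀ t' ≤ t, ow (f t') ≤ ow (f t) := by
  intro t
  induction t with
  | zero =>
    intro _ t' ht'
    obtain rfl : t' = 0 := by omega
    exact le_rfl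
  | succ t ih =>
    intro ht t' ht'
    rcases Nat.lt_or_ge t t' with h1 | h1
    · obtain rfl : t' = t + 1 := by omega
      exact le_rfl
    · exact (ih (by omega) t' h1).trans (h.mo t ht)

/-- **The slab labels** are closed labels. -/
theorem slab_lb (D k : ℕ) : ∃ C : ℕ, 1 ≤ C ∧ ∀ {m J : ℕ} {F : Fam m J} {c : ℕ → Fin m}
    {Dr N M : ℕ} {C₀ a Eb ηm : ℝ} {ow η σ : ℕ → ℝ} {lv bb : ℕ → ℕ → ℝ} {κ : ℝ} {z : ℕ → ℕ → ℕ}
    {A : F.Ω → Prop} {g₀ : ℕ → ℕ → ℕ} {G : ℕ → PtT F → ℕ → MvPolynomial (Option (Fin m)) ℝ}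
    {H : ℕ → LnT F → ℕ → MvPolynomial (Option (Fin m)) ℝ} {f : ℕ → ℕ} {n : ℕ} {y : ℝ},
    WinB F c (k + 1) D Dr N M C₀ a Eb ηm ow η σ lv bb κ z A g₀ G H →
    Set.InjOn c (Set.Iio (k + 2)) → SlN k J N M n C₀ ηm ow lv z f y → ∀ t ≤ n,
    ⌊ow (f t) * J⌋₊ ≤ J → ∀ P : ℕ, (P : ℝ) + C * (y * J + 1) ≤ g₀ (f t) (k + 1) →
    ∃ (z₁ : PtT F → {p : MvPolynomial (Option (Fin m)) ℝ // p.totalDegree ≤ D * D + D ∧
        DepC c (k + 1) p})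
      (z₂ : LnT F → {p : MvPolynomial (Option (Fin m)) ℝ // p.totalDegree ≤ D * D + D ∧
        DepC c (k + 1) p}),
      LbP F ((range (k + 1)).image c) (c (k + 1)) (D * D + D) J ⌊ow (f t) * J⌋₊ P A z₁ z₂
        Subtype.val ∧ (∀ x, (z₁ x).1 = slG c G k (f 0) (f t) x) ∧
      ∀ s, (z₂ s).1 = slH c H k (f 0) (f t) ⌊ow (f 0) * J⌋₊ ⌊ow (f t) * J⌋₊ s := by
  obtain ⟨C, hC, hnear⟩ := slab_near D k
  refine ⟨C + 1, by omega, ?_⟩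
  intro m J F c Dr N M C₀ a Eb ηm ow η σ lv bb κ z A g₀ G H f n y W hc hS t ht hWJ P hP
  have hJ0 : (0 : ℝ) ≤ J := Nat.cast_nonneg J
  have hft := hS.fN t ht
  have hf0 := hS.fN 0 (Nat.zero_le _)
  have hηm0 : 0 ≤ ηm := (W.hη _ hft).1.trans (W.hη _ hft).2
  have hy0 : 0 ≤ y := (hηm0.trans (le_mul_of_one_le_left hηm0 W.C1)).trans hS.C0
  have e0 := (W.ev (f 0) hf0).ball
  have et := (W.ev (f t) hft).ball
  have hcls : ∀ ω, A ω → slG c G k (f 0) (f t) (ptr F J ω) =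
      slH c H k (f 0) (f t) ⌊ow (f 0) * J⌋₊ ⌊ow (f t) * J⌋₊ (slam F ⌊ow (f t) * J⌋₊ ω) := by
    intro ω hω
    have h1 : ⌊ow (f 0) * (J : ℝ)⌋₊ ≤ ⌊ow (f t) * J⌋₊ := Nat.floor_le_floor
      (mul_le_mul_of_nonneg_right (hS.mono_ow t ht 0 (Nat.zero_le _)) hJ0)
    unfold slG slH
    rw [upw_slam F h1 hWJ, (W.ev (f 0) hf0).cls ω hω (k + 1) (by omega),
      (W.ev (f t) hft).cls ω hω (k + 1) (by omega), (W.ev (f t) hft).cls ω hω k (by omega)]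
  refine ⟨fun x => ⟨slG c G k (f 0) (f t) x, deg_slb' (e0.degG _ _) (et.degG _ _) (et.degG _ _),
      dep_slb (e0.depG _ _) (et.depG _ _) (et.depG _ _)⟩,
    fun s => ⟨slH c H k (f 0) (f t) ⌊ow (f 0) * J⌋₊ ⌊ow (f t) * J⌋₊ s,
      deg_slb' (e0.degH _ _) (et.degH _ _) (et.degH _ _),
      dep_slb (e0.depH _ _) (et.depH _ _) (et.depH _ _)⟩, ⟨fun v => v.2.1, fun v b b' h1 h2 =>
        v.2.2 b b' h1 fun l hl => h2 (c l) (Finset.mem_image_of_mem _ (Finset.mem_range.2 hl)),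
        fun ω hω => Subtype.ext (hcls ω hω), fun ω hω => ?_⟩, fun _ => rfl, fun _ => rfl⟩
  show |F.x ω (c (k + 1)) - eval (bt F ω) (slH c H k (f 0) (f t) ⌊ow (f 0) * J⌋₊
    ⌊ow (f t) * J⌋₊ (slam F ⌊ow (f t) * J⌋₊ ω))| ≤ 1 / 2 ^ P
  rw [← hcls ω hω]
  have hx : NBx c (G (f t) (ptr F J ω)) (g₀ (f t)) ⌊ow (f t) * J⌋₊ (F.t ω) (k + 1) (bt F ω) := by
    refine ⟨?_, fun l hl => et.pos ω hω l (by omega)⟩
    show |bt F ω none - bt F ω none| ≤ _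
    rw [sub_self, abs_zero]
    positivity
  have hnt : (t : ℝ) ≤ y * J := (by exact_mod_cast ht : (t : ℝ) ≤ n).trans hS.nJ
  have h1 := hnear (n := t) (y := y) W hc (fun i hi => hS.fN i (by omega))
    (fun i hi => hS.mo i (by omega)) (fun i hi => hS.zz i (by omega)) hS.C0 hnt
    (fun i hi l hl => hS.s1 i (by omega) l hl)
    (fun i hi i' hi' hii l hl => hS.s2 i (by omega) i' (by omega) hii l (by omega))
    (fun i hi => hS.s3 i (by omega) t ht hi) ω hω _ hx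
  have h2 := et.pos ω hω (k + 1) (by omega)
  obtain ⟨e, he⟩ : ∃ e : ℝ, e = y * J + 1 := ⟨_, rfl⟩
  have he1 : 1 ≤ e := by
    have : 0 ≤ y * J := mul_nonneg hy0 hJ0
    rw [he]
    linarith
  rw [← he] at h1 hP
  have hC1 : (1 : ℝ) ≤ C := by exact_mod_cast hC
  have hCe : (0 : ℝ) ≤ C * e := by positivity
  have h3 : |F.x ω (c (k + 1)) - eval (bt F ω) (slG c G k (f 0) (f t) (ptr F J ω))| ≤
      (2 : ℝ) ^ (C * e + 1) / 2 ^ g₀ (f t) (k + 1) := by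
    have h4 : (2 : ℝ) ^ (C * e + 1) = 2 ^ (C * e) + 2 ^ (C * e) := by
      rw [Real.rpow_add (by norm_num), Real.rpow_one]
      ring
    have h5 : (1 : ℝ) ≤ 2 ^ (C * e) := Real.one_le_rpow (by norm_num) hCe
    have h6 : (1 : ℝ) / 2 ^ g₀ (f t) (k + 1) ≤ 2 ^ (C * e) / 2 ^ g₀ (f t) (k + 1) :=
      div_le_div_of_nonneg_right h5 (by positivity)
    rw [h4, add_div]
    rw [abs_le] at h1 h2 ⊢
    constructor <;> linarith only [h1.1, h1.2, h2.1, h2.2, h6]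
  refine h3.trans ?_
  rw [div_le_div_iff₀ (by positivity) (by positivity), one_mul, ← Real.rpow_natCast,
    ← Real.rpow_natCast, ← Real.rpow_add (by norm_num)]
  refine Real.rpow_le_rpow_of_exponent_le (by norm_num) ?_
  push_cast at hP
  nlinarith

end Pool.TW44
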