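import Pool.Agent.H44.V0P.Slc

/-!
# The jets over slab labels on one event

`stp_ev`: one step, in exponents. `nj_up`: from an early window, where the jet is natural, to the window
`f n`. `nj_dn`: from a late window down to an earlier one.
-/

set_option autoImplicit false

namespace Pool.TW44

open Finset Real MvPolynomial
open Pool.Agent.H49.Ent Pool.Agent.H32.Dense Pool.STK Pool.KA Pool.KSAT Pool.K2S Pool.PB Pool.GEN
open Pool.S6C Pool.RCD Pool.LA91 Pool.D2R Pool.NVT16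
open Pool.BFL (Pb)
open Pool.AVG57 (upw upw_slam)
open Pool.GRD (LbP)

/-- The own jets of the slope-one places are natural. -/
def Own {m J : ℕ} (F : Fam m J) (c : ℕ → Fin m) (k i : ℕ) (v y : ℝ) (g : ℕ → ℕ)
    (H : LnT F → ℕ → MvPolynomial (Option (Fin m)) ℝ) (ω : F.Ω) : Prop :=
  ∀ l < k, ∀ j', 1 ≤ j' → j' ≤ i → |ojet F (c l) j' (H (slam F ⌊v * J⌋₊ ω) l) ω| ≤
    2 ^ ((y + j' * v) * J) * (1 / 2 ^ g l)

/-- **One step**, in exponents. -/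
theorem stp_ev (m k D i : ℕ) : ∃ Cq : ℕ, 1 ≤ Cq ∧ ∀ {y : ℝ}, 0 < y → ∃ J₀ : ℕ, ∀ {J : ℕ}
    {F : Fam m J} {c : ℕ → Fin m} {Dr N M : ℕ} {C₀ a Eb ηm : ℝ} {ow η σ : ℕ → ℝ}
    {lv bb : ℕ → ℕ → ℝ} {κ : ℝ} {z : ℕ → ℕ → ℕ} {A : F.Ω → Prop} {g₀ : ℕ → ℕ → ℕ}
    {G : ℕ → PtT F → ℕ → MvPolynomial (Option (Fin m)) ℝ}
    {H : ℕ → LnT F → ℕ → MvPolynomial (Option (Fin m)) ℝ} {f : ℕ → ℕ} {n : ℕ}, J₀ ≤ J →
    WinB F c (k + 1) D Dr N M C₀ a Eb ηm ow η σ lv bb κ z A g₀ G H →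
    Set.InjOn c (Set.Iio (k + 2)) → SlN k J N M n C₀ ηm ow lv z f y →
    ∀ t < n, 0 ≤ ow (f (t + 1)) → ow (f (t + 1)) < 1 → ∀ {ρ : ℝ} {n' : ℕ → ℝ}, y ≤ ρ →
      (∀ l < k, lv (f (t + 1)) l + ρ ≤ n' l) → ∀ {ν : ℝ},
      ν + Cq * y + i * ow (f (t + 1)) ≤ lv (f (t + 1)) (k + 1) + ρ →
      ∀ ω ω', A ω → A ω' → Own F c k i (ow (f (t + 1))) y (g₀ (f (t + 1))) (H (f (t + 1))) ω →
      Own F c k i (ow (f (t + 1))) y (g₀ (f (t + 1))) (H (f (t + 1))) ω' →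
      JtD F c k i ⌊ow (f (t + 1)) * J⌋₊ (H (f (t + 1)))
        (fun l j' => (n' l - (j' : ℝ) * ow (f (t + 1))) * J) ω ω' →
      slG c G k (f 0) (f t) (ptr F J ω) = slG c G k (f 0) (f t) (ptr F J ω') →
      slG c G k (f 0) (f (t + 1)) (ptr F J ω) = slG c G k (f 0) (f (t + 1)) (ptr F J ω') →
      |(ojet F (c (k + 1)) i (slG c G k (f 0) (f (t + 1)) (ptr F J ω)) ω -
          ojet F (c (k + 1)) i (slG c G k (f 0) (f t) (ptr F J ω)) ω) -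
        (ojet F (c (k + 1)) i (slG c G k (f 0) (f (t + 1)) (ptr F J ω')) ω' -
          ojet F (c (k + 1)) i (slG c G k (f 0) (f t) (ptr F J ω')) ω')| ≤
        1 / 2 ^ (ν * J) := by
  obtain ⟨C, Cs, hC, hCs, hstep⟩ := step_two m k D i
  obtain ⟨a₀, ha₀⟩ : ∃ a₀ : ℕ, C ≤ 2 ^ a₀ := by
    obtain ⟨a₀, h⟩ := pow_unbounded_of_one_lt C (by norm_num : (1 : ℝ) < 2)
    exact ⟨a₀, h.le⟩
  refine ⟨Cs + 2 + i, by omega, ?_⟩
  intro y hy
  obtain ⟨J₁, hJ₁⟩ := exists_nat_ge (((a₀ : ℝ) + Cs + 1 + 2 * i) / y)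
  obtain ⟨J₂, hJ₂⟩ := exists_nat_ge (((3 : ℝ) + i) / y)
  refine ⟨max (max J₁ J₂) 1, ?_⟩
  intro J F c Dr N M C₀ a Eb ηm ow η σ lv bb κ z A g₀ G H f n hJ W hc hS t ht hv0 hv1 ρ n' hρ hn' ν
    hν ω ω' hω hω' ho ho' hd hs0 hs1
  have hJ0 : (0 : ℝ) ≤ J := Nat.cast_nonneg J
  have hJpos : 0 < J := by
    have := (le_max_right _ _).trans hJ
    omega
  have hJ1 : (a₀ : ℝ) + Cs + 1 + 2 * i ≤ y * J := by
    have h1 : (J₁ : ℝ) ≤ J := by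
      exact_mod_cast (le_max_left _ _).trans ((le_max_left _ _).trans hJ)
    have h2 := hJ₁.trans h1
    rw [div_le_iff₀ hy] at h2
    linarith
  have hJ2 : (3 : ℝ) + i ≤ y * J := by
    have h1 : (J₂ : ℝ) ≤ J := by
      exact_mod_cast (le_max_right _ _).trans ((le_max_left _ _).trans hJ)
    have h2 := hJ₂.trans h1
    rw [div_le_iff₀ hy] at h2
    linarith
  obtain ⟨v, hv⟩ : ∃ v, v = ow (f (t + 1)) := ⟨_, rfl⟩
  obtain ⟨Wn, hWn⟩ : ∃ Wn, Wn = ⌊v * J⌋₊ := ⟨_, rfl⟩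
  have hft1 := hS.fN (t + 1) ht
  rw [← hv] at hv0 hv1 hν ho ho' hd
  have hWJ : Wn < J := by
    rw [hWn, Nat.floor_lt (by positivity)]
    have : (0 : ℝ) < J := by exact_mod_cast hJpos
    nlinarith
  have hW1 : (Wn : ℝ) ≤ v * J := by
    rw [hWn]
    exact Nat.floor_le (by positivity)
  have hW2 : v * J ≤ Wn + 1 := by
    rw [hWn]
    exact (Nat.lt_floor_add_one _).le
  have hP : ∀ r : ℝ, (0 : ℝ) < 2 ^ r := fun r => Real.rpow_pos_of_pos (by norm_num) _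
  have hpw : ∀ j : ℕ, (4 * 2 ^ Wn : ℝ) ^ j = 2 ^ ((j : ℝ) * (2 + Wn)) := fun j => by
    have h1 : (4 * 2 ^ Wn : ℝ) = 2 ^ ((2 : ℝ) + Wn) := by
      rw [Real.rpow_add (by norm_num), Real.rpow_natCast]
      norm_num
    rw [h1, ← Real.rpow_natCast, ← Real.rpow_mul (by norm_num)]
    congr 1
    ring
  have hg : ∀ l ≤ k + 1, lv (f (t + 1)) l * J - ηm * J ≤ (g₀ (f (t + 1)) l : ℝ) ∧
      (g₀ (f (t + 1)) l : ℝ) ≤ lv (f (t + 1)) l * J := fun l hl => by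
    obtain ⟨-, -, h1, h2⟩ := W.g_num hft1 hl
    exact ⟨h1, h2⟩
  have hηm0 : 0 ≤ ηm := (W.hη _ hft1).1.trans (W.hη _ hft1).2
  have hηy : ηm ≤ y := (le_mul_of_one_le_left hηm0 W.C1).trans hS.C0
  have hηyJ : ηm * J ≤ y * J := mul_le_mul_of_nonneg_right hηy hJ0
  have hρJ : y * J ≤ ρ * J := mul_le_mul_of_nonneg_right hρ hJ0
  have hi1 : (i : ℝ) + 1 ≤ 2 ^ (i : ℝ) := by
    rw [Real.rpow_natCast]
    have := Nat.lt_two_pow_self (n := i)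
    exact_mod_cast this
  have ht1 : ∀ r : ℝ, (1 : ℝ) / 2 ^ r = 2 ^ (-r) := fun r => by
    rw [Real.rpow_neg (by norm_num), one_div]
  have hgp : ∀ l, (1 : ℝ) / 2 ^ g₀ (f (t + 1)) l = 2 ^ (-(g₀ (f (t + 1)) l : ℝ)) := fun l => by
    rw [← ht1, Real.rpow_natCast]
  have key := hstep W hc hS.fN hS.mo hS.zz hS.C0 hS.nJ hS.s1 hS.s2 hS.s3 t ht
    (by rw [← hv, ← hWn]; exact hWJ) (Mo := 2 ^ (y * J)) (sg := 2 ^ (1 - ρ * J))
    (Nd := fun l j' => (n' l - (j' : ℝ) * v) * J)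
    (B := fun ω => A ω ∧ Own F c k i v y (g₀ (f (t + 1))) (H (f (t + 1))) ω)
    (Real.one_le_rpow (by norm_num) (by positivity)) (hP _) (by
      have h1 : (4 : ℝ) * (i + 1) * 2 ^ (1 - ρ * J) ≤ 2 ^ (2 : ℝ) * 2 ^ (i : ℝ) *
          2 ^ (1 - ρ * J) := by
        refine mul_le_mul_of_nonneg_right (mul_le_mul ?_ hi1 (by positivity) (by positivity))
          (hP _).le
        rw [show (2 : ℝ) ^ (2 : ℝ) = 4 by norm_num]
      refine h1.trans ?_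
      rw [← Real.rpow_add (by norm_num), ← Real.rpow_add (by norm_num)]
      refine Real.rpow_le_one_of_one_le_of_nonpos (by norm_num) ?_
      linarith) (fun ω h => h.1) (fun ω h l hl j' h1 h2 => by
      rw [← hv, ← hWn]
      have h3 := h.2 l hl j' h1 h2
      rw [← hWn] at h3
      refine h3.trans ?_
      have h4 : (2 : ℝ) ^ ((y + j' * v) * J) ≤ 2 ^ (y * J) * (4 * 2 ^ Wn) ^ j' := by
        rw [hpw, ← Real.rpow_add (by norm_num)]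
        refine Real.rpow_le_rpow_of_exponent_le (by norm_num) ?_
        have h5 : (j' : ℝ) * (v * J) ≤ j' * (2 + Wn) :=
          mul_le_mul_of_nonneg_left (by linarith) (Nat.cast_nonneg _)
        linarith
      calc (2 : ℝ) ^ ((y + j' * v) * J) * (1 / 2 ^ g₀ (f (t + 1)) l) ≤
          2 ^ (y * J) * (4 * 2 ^ Wn) ^ j' * (1 / 2 ^ g₀ (f (t + 1)) l) :=
            mul_le_mul_of_nonneg_right h4 (by positivity)
        _ = _ := by ring) (fun l hl j' hj' => by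
      rw [← hv, ← hWn, ht1, hgp, hpw]
      have h3 : (2 : ℝ) ^ (1 - ρ * J) * 2 ^ (-(g₀ (f (t + 1)) l : ℝ)) / 2 *
          2 ^ ((j' : ℝ) * (2 + Wn)) =
          2 ^ (-(ρ * J) + -(g₀ (f (t + 1)) l : ℝ) + (j' : ℝ) * (2 + Wn)) := by
        rw [Real.rpow_add (by norm_num), Real.rpow_add (by norm_num), Real.rpow_sub (by norm_num),
          Real.rpow_one, Real.rpow_neg (by norm_num) (ρ * J)]
        field_simp
      rw [h3]
      refine Real.rpow_le_rpow_of_exponent_le (by norm_num) ?_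
      have h4 := (hg l (by omega)).2
      have h5 : (lv (f (t + 1)) l + ρ) * J ≤ n' l * J :=
        mul_le_mul_of_nonneg_right (hn' l hl) hJ0
      have h6 : (j' : ℝ) * (v * J) ≤ j' * (2 + Wn) :=
        mul_le_mul_of_nonneg_left (by linarith) (Nat.cast_nonneg _)
      linarith) ω ω' ⟨hω, ho⟩ ⟨hω', ho'⟩ (by rw [← hv]; exact hd) hs0 hs1
  refine key.trans ?_
  rw [← hv, ← hWn, hpw, ht1]
  have e1 : ((2 : ℝ) ^ (y * J)) ^ i = 2 ^ ((i : ℝ) * (y * J)) := by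
    rw [← Real.rpow_natCast, ← Real.rpow_mul (by norm_num)]
    congr 1
    ring
  have e2 : (2 : ℝ) ^ (Cs * (y * J + 1)) / 2 ^ g₀ (f (t + 1)) (k + 1) =
      2 ^ (Cs * (y * J + 1) + -(g₀ (f (t + 1)) (k + 1) : ℝ)) := by
    rw [Real.rpow_add (by norm_num), ← hgp]
    ring
  have e3 : C ≤ (2 : ℝ) ^ (a₀ : ℝ) := by
    rw [Real.rpow_natCast]
    exact ha₀
  rw [e1, e2]
  calc C * 2 ^ ((i : ℝ) * (y * J)) * 2 ^ (Cs * (y * J + 1) + -(g₀ (f (t + 1)) (k + 1) : ℝ)) *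
        2 ^ (1 - ρ * J) * 2 ^ ((i : ℝ) * (2 + Wn))
      ≤ 2 ^ (a₀ : ℝ) * 2 ^ ((i : ℝ) * (y * J)) *
        2 ^ (Cs * (y * J + 1) + -(g₀ (f (t + 1)) (k + 1) : ℝ)) *
        2 ^ (1 - ρ * J) * 2 ^ ((i : ℝ) * (2 + Wn)) := by
        refine mul_le_mul_of_nonneg_right (mul_le_mul_of_nonneg_right (mul_le_mul_of_nonneg_right
          (mul_le_mul_of_nonneg_right e3 (hP _).le) (hP _).le) (hP _).le) (hP _).le
    _ = 2 ^ ((a₀ : ℝ) + (i : ℝ) * (y * J) + (Cs * (y * J + 1) +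
        -(g₀ (f (t + 1)) (k + 1) : ℝ)) + (1 - ρ * J) + (i : ℝ) * (2 + Wn)) := by
        rw [← Real.rpow_add (by norm_num), ← Real.rpow_add (by norm_num),
          ← Real.rpow_add (by norm_num), ← Real.rpow_add (by norm_num)]
    _ ≤ _ := by
        refine Real.rpow_le_rpow_of_exponent_le (by norm_num) ?_
        have h1 := (hg (k + 1) le_rfl).1
        have h2 : (ν + (Cs + 2 + i : ℕ) * y + i * v) * J ≤ (lv (f (t + 1)) (k + 1) + ρ) * J :=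
          mul_le_mul_of_nonneg_right hν hJ0
        have h3 : (i : ℝ) * Wn ≤ i * (v * J) := mul_le_mul_of_nonneg_left hW1 (Nat.cast_nonneg _)
        push_cast at h2
        linarith

/-- **Upwards**: from an early window, where the jet is natural. -/
theorem nj_up (m k D i : ℕ) : ∃ Cq : ℕ, 1 ≤ Cq ∧ ∀ {y : ℝ}, 0 < y → ∃ J₀ : ℕ, ∀ {J : ℕ}
    {F : Fam m J} {c : ℕ → Fin m} {Dr N M : ℕ} {C₀ a Eb ηm : ℝ} {ow η σ : ℕ → ℝ}
    {lv bb : ℕ → ℕ → ℝ} {κ : ℝ} {z : ℕ → ℕ → ℕ} {A : F.Ω → Prop} {g₀ : ℕ → ℕ → ℕ}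
    {G : ℕ → PtT F → ℕ → MvPolynomial (Option (Fin m)) ℝ}
    {H : ℕ → LnT F → ℕ → MvPolynomial (Option (Fin m)) ℝ} {f : ℕ → ℕ} {n : ℕ}, J₀ ≤ J →
    0 < Pe F.p A →
    WinB F c (k + 1) D Dr N M C₀ a Eb ηm ow η σ lv bb κ z A g₀ G H →
    Set.InjOn c (Set.Iio (k + 2)) → SlN k J N M n C₀ ηm ow lv z f y →
    (∀ t ≤ n, 0 ≤ ow (f t) ∧ ow (f t) < 1) →
    ∀ {γ : Type} (Y : F.Ω → γ) {t₁ : ℕ} {ρ ν : ℕ → ℝ} {n' : ℕ → ℕ → ℝ} {e η' Mc a' : ℝ}, t₁ ≤ n →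
    (∀ t ≤ n, y ≤ ρ t) → (∀ t ≤ n, ∀ l < k, lv (f t) l + ρ t ≤ n' t l) →
    (∀ t, t₁ ≤ t → t < n → ν (t + 1) ≤ ν t) →
    (∀ t, t₁ ≤ t → t ≤ n → ν t + Cq * y + i * ow (f t) ≤ lv (f t) (k + 1) + ρ t) →
    (∀ ω ν', A ω → A ν' → Y ω = Y ν' → F.T ω = F.T ν' ∧ ∀ t, t₁ ≤ t → t ≤ n →
      (∀ l < k, H (f t) (slam F ⌊ow (f t) * J⌋₊ ω) l = H (f t) (slam F ⌊ow (f t) * J⌋₊ ν') l) ∧
      slG c G k (f 0) (f t) (ptr F J ω) = slG c G k (f 0) (f t) (ptr F J ν')) →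
    (∀ t ≤ n, Pb (Pool.Agent.H49.Ent.cond F.p A True) (fun ω =>
      ¬ Own F c k i (ow (f t)) y (g₀ (f t)) (H (f t)) ω) ≤ η') → 0 ≤ Mc →
    (∀ t ≤ n, (cnt F.p (fun ω => ⌊(2 : ℝ) ^ (ν t * J) *
      ojet F (c (k + 1)) i (slG c G k (f 0) (f t) (ptr F J ω)) ω⌋) A : ℝ) ≤ Real.exp Mc) →
    (∀ t, t₁ < t → t ≤ n → CH (Pool.Agent.H49.Ent.cond F.p A True)
      (fun ω (x : Fin k × Fin (i + 1)) =>
        ⌊(2 : ℝ) ^ ((n' t x.1 - ((x.2 : ℕ) : ℝ) * ow (f t)) * J) *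
          ojet F (c x.1) x.2 (H (f t) (slam F ⌊ow (f t) * J⌋₊ ω) x.1) ω⌋) Y ≤ e) → 0 ≤ e →
    CH (Pool.Agent.H49.Ent.cond F.p A True) (fun ω => ⌊(2 : ℝ) ^ (ν t₁ * J) *
      ojet F (c (k + 1)) i (slG c G k (f 0) (f t₁) (ptr F J ω)) ω⌋) Y ≤ a' →
    CH (Pool.Agent.H49.Ent.cond F.p A True) (fun ω => ⌊(2 : ℝ) ^ (ν n * J) *
      ojet F (c (k + 1)) i (slG c G k (f 0) (f n) (ptr F J ω)) ω⌋) Y ≤
      a' + n * (e + Real.log 2 + Real.log 7 + η' * Mc) := by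
  obtain ⟨Cq, hCq, hst⟩ := stp_ev m k D i
  refine ⟨Cq, hCq, ?_⟩
  intro y hy
  obtain ⟨J₀, hJ₀⟩ := hst hy
  refine ⟨J₀, ?_⟩
  intro J F c Dr N M C₀ a Eb ηm ow η σ lv bb κ z A g₀ G H f n hJ hA W hc hS how γ Y t₁ ρ ν n' e η'
    Mc a' ht₁ hρ hn' hν1 hν hY hbad hMc hcnt hdat he hst0
  have hcl := isLaw_cond F.isLaw hA
  have h0 := hcl.nonneg
  have hJ0 : (0 : ℝ) ≤ J := Nat.cast_nonneg J
  obtain ⟨X, hX⟩ : ∃ X : ℕ → F.Ω → ℝ, X = fun s ω =>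
    ojet F (c (k + 1)) i (slG c G k (f 0) (f (t₁ + s)) (ptr F J ω)) ω := ⟨_, rfl⟩
  have key := ch_chain hcl Y (δ := fun _ => Fin k × Fin (i + 1) → ℤ) (fun s ω x =>
      ⌊(2 : ℝ) ^ ((n' (t₁ + s + 1) x.1 - ((x.2 : ℕ) : ℝ) * ow (f (t₁ + s + 1))) * J) *
        ojet F (c x.1) x.2 (H (f (t₁ + s + 1)) (slam F ⌊ow (f (t₁ + s + 1)) * J⌋₊ ω) x.1) ω⌋)
    X (fun s => ν (t₁ + s) * J) (fun s ω => ¬ Own F c k i (ow (f (t₁ + s + 1))) y
      (g₀ (f (t₁ + s + 1))) (H (f (t₁ + s + 1))) ω) (n := n - t₁) (η := η') (M := Mc) (e := e)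
    (a := a') (fun s hs => hbad _ (by omega)) hMc
    (fun s hs => mul_le_mul_of_nonneg_right (hν1 (t₁ + s) (by omega) (by omega)) hJ0)
    (fun s hs => by
      have h1 := cnt_cond_le F.isLaw (fun ω => ⌊(2 : ℝ) ^ (ν (t₁ + (s + 1)) * J) *
        ojet F (c (k + 1)) i (slG c G k (f 0) (f (t₁ + (s + 1))) (ptr F J ω)) ω⌋) A
      have h2 := hcnt (t₁ + (s + 1)) (by omega)
      rw [hX]
      exact le_trans (by exact_mod_cast h1) h2)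
    (fun s hs => hdat (t₁ + s + 1) (by omega) (by omega)) (fun s hs ω ν' hω hν' hb hb' hYe hZe => by
      have hωA : A ω := of_cond_pos hω
      have hνA : A ν' := of_cond_pos hν'
      have hb1 := not_not.1 hb
      have hb2 := not_not.1 hb'
      obtain ⟨y1, y2⟩ := hY ω ν' hωA hνA hYe
      have k1 := (y2 (t₁ + s) (by omega) (by omega)).2
      obtain ⟨k2, k3⟩ := y2 (t₁ + s + 1) (by omega) (by omega)
      have h1 := hJ₀ hJ W hc hS (t₁ + s) (by omega) (how _ (by omega)).1 (how _ (by omega)).2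
        (ρ := ρ (t₁ + s + 1)) (n' := n' (t₁ + s + 1)) (hρ _ (by omega))
        (hn' (t₁ + s + 1) (by omega)) (ν := ν (t₁ + s + 1))
        (hν (t₁ + s + 1) (by omega) (by omega)) ω ν' hωA hνA hb1 hb2 ⟨y1, k2, fun l hl j' hj' => by
          have h3 := congrFun hZe (⟨l, hl⟩, ⟨j', Nat.lt_succ_of_le hj'⟩)
          exact h3⟩ k1 k3
      rw [hX]
      exact h1) (by
      rw [hX]
      exact hst0)
  have e1 : t₁ + (n - t₁) = n := by omega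
  rw [hX] at key
  simp only [e1] at key
  refine key.trans ?_
  have hbr : 0 ≤ e + Real.log 2 + Real.log 7 + η' * Mc := by
    have h2 : 0 ≤ η' := by
      refine le_trans ?_ (hbad n le_rfl)
      unfold Pb
      exact Finset.sum_nonneg fun ω _ => by
        split_ifs
        · exact h0 ω
        · exact le_rfl
    have h3 : 0 ≤ Real.log 2 := Real.log_nonneg (by norm_num)
    have h4 : 0 ≤ Real.log 7 := Real.log_nonneg (by norm_num)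
    positivity
  have h5 : ((n - t₁ : ℕ) : ℝ) ≤ n := by exact_mod_cast Nat.sub_le n t₁
  have h6 := mul_le_mul_of_nonneg_right h5 hbr
  linarith

/-- **Downwards**: from a late window to an earlier one. -/
theorem nj_dn (m k D i : ℕ) : ∃ Cq : ℕ, 1 ≤ Cq ∧ ∀ {y : ℝ}, 0 < y → ∃ J₀ : ℕ, ∀ {J : ℕ}
    {F : Fam m J} {c : ℕ → Fin m} {Dr N M : ℕ} {C₀ a Eb ηm : ℝ} {ow η σ : ℕ → ℝ}
    {lv bb : ℕ → ℕ → ℝ} {κ : ℝ} {z : ℕ → ℕ → ℕ} {A : F.Ω → Prop} {g₀ : ℕ → ℕ → ℕ}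
    {G : ℕ → PtT F → ℕ → MvPolynomial (Option (Fin m)) ℝ}
    {H : ℕ → LnT F → ℕ → MvPolynomial (Option (Fin m)) ℝ} {f : ℕ → ℕ} {n : ℕ}, J₀ ≤ J →
    0 < Pe F.p A →
    WinB F c (k + 1) D Dr N M C₀ a Eb ηm ow η σ lv bb κ z A g₀ G H →
    Set.InjOn c (Set.Iio (k + 2)) → SlN k J N M n C₀ ηm ow lv z f y →
    (∀ t ≤ n, 0 ≤ ow (f t) ∧ ow (f t) < 1) →
    ∀ {γ : Type} (Y : F.Ω → γ) {t₁ : ℕ} {ρ : ℕ → ℝ} {ν : ℝ} {n' : ℕ → ℕ → ℝ} {e η' Mc a' : ℝ},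
    t₁ ≤ n → (∀ t, t₁ < t → t ≤ n → y ≤ ρ t) →
    (∀ t, t₁ < t → t ≤ n → ∀ l < k, lv (f t) l + ρ t ≤ n' t l) →
    (∀ t, t₁ < t → t ≤ n → ν + Cq * y + i * ow (f t) ≤ lv (f t) (k + 1) + ρ t) →
    (∀ ω ν', A ω → A ν' → Y ω = Y ν' → F.T ω = F.T ν' ∧ ∀ t, t₁ ≤ t → t ≤ n →
      (∀ l < k, H (f t) (slam F ⌊ow (f t) * J⌋₊ ω) l = H (f t) (slam F ⌊ow (f t) * J⌋₊ ν') l) ∧
      slG c G k (f 0) (f t) (ptr F J ω) = slG c G k (f 0) (f t) (ptr F J ν')) →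
    (∀ t ≤ n, Pb (Pool.Agent.H49.Ent.cond F.p A True) (fun ω =>
      ¬ Own F c k i (ow (f t)) y (g₀ (f t)) (H (f t)) ω) ≤ η') → 0 ≤ Mc →
    (∀ t ≤ n, (cnt F.p (fun ω => ⌊(2 : ℝ) ^ (ν * J) *
      ojet F (c (k + 1)) i (slG c G k (f 0) (f t) (ptr F J ω)) ω⌋) A : ℝ) ≤ Real.exp Mc) →
    (∀ t, t₁ < t → t ≤ n → CH (Pool.Agent.H49.Ent.cond F.p A True)
      (fun ω (x : Fin k × Fin (i + 1)) =>
        ⌊(2 : ℝ) ^ ((n' t x.1 - ((x.2 : ℕ) : ℝ) * ow (f t)) * J) *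
          ojet F (c x.1) x.2 (H (f t) (slam F ⌊ow (f t) * J⌋₊ ω) x.1) ω⌋) Y ≤ e) → 0 ≤ e →
    CH (Pool.Agent.H49.Ent.cond F.p A True) (fun ω => ⌊(2 : ℝ) ^ (ν * J) *
      ojet F (c (k + 1)) i (slG c G k (f 0) (f n) (ptr F J ω)) ω⌋) Y ≤ a' →
    CH (Pool.Agent.H49.Ent.cond F.p A True) (fun ω => ⌊(2 : ℝ) ^ (ν * J) *
      ojet F (c (k + 1)) i (slG c G k (f 0) (f t₁) (ptr F J ω)) ω⌋) Y ≤
      a' + n * (e + Real.log 2 + Real.log 7 + η' * Mc) := by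
  obtain ⟨Cq, hCq, hst⟩ := stp_ev m k D i
  refine ⟨Cq, hCq, ?_⟩
  intro y hy
  obtain ⟨J₀, hJ₀⟩ := hst hy
  refine ⟨J₀, ?_⟩
  intro J F c Dr N M C₀ a Eb ηm ow η σ lv bb κ z A g₀ G H f n hJ hA W hc hS how γ Y t₁ ρ ν n' e η'
    Mc a' ht₁ hρ hn' hν hY hbad hMc hcnt hdat he hst0
  have hcl := isLaw_cond F.isLaw hA
  have h0 := hcl.nonneg
  have hJ0 : (0 : ℝ) ≤ J := Nat.cast_nonneg J
  obtain ⟨X, hX⟩ : ∃ X : ℕ → F.Ω → ℝ, X = fun s ω =>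
    ojet F (c (k + 1)) i (slG c G k (f 0) (f (n - s)) (ptr F J ω)) ω := ⟨_, rfl⟩
  have key := ch_chain hcl Y (δ := fun _ => Fin k × Fin (i + 1) → ℤ) (fun s ω x =>
      ⌊(2 : ℝ) ^ ((n' (n - s) x.1 - ((x.2 : ℕ) : ℝ) * ow (f (n - s))) * J) *
        ojet F (c x.1) x.2 (H (f (n - s)) (slam F ⌊ow (f (n - s)) * J⌋₊ ω) x.1) ω⌋)
    X (fun _ => ν * J) (fun s ω => ¬ Own F c k i (ow (f (n - s))) y
      (g₀ (f (n - s))) (H (f (n - s))) ω) (n := n - t₁) (η := η') (M := Mc) (e := e)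
    (a := a') (fun s hs => hbad _ (by omega)) hMc (fun s hs => le_rfl)
    (fun s hs => by
      have h1 := cnt_cond_le F.isLaw (fun ω => ⌊(2 : ℝ) ^ (ν * J) *
        ojet F (c (k + 1)) i (slG c G k (f 0) (f (n - (s + 1))) (ptr F J ω)) ω⌋) A
      have h2 := hcnt (n - (s + 1)) (by omega)
      rw [hX]
      exact le_trans (by exact_mod_cast h1) h2)
    (fun s hs => hdat (n - s) (by omega) (by omega)) (fun s hs ω ν' hω hν' hb hb' hYe hZe => by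
      have hωA : A ω := of_cond_pos hω
      have hνA : A ν' := of_cond_pos hν'
      have hb1 := not_not.1 hb
      have hb2 := not_not.1 hb'
      obtain ⟨y1, y2⟩ := hY ω ν' hωA hνA hYe
      have k1 := (y2 (n - (s + 1)) (by omega) (by omega)).2
      obtain ⟨k2, k3⟩ := y2 (n - s) (by omega) (by omega)
      have es : n - s = n - (s + 1) + 1 := by omega
      rw [es] at k2 k3 hb1 hb2
      have h1 := hJ₀ hJ W hc hS (n - (s + 1)) (by omega) (how _ (by omega)).1 (how _ (by omega)).2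
        (ρ := ρ (n - s)) (n' := n' (n - s)) (hρ _ (by omega) (by omega))
        (by
          have := hn' (n - s) (by omega) (by omega)
          rw [es] at this ⊢
          exact this) (ν := ν)
        (by
          have := hν (n - s) (by omega) (by omega)
          rw [es] at this ⊢
          exact this) ω ν' hωA hνA hb1 hb2 ⟨y1, k2, fun l hl j' hj' => by
          have h3 := congrFun hZe (⟨l, hl⟩, ⟨j', Nat.lt_succ_of_le hj'⟩)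
          rw [es] at h3 ⊢
          exact h3⟩ k1 k3
      rw [hX]
      show |(ojet F (c (k + 1)) i (slG c G k (f 0) (f (n - (s + 1))) (ptr F J ω)) ω -
          ojet F (c (k + 1)) i (slG c G k (f 0) (f (n - s)) (ptr F J ω)) ω) -
        (ojet F (c (k + 1)) i (slG c G k (f 0) (f (n - (s + 1))) (ptr F J ν')) ν' -
          ojet F (c (k + 1)) i (slG c G k (f 0) (f (n - s)) (ptr F J ν')) ν')| ≤ _
      rw [es]
      rw [abs_le] at h1 ⊢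
      constructor <;> linarith [h1.1, h1.2]) (by
      rw [hX]
      exact hst0)
  have e1 : n - (n - t₁) = t₁ := by omega
  rw [hX] at key
  simp only [e1] at key
  refine key.trans ?_
  have hbr : 0 ≤ e + Real.log 2 + Real.log 7 + η' * Mc := by
    have h2 : 0 ≤ η' := by
      refine le_trans ?_ (hbad n le_rfl)
      unfold Pb
      exact Finset.sum_nonneg fun ω _ => by
        split_ifs
        · exact h0 ω
        · exact le_rfl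
    have h3 : 0 ≤ Real.log 2 := Real.log_nonneg (by norm_num)
    have h4 : 0 ≤ Real.log 7 := Real.log_nonneg (by norm_num)
    positivity
  have h5 : ((n - t₁ : ℕ) : ℝ) ≤ n := by exact_mod_cast Nat.sub_le n t₁
  have h6 := mul_le_mul_of_nonneg_right h5 hbr
  linarith

end Pool.TW44
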