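import Pool.Agent.H44.V0P.Sls
import Pool.Agent.H44.V0P.Rjt

/-!
# The own jets over slab labels, along windows

`ch_two`: a number which is determined up to a bounded error outside a small event. `step_two`: one
step between the slab labels of two windows, at two points with the same data.
-/

set_option autoImplicit false

namespace Pool.TW44

open Finset Real MvPolynomial
open Pool.Agent.H49.Ent Pool.Agent.H32.Dense Pool.STK Pool.KA Pool.KSAT Pool.K2S Pool.PB Pool.GEN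
open Pool.S6C Pool.RCD Pool.LA91 Pool.D2R Pool.NVT16
open Pool.BFL (Pb)
open Pool.AVG57 (upw upw_slam)

/-- **A number determined up to a bounded error** outside an event of small probability. -/
theorem ch_two {Ω γ : Type} [Fintype Ω] {p : Ω → ℝ} (hp : IsLaw p) (f : Ω → ℝ) (W : Ω → γ)
    (Bad : Ω → Prop) {η M D : ℝ} (hη : Pb p Bad ≤ η) (hM : 0 ≤ M) (hD : 0 ≤ D)
    (hc : (cnt p (fun ω => ⌊f ω⌋) (fun _ => True) : ℝ) ≤ Real.exp M)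
    (hg : ∀ ω ν, 0 < p ω → 0 < p ν → ¬ Bad ω → ¬ Bad ν → W ω = W ν → |f ω - f ν| ≤ D) :
    CH p (fun ω => ⌊f ω⌋) W ≤ Real.log 2 + Real.log (2 * (D + 1) + 1) + η * M := by
  classical
  obtain ⟨κ, hκ⟩ : ∃ κ : γ → ℝ, κ = fun g => if h : ∃ ω, 0 < p ω ∧ ¬ Bad ω ∧ W ω = g then
    f h.choose else 0 := ⟨_, rfl⟩
  refine CH_near hp (fun ω => ⌊f ω⌋) W κ Bad hη hM (by linarith) hc fun ω hω hb => ?_
  have hex : ∃ ν, 0 < p ν ∧ ¬ Bad ν ∧ W ν = W ω := ⟨ω, hω, hb, rfl⟩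
  have h1 := hex.choose_spec
  have e1 : κ (W ω) = f hex.choose := by
    rw [hκ]
    exact dif_pos hex
  rw [e1]
  have h2 := hg ω hex.choose hω h1.1 hb h1.2.1 h1.2.2.symm
  have h3 := Int.floor_le (f ω)
  have h4 := Int.lt_floor_add_one (f ω)
  rw [abs_le] at h2 ⊢
  constructor <;> linarith [h2.1, h2.2]

/-- **One step** between the slab labels of two windows. -/
theorem step_two (m k D i : ℕ) : ∃ (C : ℝ) (Cs : ℕ), 1 ≤ C ∧ 1 ≤ Cs ∧ ∀ {J : ℕ} {F : Fam m J}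
    {c : ℕ → Fin m} {Dr N M : ℕ} {C₀ a Eb ηm : ℝ} {ow η σ : ℕ → ℝ} {lv bb : ℕ → ℕ → ℝ} {κ : ℝ}
    {z : ℕ → ℕ → ℕ} {A : F.Ω → Prop} {g₀ : ℕ → ℕ → ℕ}
    {G : ℕ → PtT F → ℕ → MvPolynomial (Option (Fin m)) ℝ}
    {H : ℕ → LnT F → ℕ → MvPolynomial (Option (Fin m)) ℝ} {f : ℕ → ℕ} {n : ℕ} {y : ℝ},
    WinB F c (k + 1) D Dr N M C₀ a Eb ηm ow η σ lv bb κ z A g₀ G H →
    Set.InjOn c (Set.Iio (k + 2)) → (∀ t ≤ n, f t ≤ N) → (∀ t < n, ow (f t) ≤ ow (f (t + 1))) →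
    (∀ t < n, ∃ j ≤ M, z (f t) j = ⌊ow (f (t + 1)) * J⌋₊ - ⌊ow (f t) * J⌋₊) →
    C₀ * ηm ≤ y → (n : ℝ) ≤ y * J →
    (∀ t < n, ∀ l ≤ k + 1, lv (f (t + 1)) l ≤ lv (f t) l + y) →
    (∀ t ≤ n, ∀ t' ≤ n, t ≤ t' → ∀ l ≤ k + 1, lv (f t) l ≤ lv (f t') l + y) →
    (∀ t ≤ n, ∀ t' ≤ n, t ≤ t' →
      lv (f t') (k + 1) + lv (f t) k ≤ lv (f t') k + lv (f t) (k + 1) + y) →
    ∀ t < n, ⌊ow (f (t + 1)) * J⌋₊ < J → ∀ {Mo sg : ℝ} {Nd : ℕ → ℕ → ℝ} {B : F.Ω → Prop},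
      1 ≤ Mo → 0 < sg → 4 * ((i : ℝ) + 1) * sg ≤ 1 → (∀ ω, B ω → A ω) →
      (∀ ω, B ω → ∀ l < k, ∀ j', 1 ≤ j' → j' ≤ i →
        |ojet F (c l) j' (H (f (t + 1)) (slam F ⌊ow (f (t + 1)) * J⌋₊ ω) l) ω| ≤
          Mo * (1 / 2 ^ g₀ (f (t + 1)) l) * (4 * 2 ^ ⌊ow (f (t + 1)) * J⌋₊) ^ j') →
      (∀ l < k, ∀ j' ≤ i, 1 / (2 : ℝ) ^ Nd l j' ≤ sg * (1 / 2 ^ g₀ (f (t + 1)) l) / 2 *
        (4 * 2 ^ ⌊ow (f (t + 1)) * J⌋₊) ^ j') →
      ∀ ω ν, B ω → B ν → JtD F c k i ⌊ow (f (t + 1)) * J⌋₊ (H (f (t + 1))) Nd ω ν →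
      slG c G k (f 0) (f t) (ptr F J ω) = slG c G k (f 0) (f t) (ptr F J ν) →
      slG c G k (f 0) (f (t + 1)) (ptr F J ω) = slG c G k (f 0) (f (t + 1)) (ptr F J ν) →
      |(ojet F (c (k + 1)) i (slG c G k (f 0) (f (t + 1)) (ptr F J ω)) ω -
          ojet F (c (k + 1)) i (slG c G k (f 0) (f t) (ptr F J ω)) ω) -
        (ojet F (c (k + 1)) i (slG c G k (f 0) (f (t + 1)) (ptr F J ν)) ν -
          ojet F (c (k + 1)) i (slG c G k (f 0) (f t) (ptr F J ν)) ν)| ≤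
        C * Mo ^ i * (2 ^ (Cs * (y * J + 1)) / 2 ^ g₀ (f (t + 1)) (k + 1)) * sg *
          (4 * 2 ^ ⌊ow (f (t + 1)) * J⌋₊) ^ i := by
  obtain ⟨Cs, hCs, hstep⟩ := slab_step D k
  obtain ⟨C, hC, hr⟩ := rjet_two m k (D * D + D) D i
  refine ⟨C, Cs, hC, hCs, ?_⟩
  intro J F c Dr N M C₀ a Eb ηm ow η σ lv bb κ z A g₀ G H f n y W hc hf how hz hηy hny hs1 hs2 hs3
    t ht hWJ Mo sg Nd B hMo hsg hsg1 hBA hown hNd ω ν hω hν hd hS0 hS1
  have hJ0 : (0 : ℝ) ≤ J := Nat.cast_nonneg J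
  have hft := hf t ht.le
  have hft1 := hf (t + 1) ht
  have hf0 := hf 0 (Nat.zero_le _)
  have hmono : ∀ t' ≤ n, ow (f 0) ≤ ow (f t') := by
    intro t'
    induction t' with
    | zero => exact fun _ => le_rfl
    | succ t' ih => exact fun h => (ih (by omega)).trans (how t' (by omega))
  obtain ⟨W0, hW0⟩ : ∃ W0, W0 = ⌊ow (f 0) * J⌋₊ := ⟨_, rfl⟩
  obtain ⟨Wt, hWt⟩ : ∃ Wt, Wt = ⌊ow (f t) * J⌋₊ := ⟨_, rfl⟩
  obtain ⟨Wn, hWn⟩ : ∃ Wn, Wn = ⌊ow (f (t + 1)) * J⌋₊ := ⟨_, rfl⟩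
  have h0t : W0 ≤ Wt := by
    rw [hW0, hWt]
    exact Nat.floor_le_floor (mul_le_mul_of_nonneg_right (hmono t ht.le) hJ0)
  have htn : Wt ≤ Wn := by
    rw [hWt, hWn]
    exact Nat.floor_le_floor (mul_le_mul_of_nonneg_right (how t ht) hJ0)
  rw [← hWn] at hWJ hown hNd hd ⊢
  -- the difference of the labels as a function of the line
  obtain ⟨R, hR⟩ : ∃ R : LnT F → MvPolynomial (Option (Fin m)) ℝ, R = fun s =>
    slH c H k (f 0) (f t) W0 Wt (upw Wt Wn s) - slb (c k) (H (f 0) (upw W0 Wt (upw Wt Wn s)) (k + 1))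
      (H (f (t + 1)) s (k + 1)) (H (f (t + 1)) s k) := ⟨_, rfl⟩
  have hcl : ∀ ω, A ω → R (slam F Wn ω) = slG c G k (f 0) (f t) (ptr F J ω) -
      slG c G k (f 0) (f (t + 1)) (ptr F J ω) := by
    intro ω hω
    rw [hR]
    unfold slG slH
    simp only
    rw [upw_slam F htn hWJ.le, upw_slam F h0t (htn.trans hWJ.le)]
    have e0 := (W.ev (f 0) hf0).cls ω hω (k + 1) (by omega)
    have e1 := (W.ev (f t) hft).cls ω hω (k + 1) (by omega)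
    have e2 := (W.ev (f t) hft).cls ω hω k (by omega)
    have e3 := (W.ev (f (t + 1)) hft1).cls ω hω (k + 1) (by omega)
    have e4 := (W.ev (f (t + 1)) hft1).cls ω hω k (by omega)
    rw [← hW0] at e0
    rw [← hWt] at e1 e2
    rw [← hWn] at e3 e4
    rw [e0, e1, e2, e3, e4]
  have hdH := fun t' (h : t' ≤ N) => (W.ev t' h).ball.degH
  have hpH := fun t' (h : t' ≤ N) => (W.ev t' h).ball.depH
  have key := hr (c := c) (W := Wn) (g := g₀ (f (t + 1))) (A := B)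
    (G := fun y l => G (f (t + 1)) y l) (H := H (f (t + 1))) (R := R) (N := Nd) (σ := sg) (M := Mo)
    (B := 2 ^ (Cs * (y * J + 1)) / 2 ^ g₀ (f (t + 1)) (k + 1))
    (hc.mono fun x hx => by rw [Set.mem_Iio] at hx ⊢; omega) hWJ
    (fun s l => hpH _ hft1 s l) (fun s l => hdH _ hft1 s l) (fun ω hω l hl => by
      have := (W.ev (f (t + 1)) hft1).cls ω (hBA ω hω) l (by omega)
      rw [← hWn] at this
      exact this) (fun s => by
      rw [hR]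
      unfold slH
      exact dep_slb_sub (hpH _ hf0 _ _) (hpH _ hft _ _) (hpH _ hft _ _) (hpH _ hft1 _ _)
        (hpH _ hft1 _ _)) (fun s => by
      rw [hR]
      unfold slH
      exact (totalDegree_sub _ _).trans (max_le
        (deg_slb' (hdH _ hf0 _ _) (hdH _ hft _ _) (hdH _ hft _ _))
        (deg_slb' (hdH _ hf0 _ _) (hdH _ hft1 _ _) (hdH _ hft1 _ _)))) hMo hsg hsg1
    (div_nonneg (Real.rpow_pos_of_pos (by norm_num) _).le (by positivity)) (fun ω hω x hx => by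
      rw [hcl ω (hBA ω hω)]
      refine hstep W hc hf how hz hηy hny hs1 hs2 hs3 t ht ω (hBA ω hω) x ?_
      rw [← hWn]
      exact hx) (fun ω hω l hl => by
      have e1 := (W.ev (f (t + 1)) hft1).ball.pos ω (hBA ω hω) l (by omega)
      have e2 := (W.ev (f (t + 1)) hft1).cls ω (hBA ω hω) l (by omega)
      rw [← hWn] at e2
      rw [← e2]
      exact e1) hown hNd ω ν hω hν hd (by
      rw [hcl ω (hBA ω hω), hcl ν (hBA ν hν), hS0, hS1])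
  rw [hcl ω (hBA ω hω), hcl ν (hBA ν hν)] at key
  have e1 := ojet_sub F (c (k + 1)) i (slG c G k (f 0) (f t) (ptr F J ω))
    (slG c G k (f 0) (f (t + 1)) (ptr F J ω)) ω
  have e2 := ojet_sub F (c (k + 1)) i (slG c G k (f 0) (f t) (ptr F J ν))
    (slG c G k (f 0) (f (t + 1)) (ptr F J ν)) ν
  refine le_trans (le_of_eq ?_) key
  congr 1
  rw [e1, e2]
  ring

end Pool.TW44
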