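import Pool.Agent.H16.NVT.Slw

/-!
# Slab labels of consecutive windows

`dep_sbj`: substitution removes the last coordinate. `slab_step`: the slab labels of two consecutive
windows differ by a polynomial over the first places, small on the natural box.
-/

set_option autoImplicit false

namespace Pool.TW44

open Finset Real MvPolynomial
open Pool.Agent.H49.Ent Pool.Agent.H32.Dense Pool.STK Pool.KA Pool.KSAT Pool.K2S Pool.PB Pool.GEN
open Pool.S6C Pool.RCD Pool.LA91 Pool.D2R Pool.NVT16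
open Pool.AVG57 (upw upw_slam)

variable {m : ℕ}

theorem dep_sbj {c : ℕ → Fin m} {k : ℕ} {Q ψ : MvPolynomial (Option (Fin m)) ℝ}
    (hQ : DepC c (k + 1) Q) (hψ : DepC c k ψ) : DepC c k (sbj (c k) ψ Q) := by
  intro b b' h0 h1
  rw [eval_sbj, eval_sbj, hψ b b' h0 h1]
  refine hQ _ _ ?_ fun l hl => ?_
  · rw [Function.update_of_ne (by simp), Function.update_of_ne (by simp), h0]
  · by_cases h : (some (c l) : Option (Fin m)) = some (c k)
    · rw [h, Function.update_self, Function.update_self]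
    · rw [Function.update_of_ne h, Function.update_of_ne h]
      refine h1 l ?_
      by_contra hcon
      have : l = k := by omega
      subst this
      exact h rfl

/-- The difference of two slab labels with one slope. -/
theorem slb_sub (k : Fin m) (P Q ψ Q' ψ' : MvPolynomial (Option (Fin m)) ℝ) :
    slb k P Q ψ - slb k P Q' ψ' = sbj k ψ (Q - P) - sbj k ψ' (Q' - P) := by
  unfold slb
  ring

theorem dep_slb_sub {c : ℕ → Fin m} {k : ℕ} {P Q ψ Q' ψ' : MvPolynomial (Option (Fin m)) ℝ}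
    (hP : DepC c (k + 1) P) (hQ : DepC c (k + 1) Q) (hψ : DepC c k ψ) (hQ' : DepC c (k + 1) Q')
    (hψ' : DepC c k ψ') : DepC c k (slb (c k) P Q ψ - slb (c k) P Q' ψ') := by
  rw [slb_sub]
  have d : ∀ {A B : MvPolynomial (Option (Fin m)) ℝ} {n : ℕ}, DepC c n A → DepC c n B →
      DepC c n (A - B) := fun hA hB b b' h0 h1 => by
    rw [map_sub, map_sub, hA b b' h0 h1, hB b b' h0 h1]
  exact d (dep_sbj (d hQ hP) hψ) (dep_sbj (d hQ' hP) hψ')

theorem deg_sbj' (k : Fin m) {ψ Q : MvPolynomial (Option (Fin m)) ℝ} {D : ℕ}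
    (hψ : ψ.totalDegree ≤ D) (hQ : Q.totalDegree ≤ D) : (sbj k ψ Q).totalDegree ≤ D * D + D := by
  rcases Nat.eq_zero_or_pos D with h | h
  · subst h
    have hQ0 : Q.totalDegree = 0 := by omega
    rw [totalDegree_eq_zero_iff_eq_C] at hQ0
    have : sbj k ψ Q = C (coeff 0 Q) := by
      unfold sbj
      rw [hQ0, aeval_C]
      simp
    rw [this, totalDegree_C]
  · exact (deg_sbj k h hψ hQ).trans (Nat.le_add_right _ _)

theorem deg_slb' {k : Fin m} {P Q ψ : MvPolynomial (Option (Fin m)) ℝ} {D : ℕ}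
    (hP : P.totalDegree ≤ D) (hQ : Q.totalDegree ≤ D) (hψ : ψ.totalDegree ≤ D) :
    (slb k P Q ψ).totalDegree ≤ D * D + D := by
  unfold slb
  refine (totalDegree_add _ _).trans (max_le (hP.trans (Nat.le_add_left _ _)) ?_)
  exact deg_sbj' k hψ ((totalDegree_sub _ _).trans (max_le hQ hP))

/-- **The slab labels of two consecutive windows** differ by a polynomial which is small on the
natural box of the first places. -/
theorem slab_step (D k : ℕ) : ∃ C : ℕ, 1 ≤ C ∧ ∀ {m J : ℕ} {F : Fam m J} {c : ℕ → Fin m}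
    {Dr N M : ℕ} {C₀ a Eb ηm : ℝ} {ow η σ : ℕ → ℝ} {lv bb : ℕ → ℕ → ℝ} {κ : ℝ} {z : ℕ → ℕ → ℕ}
    {A : F.Ω → Prop} {g₀ : ℕ → ℕ → ℕ} {G : ℕ → PtT F → ℕ → MvPolynomial (Option (Fin m)) ℝ}
    {H : ℕ → LnT F → ℕ → MvPolynomial (Option (Fin m)) ℝ} {f : ℕ → ℕ} {n : ℕ} {y : ℝ},
    WinB F c (k + 1) D Dr N M C₀ a Eb ηm ow η σ lv bb κ z A g₀ G H →
    Set.InjOn c (Set.Iio (k + 2)) → (∀ t ≤ n, f t ≤ N) → (∀ t < n, ow (f t) ≤ ow (f (t + 1))) →
    (∀ t < n, ∃ j ≤ M, z (f t) j = ⌊ow (f (t + 1)) * J⌋₊ - ⌊ow (f t) * J⌋₊) →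
    C₀ * ηm ≤ y → (n : ℝ) ≤ y * J →
    (∀ t < n, ∀ l ≤ k + 1, lv (f (t + 1)) l ≤ lv (f t) l + y) →
    (∀ t ≤ n, ∀ t' ≤ n, t ≤ t' → ∀ l ≤ k + 1, lv (f t) l ≤ lv (f t') l + y) →
    (∀ t ≤ n, ∀ t' ≤ n, t ≤ t' →
      lv (f t') (k + 1) + lv (f t) k ≤ lv (f t') k + lv (f t) (k + 1) + y) →
    ∀ t < n, ∀ ω, A ω → ∀ x, NBx c (G (f (t + 1)) (ptr F J ω)) (g₀ (f (t + 1)))
      ⌊ow (f (t + 1)) * J⌋₊ (F.t ω) k x →
      |eval x (slG c G k (f 0) (f t) (ptr F J ω) - slG c G k (f 0) (f (t + 1)) (ptr F J ω))| ≤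
        2 ^ (C * (y * J + 1)) / 2 ^ g₀ (f (t + 1)) (k + 1) := by
  obtain ⟨Cn, hCn, hnear⟩ := slab_near D k
  obtain ⟨Cb, hbox⟩ := slab_box D k
  obtain ⟨c₀, D₁, hD₁, hdil⟩ := Pool.CHT.nbx_dil (k + 2) (fun _ => D * D + D)
  refine ⟨6 * (Cn + c₀ + (Cb + 3) * D₁ + 12), by omega, ?_⟩
  intro m J F c Dr N M C₀ a Eb ηm ow η σ lv bb κ z A g₀ G H f n y W hc hf how hz hηy hny hs1 hs2
    hs3 t ht ω hω x hx
  have hJ0 : (0 : ℝ) ≤ J := Nat.cast_nonneg J
  have hft := hf t ht.le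
  have hft1 := hf (t + 1) ht
  have hηm0 : 0 ≤ ηm := (W.hη _ hft).1.trans (W.hη _ hft).2
  have hηmy : ηm ≤ y := (le_mul_of_one_le_left hηm0 W.C1).trans hηy
  have hy0 : 0 ≤ y := hηm0.trans hηmy
  have hyJ : 0 ≤ y * J := mul_nonneg hy0 hJ0
  have h2n : ∀ x : ℕ, (0 : ℝ) < 2 ^ x := fun x => by positivity
  obtain ⟨Y, hY⟩ : ∃ Y : ℕ, Y = ⌈4 * (y * J)⌉₊ + 2 := ⟨_, rfl⟩
  have hY1 : 4 * (y * J) + 2 ≤ Y := by
    rw [hY]
    push_cast
    linarith [Nat.le_ceil (4 * (y * (J : ℝ)))]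
  have hY2 : (Y : ℝ) ≤ 4 * (y * J) + 3 := by
    rw [hY]
    push_cast
    linarith [(Nat.ceil_lt_add_one (show 0 ≤ 4 * (y * (J : ℝ)) by linarith)).le]
  have hmJ : ηm * J ≤ y * J := mul_le_mul_of_nonneg_right hηmy hJ0
  have hCJ : C₀ * (ηm * J) ≤ y * J := by
    rw [← mul_assoc]
    exact mul_le_mul_of_nonneg_right hηy hJ0
  obtain ⟨κc, hκc⟩ : ∃ κc : ℕ → ℝ, κc = fun l =>
    ((ptr F J ω).1 (c l) : ℝ) / 2 ^ J - eval (bho J J (ptr F J ω)) (G (f t) (ptr F J ω) l) :=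
      ⟨_, rfl⟩
  have hGno : ∀ l, ∀ b : Option (Fin m) → ℝ,
      eval b (Gno (c l) J J (fun y => G (f t) y l) (ptr F J ω)) =
        eval b (G (f t) (ptr F J ω) l) + κc l := by
    intro l b
    unfold Gno
    rw [map_add, eval_C, hκc]
  have gg : ∀ i ≤ n, ∀ i' ≤ n, ∀ l ≤ k + 1, lv (f i) l ≤ lv (f i') l + y →
      g₀ (f i) l ≤ g₀ (f i') l + Y := by
    intro i hi i' hi' l hl h
    obtain ⟨-, -, -, h1⟩ := W.g_num (hf i hi) hl
    obtain ⟨-, -, h2, -⟩ := W.g_num (hf i' hi') hl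
    have h3 : lv (f i) l * J ≤ (lv (f i') l + y) * J := mul_le_mul_of_nonneg_right h hJ0
    have h4 : (g₀ (f i) l : ℝ) ≤ ((g₀ (f i') l + Y : ℕ) : ℝ) := by
      push_cast
      linarith
    exact_mod_cast h4
  have hstep : ∀ l ≤ k + 1, ∀ b, NBx c (G (f (t + 1)) (ptr F J ω)) (g₀ (f (t + 1)))
      ⌊ow (f (t + 1)) * J⌋₊ (F.t ω) l b → |eval b (G (f t) (ptr F J ω) l) + κc l -
        eval b (G (f (t + 1)) (ptr F J ω) l)| ≤ 2 ^ Y / 2 ^ g₀ (f (t + 1)) l := by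
    intro l hl b hb
    obtain ⟨j, hj, hzj⟩ := hz t ht
    have h1 := W.bal (f t) hft (f (t + 1)) hft1 j hj
      (Nat.floor_le_floor (mul_le_mul_of_nonneg_right (how t ht) hJ0)) hzj ω hω l hl b hb
    rw [hGno] at h1
    refine h1.trans ?_
    rw [div_le_div_iff₀ (by positivity) (by positivity), ← pow_add, ← pow_add]
    refine pow_le_pow_right₀ (by norm_num) ?_
    obtain ⟨a1, a2, a3, a4⟩ := W.g_num hft hl
    obtain ⟨b1, b2, b3, b4⟩ := W.g_num hft1 hl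
    have h3 : lv (f (t + 1)) l * J ≤ (lv (f t) l + y) * J :=
      mul_le_mul_of_nonneg_right (hs1 t ht l hl) hJ0
    have h4 : (⌊C₀ * (ηm * J)⌋₊ : ℝ) ≤ C₀ * (ηm * J) := Nat.floor_le
      (mul_nonneg (by linarith [W.C1]) (mul_nonneg hηm0 hJ0))
    have h5 : ((⌊C₀ * (ηm * J)⌋₊ + g₀ (f (t + 1)) l : ℕ) : ℝ) ≤
        ((Y + ⌊bb (f t) l * J⌋₊ : ℕ) : ℝ) := by
      push_cast
      linarith
    have h6 : ⌊C₀ * (ηm * J)⌋₊ + g₀ (f (t + 1)) l ≤ Y + ⌊bb (f t) l * J⌋₊ := by exact_mod_cast h5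
    have h7 : ((⌊C₀ * (ηm * J)⌋₊ : ℕ) : ℝ) ≤ (Y : ℕ) := by linarith
    have h8 : ⌊C₀ * (ηm * J)⌋₊ ≤ Y := by exact_mod_cast h7
    rcases min_cases (⌊bb (f t) l * J⌋₊ + (⌊ow (f (t + 1)) * J⌋₊ - ⌊ow (f t) * J⌋₊))
      (g₀ (f (t + 1)) l) with h9 | h9 <;> rw [h9.1] <;> omega
  have hκ : ∀ l ≤ k + 1, |κc l| ≤ 2 ^ Y / 2 ^ g₀ (f (t + 1)) l := by
    intro l hl
    have h1 := (W.ev (f t) hft).near ω hω l (by omega) 0
    rw [hGno, add_sub_cancel_left] at h1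
    refine h1.trans ?_
    rw [div_le_div_iff₀ (by positivity) (by positivity)]
    obtain ⟨-, -, -, h1'⟩ := W.g_num hft1 hl
    obtain ⟨-, -, h2', -⟩ := W.g_num hft hl
    have h3' : lv (f (t + 1)) l * J ≤ (lv (f t) l + y) * J :=
      mul_le_mul_of_nonneg_right (hs1 t ht l hl) hJ0
    have h3 : ((g₀ (f (t + 1)) l + 1 : ℕ) : ℝ) ≤ ((Y + g₀ (f t) l : ℕ) : ℝ) := by
      push_cast
      linarith
    have h4 : g₀ (f (t + 1)) l + 1 ≤ Y + g₀ (f t) l := by exact_mod_cast h3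
    calc (2 : ℝ) * 2 ^ g₀ (f (t + 1)) l = 2 ^ (g₀ (f (t + 1)) l + 1) := by rw [pow_succ]; ring
      _ ≤ 2 ^ (Y + g₀ (f t) l) := pow_le_pow_right₀ (by norm_num) h4
      _ = _ := by rw [pow_add]
  have hdG := (W.ev (f t) hft).ball.degG
  have hdG1 := (W.ev (f (t + 1)) hft1).ball.degG
  have hpG := (W.ev (f t) hft).ball.depG
  have hpG1 := (W.ev (f (t + 1)) hft1).ball.depG
  have hpG0 := (W.ev (f 0) (hf 0 (Nat.zero_le _))).ball.depG
  have hdG0 := (W.ev (f 0) (hf 0 (Nat.zero_le _))).ball.degG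
  -- the point
  have hne : ∀ l < k, (some (c l) : Option (Fin m)) ≠ some (c k) := by
    intro l hl he
    have := hc (Set.mem_Iio.2 (by omega)) (Set.mem_Iio.2 (by omega)) (Option.some_injective _ he)
    omega
  obtain ⟨b, hb⟩ : ∃ b : Option (Fin m) → ℝ, b = Function.update x (some (c k))
    (eval x (G (f (t + 1)) (ptr F J ω) k)) := ⟨_, rfl⟩
  have hbn : b none = x none := by
    rw [hb]
    exact Function.update_of_ne (by simp) _ _
  have hbl : ∀ l < k, b (some (c l)) = x (some (c l)) := fun l hl => by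
    rw [hb]
    exact Function.update_of_ne (hne l hl) _ _
  have hbk : b (some (c k)) = eval x (G (f (t + 1)) (ptr F J ω) k) := by
    rw [hb]
    exact Function.update_self _ _ _
  have hev : ∀ i l, l ≤ k → (∀ y, DepC c l (G i y l)) → eval b (G i (ptr F J ω) l) =
      eval x (G i (ptr F J ω) l) := fun i l hl h =>
    h _ _ _ hbn fun l' hl' => hbl l' (by omega)
  have hbox1 : NBx c (G (f (t + 1)) (ptr F J ω)) (g₀ (f (t + 1))) ⌊ow (f (t + 1)) * J⌋₊ (F.t ω)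
      (k + 1) b := by
    refine ⟨by rw [hbn]; exact hx.1, fun l hl => ?_⟩
    rcases Nat.lt_or_ge l k with h1 | h1
    · rw [hbl l h1, hev _ l h1.le fun y => hpG1 y l]
      exact hx.2 l h1
    · have : l = k := by omega
      subst this
      rw [hbk, hev _ l le_rfl fun y => hpG1 y l, sub_self, abs_zero]
      positivity
  -- the value at the point
  have e1 : eval x (slG c G k (f 0) (f t) (ptr F J ω) - slG c G k (f 0) (f (t + 1)) (ptr F J ω)) =
      eval b (slG c G k (f 0) (f t) (ptr F J ω) - slG c G k (f 0) (f (t + 1)) (ptr F J ω)) := by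
    refine dep_slb_sub (hpG0 _ _) (hpG _ _) (hpG _ _) (hpG1 _ _) (hpG1 _ _) x b hbn.symm
      fun l hl => (hbl l hl).symm
  have e2 : eval b (slG c G k (f 0) (f (t + 1)) (ptr F J ω)) =
      eval b (G (f (t + 1)) (ptr F J ω) (k + 1)) := by
    unfold slG
    rw [eval_slb]
    have e3 : Function.update b (some (c k)) (eval b (G (f (t + 1)) (ptr F J ω) k)) = b := by
      rw [hev _ k le_rfl fun y => hpG1 y k, ← hbk, Function.update_eq_self]
    rw [e3]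
    ring
  -- the box of the window `t`
  have hBt := hbox (c := c) (n := 1) (Y := Y) (ψ := fun i => if i = 0 then G (f t) (ptr F J ω) else
      G (f (t + 1)) (ptr F J ω)) (κ := fun _ l => κc l)
    (g := fun i => if i = 0 then g₀ (f t) else g₀ (f (t + 1)))
    (o := fun i => if i = 0 then ⌊ow (f t) * J⌋₊ else ⌊ow (f (t + 1)) * J⌋₊) (T := F.t ω) hc
    (fun i l => by
      split_ifs
      · exact hdG _ _
      · exact hdG1 _ _) (fun i l => by
      split_ifs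
      · exact hpG _ _
      · exact hpG1 _ _) (fun i hi l hl b' hb' => by
      obtain rfl : i = 0 := by omega
      simp only [if_true, zero_add, one_ne_zero, if_false] at hb' ⊢
      exact hstep l (by omega) b' hb') (fun i hi l hl => by
      obtain rfl : i = 0 := by omega
      simp only [zero_add, one_ne_zero, if_false]
      exact hκ l (by omega)) (fun i hi => by
      simp only [one_ne_zero, if_false]
      split_ifs
      · exact Nat.floor_le_floor (mul_le_mul_of_nonneg_right (how t ht) hJ0)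
      · exact le_rfl) (fun i hi i' hi' hii l hl => by
      rcases (show i = 0 ∧ i' = 0 ∨ i = 0 ∧ i' = 1 ∨ i = 1 ∧ i' = 1 by omega) with
        ⟨rfl, rfl⟩ | ⟨rfl, rfl⟩ | ⟨rfl, rfl⟩
      · exact Nat.le_add_right _ _
      · simp only [if_true, one_ne_zero, if_false]
        exact gg t ht.le (t + 1) ht l (by omega) (hs2 t ht.le (t + 1) ht (Nat.le_succ t) l (by omega))
      · exact Nat.le_add_right _ _) Nat.one_le_two_pow b (by
      simp only [one_ne_zero, if_false]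
      exact hbox1)
  have hBt' : ∀ l ≤ k, |b (some (c l)) - eval b (G (f t) (ptr F J ω) l)| ≤
      2 ^ (Cb * (Y + 1)) / 2 ^ g₀ (f t) l := fun l hl => by
    have h := hBt l hl 0 (by omega)
    simp only [if_true] at h
    exact h
  -- the first slab label near its chart
  obtain ⟨M₁, hM₁⟩ : ∃ M₁ : ℝ, M₁ = 2 ^ (Cn * (y * J + 1)) / 2 ^ g₀ (f t) (k + 1) := ⟨_, rfl⟩
  have hM0 : 0 < M₁ := by
    rw [hM₁]
    exact div_pos (Real.rpow_pos_of_pos (by norm_num) _) (h2n _)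
  have hDD : D ≤ D * D + D := Nat.le_add_left _ _
  have hnt := hdil (c := c) (i := k + 1) (G := G (f t) (ptr F J ω))
    (Q := slG c G k (f 0) (f t) (ptr F J ω) - G (f t) (ptr F J ω) (k + 1)) (g := g₀ (f t))
    (a := ⌊ow (f t) * J⌋₊) (t := F.t ω) (M := M₁) (Cb * (Y + 1)) (by omega)
    (hc.mono fun x hx => by rw [Set.mem_Iio] at hx ⊢; omega) (fun l => (hdG _ _).trans hDD)
    (hpG _) (fun b b' h0 h1 => by
      rw [map_sub, map_sub, hpG _ _ b b' h0 h1]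
      congr 1
      exact dep_slb (hpG0 _ _) (hpG _ _) (hpG _ _) b b' h0 h1)
    ((totalDegree_sub _ _).trans (max_le ((deg_slb' (hdG0 _ _) (hdG _ _) (hdG _ _)).trans le_rfl)
      ((hdG _ _).trans hDD))) hM0.le (fun b' hb' => by
      rw [map_sub, hM₁]
      exact hnear (n := t) W hc (fun i hi => hf i (by omega)) (fun i hi => how i (by omega))
        (fun i hi => hz i (by omega)) hηy (by
          have : (t : ℝ) ≤ n := by exact_mod_cast ht.le
          linarith) (fun i hi l hl => hs1 i (by omega) l hl)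
        (fun i hi i' hi' hii l hl => hs2 i (by omega) i' (by omega) hii l (by omega))
        (fun i hi => hs3 i (by omega) t ht.le hi) ω hω b' hb') b (by
      rw [hbn]
      refine hx.1.trans (div_le_div_of_nonneg_left (by norm_num) (h2n _)
        (pow_le_pow_right₀ (by norm_num) (Nat.floor_le_floor
          (mul_le_mul_of_nonneg_right (how t ht) hJ0)))))
    (fun l hl => hBt' l (by omega))
  have hch := hstep (k + 1) le_rfl b hbox1
  have hkk := hκ (k + 1) le_rfl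
  rw [e1, map_sub, e2]
  rw [map_sub] at hnt
  have h3 : |eval b (slG c G k (f 0) (f t) (ptr F J ω)) -
      eval b (G (f (t + 1)) (ptr F J ω) (k + 1))| ≤
      2 ^ (c₀ + Cb * (Y + 1) * D₁) * M₁ + 2 ^ Y / 2 ^ g₀ (f (t + 1)) (k + 1) +
        2 ^ Y / 2 ^ g₀ (f (t + 1)) (k + 1) := by
    rw [abs_le] at hnt hch hkk ⊢
    constructor <;> linarith only [hnt.1, hnt.2, hch.1, hch.2, hkk.1, hkk.2]
  refine h3.trans ?_
  have h4 : M₁ ≤ 2 ^ (Cn * (y * J + 1)) * 2 ^ Y / 2 ^ g₀ (f (t + 1)) (k + 1) := by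
    rw [hM₁, div_le_div_iff₀ (h2n _) (h2n _), mul_assoc, ← pow_add]
    refine mul_le_mul_of_nonneg_left (pow_le_pow_right₀ (by norm_num) ?_)
      (Real.rpow_pos_of_pos (by norm_num) _).le
    have := gg (t + 1) ht t ht.le (k + 1) le_rfl (hs1 t ht (k + 1) le_rfl)
    omega
  obtain ⟨e, he⟩ : ∃ e : ℝ, e = y * J + 1 := ⟨_, rfl⟩
  have he1 : 1 ≤ e := by rw [he]; linarith
  have hYe : (Y : ℝ) + 1 ≤ 4 * e := by rw [he]; linarith
  rw [← he] at h4 ⊢
  have h5 : (2 : ℝ) ^ (c₀ + Cb * (Y + 1) * D₁) ≤ 2 ^ ((c₀ + 4 * Cb * D₁) * e) := by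
    rw [← Real.rpow_natCast]
    refine Real.rpow_le_rpow_of_exponent_le (by norm_num) ?_
    push_cast
    have k1 : (c₀ : ℝ) ≤ c₀ * e := le_mul_of_one_le_right (Nat.cast_nonneg _) he1
    have k2 : (Cb : ℝ) * (Y + 1) * D₁ ≤ Cb * (4 * e) * D₁ :=
      mul_le_mul_of_nonneg_right (mul_le_mul_of_nonneg_left hYe (Nat.cast_nonneg _))
        (Nat.cast_nonneg _)
    linarith
  have h6 : (2 : ℝ) ^ Y ≤ 2 ^ (4 * e) := by
    rw [← Real.rpow_natCast]
    exact Real.rpow_le_rpow_of_exponent_le (by norm_num) (by linarith)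
  have hP : ∀ r : ℝ, (0 : ℝ) < 2 ^ r := fun r => Real.rpow_pos_of_pos (by norm_num) _
  have h7 : (2 : ℝ) ^ (c₀ + Cb * (Y + 1) * D₁) * M₁ ≤
      2 ^ ((c₀ + 4 * Cb * D₁ + Cn + 4) * e) / 2 ^ g₀ (f (t + 1)) (k + 1) := by
    calc (2 : ℝ) ^ (c₀ + Cb * (Y + 1) * D₁) * M₁ ≤ 2 ^ ((c₀ + 4 * Cb * D₁) * e) *
        (2 ^ (Cn * e) * 2 ^ (4 * e) / 2 ^ g₀ (f (t + 1)) (k + 1)) := by
          refine mul_le_mul h5 (h4.trans ?_) hM0.le (hP _).le
          refine div_le_div_of_nonneg_right ?_ (h2n _).le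
          exact mul_le_mul_of_nonneg_left h6 (hP _).le
      _ = _ := by
        rw [← mul_div_assoc, ← mul_assoc, ← Real.rpow_add (by norm_num),
          ← Real.rpow_add (by norm_num)]
        congr 2
        ring
  have h8 : (2 : ℝ) ^ Y / 2 ^ g₀ (f (t + 1)) (k + 1) ≤
      2 ^ ((c₀ + 4 * Cb * D₁ + Cn + 4) * e) / 2 ^ g₀ (f (t + 1)) (k + 1) := by
    refine div_le_div_of_nonneg_right (h6.trans (Real.rpow_le_rpow_of_exponent_le (by norm_num) ?_))
      (h2n _).le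
    have : (0 : ℝ) ≤ (c₀ + 4 * Cb * D₁ + Cn) * e := by positivity
    linarith
  have h9 : 3 * (2 : ℝ) ^ ((c₀ + 4 * Cb * D₁ + Cn + 4) * e) ≤
      2 ^ (((6 * (Cn + c₀ + (Cb + 3) * D₁ + 12) : ℕ) : ℝ) * e) := by
    have k1 : (3 : ℝ) ≤ 2 ^ (2 : ℝ) := by
      rw [show (2 : ℝ) ^ (2 : ℝ) = 4 by norm_num]
      norm_num
    calc 3 * (2 : ℝ) ^ ((c₀ + 4 * Cb * D₁ + Cn + 4) * e) ≤
        2 ^ (2 : ℝ) * 2 ^ ((c₀ + 4 * Cb * D₁ + Cn + 4) * e) :=
          mul_le_mul_of_nonneg_right k1 (hP _).le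
      _ = 2 ^ (2 + (c₀ + 4 * Cb * D₁ + Cn + 4) * e) := by rw [← Real.rpow_add (by norm_num)]
      _ ≤ _ := by
        refine Real.rpow_le_rpow_of_exponent_le (by norm_num) ?_
        push_cast
        have k2 : (0 : ℝ) ≤ (Cn : ℝ) * e := by positivity
        have k3 : (0 : ℝ) ≤ (c₀ : ℝ) * e := by positivity
        have k4 : (0 : ℝ) ≤ (Cb : ℝ) * D₁ * e := by positivity
        have k5 : (0 : ℝ) ≤ (D₁ : ℝ) * e := by positivity
        have k6 : 6 * ((Cn : ℝ) + c₀ + (Cb + 3) * D₁ + 12) * e =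
          6 * (Cn * e) + 6 * (c₀ * e) + 6 * (Cb * D₁ * e) + 18 * (D₁ * e) + 72 * e := by ring
        have k7 : ((c₀ : ℝ) + 4 * Cb * D₁ + Cn + 4) * e =
          c₀ * e + 4 * (Cb * D₁ * e) + Cn * e + 4 * e := by ring
        rw [k6, k7]
        linarith
  refine le_trans ?_ (div_le_div_of_nonneg_right h9 (h2n _).le)
  have h10 : 3 * (2 : ℝ) ^ ((c₀ + 4 * Cb * D₁ + Cn + 4) * e) / 2 ^ g₀ (f (t + 1)) (k + 1) =
    3 * (2 ^ ((c₀ + 4 * Cb * D₁ + Cn + 4) * e) / 2 ^ g₀ (f (t + 1)) (k + 1)) := by ring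
  rw [h10]
  linarith

end Pool.TW44
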