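import Pool.Agent.H44.V0P.Sm
import Pool.Agent.H48.V0T.Ldt
import Pool.Agent.H5.V0P.Cel

/-!
# Small steps of the class theorem for a pair with labels of both places

`ladp_of`: the ladder `LadP` from `LadT`. `celT`: two samples of one cell, the slope-one places.
`grd_re`: other order of the targets. `cht_cl2`: the charts of the first windows and the frame are
closed. `lbt_tr`: labels which vanish above the targets.
-/

set_option autoImplicit false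

namespace Pool.V0Q

open Finset Real MvPolynomial
open Pool.Agent.H49.Ent Pool.Agent.H32.Dense
open Pool.STK hiding pr2
open Pool.KA Pool.KSAT Pool.K2S Pool.PB Pool.S6C
open Pool.GEN Pool.CHT Pool.CHX Pool.ISO Pool.LA91 Pool.AVG71 Pool.AVG5 Pool.D2F2 Pool.AVG57
open Pool.RCD Pool.AVG96 Pool.OWN68 Pool.V0F
open Pool.V0T (LadT frT fhT ggT LbT chT)
open Pool.AJW (CfB)
open Pool.D2R (WinB gnh hgt hyb chs winb_cell)
open Pool.LV64 (GrdV NrH)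

/-- The ladder of a pair. -/
theorem ladp_of {m : ℕ} {S : PCl m} {c : ℕ → Fin m} {k : ℕ} {sn : ℕ → ℝ → ℝ} {G : Set ℝ}
    {b o φ : ℝ} (hk : 1 ≤ k) (L : LadT S c k 1 sn G b o φ) : LadP S c k sn G b o φ where
  k1 := hk
  tm := L.tm
  pos := L.pos
  inj := L.inj
  ch := L.ch
  att := L.att
  bG := L.bG
  oG := L.oG
  b0 := L.b0
  bo := L.bo
  o1 := L.o1
  φ0 := L.φ0
  fm := L.fm
  fl := L.fl
  st := L.st
  eq := L.et

variable {m J : ℕ} {F : Fam m J} {c : ℕ → Fin m}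

/-- **Other order of the targets.** -/
theorem grd_re {k C C' : ℕ} {mv : Fin k → ℕ} {tg qt Xt : Fin C → ℕ} {q X : ℕ} {γ : ℕ → ℕ} {U : ℝ}
    {B : F.Ω → Prop} {G₀ : PtT F → ℕ → MvPolynomial (Option (Fin m)) ℝ}
    {gg : F.Ω → Fin C → Fin k → ℝ} {ζ χ₁ χ₂ : Type} {z : F.Ω → ζ} {Cj : F.Ω → χ₁}
    {Cx : F.Ω → χ₂} (h : GrdV F c mv tg qt Xt q X γ U B G₀ gg z Cj Cx) (pm : Fin C' → Fin C) :
    GrdV F c mv (fun u => tg (pm u)) (fun u => qt (pm u)) (fun u => Xt (pm u)) q X γ U B G₀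
      (fun ω u j => gg ω (pm u) j) z Cj Cx where
  U0 := h.U0
  bm := fun ω hω u j => h.bm ω hω (pm u) j
  bj := fun ω ν hω hν ht hz hC hn u j => h.bj ω ν hω hν ht hz hC hn (pm u) j
  bx := fun ω ν hω hν ht hz hC hn u j => h.bx ω ν hω hν ht hz hC hn (pm u) j
  nx := fun ω ν hω hν ht hz hC hn u => h.nx ω ν hω hν ht hz hC hn (pm u)

/-- **Two samples of one cell**: the slope-one places. -/
theorem celT (m D k f : ℕ) : ∃ Cc : ℕ, 1 ≤ Cc ∧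
    ∀ {s : ℝ} {sn : ℕ → ℝ → ℝ} {Gs : Set ℝ} {b o φ w u y ξ T Λ C κ₀ e : ℝ} {lam : ℝ → ℝ}
      {jw xw x' xr xq w₁ vq oq : ℝ} {xa : ℕ → ℝ} {J : ℕ} {F : Fam m J}
      {c : ℕ → Fin m} {Dr N M : ℕ} {C₀ a Eb ηm : ℝ} {ow η σ : ℕ → ℝ} {lv bb : ℕ → ℕ → ℝ} {κ : ℝ}
      {z : ℕ → ℕ → ℕ} {A : F.Ω → Prop} {g₀ : ℕ → ℕ → ℕ}
      {G : ℕ → PtT F → ℕ → MvPolynomial (Option (Fin m)) ℝ}
      {H : ℕ → LnT F → ℕ → MvPolynomial (Option (Fin m)) ℝ} {kb kw mm : ℕ},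
    WinB F c (k + f) D Dr N M C₀ a Eb ηm ow η σ lv bb κ z A g₀ G H →
    NP k f s sn Gs b o φ w u y ξ T Λ C κ₀ e lam jw xw x' xr xq w₁ vq oq xa →
    Set.InjOn c (Set.Iio (k + f + 1)) → kb ≤ N → kw ≤ N → ow kb = b → ow kw = w →
    (∀ t ≤ N, ∀ l ≤ k + f, lv t l = sn l (ow t)) → C₀ * ηm ≤ φ →
    (∀ l ≤ k + f, Eb + sn l w + Λ * u ≤ 1) →
    (∃ jq ≤ M, ∃ jT ≤ M, (z kb jq : ℝ) ≤ u * J ∧ z kb jq + 1 ≤ z kb jT) →
    10 ≤ φ * J → (Cc : ℝ) * (2 * φ) ≤ u → (mm : ℝ) ≤ u / 2 * J →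
    ∀ ω ν, A ω → A ν → ptr F J ω = ptr F J ν →
      ∀ l < k, |hgt F c (G kb) ω l - hgt F c (G kb) ν l| ≤
        1 / 2 ^ (g₀ kw l + ⌊(u + 500 * y) * J⌋₊ + (⌊ξ * u * J⌋₊ + mm)) := by
  obtain ⟨Cc, hCc, Hc⟩ := winb_cell m D (k + f)
  refine ⟨Cc, hCc, ?_⟩
  intro s sn Gs b o φ w u y ξ T Λ C κ₀ e lam jw xw x' xr xq w₁ vq oq xa J F c Dr N M C₀ a Eb ηm ow
    η σ lv bb κ z A g₀ G H kb kw mm W Nn hinj hkb hkw hob how hlv hC hEb hzb big hCu hmm ω ν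
    hω hν hpt l hl
  obtain ⟨b1, b2, b3, b4, b5, b6, b7, b8, b9, b10, b11, b12, b13, b14, b15, b16, b17⟩ := Nn.wb
  obtain ⟨h1, h2, h3, h4, h5, h6, h7, h8, h9, h10⟩ := Nn.sm
  obtain ⟨d1, d2⟩ := Nn.ξu
  have hJ : (0 : ℝ) ≤ J := Nat.cast_nonneg J
  have hs := Nn.s1
  have hu := Nn.u0
  have hyu := Nn.yu
  have hT := Nn.Tu0
  have hru := Nn.ru0
  have hroom := Nn.room
  have hbw := Nn.bw
  have hy0 := Nn.y0
  have mj : ∀ {a a' : ℝ}, a ≤ a' → a * J ≤ a' * J := fun h => mul_le_mul_of_nonneg_right h hJ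
  have hηm0 : 0 ≤ ηm := (W.hη _ hkb).1.trans (W.hη _ hkb).2
  have hηφ : ηm ≤ φ := (le_mul_of_one_le_left hηm0 W.C1).trans hC
  obtain ⟨Y, hY⟩ : ∃ Y : ℕ, Y = ⌈φ * (J : ℝ)⌉₊ := ⟨_, rfl⟩
  have hY1 : φ * J ≤ Y := by
    rw [hY]
    exact Nat.le_ceil _
  have hY2 : (Y : ℝ) ≤ φ * J + 1 := by
    rw [hY]
    exact (Nat.ceil_lt_add_one (by linarith)).le
  have hCY : (Cc : ℝ) * Y ≤ u * J := by
    have e1 : (Cc : ℝ) * Y ≤ Cc * (2 * φ * J) :=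
      mul_le_mul_of_nonneg_left (by linarith) (Nat.cast_nonneg _)
    have e2 := mj hCu
    linarith
  have hC0 : C₀ * (ηm * J) ≤ Y := by
    have e1 := mj hC
    have e2 : C₀ * (ηm * J) = C₀ * ηm * J := by ring
    rw [e2]
    linarith
  have hY3 : 1 ≤ Y := by
    have : (1 : ℝ) ≤ Y := by linarith
    exact_mod_cast this
  have e2 := Nat.floor_le (show 0 ≤ (u + 500 * y) * (J : ℝ) from mul_nonneg (by linarith) hJ)
  have e3 := Nat.floor_le (show 0 ≤ ξ * u * (J : ℝ) from mul_nonneg d1.le hJ)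
  have hT' : 240 * u ≤ Λ * u := by linarith
  have huJ : 0 ≤ u * (J : ℝ) := mul_nonneg hu.le hJ
  have hyuJ : 4000 * y * J ≤ u * J := mj hyu
  have hξuJ : ξ * u * J ≤ u * J := mj d2
  have hφuJ : φ * J ≤ u * J := mj (by linarith)
  have hφ1 : 1 ≤ φ * J := by linarith
  obtain ⟨q, hq⟩ : ∃ q : ℕ, q = ⌈(w - b + 4 * φ) * (J : ℝ)⌉₊ + (⌊(u + 500 * y) * J⌋₊ +
      (⌊ξ * u * J⌋₊ + mm) + 2) := ⟨_, rfl⟩
  have hq1 : (w - b + 4 * φ) * J + ((⌊(u + 500 * y) * J⌋₊ + (⌊ξ * u * J⌋₊ + mm) + 2 : ℕ) : ℝ) ≤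
      q := by
    rw [hq]
    push_cast
    have := Nat.le_ceil ((w - b + 4 * φ) * (J : ℝ))
    linarith
  have hq2 : (q : ℝ) ≤ (w - b + 4 * φ) * J + 3 + 4 * (u * J) := by
    rw [hq]
    push_cast
    have e1 := (Nat.ceil_lt_add_one (show 0 ≤ (w - b + 4 * φ) * (J : ℝ) from
      mul_nonneg (by linarith) hJ)).le
    linarith
  obtain ⟨jq, hjq, jT, hjT, hz1, hz2⟩ := hzb
  have hl' : ∀ l ≤ k + f, sn l b + (w - b) ≤ sn l w + 2 * φ := by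
    intro l hl
    rcases Nat.lt_or_ge l k with h | h
    · have e1 := Nn.slv h Nn.bG le_rfl b3
      linarith
    · have e1 := Nn.stv h hl Nn.bG le_rfl b3
      have e2 : 1 * (w - b) ≤ s * (w - b) := mul_le_mul_of_nonneg_right hs.le (by linarith)
      linarith
  have h7 := Hc W (k₀ := kb) (jq := jq) (jT := jT) (q := q) (Y := Y) hinj hkb hjq hjT hz2 hC0
    hY3 (fun l hl => by
      rw [hlv _ hkb l hl, hob]
      have e1 := hl' l hl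
      have e2 := hEb l hl
      have e3 := mj (show Eb + sn l b + (w - b) + 240 * u ≤ 1 + 2 * φ by linarith)
      linarith) ω ν hω hν hpt l (by omega)
  refine h7.trans (four_div ?_)
  obtain ⟨-, -, g1, -⟩ := W.g_num hkb (show l ≤ k + f by omega)
  obtain ⟨-, -, -, g2⟩ := W.g_num hkw (show l ≤ k + f by omega)
  rw [hlv _ hkb l (by omega), hob] at g1
  rw [hlv _ hkw l (by omega), how] at g2
  have e1 := Nn.slv hl Nn.bG le_rfl b3
  have e2 := mj hηφ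
  have e3 := mj (show sn l w + φ ≤ sn l b + (w - b + 4 * φ) by linarith)
  have e4 : ((g₀ kw l + ⌊(u + 500 * y) * J⌋₊ + (⌊ξ * u * J⌋₊ + mm) + 2 : ℕ) : ℝ) ≤
      ((g₀ kb l + q : ℕ) : ℝ) := by
    push_cast at hq1 ⊢
    linarith
  exact_mod_cast e4

section

variable {k f D D' Dr N M : ℕ} {C₀ a Eb ηm : ℝ} {o η σ : ℕ → ℝ} {lv bb : ℕ → ℕ → ℝ} {κ : ℝ}
  {z : ℕ → ℕ → ℕ} {A : F.Ω → Prop} {g₀ : ℕ → ℕ → ℕ}
  {G : ℕ → PtT F → ℕ → MvPolynomial (Option (Fin m)) ℝ}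
  {H : ℕ → LnT F → ℕ → MvPolynomial (Option (Fin m)) ℝ}

/-- **The charts of the first windows and the frame are closed.** -/
theorem cht_cl2 (W : WinB F c (k + f) D Dr N M C₀ a Eb ηm o η σ lv bb κ z A g₀ G H)
    {kb kw : ℕ} {fn : ℕ → ℕ} {n : ℕ} {v u φ E : ℝ} {sn : ℕ → ℝ → ℝ} (hv : v ≤ 1) (hb : kb ≤ N)
    (hf : ∀ t ≤ n, fn t ≤ N) (h0 : fn 0 = kw)
    (hbw : o kb ≤ o kw) (hof : ∀ t ≤ n, o (fn t) ≤ v)
    {GN : PtT F → ℕ → MvPolynomial (Option (Fin m)) ℝ}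
    {HN : LnT F → ℕ → MvPolynomial (Option (Fin m)) ℝ}
    (L : LbT F c k f D' (o kw) u φ E sn A (g₀ kw) (G kw) GN HN) :
    Cl2 (ptr F J) (vg v J F) A (chT F k f n G GN kb fn) := by
  have hJ : (0 : ℝ) ≤ J := Nat.cast_nonneg J
  have h0v : o kw ≤ v := by
    have := hof 0 (Nat.zero_le _)
    rwa [h0] at this
  refine Cl2.join (chs_cl2 hv (W := fun t => ⌊o (fn t) * J⌋₊) (H := fun t => H (fn t))
    (fun t ht => Nat.floor_le_floor (mul_le_mul_of_nonneg_right (hof t ht) hJ))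
    (fun t ht ω hω l hl => (W.ev (fn t) (hf t ht)).cls ω hω l (by omega))) ?_
  refine ⟨⟨fun y (l : Fin (k + f + 1)) => frT G GN kb k y l, fun ω _ => rfl⟩,
    fun s (l : Fin (k + f + 1)) =>
    fhT H HN kb k ⌊o kb * J⌋₊ ⌊o kw * J⌋₊ (upw ⌊o kw * J⌋₊ ⌊v * J⌋₊ s) l,
    fun ω hω => ?_⟩
  funext l
  show frT G GN kb k (ptr F J ω) l = fhT H HN kb k ⌊o kb * J⌋₊ ⌊o kw * J⌋₊
    (upw ⌊o kw * J⌋₊ ⌊v * J⌋₊ (slam F ⌊v * J⌋₊ ω)) l
  rw [upw_slam F (Nat.floor_le_floor (mul_le_mul_of_nonneg_right h0v hJ)) (floor_le hv J)]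
  exact Pool.V0T.frt_cls W hb hbw (h0v.trans hv) L ω hω l (by omega)

end

/-! ### Labels which vanish above the targets -/

/-- The labels of the targets, zero above. -/
noncomputable def trN {α : Type} (n : ℕ) (G : α → ℕ → MvPolynomial (Option (Fin m)) ℝ) :
    α → ℕ → MvPolynomial (Option (Fin m)) ℝ := fun y l => if l ≤ n then G y l else 0

theorem trN_le {α : Type} {n : ℕ} (G : α → ℕ → MvPolynomial (Option (Fin m)) ℝ) {l : ℕ}
    (h : l ≤ n) (y : α) : trN n G y l = G y l := if_pos h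

theorem lbt_tr {k f D : ℕ} {w u φ E : ℝ} {sn : ℕ → ℝ → ℝ} {A : F.Ω → Prop} {γ : ℕ → ℕ}
    {Gw GN : PtT F → ℕ → MvPolynomial (Option (Fin m)) ℝ}
    {HN : LnT F → ℕ → MvPolynomial (Option (Fin m)) ℝ}
    (L : LbT F c k f D w u φ E sn A γ Gw GN HN) :
    LbT F c k f D w u φ E sn A γ Gw (trN (k + f) GN) (trN (k + f) HN) where
  deg := fun l h1 h2 => ⟨fun y => by
    rw [trN_le GN h2]
    exact (L.deg l h1 h2).1 y, fun s => by
    rw [trN_le HN h2]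
    exact (L.deg l h1 h2).2 s⟩
  dep := fun l h1 h2 => ⟨fun y => by
    rw [trN_le GN h2]
    exact (L.dep l h1 h2).1 y, fun s => by
    rw [trN_le HN h2]
    exact (L.dep l h1 h2).2 s⟩
  cls := fun l h1 h2 ω hω => by
    rw [trN_le GN h2, trN_le HN h2]
    exact L.cls l h1 h2 ω hω
  cfb := fun l h1 h2 => by
    have e : (fun s => trN (k + f) HN s l) = fun s => HN s l := funext fun s => trN_le HN h2 s
    rw [e]
    exact L.cfb l h1 h2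
  pos := fun l h1 h2 ω hω => by
    rw [trN_le GN h2]
    exact L.pos l h1 h2 ω hω
  near := by
    obtain ⟨κN, h⟩ := L.near
    refine ⟨κN, fun l h1 h2 ω hω x hx => ?_⟩
    rw [trN_le GN h2]
    exact h l h1 h2 ω hω x hx
  cell := fun l h1 h2 ω ν hω hν e => by
    rw [trN_le GN h2, trN_le GN h2]
    exact L.cell l h1 h2 ω ν hω hν e

/-- The gradients with the targets in another order, in given letters. -/
theorem grd_re2 {k C C' : ℕ} {mv : Fin k → ℕ} {tg qt Xt : Fin C → ℕ} {q X : ℕ} {γ : ℕ → ℕ}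
    {U : ℝ} {B : F.Ω → Prop} {G₀ : PtT F → ℕ → MvPolynomial (Option (Fin m)) ℝ}
    {gg : F.Ω → Fin C → Fin k → ℝ} {ζ χ₁ χ₂ : Type} {z : F.Ω → ζ} {Cj : F.Ω → χ₁}
    {Cx : F.Ω → χ₂} (h : GrdV F c mv tg qt Xt q X γ U B G₀ gg z Cj Cx) (pm : Fin C' → Fin C)
    {tg' qt' Xt' : Fin C' → ℕ} {gg' : F.Ω → Fin C' → Fin k → ℝ} (h1 : ∀ u, tg (pm u) = tg' u)
    (h2 : ∀ u, qt (pm u) = qt' u) (h3 : ∀ u, Xt (pm u) = Xt' u)
    (h4 : ∀ ω u j, gg ω (pm u) j = gg' ω u j) :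
    GrdV F c mv tg' qt' Xt' q X γ U B G₀ gg' z Cj Cx := by
  have e1 : (fun u => tg (pm u)) = tg' := funext h1
  have e2 : (fun u => qt (pm u)) = qt' := funext h2
  have e3 : (fun u => Xt (pm u)) = Xt' := funext h3
  have e4 : (fun ω u j => gg ω (pm u) j) = gg' := funext fun ω => funext fun u =>
    funext fun j => h4 ω u j
  rw [← e1, ← e2, ← e3, ← e4]
  exact grd_re h pm

/-- Jets of the places below `k` over frames which agree below `k`. -/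
theorem jet2_cg {k w : ℕ} {H H' : LnT F → ℕ → MvPolynomial (Option (Fin m)) ℝ}
    (h : ∀ s, ∀ l < k, H s l = H' s l) (n : ℕ → ℕ → ℝ) : jet2 F c w H 0 k n =
      jet2 F c w H' 0 k n := by
  funext ω l j'
  unfold jet2
  split_ifs with h1
  · rw [h _ l h1.2.1]
  · rfl

theorem ggT_tr {k : ℕ} (G : ℕ → PtT F → ℕ → MvPolynomial (Option (Fin m)) ℝ)
    (GN : PtT F → ℕ → MvPolynomial (Option (Fin m)) ℝ) (kb kn : ℕ) (γ : ℕ → ℕ) {n l : ℕ}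
    (h : l ≤ n) (ω : F.Ω) (i : ℕ) :
    ggT F c k G (trN n GN) kb kn γ l ω i = ggT F c k G GN kb kn γ l ω i := by
  unfold Pool.V0T.ggT
  have e : (fun y => trN n GN y l) = fun y => GN y l := funext fun y => trN_le GN h y
  rw [e]

end Pool.V0Q
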