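import Pool.Agent.H44.V0P.TwC

/-!
# The tie over canonical charts

`jets_le`: the jets of the slope-one places over other charts of the base window. `tieW_can`: the tie
`TieW` of two targets, both alive, from canonical charts and the own jets over the canonical labels.
-/

set_option autoImplicit false

namespace Pool.TW44

open Finset Real MvPolynomial
open Pool.Agent.H49.Ent Pool.Agent.H32.Dense Pool.STK Pool.KA Pool.KSAT Pool.K2S Pool.PB Pool.GEN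
open Pool.S6C Pool.RCD Pool.LA91 Pool.AVG96 Pool.V0F Pool.V0T Pool.D2R Pool.NVT16
open Pool.AVG57 (jet2 upw upw_slam)
open Pool.GRD (LbP)
open Pool.AJW (CfB)
open Pool.T462 (GNs HNs)
open Pool.STAT.NL (Bas.frac)
open Pool.T4C72 (BoxT WnT RadT DjT JtT TieIn TieW)

/-- **Positions and velocities** over other charts of the base window, to `ρ` digits. -/
theorem jets_le {m : ℕ} {S : PCl m} {c : ℕ → Fin m} {k : ℕ} {sn : ℕ → ℝ → ℝ} {G : Set ℝ}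
    {b o φ : ℝ} (L : Lad S c k sn G b o φ) (D D₁ : ℕ) {w w' ow E ρ : ℝ} (hw : w ∈ G)
    (hbw : b ≤ w) (hwo : w ≤ o) (how : b ≤ ow) (how1 : ow ≤ 1) (hρ : 0 ≤ ρ)
    (h1 : ρ + (20 * k + 40) * φ ≤ 1 - w) (hnat : ρ + (20 * k + 23) * φ ≤ w - b)
    {Nf : ℕ → ℕ → ℝ} (hNf : ∀ i < k, ∀ j : ℕ, j ≤ 1 →
      sn i w + ρ + (20 * k + 20) * φ - (j : ℝ) * w ≤ Nf i j) {ε : ℝ} (hε : 0 < ε) :
    Bas S (fun J F A => ∀ Hb Hb' H H' : LnT F → ℕ → MvPolynomial (Option (Fin m)) ℝ,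
      LV F c k D b φ E sn A Hb → LV F c k D₁ b φ E sn A Hb' →
      (∀ ω, ∀ l < k, H (slam F ⌊w' * J⌋₊ ω) l = Hb (slam F ⌊b * J⌋₊ ω) l) →
      (∀ ω, ∀ l < k, H' (slam F ⌊w' * J⌋₊ ω) l = Hb' (slam F ⌊b * J⌋₊ ω) l) →
      CH (Pool.Agent.H49.Ent.cond F.p A True)
        (jet2 F c ⌊w' * J⌋₊ H' 0 k (fun l j => sn l w + ρ - (j : ℝ) * w))
        (fun ω => (jet2 F c ⌊w' * J⌋₊ H 0 k Nf ω, (cR F A ow ω, F.W ω))) ≤ ε * J) := by
  have hφ := L.φ0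
  obtain ⟨n, hn⟩ : ∃ n : ℕ → ℝ, n = fun l => sn l w + ρ + 20 * ((k : ℝ) - l) * φ + 20 * φ :=
    ⟨_, rfl⟩
  have hnst : Nst k sn w φ n := by
    rw [hn]
    exact nst_of hφ hρ h1
  have hnl : ∀ l < k, sn l w + ρ ≤ n l ∧ n l ≤ sn l w + ρ + (20 * k + 20) * φ := by
    intro l hl
    have h3 := nst_le hl hφ
    have h4 : (l : ℝ) ≤ k := by exact_mod_cast hl.le
    have h5 : 0 ≤ 20 * ((k : ℝ) - l) * φ := by
      have : 0 ≤ (k : ℝ) - l := by linarith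
      positivity
    rw [hn]
    constructor
    · show sn l w + ρ ≤ sn l w + ρ + 20 * ((k : ℝ) - l) * φ + 20 * φ
      linarith
    · show sn l w + ρ + 20 * ((k : ℝ) - l) * φ + 20 * φ ≤ _
      linarith
  obtain ⟨q, hq⟩ : ∃ q : ℝ, q = ((k * (1 + 1) : ℕ) : ℝ) := ⟨_, rfl⟩
  have hq0 : 0 ≤ q := by rw [hq]; exact Nat.cast_nonneg _
  have hε' : 0 < ε / (2 * (q + 1)) := by positivity
  obtain ⟨J₁, hJ₁⟩ := exists_nat_ge (Real.log 5 / (ε / (2 * (q + 1))))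
  refine Bas.mono J₁ ((jets_tr L D D₁ (w' := w') (E := E) hw hbw hwo how how1 hnst (fun i hi => by
      have := (hnl i hi).2
      linarith) (Nf := Nf) (fun i hi j hj => by
      have := (hnl i hi).2
      have := hNf i hi j hj
      linarith) hε').and (pos_bas L.pos)) ?_
  rintro J hJ F A ⟨H1, hA⟩ Hb Hb' H H' lb lv hb hb'
  have hcl := isLaw_cond F.isLaw hA
  have h0 := hcl.nonneg
  have hJ0 : (0 : ℝ) ≤ J := Nat.cast_nonneg J
  have hJl : Real.log 5 ≤ ε / (2 * (q + 1)) * J := by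
    have h3 : (J₁ : ℝ) ≤ J := by exact_mod_cast hJ
    have h4 := hJ₁.trans h3
    rw [div_le_iff₀ hε'] at h4
    linarith
  have h2 := H1 Hb Hb' H H' lb lv hb hb'
  refine (CH_mono_left h0 (X' := fun ω (x : Fin k × Fin (1 + 1)) =>
      ⌊(2 : ℝ) ^ ((sn x.1 w + ρ - ((x.2 : ℕ) : ℝ) * w) * J) *
        ojet F (c x.1) x.2 (H' (slam F ⌊w' * J⌋₊ ω) x.1) ω⌋) fun ω ν _ _ e => ?_).trans
    ((Pool.AVG5.CH_fam h0 _ _).trans ?_)
  · funext i j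
    unfold jet2
    by_cases h : 0 ≤ i ∧ i < k ∧ j ≤ 1
    · rw [if_pos h, if_pos h]
      exact congrFun (Prod.ext_iff.mp e).1 (⟨i, h.2.1⟩, ⟨j, by omega⟩)
    · rw [if_neg h, if_neg h]
  have h3 : ∀ x ∈ (univ : Finset (Fin k × Fin (1 + 1))),
      CH (Pool.Agent.H49.Ent.cond F.p A True) (fun ω =>
          ⌊(2 : ℝ) ^ ((sn x.1 w + ρ - ((x.2 : ℕ) : ℝ) * w) * J) *
            ojet F (c x.1) x.2 (H' (slam F ⌊w' * J⌋₊ ω) x.1) ω⌋)
        (fun ω => (jet2 F c ⌊w' * J⌋₊ H 0 k Nf ω, (cR F A ow ω, F.W ω))) ≤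
        ε / (2 * (q + 1)) * J + ε / (2 * (q + 1)) * J := by
    intro x _
    have h4 := (hnl x.1 x.1.2).1
    refine (ch_fewer hcl (fun ω => ojet F (c x.1) x.2 (H' (slam F ⌊w' * J⌋₊ ω) x.1) ω) _
      (b := (n x.1 - ((x.2 : ℕ) : ℝ) * w) * J)
      (mul_le_mul_of_nonneg_right (by linarith) hJ0)).trans (add_le_add ?_ hJl)
    refine (CH_mono_left h0 fun ω ν _ _ e => ?_).trans h2
    have h5 : jet2 F c ⌊w' * J⌋₊ H' 0 k (fun l j => n l - (j : ℝ) * w) ω x.1 x.2 =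
        jet2 F c ⌊w' * J⌋₊ H' 0 k (fun l j => n l - (j : ℝ) * w) ν x.1 x.2 :=
      congrFun (congrFun (Prod.ext_iff.mp e).1 x.1) x.2
    unfold jet2 at h5
    have h6 : 0 ≤ (x.1 : ℕ) ∧ (x.1 : ℕ) < k ∧ (x.2 : ℕ) ≤ 1 := ⟨Nat.zero_le _, x.1.2, by omega⟩
    rw [if_pos h6, if_pos h6] at h5
    exact h5
  refine (Finset.sum_le_sum h3).trans ?_
  rw [Finset.sum_const, Finset.card_univ, Fintype.card_prod, Fintype.card_fin, Fintype.card_fin,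
    nsmul_eq_mul, ← hq]
  have h7 : ε / (2 * (q + 1)) * (J : ℝ) + ε / (2 * (q + 1)) * J = ε * J / (q + 1) := by
    field_simp
    ring
  rw [h7, mul_div_assoc', div_le_iff₀ (by positivity)]
  have : 0 ≤ ε * (J : ℝ) := by positivity
  nlinarith

/-- Smaller events. -/
theorem LV.sub {m J : ℕ} {F : Fam m J} {c : ℕ → Fin m} {k D : ℕ} {v φ E : ℝ} {sn : ℕ → ℝ → ℝ}
    {A B : F.Ω → Prop} {H : LnT F → ℕ → MvPolynomial (Option (Fin m)) ℝ}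
    (h : LV F c k D v φ E sn A H) (hB : Sub B A) : LV F c k D v φ E sn B H :=
  ⟨fun l hl => by
    obtain ⟨V, z, z', G, h1, h2⟩ := h.lb l hl
    exact ⟨V, z, z', G, h1.sub hB, h2⟩, fun l hl ω hω => h.cf l hl ω (hB ω hω)⟩

/-- **The charts of a base window** with bounded own paths. -/
theorem lv_win {m J : ℕ} {F : Fam m J} {c : ℕ → Fin m} {k k' D Dr N M : ℕ} {C₀ a Eb ηm : ℝ}
    {ow η σ : ℕ → ℝ} {lv bb : ℕ → ℕ → ℝ} {κ : ℝ} {z : ℕ → ℕ → ℕ}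
    {A : F.Ω → Prop} {g₀ : ℕ → ℕ → ℕ} {G : ℕ → PtT F → ℕ → MvPolynomial (Option (Fin m)) ℝ}
    {H : ℕ → LnT F → ℕ → MvPolynomial (Option (Fin m)) ℝ} {sn : ℕ → ℝ → ℝ} {v φ : ℝ}
    (W : WinB F c k' D Dr N M C₀ a Eb ηm ow η σ lv bb κ z A g₀ G H) {j : ℕ} (hj : j ≤ N)
    (hk : k ≤ k') (hv : ow j = v) (hlv : ∀ l < k, lv j l = sn l v) (hη : ηm ≤ φ)
    (hcf : ∀ l < k, CfB F ⌊v * J⌋₊ 1 (c l) A (fun s => s) (fun s => H j s l)) :
    LV F c k D v φ 1 sn A (H j) := by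
  have hJ : (0 : ℝ) ≤ J := Nat.cast_nonneg J
  have hev := W.ev _ hj
  rw [hv] at hev
  refine ⟨fun l hl => ?_, hcf⟩
  refine ⟨_, _, _, _, lb_of hev.ball (fun ω hω l hl => hev.cls ω hω l hl)
      (show l < k' + 1 by omega) (Nat.floor_le_of_le ?_), fun s => rfl⟩
  obtain ⟨-, -, h1, -⟩ := W.g_num hj (show l ≤ k' by omega)
  rw [hlv l hl] at h1
  have : ηm * J ≤ φ * J := mul_le_mul_of_nonneg_right hη hJ
  linarith

/-- A larger degree. -/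
theorem LbT.deg' {m J : ℕ} {F : Fam m J} {c : ℕ → Fin m} {k f D D' : ℕ} {w u φ E : ℝ}
    {sn : ℕ → ℝ → ℝ} {A : F.Ω → Prop} {g₀ : ℕ → ℕ}
    {Gw GN : PtT F → ℕ → MvPolynomial (Option (Fin m)) ℝ}
    {HN : LnT F → ℕ → MvPolynomial (Option (Fin m)) ℝ}
    (h : LbT F c k f D w u φ E sn A g₀ Gw GN HN) (hD : D ≤ D') :
    LbT F c k f D' w u φ E sn A g₀ Gw GN HN :=
  ⟨fun l a b => ⟨fun y => ((h.deg l a b).1 y).trans hD, fun s => ((h.deg l a b).2 s).trans hD⟩,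
    h.dep, h.cls, h.cfb, h.pos, h.near, h.cell⟩

/-- **The codes from the jets** over other data. -/
theorem cod_jets {m J D : ℕ} {F : Fam m J} {p : F.Ω → ℝ} (hp : IsLaw p) {w : ℝ} (hw0 : 0 ≤ w)
    (hwJ : ⌊w * J⌋₊ ≤ J) (hJ : 0 < J) {κ : Fin m}
    {H : LnT F → MvPolynomial (Option (Fin m)) ℝ} (hdeg : ∀ s, (H s).totalDegree ≤ D) {N' a₀ : ℕ}
    {ν : ℝ} (hν : (N' : ℝ) ≤ ν * J) {α β γ : Type} (Yc : F.Ω → α) (Yg : F.Ω → β) (R : F.Ω → γ)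
    {e e₂ : ℝ} (he0 : 0 ≤ e) (he : ∀ i : ℕ, a₀ ≤ i → i ≤ D + 1 →
      CH p (fun ω => ⌊(2 : ℝ) ^ ((ν - i * w) * J) * ojet F κ i (H (slam F ⌊w * J⌋₊ ω)) ω⌋)
        (fun ω => (Yc ω, (R ω, F.W ω))) ≤ e)
    (hj : CH p Yc (fun ω => (Yg ω, (R ω, F.W ω))) ≤ e₂) :
    CH p (Pool.AVG57.cod F ⌊w * J⌋₊ H κ N' a₀ (D + 1)) (fun ω => (Yg ω, (R ω, F.W ω))) ≤
      ((D + 2 : ℕ) : ℝ) * (e + Real.log (2 * (2 ^ (2 * (D + 1) + 1) + 1) + 1)) + e₂ := by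
  have h0 := hp.nonneg
  have h1 := cod_sum hp hw0 hwJ hJ hdeg (N' := N') (a₀ := a₀) (ν := fun i => ν - i * w)
    (fun i _ _ => by
      have e1 : (ν - (i : ℝ) * w + i * w) = ν := by ring
      rw [e1]
      exact hν) (fun ω => (Yc ω, (R ω, F.W ω))) (fun ω ω' _ _ h => by
      have h2 : F.W ω = F.W ω' := (Prod.ext_iff.mp (Prod.ext_iff.mp h).2).2
      exact (Prod.ext_iff.mp h2).1) he0 he
  have h2 := CH_le_add h0 (Pool.AVG57.cod F ⌊w * J⌋₊ H κ N' a₀ (D + 1)) Yc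
    (fun ω => (Yg ω, (R ω, F.W ω)))
  have h3 : CH p (Pool.AVG57.cod F ⌊w * J⌋₊ H κ N' a₀ (D + 1))
      (fun ω => (Yc ω, (Yg ω, (R ω, F.W ω)))) ≤
      CH p (Pool.AVG57.cod F ⌊w * J⌋₊ H κ N' a₀ (D + 1)) (fun ω => (Yc ω, (R ω, F.W ω))) :=
    CH_mono_cond h0 fun ω ω' _ _ h => by
      simp only [Prod.mk.injEq] at h ⊢
      exact ⟨h.1, h.2.2⟩
  linarith

/-- **The tie over canonical charts**: both targets are alive. -/
theorem tieW_can (m k D D₁ : ℕ) {s : ℝ} (hs : 1 < s) : ∃ D' : ℕ, D ≤ D' ∧ ∀ δ : ℝ, 0 < δ →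
    ∃ T₀ δ₁ : ℝ, 0 < δ₁ ∧ ∀ T : ℝ, T₀ ≤ T → ∃ Λ₀ : ℝ, 1 ≤ Λ₀ ∧ ∀ φ : ℝ, 0 < φ → φ ≤ 1 →
    ∃ e : ℝ, 0 < e ∧ ∀ {S : PCl m} {c : ℕ → Fin m} {D₀ : ℕ} {sn sp : ℕ → ℝ → ℝ} {G : Set ℝ}
      {h b o w u Λ φ' e' : ℝ} {lam : ℝ → ℝ}, Λ₀ ≤ Λ → φ' ≤ e * u →
      BoxT S c k 1 D₀ sn sp G s h b o w u Λ φ' e' lam →
      ∀ {Dr N M : ℕ} {C₀ a Eb ηm : ℝ} {ow η σ : ℕ → ℝ} {lv bb : ℕ → ℕ → ℝ} {f : ℕ → ℕ} {n t : ℕ},
      ChW k sn G b o φ' N C₀ ηm ow lv f n → t ≤ n → ow (f t) = w → w + u ≤ ow (f n) + φ' →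
      (∀ l ≤ k + 1, Eb + sn l w + Λ * u ≤ 1) → ∀ {X : CanD m},
      CheC S c k D₁ Dr N M C₀ a Eb ηm ow η σ lv bb f n X →
      StF S c k sn X f t s b w u (T - 1) δ₁ → StN S c k sn X f t s b w u (φ * u) φ' δ₁ →
      ∀ {n₀ : ℕ} {al : Fin (n₀ + 1) → ℕ}, (∀ i, al i ≤ 1) →
      TieW S c k 1 D D' al sn G s b w u Λ T δ (φ * u) φ' D' := by
  obtain ⟨D', hD'⟩ : ∃ D', D' = max D (D₁ * D₁ + D₁) := ⟨_, rfl⟩
  have hDD : D ≤ D' := by rw [hD']; exact le_max_left _ _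
  have hD1 : D₁ * D₁ + D₁ ≤ D' := by rw [hD']; exact le_max_right _ _
  refine ⟨D', hDD, ?_⟩
  intro δ hδ
  obtain ⟨d, hd⟩ : ∃ d : ℝ, d = ((D' + 2 : ℕ) : ℝ) := ⟨_, rfl⟩
  have hd2 : 2 ≤ d := by
    rw [hd]
    push_cast
    have : (0 : ℝ) ≤ D' := Nat.cast_nonneg _
    linarith
  obtain ⟨δ₁, hδ₁⟩ : ∃ δ₁ : ℝ, δ₁ = δ / (4 * d) := ⟨_, rfl⟩
  have hδ1 : 0 < δ₁ := by rw [hδ₁]; positivity
  have hdδ1 : d * δ₁ = δ / 4 := by
    rw [hδ₁]
    field_simp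
  refine ⟨4, δ₁, hδ1, ?_⟩
  intro T hT
  obtain ⟨μ, hμ⟩ : ∃ μ : ℝ, μ = min 1 ((⌊s⌋₊ : ℝ) + 1 - s) := ⟨_, rfl⟩
  have hμ0 : 0 < μ := by
    rw [hμ]
    have := Nat.lt_floor_add_one s
    exact lt_min one_pos (by linarith)
  have hμ1 : μ ≤ 1 := by rw [hμ]; exact min_le_left _ _
  have hμi : ∀ i : ℕ, s < i → μ ≤ min 1 ((i : ℝ) - s) := by
    intro i hi
    have h1 : ⌊s⌋₊ < i := (Nat.floor_lt (by linarith)).2 hi
    have h2 : ((⌊s⌋₊ + 1 : ℕ) : ℝ) ≤ i := by exact_mod_cast h1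
    push_cast at h2
    rw [hμ]
    exact min_le_min le_rfl (by linarith)
  obtain ⟨Λ₀, hΛ₀⟩ : ∃ Λ₀ : ℝ, Λ₀ = T + 20 * k + 60 + 8 / μ := ⟨_, rfl⟩
  have hk0 : (0 : ℝ) ≤ k := Nat.cast_nonneg _
  have hμ8 : 0 < 8 / μ := by positivity
  refine ⟨Λ₀, by linarith, ?_⟩
  intro φ hφ hφ1
  choose Cf hCf1 hCf using fun i => far_ord m D₁ k i
  choose Cn hCn1 hCn using fun i => near_ord m D₁ k i
  obtain ⟨Cl, hCl1, hCl⟩ := lbt_che D₁ k
  obtain ⟨C, hC⟩ : ∃ C : ℕ, C = ∑ i ∈ range (D' + 2), (Cf i + Cn i) + Cl := ⟨_, rfl⟩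
  have hCi : ∀ i < D' + 2, Cf i ≤ C ∧ Cn i ≤ C := by
    intro i hi
    have h1 : Cf i + Cn i ≤ ∑ i ∈ range (D' + 2), (Cf i + Cn i) :=
      Finset.single_le_sum (f := fun i => Cf i + Cn i) (fun _ _ => Nat.zero_le _)
        (Finset.mem_range.2 hi)
    omega
  have hCli : Cl ≤ C := by omega
  obtain ⟨K, hK⟩ : ∃ K : ℝ, K = (C + 1) * (s + 3) * (20 * k + 60) := ⟨_, rfl⟩
  have hC0 : (0 : ℝ) ≤ C := Nat.cast_nonneg _
  have hK0 : 0 < K := by rw [hK]; positivity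
  obtain ⟨e, he⟩ : ∃ e : ℝ, e = min φ (δ / d) / (8 * K) := ⟨_, rfl⟩
  have hm0 : 0 < min φ (δ / d) := lt_min hφ (by positivity)
  refine ⟨e, by rw [he]; positivity, ?_⟩
  intro S c D₀ sn sp G h b o w u Λ φ' e' lam hΛ hφ' Bx Dr N M C₀ a Eb ηm ow η σ lv bb f n t hw ht
    hwt hwn hEb X hX hF hN n₀ al hal Dr' N' M' C₀' a' Eb' ηm' ow' η' σ' lv' bb' fb fn nb n' ks hDr' Wn
  have L := Bx.lad
  have hφ'0 := L.φ0
  have hu := Bx.u0
  have hΛ0 : 0 < Λ := by linarith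
  -- the numbers
  have hKφ : K * φ' ≤ min φ (δ / d) / 8 * u := by
    have h1 : K * φ' ≤ K * (e * u) := mul_le_mul_of_nonneg_left hφ' hK0.le
    have h2 : K * (e * u) = min φ (δ / d) / 8 * u := by
      rw [he]
      field_simp
    linarith
  have hKφ1 : K * φ' ≤ φ / 8 * u := hKφ.trans (mul_le_mul_of_nonneg_right
    (by linarith [min_le_left φ (δ / d)]) hu.le)
  have hKφ2 : K * φ' ≤ δ / d / 8 * u := hKφ.trans (mul_le_mul_of_nonneg_right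
    (by linarith [min_le_right φ (δ / d)]) hu.le)
  have hsp : 1 ≤ (s + 3) := by linarith
  have hk60 : (1 : ℝ) ≤ 20 * k + 60 := by linarith
  have hKC : (C : ℝ) * ((s + 3) * φ') ≤ K * φ' := by
    have h1 : (C : ℝ) * (s + 3) ≤ K := by
      rw [hK]
      have h2 : (C : ℝ) * (s + 3) ≤ (C + 1) * (s + 3) := by nlinarith
      have h3 : (C + 1 : ℝ) * (s + 3) * 1 ≤ (C + 1) * (s + 3) * (20 * k + 60) :=
        mul_le_mul_of_nonneg_left hk60 (by positivity)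
      linarith
    have := mul_le_mul_of_nonneg_right h1 hφ'0.le
    linarith
  have hKk : (20 * (k : ℝ) + 60) * φ' ≤ K * φ' := by
    refine mul_le_mul_of_nonneg_right ?_ hφ'0.le
    rw [hK]
    have h3 : (1 : ℝ) ≤ (C + 1) * (s + 3) := by nlinarith
    nlinarith
  have hys : 0 ≤ (s + 3) * φ' := by positivity
  have hCle : ∀ {C' : ℕ}, C' ≤ C → (C' : ℝ) * ((s + 3) * φ') ≤ C * ((s + 3) * φ') := fun hc =>
    mul_le_mul_of_nonneg_right (by exact_mod_cast hc) hys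
  have hφu1 : φ / 8 * u ≤ u / 8 := by
    have := mul_le_mul_of_nonneg_right hφ1 hu.le
    linarith
  have hΛu0 : Λ₀ * u ≤ Λ * u := mul_le_mul_of_nonneg_right hΛ hu.le
  have hΛe : Λ₀ * u = T * u + 20 * k * u + 60 * u + 8 / μ * u := by rw [hΛ₀]; ring
  have hku : 0 ≤ 20 * (k : ℝ) * u := by positivity
  have hTu : 4 * u ≤ T * u := mul_le_mul_of_nonneg_right hT hu.le
  have hμu : μ * (8 / μ * u) = 8 * u := by field_simp
  have hbw : b ≤ w := by linarith [Bx.bw, mul_pos hΛ0 hu]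
  have hbw8 : 8 / μ * u ≤ w - b := by linarith [Bx.bw]
  have hμw : 8 * u ≤ μ * (w - b) := by
    have := mul_le_mul_of_nonneg_left hbw8 hμ0.le
    linarith
  have hφu : 0 < φ * u := mul_pos hφ hu
  have hφu' : φ * u ≤ u := by
    have := mul_le_mul_of_nonneg_right hφ1 hu.le
    linarith
  have hμ80 : 0 ≤ 8 / μ * u := by positivity
  have hwo : w ≤ o := by linarith [Bx.wo]
  have h1T : T * u + 60 * u ≤ 1 - w := by linarith [Bx.wo, Bx.o1]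
  have hbT : T * u + 60 * u ≤ w - b := by linarith [Bx.bw]
  have h1w : 60 * u ≤ 1 - w := by linarith [Bx.wo, Bx.o1]
  have hw0 : 0 ≤ w := by linarith [Bx.b0]
  have hw1 : w ≤ 1 := by linarith
  have hk6 : (20 * (k : ℝ) + 60) * φ' = 20 * k * φ' + 60 * φ' := by ring
  have hkφ : 0 ≤ 20 * (k : ℝ) * φ' := by positivity
  -- the slopes
  have hl : Lns k sn G b o φ' s (fun l => sn l w - s * w) := by
    intro l h1 h2 v hv hbv hvo
    have h3 := Bx.lin l h1 h2 v hv hbv hvo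
    have e1 : sn l v - (sn l w - s * w + s * v) = sn l v - sn l w - s * (v - w) := by ring
    show |sn l v - (sn l w - s * w + s * v)| ≤ φ'
    rw [e1]
    exact h3
  have hbl : ∀ l ≤ k + 1, Λ * u ≤ sn l b := fun l hl => (Bx.room l hl).1
  have hlevb : ∀ {C' : ℕ}, C' ≤ C → (C' : ℝ) * ((s + 3) * φ') ≤ sn (k + 1) b := fun hc => by
    have := hCle hc
    have := hbl (k + 1) le_rfl
    linarith
  have hlevw : ∀ l, k ≤ l → l ≤ k + 1 → u ≤ sn l w := by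
    intro l h1 h2
    have h3 := abs_le.1 (lin_of hl h1 h2 L.bG Bx.wG le_rfl L.bo hbw hwo)
    have h4 := hbl l h2
    have h5 : 0 ≤ s * (w - b) := mul_nonneg (by linarith) (by linarith)
    linarith [h3.1]
  -- the orders
  obtain ⟨ε, hε⟩ : ∃ ε : ℝ, ε = δ * u / (16 * d) := ⟨_, rfl⟩
  have hε0 : 0 < ε := by rw [hε]; positivity
  have hdε : d * ε = δ * u / 16 := by
    rw [hε]
    field_simp
  have BF : Bas S (fun J F A => ∀ r < 2, ∀ i < D' + 2, 1 ≤ i → ∀ κ : ℝ,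
      ChE F c k D₁ Dr N M C₀ a Eb ηm ow η σ lv bb f n κ (X.z J F) A (X.g J F) (X.G J F)
        (X.H J F) → ∀ Hj : LnT F → ℕ → MvPolynomial (Option (Fin m)) ℝ,
      (∀ ω, ∀ l < k, Hj (slam F ⌊w * J⌋₊ ω) l = X.H J F (f 0) (slam F ⌊b * J⌋₊ ω) l) →
      CH (Pool.Agent.H49.Ent.cond F.p A True)
        (fun ω => ⌊(2 : ℝ) ^ ((sn (k + r) w + 2 * u - i * w) * J) * ojet F (c (k + r)) i
          (HNs c (X.H J F) k (f 0) (f t) ⌊b * J⌋₊ ⌊w * J⌋₊ (slam F ⌊w * J⌋₊ ω) (k + r)) ω⌋)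
        (fun ω => (jet2 F c ⌊w * J⌋₊ Hj 0 k (fun l' j' => sn l' w + (T - 1) * u - (j' : ℝ) * w) ω,
          (cR F A w ω, F.W ω))) ≤ (δ₁ * u + ε) * J) := by
    refine Bas.all 2 fun r hr => Bas.all (D' + 2) fun i hi => ?_
    by_cases hi0 : i = 0
    · exact ⟨1, one_pos, 0, fun _ _ _ _ _ h => absurd h (by omega)⟩
    refine Bas.mono 0 (hCf i (Dr := Dr) (M := M) (a := a) (Eb := Eb) (η := η) (σ := σ) (bb := bb)
      L hl hs hw (hlevb (hCi i hi).1) (X := X) (t := t) (l := k + r) (w := w) (u := u)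
      (T := T - 1) (δ := δ₁) (μ := μ) (ε := ε) ht hwt (Nat.le_add_right _ _) (by omega) hu (by
        have := hCle (hCi i hi).1
        linarith) (by omega) (hμi i) (by linarith) (by linarith) (by linarith) hδ1.le hF hε0) ?_
    rintro J - F A h -
    exact h
  have hon := abs_le.1 Wn.on
  have BN : Bas S (fun J F A => ∀ r < 2, ∀ i < D' + 2, ∀ κ : ℝ,
      ChE F c k D₁ Dr N M C₀ a Eb ηm ow η σ lv bb f n κ (X.z J F) A (X.g J F) (X.G J F)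
        (X.H J F) → ∀ Hj : LnT F → ℕ → MvPolynomial (Option (Fin m)) ℝ,
      (∀ ω, ∀ l < k, Hj (slam F ⌊w * J⌋₊ ω) l = X.H J F (f 0) (slam F ⌊b * J⌋₊ ω) l) →
      CH (Pool.Agent.H49.Ent.cond F.p A True)
        (fun ω => ⌊(2 : ℝ) ^ ((sn (k + r) w + u - i * w) * J) * ojet F (c (k + r)) i
          (HNs c (X.H J F) k (f 0) (f t) ⌊b * J⌋₊ ⌊w * J⌋₊ (slam F ⌊w * J⌋₊ ω) (k + r)) ω⌋)
        (fun ω => (jet2 F c ⌊w * J⌋₊ Hj 0 k (fun l' j' => sn l' w + (u + φ * u) - (j' : ℝ) * w) ω,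
          (cR F A (ow' (fn n')) ω, F.W ω))) ≤ (δ₁ * u + C * ((s + 3) * φ') + ε) * J) := by
    refine Bas.all 2 fun r hr => Bas.all (D' + 2) fun i hi => ?_
    have h3 := hCle (hCi i hi).2
    refine Bas.mono 0 (hCn i (Dr := Dr) (M := M) (a := a) (Eb := Eb) (η := η) (σ := σ) (bb := bb)
      L hl hs hw (hlevb (hCi i hi).2) (X := X) (t := t) (l := k + r) (w := w) (u := u)
      (ψ := φ * u) (δ := δ₁) (μ := μ) (ox := ow' (fn n')) (ε := ε) ht hwt hwn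
      (Nat.le_add_right _ _) (by omega) hu (by linarith) (by linarith) (hμi i) hμ1 (by linarith)
      (by linarith) (by linarith) (by linarith) hδ1.le hN hε0) ?_
    rintro J - F A h κ hE Hj hHj
    refine (h κ hE Hj hHj).trans (mul_le_mul_of_nonneg_right (by linarith) (Nat.cast_nonneg J))
  -- the change of the charts
  have Ld := L.toLadR.lad
  have hδu : 0 < δ * u / 16 := by positivity
  have JF := jets_le Ld D D₁ (w := w) (w' := w) (ow := w) (E := 1) (ρ := (T - 1) * u) Bx.wG hbw hwo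
    hbw hw1 (mul_nonneg (by linarith) hu.le) (by linarith) (by linarith)
    (Nf := fun l' j' => sn l' w + T * u - (j' : ℝ) * w) (fun l' _ j' _ => by
      linarith) hδu
  have hk4 : 400 * ((k : ℝ) + 2) * (φ * u) = 400 * k * (φ * u) + 800 * (φ * u) := by ring
  have hkφu : 0 ≤ 400 * (k : ℝ) * (φ * u) := by positivity
  have JN := jets_le Ld D D₁ (w := w) (w' := w) (ow := ow' (fn n')) (E := 1) (ρ := u + φ * u) Bx.wG
    hbw hwo (by linarith) (by linarith) (by linarith) (by linarith) (by linarith)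
    (Nf := fun l' j' => sn l' w + u + 400 * ((k : ℝ) + 2) * (φ * u) - (j' : ℝ) * w)
    (fun l' _ j' _ => by
      linarith) hδu
  obtain ⟨J₀, hJ₀⟩ := hCl (Dr := Dr) (M := M) (a := a) (Eb := Eb) (η := η) (σ := σ) (bb := bb) L hl
    (by linarith) hw (t := t) (u := u) (ψ := φ * u / 2) ht hu (by linarith) (by
      have := hCle hCli
      linarith) (fun l h1 h2 => by
      rw [hwt]
      linarith [hlevw l h1 h2]) (fun l h2 => by
      rw [hwt]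
      linarith [hEb l h2])
  obtain ⟨lg, hlg⟩ : ∃ lg : ℝ, lg = Real.log (2 * (2 ^ (2 * (D' + 1) + 1) + 1) + 1) := ⟨_, rfl⟩
  obtain ⟨J₁, hJ₁⟩ := exists_nat_ge (d * lg / (δ * u / 4))
  obtain ⟨J₂, hJ₂⟩ := exists_nat_ge (2 / (φ * u / 4))
  refine ⟨1 / 4, 1 / 2, by norm_num, by norm_num, Bas.mono (max (max J₀ J₁) (max J₂ 1)) (Bas.frac
    (Bas.and hX (BF.and (BN.and (JF.and (JN.and (pos_bas L.pos)))))) (c := 1 / 4) (by norm_num)) ?_⟩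
  intro J hJ F A hfr κ z g₀ Gc H hκ W Rd hcf
  have hJ0 : (0 : ℝ) ≤ J := Nat.cast_nonneg J
  have hJ₀' : J₀ ≤ J := (le_max_left _ _).trans ((le_max_left _ _).trans hJ)
  have hJ1 : d * lg ≤ δ * u / 4 * J := by
    have h3 : (J₁ : ℝ) ≤ J := by
      exact_mod_cast (le_max_right _ _).trans ((le_max_left _ _).trans hJ)
    have h4 := hJ₁.trans h3
    rw [div_le_iff₀ (by positivity)] at h4
    linarith
  have hJ2 : 2 ≤ φ * u / 4 * J := by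
    have h3 : (J₂ : ℝ) ≤ J := by
      exact_mod_cast (le_max_left _ _).trans ((le_max_right _ _).trans hJ)
    have h4 := hJ₂.trans h3
    rw [div_le_iff₀ (by positivity)] at h4
    linarith
  have hJp : 0 < J := (le_max_right _ _).trans ((le_max_right _ _).trans hJ)
  have hA0 := Pe_nonneg F.isLaw A
  obtain ⟨⟨κc, hE⟩, -⟩ := hfr A (fun _ h => h) (by linarith)
  have hfw : ⌊w * (J : ℝ)⌋₊ ≤ J := floor_le hw1 J
  have hfbw : ⌊b * (J : ℝ)⌋₊ ≤ ⌊w * (J : ℝ)⌋₊ :=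
    Nat.floor_le_floor (mul_le_mul_of_nonneg_right hbw hJ0)
  have hnN := Wn.fnN 0 (Nat.zero_le _)
  have hbN := Wn.fbN 0 (Nat.zero_le _)
  have hηm0 : 0 ≤ ηm' := (W.hη _ hnN).1.trans (W.hη _ hnN).2
  have hηm : ηm' ≤ φ' := (le_mul_of_one_le_left hηm0 W.C1).trans Wn.C0
  obtain ⟨GN, hGN⟩ : ∃ GN, GN = GNs c (X.G J F) k (f 0) (f t) := ⟨_, rfl⟩
  obtain ⟨HN, hHN⟩ : ∃ HN, HN = HNs c (X.H J F) k (f 0) (f t) ⌊b * J⌋₊ ⌊w * J⌋₊ := ⟨_, rfl⟩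
  have hL1 := hJ₀ J hJ₀' hE
  rw [hwt, hw.ob, ← hGN, ← hHN] at hL1
  obtain ⟨B, hBA, hBP, hL⟩ := lbt_near W L.inj hnN (w := w) (u := u) (ψ := φ * u / 2)
    (φ := φ * u) (sn := sn) Wn.ow0 (fun l hl => by rw [Wn.lv _ hnN l hl, Wn.ow0]) (hDD.trans hDr')
    hDr' (by linarith) (by linarith) (fun l h1 h2 => by linarith [hlevw l h1 h2]) (by
      have h3 : φ * u / 4 ≤ φ * u - φ * u / 2 - ηm' := by linarith
      have := mul_le_mul_of_nonneg_right h3 hJ0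
      linarith) hκ (LbT.deg' hL1 hD1)
  obtain ⟨⟨κb, hEB⟩, hBF, hBN, hJF, hJN, hpB⟩ := hfr B hBA hBP
  have hcl := isLaw_cond F.isLaw hpB
  -- the charts of `b`
  have lv1 : LV F c k D b φ' 1 sn B (H (fb 0)) := LV.sub (lv_win W hbN (by omega) Wn.ob
    (fun l hl => by rw [Wn.lv _ hbN l (by omega), Wn.ob]) hηm hcf) hBA
  have lv2 : LV F c k D₁ b φ' 1 sn B (X.H J F (f 0)) := by
    have := (lv_of hEB hw (Nat.zero_le n)).take (Nat.le_succ k)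
    rwa [hw.ob] at this
  obtain ⟨H1, hH1⟩ : ∃ H1, H1 = fhT H HN (fb 0) k ⌊b * J⌋₊ ⌊w * J⌋₊ := ⟨_, rfl⟩
  obtain ⟨H2, hH2⟩ : ∃ H2, H2 = fhT (X.H J F) HN (f 0) k ⌊b * J⌋₊ ⌊w * J⌋₊ := ⟨_, rfl⟩
  have e1 : ∀ ω, ∀ l < k, H1 (slam F ⌊w * J⌋₊ ω) l = H (fb 0) (slam F ⌊b * J⌋₊ ω) l := by
    intro ω l hl
    rw [hH1]
    show (if l < k then H (fb 0) (upw ⌊b * J⌋₊ ⌊w * J⌋₊ (slam F ⌊w * J⌋₊ ω)) l else _) = _
    rw [if_pos hl, upw_slam F hfbw hfw]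
  have e2 : ∀ ω, ∀ l < k, H2 (slam F ⌊w * J⌋₊ ω) l = X.H J F (f 0) (slam F ⌊b * J⌋₊ ω) l := by
    intro ω l hl
    rw [hH2]
    show (if l < k then X.H J F (f 0) (upw ⌊b * J⌋₊ ⌊w * J⌋₊ (slam F ⌊w * J⌋₊ ω)) l else _) = _
    rw [if_pos hl, upw_slam F hfbw hfw]
  have j1 := hJF _ _ H1 H2 lv1 lv2 e1 e2
  have j2 := hJN _ _ H1 H2 lv1 lv2 e1 e2
  have hlk : ∀ i, k ≤ k + al i ∧ k + al i ≤ k + 1 := fun i => ⟨Nat.le_add_right _ _, by
    have := hal i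
    omega⟩
  have hdl : ∀ i, ∀ s', (HN s' (k + al i)).totalDegree ≤ D' := fun i =>
    (hL.deg _ (hlk i).1 (hlk i).2).2
  have hdC : d * (C * ((s + 3) * φ')) ≤ δ / 8 * u := by
    have h3 : d * (C * ((s + 3) * φ')) ≤ d * (δ / d / 8 * u) :=
      mul_le_mul_of_nonneg_left (by linarith) (by linarith)
    have h4 : d * (δ / d / 8 * u) = δ / 8 * u := by field_simp
    linarith
  refine ⟨B, GN, HN, hBA, hBP, hL, ?_, ?_⟩
  · intro i N₁ hN₁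
    have h3 := cod_jets hcl (w := w) (N' := N₁) (a₀ := 1) (ν := sn (k + al i) w + 2 * u)
      (κ := c (k + al i)) (H := fun s' => HN s' (k + al i)) (D := D') (by linarith) hfw hJp
      (hdl i) (hN₁.trans (mul_le_mul_of_nonneg_right (by
        have h5 : (s - 1) / s ≤ 1 := by
          rw [div_le_one (by linarith)]
          linarith
        have := mul_le_mul_of_nonneg_right h5 hu.le
        linarith) hJ0)) _ _ (cR F B w) (e := (δ₁ * u + ε) * J) (by positivity)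
      (fun i' h5 h6 => by
        have h7 := hBF (al i) (by have := hal i; omega) i' (by omega) h5 κb hEB H2 e2
        rw [← hHN] at h7
        exact h7) j1
    rw [← hH1]
    refine h3.trans ?_
    rw [← hlg, ← hd]
    have h8 : d * ((δ₁ * u + ε) * J + lg) = (d * δ₁) * u * J + (d * ε) * J + d * lg := by ring
    have h9 : 0 ≤ δ * u * J := by positivity
    have h10 : δ / 4 * u * J + δ * u / 16 * J + δ * u / 4 * J + δ * u / 16 * J =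
      5 / 8 * (δ * u * J) := by ring
    rw [h8, hdδ1, hdε]
    linarith only [h9, h10, hJ1]
  · intro i N₁ hN₁
    have h3 := cod_jets hcl (w := w) (N' := N₁) (a₀ := 0) (ν := sn (k + al i) w + u)
      (κ := c (k + al i)) (H := fun s' => HN s' (k + al i)) (D := D') (by linarith) hfw hJp
      (hdl i) hN₁ _ _ (cR F B (ow' (fn n'))) (e := (δ₁ * u + C * ((s + 3) * φ') + ε) * J)
      (by positivity)
      (fun i' h5 h6 => by
        have h7 := hBN (al i) (by have := hal i; omega) i' (by omega) κb hEB H2 e2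
        rw [← hHN] at h7
        exact h7) j2
    rw [← hH1]
    refine h3.trans ?_
    rw [← hlg, ← hd]
    have h8 : d * ((δ₁ * u + C * ((s + 3) * φ') + ε) * J + lg) = (d * δ₁) * u * J +
      (d * (C * ((s + 3) * φ'))) * J + (d * ε) * J + d * lg := by ring
    have h9 : 0 ≤ δ * u * J := by positivity
    have h10 : δ / 4 * u * J + δ / 8 * u * J + δ * u / 16 * J + δ * u / 4 * J + δ * u / 16 * J =
      3 / 4 * (δ * u * J) := by ring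
    have h11 := mul_le_mul_of_nonneg_right hdC hJ0
    rw [h8, hdδ1, hdε]
    linarith only [h9, h10, h11, hJ1]

end Pool.TW44
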