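import Pool.Agent.H44.V0P.V0cp
import Pool.Agent.H71.V0R.Nup1
import Pool.Agent.H50.V0P.Rfm
import Pool.Agent.H5.V0P.Nlq
import Pool.Agent.H5.V0P.Grd
import Pool.Agent.H5.V0P.Cel
import Pool.Agent.H64.GF.Gfr

/-!
# The class theorem for a pair

`v0cP_gfr`: `V0cPStmt` from the relative gradient `GfrW`. `v0cP : V0cPStmt`.
-/

set_option autoImplicit false

namespace Pool.V0Q

/-- **(V0CP)** from the relative gradient. -/
theorem v0cP_gfr (hG : GfrW) : V0cPStmt :=
  v0cP_of t_nupp t_nu0p (nlqp t_nupp) (grdP hG) celP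
    (rowFam t_nupp t_nu0p) (fulFam t_nupp)

/-- **The relative gradient.** -/
theorem t_gfrW : GfrW := fun D D' r => Pool.GF64.gfr D D' r

/-- **(V0CP)** The class theorem for a pair. -/
theorem v0cP : V0cPStmt := v0cP_gfr t_gfrW

end Pool.V0Q
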