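import Pool.Agent.H44.V0P.V0cl
import Pool.Agent.H44.V0P.V0cpF
import Pool.Agent.H63.V0T.Grd
import Pool.Agent.H72.T4C.V0cN

/-!
# The class theorem for a pair with labels of both places

`v0cL : V0cLStmt`; `v0cG_pair`: the class theorem `V0cGStmt` for two targets, codes of both targets,
the pivot is the last place.
-/

set_option autoImplicit false

namespace Pool.V0Q

open Finset Real MvPolynomial
open Pool.Agent.H49.Ent Pool.Agent.H32.Dense
open Pool.STK hiding pr2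
open Pool.KA Pool.KSAT Pool.K2S Pool.PB Pool.S6C
open Pool.T4C72 (V0cGStmt)
open Pool.V0T (t_grdT)

/-- **(V0CL)** The class theorem for a pair, the pivot is the last place. -/
theorem v0cL : V0cLStmt :=
  v0cL_of t_nupp t_nu0p (nlqp t_nupp) (t_grdT 1) (rowFam t_nupp t_nu0p) (fulFam t_nupp)

/-- **The class theorem for two targets** in the letters of `V0cGStmt`, the pivot is the last
place. -/
theorem v0cG_pair : V0cGStmt 1 1 (fun i : Fin (1 + 1) => (i : ℕ)) (fun _ : Fin (0 + 1) => 1) := by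
  intro D D' k s h θ h1 h2 h3 h4 h5 h6 h7
  have hs0 : 0 < s := one_pos.trans h4
  obtain ⟨B, hB⟩ : ∃ B : ℝ, B = (s - 1) / s * (h ^ 2 / 16) := ⟨_, rfl⟩
  have hB0 : 0 < B := by
    rw [hB]
    have : 0 < (s - 1) / s := div_pos (by linarith) hs0
    positivity
  have hB1 : B ≤ 1 := by
    have e1 : (s - 1) / s ≤ 1 := by
      rw [div_le_one hs0]
      linarith
    have e2 : h ^ 2 ≤ 1 := pow_le_one₀ h5.le h6
    have e3 : 0 ≤ (s - 1) / s := (div_pos (by linarith) hs0).le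
    rw [hB]
    nlinarith [sq_nonneg h]
  obtain ⟨t, ht⟩ : ∃ t : ℝ, t = min θ 1 := ⟨_, rfl⟩
  have ht0 : 0 < t := by
    rw [ht]
    exact lt_min h7 one_pos
  have ht1 : t ≤ 1 := by rw [ht]; exact min_le_right _ _
  have htθ : t ≤ θ := by rw [ht]; exact min_le_left _ _
  obtain ⟨m₀, δ₀, T₀, a1, a2, H⟩ := v0cL D D' k s h (B / 10) (t * (B / 10)) h1 h2 h3 h4 h5 h6
    (by positivity) (by positivity) (by
      rw [← hB]
      have : t * (B / 10) ≤ 1 * (B / 10) := mul_le_mul_of_nonneg_right ht1 (by positivity)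
      linarith)
  refine ⟨m₀, δ₀, T₀, fun _ => B / 10, fun _ => t * (B / 10), a1, a2, fun l _ =>
    ⟨by positivity, by linarith, by positivity,
      mul_le_mul_of_nonneg_right htθ (by positivity)⟩, fun T hT => ?_⟩
  obtain ⟨Λ, a4, H⟩ := H T hT
  refine ⟨Λ, a4, fun ι hι => ?_⟩
  obtain ⟨φ₀, a5, H⟩ := H ι hι
  refine ⟨φ₀, a5, ?_⟩
  intro m S c sn G b o φ b1 b2 w u lam sp b3 b4 b5 b6 b7 b8 b9 b10 b11 b12 b13 b14 b15 b16 b17 b18
    Dr N M C₀ a Eb ηm ow η σ lv bb fb fn nb n ks c1 c2 c3 c4 c5 c6 c7 c8 c9 c10 c11 c12 c13 c14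
    c15 c16 c17 E
  refine Bas.mono 0 (H b1 b2 b3 b4 b5 b6 b7 b8 b9 b10 b11 b12 b13 b14 b15 b16 b17 b18 c1 c2 c3 c4
    c5 c6 c7 c8 c9 c10 c11 c12 c13 c14 c15 c16 c17 (Dr := Dr) (M := M) (a := a) (η := η)
    (σ := σ) (bb := bb) E) ?_
  intro J _ F A hF κ z g₀ Gc H' GN HN d1 d2 d3 d4 d5 d6 d7 d8
  obtain ⟨e1, e2, W, A', la, laP, mu, e5, e6, e7, e8, e9, e10, e11⟩ :=
    hF d1 d2 d3 d4 d5 d6 (fun l h11 h12 N' hN' => by
      rcases Nat.lt_or_eq_of_le h11 with h13 | h13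
      · have h14 : l = k + 1 := by omega
        rw [h14] at hN' ⊢
        exact d7 1 N' hN'
      · rw [← h13] at hN' ⊢
        exact d7 0 N' hN') (fun l h11 h12 N' hN' => by
      rcases Nat.lt_or_eq_of_le h11 with h13 | h13
      · have h14 : l = k + 1 := by omega
        rw [h14] at hN' ⊢
        exact d8 1 N' hN'
      · rw [← h13] at hN' ⊢
        exact d8 0 N' hN')
  refine ⟨e1, e2, 1, W, A', fun s' l => if l = 0 then -la s' else 0,
    fun y l => if l = 0 then -laP y else 0, mu, le_rfl, ⟨0, rfl⟩, e5, e6, e7, e8,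
    fun s' l => ?_, e10, fun ω hω => ?_⟩
  · show |(if l = 0 then -la s' else 0)| ≤ 2 ^ (t * (B / 10) * u * (J : ℝ))
    by_cases hl : l = 0
    · rw [if_pos hl, abs_neg]
      exact e9 s'
    · rw [if_neg hl, abs_zero]
      positivity
  · obtain ⟨f1, f2⟩ := e11 ω hω
    refine ⟨fun l hl => ?_, fun i hi => ?_⟩
    · have hl0 : l = 0 := by omega
      show (if l = 0 then -la (slam F W ω) else 0) = if l = 0 then -laP (ptr F J ω) else 0
      rw [if_pos hl0, if_pos hl0, f1]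
    · have e3 := f2 i hi
      rw [Finset.sum_range_one]
      show |_ + (if (0 : ℕ) = 0 then -la (slam F W ω) else 0) *
        Pool.V0T.ggT F c k Gc GN (fb 0) (fn n) (g₀ (fn 0)) (k + 0) ω i - _| ≤ _
      rw [if_pos rfl, Nat.add_zero, neg_mul, ← sub_eq_add_neg]
      exact e3

end Pool.V0Q
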