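import Pool.Agent.H44.V0F.Cla
import Pool.Agent.H71.V0F.Vuj
import Pool.Agent.H44.V0P.Slm

/-!
# The jets of the slope-one places at all windows, on one event

`vuj_rel`: labels of a slightly lower precision. `LV`: the charts of a chain at one window. `vd_ev`:
the digits of the jets of the slope-one places over the charts of a window `v`, given positions and
velocities over the charts of `b` and the canonical record.
-/

set_option autoImplicit false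

namespace Pool.TW44

open Finset Real MvPolynomial
open Pool.Agent.H49.Ent Pool.Agent.H32.Dense Pool.STK Pool.KA Pool.KSAT Pool.K2S Pool.PB Pool.GEN
open Pool.S6C Pool.RCD Pool.LA91 Pool.AVG96 Pool.V0F
open Pool.OWN68 (few_iff)
open Pool.AVG57 (jet2)
open Pool.GRD (LbP)
open Pool.AJW (CfB)

section rel

variable {m : ℕ} {S : PCl m} {c : ℕ → Fin m} {r : ℕ} {sn : ℕ → ℝ → ℝ} {G : Set ℝ} {b o φ : ℝ}

variable {α γ : ∀ J : ℕ, Fam m J → Type}
  {f : ∀ (J : ℕ) (F : Fam m J), F.Ω → α J F} {y : ∀ (J : ℕ) (F : Fam m J), F.Ω → γ J F}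

/-- **The jets of the chain** at the window `w`, over labels of a slightly lower precision. -/
theorem vuj_rel (L : Lad S c r sn G b o φ)
    (hf : ∀ (J : ℕ) (F : Fam m J), ∃ χ : α J F → PtT F, ∀ ω, ptr F J ω = χ (f J F ω))
    (hy : Kn ((range 0).image c) 1 1 y) {w ow : ℝ} {n p : ℕ → ℝ} (hw : w ∈ G) (hbw : b ≤ w)
    (hwo : w ≤ o) (how : w ≤ ow) (how1 : ow ≤ 1) (hn : Nst r sn w φ n)
    (hp : ∀ i < r, sn i b - φ ≤ p i)
    (hnat : ∀ i < r, n i - sn i w + 3 * φ ≤ w - b) {Nf : ℕ → ℕ → ℝ}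
    (hNf : ∀ i < r, ∀ j : ℕ, j ≤ 1 → n i - (j : ℝ) * w ≤ Nf i j) {i : ℕ} (hi : i < r) (j : ℕ) :
    Few S f (vg ow) y (jetQ m c 0 r b p Nf)
      (qJet m ((range i).image c) (c i) j w (sn i w - φ) (n i - (j : ℝ) * w)) := by
  have hφ := L.φ0
  obtain ⟨C₀, htm⟩ := L.tm
  obtain ⟨u₁, rd, hrd, hch⟩ := L.ch.ch w hw
  have hw1 : w < 1 := hch.u0
  have hmin : min (1 : ℝ) (1 - w) = 1 - w := min_eq_right (by linarith [hch.w0])
  have h1 : Few S f (vg ow) y (jetQ m c 0 r b p Nf)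
      ((qJets m c 0 i j (fun _ _ => w) (fun l _ => sn l w) (fun l j' => n l - (j' : ℝ) * w)).prod
        (qJet m ((range i).image c) (c i) j w (sn i w) (n i - (j : ℝ) * w))) :=
    Few.pair L.pos (few_qjets L.pos fun l _ hl j' _ =>
      vuj_jet L hf hy hw hbw hwo how how1 hn hp hnat hNf (by omega) j')
      (vuj_jet L hf hy hw hbw hwo how how1 hn hp hnat hNf hi j)
  have h2 := few_jetN (f := f) (y := y) htm (hch.take (Nat.zero_le i) hi.le) (k := c i) (j := j)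
    (wv := fun _ _ => w) (pv := fun l _ => sn l w) (Nv := fun l j' => n l - (j' : ℝ) * w)
    (lv := fun l => n l - sn l w - 3 * φ) (w₁ := w) (w₂ := w) (p₁ := sn i w) (p₂ := sn i w - φ)
    (N₁ := n i - (j : ℝ) * w) (N₂ := n i - (j : ℝ) * w) (p₀ := 1) (lam := 1) (σ₀ := φ)
    (fun _ _ _ _ _ => le_rfl) le_rfl le_rfl hw1 le_rfl one_pos hφ (by
      intro l _ hl
      show 0 < n l - sn l w - 3 * φ
      linarith [hn.lo l (by omega)]) (by
      intro l _ hl j' _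
      show sn l w + (n l - sn l w - 3 * φ) + φ ≤ n l - (j' : ℝ) * w + j' * w
      linarith) (by
      intro l _ hl j' _
      rw [hmin, min_self]
      show sn l w + (n l - sn l w - 3 * φ) + φ ≤ sn l w + (1 - w)
      linarith [hn.hi l (by omega)]) (by
      intro l _ hl j' _ l' _ hl'
      rw [min_self]
      show sn l w + (n l - sn l w - 3 * φ) + φ ≤ sn l w + (n l' - sn l' w - 3 * φ)
      linarith [hn.ne l (by omega) l' hl']) le_rfl (by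
      rw [hmin, min_eq_right (by linarith : sn i w - φ ≤ sn i w)]
      linarith [hn.hi i hi]) (by
      intro l _ hl
      rw [min_eq_right (by linarith : sn i w - φ ≤ sn i w)]
      show n i - (j : ℝ) * w + j * w + φ ≤ sn i w - φ + (n l - sn l w - 3 * φ)
      linarith [hn.ne i hi l hl]) hf hy
  have hxs : Exs S ((qJets m c 0 i j (fun _ _ => w) (fun l _ => sn l w)
      (fun l j' => n l - (j' : ℝ) * w)).prod
      (qJet m ((range i).image c) (c i) j w (sn i w) (n i - (j : ℝ) * w))) :=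
    Exs.prod (exs_qjets fun l l0 l1 j' _ => exs_jet (hrd l (by omega)) (hch.att l l0 (by omega)))
      (exs_jet (hrd i hi) (hch.att i (Nat.zero_le _) hi))
  exact Few.trans L.pos hxs h1 (Few.up (f' := f) (y' := y) L.pos
    (fun J F => ⟨fun x => x, fun _ => rfl⟩) (fun J F => vg_mono how how1 J F)
    (fun J F => ⟨fun x => x, fun _ => rfl⟩) h2)

end rel

/-- **The charts of a chain at one window**: closed labels with bounded own paths. -/
structure LV {m J : ℕ} (F : Fam m J) (c : ℕ → Fin m) (k D : ℕ) (v φ E : ℝ) (sn : ℕ → ℝ → ℝ)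
    (A : F.Ω → Prop) (H : LnT F → ℕ → MvPolynomial (Option (Fin m)) ℝ) : Prop where
  lb : ∀ l < k, ∃ (V : Type) (z : PtT F → V) (z' : LnT F → V)
    (G : V → MvPolynomial (Option (Fin m)) ℝ),
    LbP F ((range l).image c) (c l) D J ⌊v * J⌋₊ ⌊(sn l v - φ) * J⌋₊ A z z' G ∧
      ∀ s, G (z' s) = H s l
  cf : ∀ l < k, CfB F ⌊v * J⌋₊ E (c l) A (fun s => s) (fun s => H s l)

/-- **Positions and velocities** of the chain over the charts of `b`. -/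
theorem lv_j2 (m D k : ℕ) (N : ℕ → ℕ → ℝ) {b E : ℝ} (hb0 : 0 ≤ b) (hb1 : b ≤ 1) :
    ∃ M J₁ : ℕ, ∀ K ≥ M, ∀ J ≥ J₁, ∀ {F : Fam m J} {c : ℕ → Fin m} {w φ : ℝ} {sn : ℕ → ℝ → ℝ}
      {A : F.Ω → Prop} {Hb H : LnT F → ℕ → MvPolynomial (Option (Fin m)) ℝ},
      LV F c k D b φ E sn A Hb →
      (∀ ω, ∀ l < k, H (slam F ⌊w * J⌋₊ ω) l = Hb (slam F ⌊b * J⌋₊ ω) l) → ∀ e : ℝ, 0 ≤ e →
      (jetQ m c 0 k b (fun l => sn l b - φ) N).P K e J F A (jet2 F c ⌊w * J⌋₊ H 0 k N) := by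
  obtain ⟨M, J₁, hM⟩ := qj_fam m D 0 k (fun l => N l 0) (E := E) hb0 hb1
  obtain ⟨M', J₁', hM'⟩ := qj_fam m D 1 k (fun l => N l 1) (E := E) hb0 hb1
  refine ⟨max M M', max J₁ J₁', fun K hK J hJ F c w φ sn A Hb H L hb e he => ⟨?_, ?_⟩⟩
  · intro i h0 hi j' hj'
    obtain ⟨V, z, z', G, h1, h2⟩ := L.lb i hi
    have hfl : ⌊(sn i b - φ - e) * J⌋₊ ≤ ⌊(sn i b - φ) * J⌋₊ :=
      Nat.floor_le_floor (mul_le_mul_of_nonneg_right (by linarith) (Nat.cast_nonneg J))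
    have e1 : (fun ω => jet2 F c ⌊w * J⌋₊ H 0 k N ω i j') = fun ω =>
        ⌊(2 : ℝ) ^ (N i j' * J) * ojet F (c i) j' (G (z' (slam F ⌊b * J⌋₊ ω))) ω⌋ := by
      funext ω
      unfold jet2
      rw [if_pos ⟨h0, hi, hj'⟩, hb ω i hi, h2]
    have hj : j' = 0 ∨ j' = 1 := by omega
    rcases hj with rfl | rfl
    · rw [e1]
      exact hM K ((le_max_left _ _).trans hK) J ((le_max_left _ _).trans hJ) i hi F _ (c i) A V z
        z' G _ (sn i b - φ) e h1 (cfb_of (L.cf i hi) h2) hfl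
    · rw [e1]
      exact hM' K ((le_max_right _ _).trans hK) J ((le_max_right _ _).trans hJ) i hi F _ (c i) A
        V z z' G _ (sn i b - φ) e h1 (cfb_of (L.cf i hi) h2) hfl
  · intro ω _ i j' h
    unfold jet2
    rw [if_neg h]

/-- **The jets of the chain** over the charts of the window `v`, on one event. -/
theorem vd_ev {m : ℕ} {S : PCl m} {c : ℕ → Fin m} {k : ℕ} {sn : ℕ → ℝ → ℝ} {G : Set ℝ}
    {b o φ : ℝ} (L : Lad S c k sn G b o φ) (D Jm : ℕ) {w v ow E : ℝ} {n : ℕ → ℝ} (hv : v ∈ G)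
    (hbv : b ≤ v) (hvo : v ≤ o) (hvow : v ≤ ow) (how1 : ow ≤ 1) (hn : Nst k sn v φ n)
    (hnat : ∀ i < k, n i - sn i v + 3 * φ ≤ v - b) {Nf : ℕ → ℕ → ℝ}
    (hNf : ∀ i < k, ∀ j : ℕ, j ≤ 1 → n i - (j : ℝ) * v ≤ Nf i j) {ε : ℝ} (hε : 0 < ε) :
    Bas S (fun J F A => ∀ Hb Hv H : LnT F → ℕ → MvPolynomial (Option (Fin m)) ℝ,
      LV F c k D b φ E sn A Hb → LV F c k D v φ E sn A Hv →
      (∀ ω, ∀ l < k, H (slam F ⌊w * J⌋₊ ω) l = Hb (slam F ⌊b * J⌋₊ ω) l) →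
      CH (Pool.Agent.H49.Ent.cond F.p A True) (fun ω (x : Fin k × Fin (Jm + 1)) =>
          ⌊(2 : ℝ) ^ ((n x.1 - ((x.2 : ℕ) : ℝ) * v) * J) *
            ojet F (c x.1) x.2 (Hv (slam F ⌊v * J⌋₊ ω) x.1) ω⌋)
        (fun ω => (jet2 F c ⌊w * J⌋₊ H 0 k Nf ω, (cR F A ow ω, F.W ω))) ≤ ε * J) := by
  have hb0 := L.b0
  have hb1 : b ≤ 1 := by linarith [L.bo, L.o1]
  have hv0 : 0 ≤ v := by linarith
  have hv1 : v ≤ 1 := by linarith [L.o1]
  obtain ⟨M₀, J₀, hM₀⟩ := lv_j2 m D k Nf (E := E) hb0 hb1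
  obtain ⟨ε', hε', hε1⟩ : ∃ ε' : ℝ, 0 < ε' ∧ ((k * (Jm + 1) : ℕ) : ℝ) * ε' ≤ ε := by
    refine ⟨ε / (((k * (Jm + 1) : ℕ) : ℝ) + 1), by positivity, ?_⟩
    rw [mul_div_assoc', div_le_iff₀ (by positivity)]
    have : (0 : ℝ) ≤ ((k * (Jm + 1) : ℕ) : ℝ) := Nat.cast_nonneg _
    nlinarith
  have hone : ∀ l < k, ∀ j < Jm + 1, Bas S (fun J F A =>
      ∀ Hb Hv H : LnT F → ℕ → MvPolynomial (Option (Fin m)) ℝ,
      LV F c k D b φ E sn A Hb → LV F c k D v φ E sn A Hv →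
      (∀ ω, ∀ l < k, H (slam F ⌊w * J⌋₊ ω) l = Hb (slam F ⌊b * J⌋₊ ω) l) →
      CH (Pool.Agent.H49.Ent.cond F.p A True) (fun ω => ⌊(2 : ℝ) ^ ((n l - (j : ℝ) * v) * J) *
            ojet F (c l) j (Hv (slam F ⌊v * J⌋₊ ω) l) ω⌋)
        (fun ω => (jet2 F c ⌊w * J⌋₊ H 0 k Nf ω, (cR F A ow ω, F.W ω))) ≤ ε' * J) := by
    intro l hl j hj
    obtain ⟨e₀, he₀, H1⟩ := few_iff.1 (vuj_rel L (f := fun J F => ptr F J) (y := fun _ F => F.W)
      (fun J F => ⟨fun x => x, fun _ => rfl⟩) kn_W hv hbv hvo hvow how1 hn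
      (p := fun l => sn l b - φ) (fun i _ => le_rfl) hnat hNf hl j) ε' hε'
    obtain ⟨M₁, J₁, hM₁⟩ := qj_win m D j (N := n l - (j : ℝ) * v) (E := E) hv0 hv1
    refine Bas.mono (max J₀ J₁) ((H1 (max M₀ M₁)).and (pos_bas L.pos)) ?_
    rintro J hJ F A ⟨H2, hA⟩ Hb Hv H lb lv hb
    have hcl := isLaw_cond F.isLaw hA
    have h0 := hcl.nonneg
    have q1 := hM₀ _ (le_max_left M₀ M₁) J ((le_max_left _ _).trans hJ) lb (w := w) (H := H) hb e₀
      he₀.le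
    obtain ⟨V, z, z', G', l1, l2⟩ := lv.lb l hl
    have q2 := hM₁ _ (le_max_right M₀ M₁) J ((le_max_right _ _).trans hJ) F _ (c l) A V z z' G' _
      (sn l v - φ) e₀ l1 (cfb_of (lv.cf l hl) l2) (Nat.floor_le_floor
        (mul_le_mul_of_nonneg_right (by linarith) (Nat.cast_nonneg J)))
    obtain ⟨V₁, z₁, hz₁, H3⟩ := H2 _ _ q1 q2
    have hd : Det (Pool.Agent.H49.Ent.cond F.p A True) (cR F A ow) z₁ :=
      det_cR hz₁ fun ω hω => of_cond_pos hω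
    have e1 : (fun ω => ⌊(2 : ℝ) ^ ((n l - (j : ℝ) * v) * J) *
            ojet F (c l) j (Hv (slam F ⌊v * J⌋₊ ω) l) ω⌋) = fun ω =>
        ⌊(2 : ℝ) ^ ((n l - (j : ℝ) * v) * J) *
            ojet F (c l) j (G' (z' (slam F ⌊v * J⌋₊ ω))) ω⌋ := by
      funext ω
      rw [l2]
    rw [e1]
    refine le_trans (CH_mono_cond h0 fun ω ν hω hν e => ?_) H3
    simp only [Prod.mk.injEq] at e ⊢
    exact ⟨e.1, hd ω ν hω hν e.2.1, e.2.2⟩
  refine Bas.mono 0 ((Bas.all k fun l hl => Bas.all (Jm + 1) fun j hj => hone l hl j hj).and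
    (pos_bas L.pos)) ?_
  rintro J - F A ⟨H1, hA⟩ Hb Hv H lb lv hb
  have hcl := isLaw_cond F.isLaw hA
  have h0 := hcl.nonneg
  have hJ0 : (0 : ℝ) ≤ J := Nat.cast_nonneg J
  refine (Pool.AVG5.CH_fam h0 _ _).trans ?_
  have h2 : ∀ x ∈ (univ : Finset (Fin k × Fin (Jm + 1))),
      CH (Pool.Agent.H49.Ent.cond F.p A True) (fun ω =>
          ⌊(2 : ℝ) ^ ((n x.1 - ((x.2 : ℕ) : ℝ) * v) * J) *
            ojet F (c x.1) x.2 (Hv (slam F ⌊v * J⌋₊ ω) x.1) ω⌋)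
        (fun ω => (jet2 F c ⌊w * J⌋₊ H 0 k Nf ω, (cR F A ow ω, F.W ω))) ≤ ε' * J :=
    fun x _ => H1 x.1 x.1.2 x.2 x.2.2 Hb Hv H lb lv hb
  refine (Finset.sum_le_sum h2).trans ?_
  rw [Finset.sum_const, Finset.card_univ, Fintype.card_prod, Fintype.card_fin, Fintype.card_fin,
    nsmul_eq_mul, ← mul_assoc]
  exact mul_le_mul_of_nonneg_right hε1 hJ0

end Pool.TW44
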