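import Pool.Agent.H44.V0P.Par
import Pool.Agent.H44.V0F.Clb
import Pool.Agent.H71.V0F.Jt
import Pool.Agent.H92.GN.Prod
import Pool.Agent.H25.V0P.St2

/-!
# The mutual informations of a pair over the canonical records, class level

`VLaw2.congr`: functions which determine each other. `vlp_fam`: the law `VLaw2` for the pair, the
digits of the rows given the last record, and the fullness of the digits of the rows.
-/

set_option autoImplicit false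

namespace Pool.V0Q

open Finset Real MvPolynomial
open Pool.Agent.H49.Ent Pool.Agent.H32.Dense
open Pool.STK hiding pr2
open Pool.KA Pool.KSAT Pool.K2S Pool.PB Pool.S6C
open Pool.GEN Pool.CHT Pool.CHX Pool.ISO Pool.LA91 Pool.AVG71 Pool.AVG5 Pool.D2F2 Pool.AVG57
open Pool.RCD Pool.AVG96 Pool.OWN68 Pool.V0F
open Pool.AJW (CfB)
open Pool.V0P (jp)
open Pool.VT83 (NlqI VB vlaw_gen)

section

variable {Ω : Type} {p : Ω → ℝ}

/-- Functions which determine each other. -/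
def Deq {α β : Type} (p : Ω → ℝ) (X : Ω → α) (X' : Ω → β) : Prop := Det p X X' ∧ Det p X' X

theorem Deq.rfl' {α : Type} (X : Ω → α) : Deq p X X := ⟨fun _ _ _ _ e => e, fun _ _ _ _ e => e⟩

theorem Deq.pair {α β α' β' : Type} {X : Ω → α} {X' : Ω → α'} {Z : Ω → β} {Z' : Ω → β'}
    (h : Deq p X X') (k : Deq p Z Z') :
    Deq p (fun ω => (X ω, Z ω)) (fun ω => (X' ω, Z' ω)) :=
  ⟨fun ω ν a b e => Prod.ext (h.1 ω ν a b (Prod.ext_iff.mp e).1)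
    (k.1 ω ν a b (Prod.ext_iff.mp e).2), fun ω ν a b e => Prod.ext
    (h.2 ω ν a b (Prod.ext_iff.mp e).1) (k.2 ω ν a b (Prod.ext_iff.mp e).2)⟩

variable [Fintype Ω]

theorem Deq.ch (h0 : ∀ ω, 0 ≤ p ω) {α β α' β' : Type} {X : Ω → α} {X' : Ω → α'} {Z : Ω → β}
    {Z' : Ω → β'} (h : Deq p X X') (k : Deq p Z Z') : CH p X Z = CH p X' Z' :=
  CH_congr h0 (fun ω ν a b e => h.1 ω ν a b (Prod.ext_iff.mp e).1)
    (fun ω ν a b e => h.2 ω ν a b (Prod.ext_iff.mp e).1) k.1 k.2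

variable {ζ ρ₁ ρ₂ ρ₃ υ ξ₁ ξ₂ ξ₃ ξ₄ ξ₅ ξ₆ ξ₇ ξ₁' ξ₂' ξ₃' ξ₄' ξ₅' ξ₇' : Type} {zw : Ω → ζ}
  {Rj : Ω → ρ₁} {Rx : Ω → ρ₂} {R' : Ω → ρ₃} {y : Ω → υ} {Xq : Ω → ξ₁} {Xp : Ω → ξ₂} {Uq : Ω → ξ₃}
  {Up : Ω → ξ₇} {N1 : Ω → ξ₄} {N2 : Ω → ξ₅} {XJ : Ω → ξ₆} {Fv Gf κ : ℝ} {Xq' : Ω → ξ₁'}
  {Xp' : Ω → ξ₂'} {Uq' : Ω → ξ₃'} {Up' : Ω → ξ₇'} {N1' : Ω → ξ₄'} {N2' : Ω → ξ₅'}

/-- The law for functions which determine each other. -/
theorem vlaw2_congr (h : VLaw2 p zw Rj Rx R' y Xq Xp Uq Up N1 N2 XJ Fv Gf κ) (hq : Deq p Xq Xq')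
    (hp : Deq p Xp Xp') (huq : Deq p Uq Uq') (hup : Deq p Up Up') (h1 : Deq p N1 N1')
    (h2 : Deq p N2 N2') : VLaw2 p zw Rj Rx R' y Xq' Xp' Uq' Up' N1' N2' XJ Fv Gf κ where
  h0 := h.h0
  κ0 := h.κ0
  zj := h.zj
  zx := h.zx
  jr := h.jr
  xr := h.xr
  uq := (Deq.ch h.h0 huq hup).symm.le.trans h.uq
  fr := by
    rw [← Deq.ch h.h0 hup (Deq.rfl' (fun ω => (zw ω, y ω))),
      ← Deq.ch h.h0 hup (Deq.rfl' (fun ω => (R' ω, y ω)))]
    exact h.fr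
  fj := by
    rw [← Deq.ch h.h0 hp (hq.pair (Deq.rfl' (fun ω => (Rj ω, y ω))))]
    exact h.fj
  fx := by
    rw [← Deq.ch h.h0 hp (hq.pair (Deq.rfl' (fun ω => (Rx ω, y ω))))]
    exact h.fx
  cn := by
    rw [← Deq.ch h.h0 hp (hq.pair (Deq.rfl' (fun ω => (zw ω, y ω))))]
    exact h.cn
  qp := by
    rw [← Deq.ch h.h0 hq (hp.pair (Deq.rfl' (fun ω => (zw ω, y ω))))]
    exact h.qp
  px := by
    rw [← Deq.ch h.h0 hp (Deq.rfl' (fun ω => (R' ω, y ω)))]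
    exact h.px
  n1 := by
    rw [← Deq.ch h.h0 h1 (hq.pair (Deq.rfl' (fun ω => (Rj ω, y ω))))]
    exact h.n1
  n2 := by
    rw [← Deq.ch h.h0 h2 (Deq.rfl' (fun ω => (R' ω, y ω)))]
    exact h.n2
  nl := by
    rw [← Deq.ch h.h0 h2 (h1.pair (Deq.rfl' (fun ω => (XJ ω, (zw ω, y ω))))),
      ← Deq.ch h.h0 h2 (Deq.rfl' (fun ω => (XJ ω, (Rj ω, y ω))))]
    exact h.nl
  jp := by
    rw [← Deq.ch h.h0 hp (Deq.rfl' (fun ω => (XJ ω, (zw ω, y ω))))]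
    exact h.jp
  gj := by
    rw [← Deq.ch h.h0 (Deq.rfl' XJ) (hp.pair (Deq.rfl' (fun ω => (zw ω, y ω))))]
    exact h.gj
  gx := by
    rw [← Deq.ch h.h0 (Deq.rfl' XJ) (hp.pair (Deq.rfl' (fun ω => (R' ω, y ω))))]
    exact h.gx

end

section

variable {m J : ℕ} {F : Fam m J} {c : ℕ → Fin m} {k w : ℕ}
  {H : LnT F → ℕ → MvPolynomial (Option (Fin m)) ℝ} {p : F.Ω → ℝ}

/-- The positions of the chain. -/
theorem deq_jh (n : ℕ → ℝ) : Deq p (jh F c k w H n)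
    (jp F c 0 (fun i : Fin k => (i : ℕ)) w H (fun l : Fin k => n l)) :=
  ⟨jh_vv n, vv_jh n⟩

/-- The pair of targets. -/
theorem deq_th (a b : ℝ) {M : Fin 2 → ℝ} (h0 : M 0 = a) (h1 : M 1 = b) :
    Deq p (fun ω => (th0 F c (k + 1) w H a ω, th0 F c k w H b ω))
      (jp F c 0 (fun u : Fin 2 => if u = 0 then k + 1 else k) w H M) := by
  subst h0 h1
  refine ⟨fun ω ν _ _ e => ?_, fun ω ν _ _ e => Prod.ext ?_ ?_⟩
  · funext u
    fin_cases u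
    · exact (Prod.ext_iff.mp e).1
    · exact (Prod.ext_iff.mp e).2
  · exact congrFun e 0
  · exact congrFun e 1

end

variable {m : ℕ}

/-- **The mutual informations** of the pair over the canonical records. -/
theorem vlp_fam (hN : NuppStmt) (hN0 : Nu0pStmt) (hn : NlqpStmt) (k : ℕ) : ∃ Cn : ℝ, 1 ≤ Cn ∧
    ∀ {S : PCl m} {c : ℕ → Fin m} {D : ℕ} {sn sp : ℕ → ℝ → ℝ} {Gs : Set ℝ}
    {b o φ : ℝ}, LadP S c k sn Gs b o φ → (range (k + 1)).image c = univ.erase (c (k + 1)) →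
    ∀ {s w u y ξ T Λ C κ : ℝ} {lam : ℝ → ℝ} {j x x' xr xq w₁ vq oq : ℝ} {xa : ℕ → ℝ},
    NP k 1 s sn Gs b o φ w u y ξ T Λ C κ (Cn * ((s + 100) * φ)) lam j x x' xr xq w₁ vq oq xa →
    (∃ rk E : ℝ, rk < 1 ∧ 0 ≤ E ∧
      AttG S ((range (k + 1)).image c) (c (k + 1)) w (sn (k + 1) w) rk E ∧
      sn (k + 1) w + E + Λ * u ≤ 1) → ∀ {P : ℕ → ℝ} {κf κn : ℝ},
    FrI S c k sp b (fun i : Fin k => P i) w₁ x' κf →
    NlI S (c (k + 1)) w₁ vq (lam vq) (lam oq) κn → 0 ≤ κf → 0 ≤ κn →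
    (∀ i < k, sp i b ≤ sn i b - φ) → ∀ {ε : ℝ}, 0 < ε → ∀ Ec : ℝ,
    Bas S (fun J F A => ∀ Hb H : LnT F → ℕ → MvPolynomial (Option (Fin m)) ℝ,
      LDP F c k 1 D b w φ Ec sn A Hb H → ∀ (Na Nf : ℕ → ℕ → ℝ) (Mn Mf : Fin 2 → ℝ),
      (∀ l, Na l 0 = nnP k sn w u y φ l) → (∀ l, Nf l 0 = nfP k sn w x' φ l) →
      (∀ l < k, Na l 1 * J ≤ P l * J) → (∀ l, Nf l 1 = P l) → Mn 0 = sn (k + 1) j - 60 * φ →
      Mn 1 = sn k j - 60 * φ → Mf 0 = lam oq → Mf 1 = sn k xq - Cn * ((s + 100) * φ) →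
      ∀ κ' : ℝ, (k * (40 * y) + 20 * (k : ℝ) ^ 2 * φ + κf + (κn + 8 * y) + ε) * J +
        k * Real.log 5 ≤ κ' →
      VLaw2 (Pool.Agent.H49.Ent.cond F.p A True) (cR F A w₁) (cR F A j) (cR F A x) (cR F A x') F.W
        (jp F c 0 (fun i : Fin k => (i : ℕ)) ⌊w * J⌋₊ H fun l => Na l 0)
        (jp F c 0 (fun i : Fin k => (i : ℕ)) ⌊w * J⌋₊ H fun l => Nf l 0)
        (jp F c 1 (fun i : Fin k => (i : ℕ)) ⌊w * J⌋₊ H fun l => Na l 1)
        (jp F c 1 (fun i : Fin k => (i : ℕ)) ⌊w * J⌋₊ H fun l => Nf l 1)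
        (jp F c 0 (fun u : Fin 2 => if u = 0 then k + 1 else k) ⌊w * J⌋₊ H Mn)
        (jp F c 0 (fun u : Fin 2 => if u = 0 then k + 1 else k) ⌊w * J⌋₊ H Mf)
        (fun ω => fun l : Fin k => F.X J ω (c l))
        ((∑ i ∈ range k, (nfP k sn w x' φ i - nnP k sn w u y φ i)) * Real.log 2 * J)
        ((∑ i ∈ range k, (1 - nfP k sn w x' φ i)) * Real.log 2 * J) κ' ∧
      CH (Pool.Agent.H49.Ent.cond F.p A True)
        (jp F c 0 (fun i : Fin k => (i : ℕ)) ⌊w * J⌋₊ H fun l => nfP k sn w xr φ l)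
        (fun ω => (cR F A x' ω, F.W ω)) ≤ κ' ∧
      ∀ X : ℕ, (X : ℝ) ≤ ξ * u * J → k * (X * Real.log 2) - κ' ≤
        CH (Pool.Agent.H49.Ent.cond F.p A True)
          (jp F c 0 (fun i : Fin k => (i : ℕ)) ⌊w * J⌋₊ H fun l => nfP k sn w xr φ l)
          (fun ω => (jp F c 0 (fun i : Fin k => (i : ℕ)) ⌊w * J⌋₊ H (fun l => Na l 0) ω,
            (cR F A x ω, F.W ω)))) := by
  obtain ⟨Cn, hCn, Hn⟩ := hn k
  refine ⟨Cn, hCn, ?_⟩
  intro S c D sn sp Gs b o φ L hI s w u y ξ T Λ C κ lam j x x' xr xq w₁ vq oq xa Nn hatt P κf κn hfr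
    hnl hκf hκn hsp ε hε Ec
  obtain ⟨rk, Ee, hrk, hEe, hat, hEs⟩ := hatt
  obtain ⟨e, he⟩ : ∃ e : ℝ, e = Cn * ((s + 100) * φ) := ⟨_, rfl⟩
  rw [← he] at Nn ⊢
  obtain ⟨b1, b2, b3, b4, b5, b6, b7, b8, b9, b10, b11, b12, b13, b14, b15, b16, b17⟩ := Nn.wb
  obtain ⟨h1, h2, h3, h4, h5, h6, h7, h8, h9, h10⟩ := Nn.sm
  obtain ⟨k1, k2, k3, k4, -⟩ := Nn.k9_c
  obtain ⟨g1, g2, g3, g4, g5, g6, g7⟩ := Nn.few_c
  obtain ⟨f1, f2, f3, f4, f5⟩ := Nn.few0_c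
  obtain ⟨q1, q2, q3, q4, q5, q6, q7, q8, q9, q10, q11, q12, q13, q14, q15, q16, q17⟩ := Nn.nlq_c
  obtain ⟨n1, n2, n3, n4, n5, n6, n7, n8⟩ := Nn.nb_c
  obtain ⟨m1, m2⟩ := Nn.lmo
  have hu := Nn.u0
  have hyu := Nn.yu
  have hy0 := Nn.y0
  have hroom := Nn.room
  have hTu := Nn.Tu0
  have hru := Nn.ru0
  have hs := Nn.s1
  obtain ⟨d1, d2⟩ := Nn.ξu
  have V := Nn.vb
  have hr0 : (0 : ℝ) ≤ k := Nat.cast_nonneg k
  have hl5 : 0 < Real.log 5 := Real.log_pos (by norm_num)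
  have hl2 : 0 < Real.log 2 := Real.log_pos one_lt_two
  have hl2' : Real.log 2 ≤ 1 := by
    have := Real.log_two_lt_d9
    linarith
  have hEf : lam oq + Ee ≤ 1 := by linarith
  have hf : ∀ (J : ℕ) (F : Fam m J), ∃ χ : PtT F → PtT F, ∀ ω, ptr F J ω = χ (ptr F J ω) :=
    fun J F => ⟨fun x => x, fun _ => rfl⟩
  have hw₁ : w ≤ w₁ := Nn.hw1
  obtain ⟨i1, i2, i3, i4, i5, i6⟩ := q11 k le_rfl (by omega)
  -- the classes
  have c1a := hN L (f := fun J F => ptr F J) (y := fun _ F => F.W) hf kn_W (w := w) (j := j)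
    (oj := j) (pr := sn (k + 1) w - φ) (N := sn (k + 1) j - 60 * φ) (p := fun l => sn l b - φ)
    (n := nnP k sn w u y φ) Nn.wG Nn.jG g1 g2 g3 le_rfl g4 (fun i _ => le_rfl) le_rfl g5 g6
    (by linarith) (fun i hi => by
      have := g7 (k + 1) (by omega) le_rfl i hi
      linarith)
  have c1b := t_nup L.lad (f := fun J F => ptr F J) (y := fun _ F => F.W) hf kn_W (w := w) (j := j)
    (oj := j) (pr := sn k w - φ) (N := sn k j - 60 * φ) (p := fun l => sn l b - φ)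
    (n := nnP k sn w u y φ) Nn.wG Nn.jG g1 g2 g3 le_rfl g4 (fun i _ => le_rfl) le_rfl g5 g6
    (by linarith) (fun i hi => by
      have := g7 k le_rfl (by omega) i hi
      linarith)
  have c1 := Few.pair L.pos c1a c1b
  have hx'1 : x' ≤ 1 := by
    have := f4
    have : 0 ≤ 100 * ((k : ℝ) + 2) * φ := by positivity
    linarith
  have h60 : 60 * ((k : ℝ) + 1) * φ ≤ 100 * ((k : ℝ) + 2) * φ := by
    have : 0 ≤ (40 * (k : ℝ) + 140) * φ := by positivity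
    linarith
  have c2a := hN0 L (f := fun J F => ptr F J) (y := fun _ F => F.W) hf kn_W (w := w) (x := xr)
    (x' := x') (ox := x') (pr := sn (k + 1) w - φ) (N := lam oq) Nn.wG Nn.rG Nn.xG' b1 f1 f2 f3
    le_rfl hx'1 f4 le_rfl (f5 (k + 1) (by omega) le_rfl _ (by linarith)).1
    (f5 (k + 1) (by omega) le_rfl _ (by linarith)).2
  have hUq := (Nn.lmq (show k ≤ k from le_rfl) (by omega)).1
  have c2b := t_nu0 L.lad (f := fun J F => ptr F J) (y := fun _ F => F.W) hf kn_W (w := w)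
    (x := xr) (x' := x') (ox := x') (pr := sn k w - φ) (N := sn k xq - e) Nn.wG Nn.rG Nn.xG' b1
    f1 (by linarith) f3 le_rfl hx'1 (by linarith) le_rfl (by
      have := (f5 k le_rfl (by omega) (sn k xq - e) (by linarith)).1
      linarith) (by
      have := (f5 k le_rfl (by omega) (sn k xq - e) (by linarith)).2
      linarith)
  have c2 := Few0.pair L.pos c2a c2b
  have hφ₁ : φ ≤ (s + 100) * φ := by
    have : 0 ≤ (s + 99) * φ := by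
      have := L.φ0
      have : 0 < s + 99 := by linarith
      positivity
    linarith
  have hnlq := Hn (L.mono hφ₁) hI (w := w) (w₁ := w₁) (vq := vq) (j := j) (x₄ := xq)
    (pN := sn (k + 1) w - φ) (pU := sn k w - φ) (M₁ := sn (k + 1) j - 60 * φ) (M₂ := lam oq)
    (U₁ := sn k j - 60 * φ) (U₂ := sn k xq - e) (Λ₁ := lam vq) (E₁ := Ee) (κn := κn) Nn.wG Nn.jG
    Nn.qG b1 hw₁ q1 Nn.hq1 q3 q4 (by rw [← he]; exact q5)
    (by linarith) (by linarith) q7 (by rw [← he]; exact q8) q9 i1 (by rw [← he]; exact i2) i3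
    (by rw [mul_assoc, ← he]; exact i4) (by rw [← he]; exact i5) (by rw [← he]; exact i6)
    (by rw [← he]; exact q10) (by rw [← he]; exact q16)
    (by rw [← he]; exact q17 k le_rfl (by omega)) (fun l hl => by rw [← he]; exact q12 l (by omega))
    (fun l hl => by rw [← he]; exact q13 k le_rfl (by omega) l (by omega))
    (fun l hl => by rw [← he]; exact q14 l hl) ⟨rk, hrk, hEe, hat, hEf⟩ hnl hκn (κn + 8 * y) (by
      have : 4 * Cn * ((s + 100) * φ) = 4 * e := by rw [he]; ring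
      linarith)
  obtain ⟨ka, hka, ea, hea, Ha⟩ := vlaw_gen L.lad V c1 c2 hfr hnlq hκf (by linarith) ε hε
  obtain ⟨kb, hkb, eb, heb, Hb'⟩ := fup L.lad Nn.xG b6 b7 (p := fun l => sn l b - φ)
    (fun i _ => le_rfl) (q := nnP k sn w u y φ) (n := nfP k sn w xr φ)
    (fun i hi => ⟨V.nx i hi, n4 i hi, (n1 i hi).2⟩) n2 ε hε
  obtain ⟨Ma, Ja, hMa⟩ := ld_jh m D k (nnP k sn w u y φ) (b := b) (E := Ec) k1 (by linarith)
  obtain ⟨Mb, Jb, hMb⟩ := ld_jh m D k (nfP k sn w x' φ) (b := b) (E := Ec) k1 (by linarith)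
  obtain ⟨Mc, Jc, hMc⟩ := ld_jh m D k (nfP k sn w xr φ) (b := b) (E := Ec) k1 (by linarith)
  obtain ⟨Md, Jd, hMd⟩ := ld_jv m D k P (b := b) (E := Ec) k1 (by linarith)
  obtain ⟨Me, Je, hMe⟩ := ldp_th m D k 1 (k + 1) (sn (k + 1) j - 60 * φ) (w := w) (E := Ec)
    (by omega) le_rfl (by linarith) (by linarith)
  obtain ⟨Mg, Jg, hMg⟩ := ldp_th m D k 1 (k + 1) (lam oq) (w := w) (E := Ec) (by omega) le_rfl
    (by linarith) (by linarith)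
  obtain ⟨Mi, Ji, hMi⟩ := ldp_th m D k 1 k (sn k j - 60 * φ) (w := w) (E := Ec) le_rfl
    (by omega) (by linarith) (by linarith)
  obtain ⟨Mj, Jj, hMj⟩ := ldp_th m D k 1 k (sn k xq - e) (w := w) (E := Ec) le_rfl
    (by omega) (by linarith) (by linarith)
  obtain ⟨M, hM⟩ : ∃ M : ℕ, M = Ma + Mb + Mc + Md + Me + Mg + Mi + Mj := ⟨_, rfl⟩
  obtain ⟨J₁, hJ₁⟩ := exists_nat_gt (k * Real.log 5 / ε)
  refine Bas.mono (Ja + Jb + Jc + Jd + Je + Jg + Ji + Jj + J₁) (((Ha M).and (Hb' M)).and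
    (pos_bas L.pos)) ?_
  rintro J hJ F A ⟨⟨H1, H2⟩, hA⟩ Hb H LDh Na Nf Mn Mf hNa hNf hNa1 hNf1 hMn0 hMn1 hMf0 hMf1 κ' hκ'
  have hcl := isLaw_cond F.isLaw hA
  have h0 := hcl.nonneg
  have hJ0 : (0 : ℝ) ≤ J := Nat.cast_nonneg J
  have LD' := LDh.toLD
  have p1 := hMa M (by omega) J (by omega) LD' ea hea.le
  have p2 := hMb M (by omega) J (by omega) LD' ea hea.le
  have p3 := hMc M (by omega) J (by omega) LD' eb heb.le
  have p3' := hMa M (by omega) J (by omega) LD' eb heb.le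
  have p4 := hMd M (by omega) J (by omega) LD' hsp ea hea.le
  have p5 := hMe M (by omega) J (by omega) LDh ea hea.le
  have p6 := hMg M (by omega) J (by omega) LDh ea hea.le
  have p7 := hMi M (by omega) J (by omega) LDh ea hea.le
  have p8 := hMj M (by omega) J (by omega) LDh ea hea.le
  have eNa : (fun l => Na l 0) = nnP k sn w u y φ := funext hNa
  have eNf : (fun l => Nf l 0) = nfP k sn w x' φ := funext hNf
  have eP : (fun l => Nf l 1) = P := funext hNf1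
  obtain ⟨κ₀, hκ₀⟩ : ∃ κ₀ : ℝ, κ₀ = (k * (40 * y) + 20 * (k : ℝ) ^ 2 * φ + κf + (κn + 8 * y) +
    ε) * J := ⟨_, rfl⟩
  rw [← hκ₀] at hκ'
  have hlog : k * Real.log 5 ≤ ε * J := by
    have e1 : (J₁ : ℝ) ≤ J := by
      have : J₁ ≤ J := by omega
      exact_mod_cast this
    have e2 := hJ₁.le.trans e1
    rw [div_le_iff₀ hε] at e2
    linarith
  have hlog0 : 0 ≤ k * Real.log 5 := by positivity
  have hκε : ε * J + 20 * (k : ℝ) ^ 2 * φ * J ≤ κ₀ := by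
    rw [hκ₀]
    have e1 : 0 ≤ (k * (40 * y) + κf + (κn + 8 * y)) * J := by positivity
    linarith
  have h20 : 0 ≤ 20 * (k : ℝ) ^ 2 * φ * J := by positivity
  have hZ1 : CH (Pool.Agent.H49.Ent.cond F.p A True) (jv F c k ⌊w * J⌋₊ H fun l => Na l 1)
      (jv F c k ⌊w * J⌋₊ H P) ≤ k * Real.log 5 := by
    have := CH_jv hcl (F := F) (c := c) (r := k) (w := ⌊w * J⌋₊) (H := H) (n := P)
      (n' := fun l => Na l 1) (d := 0) (fun l hl => by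
        have := hNa1 l hl
        show (Na l 1 - P l) * J ≤ 0
        linarith) le_rfl (jv F c k ⌊w * J⌋₊ H P) (fun _ _ _ _ e => e)
    rw [zero_mul, zero_add] at this
    exact this
  have hZ2 := CH_jhs hcl (F := F) (c := c) (r := k) (w := ⌊w * J⌋₊) (H := H)
    (n := nnP k sn w u y φ) (n' := nfP k sn w x' φ) V.nnf
    (fun ω => (jh F c k ⌊w * J⌋₊ H (nnP k sn w u y φ) ω, (cR F A w₁ ω, F.W ω)))
    (fun ω ν _ _ e => (Prod.ext_iff.mp e).1)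
  have hZ3 := CH_jh hcl (F := F) (c := c) (r := k) (w := ⌊w * J⌋₊) (H := H)
    (n := nfP k sn w x' φ) (n' := nnP k sn w u y φ) (d := 0) (fun l hl => by
      have := mul_le_mul_of_nonneg_right (V.nnf l hl) hJ0
      linarith) le_rfl
    (fun ω => (jh F c k ⌊w * J⌋₊ H (nfP k sn w x' φ) ω, (cR F A w₁ ω, F.W ω)))
    (fun ω ν _ _ e => (Prod.ext_iff.mp e).1)
  rw [zero_mul, zero_add] at hZ3
  have hV : ∀ κ'' : ℝ, κ₀ ≤ κ'' → _ := fun κ'' hκ'' => H1 _ (cR F A w₁) _ (cR F A j) _ (cR F A x) _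
    (cR F A x') (mx_cR hA w₁ hka.le) (mx_cR hA j hka.le) (mx_cR hA x hka.le) (mx_cR hA x' hka.le)
    (jh F c k ⌊w * J⌋₊ H (nnP k sn w u y φ)) (jh F c k ⌊w * J⌋₊ H (nfP k sn w x' φ))
    (jv F c k ⌊w * J⌋₊ H P)
    (fun ω => (th0 F c (k + 1) ⌊w * J⌋₊ H (sn (k + 1) j - 60 * φ) ω,
      th0 F c k ⌊w * J⌋₊ H (sn k j - 60 * φ) ω))
    (fun ω => (th0 F c (k + 1) ⌊w * J⌋₊ H (lam oq) ω, th0 F c k ⌊w * J⌋₊ H (sn k xq - e) ω))
    p1 p2 p4 ⟨p5, p7⟩ ⟨p6, p8⟩ _ (jv F c k ⌊w * J⌋₊ H fun l => Na l 1) κ''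
    (by rw [← hκ₀]; exact hκ'') (hZ1.trans (by linarith)) (hZ2.trans (by linarith))
    (hZ3.trans (by linarith))
  have hV0 := hV κ₀ le_rfl
  have dn : Deq (Pool.Agent.H49.Ent.cond F.p A True) (jh F c k ⌊w * J⌋₊ H (nnP k sn w u y φ))
      (jp F c 0 (fun i : Fin k => (i : ℕ)) ⌊w * J⌋₊ H fun l => Na l 0) := by
    rw [← eNa]
    exact deq_jh _
  have df : Deq (Pool.Agent.H49.Ent.cond F.p A True) (jh F c k ⌊w * J⌋₊ H (nfP k sn w x' φ))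
      (jp F c 0 (fun i : Fin k => (i : ℕ)) ⌊w * J⌋₊ H fun l => Nf l 0) := by
    rw [← eNf]
    exact deq_jh _
  have db : Deq (Pool.Agent.H49.Ent.cond F.p A True) (jh F c k ⌊w * J⌋₊ H (nfP k sn w xr φ))
      (jp F c 0 (fun i : Fin k => (i : ℕ)) ⌊w * J⌋₊ H fun l => nfP k sn w xr φ l) := deq_jh _
  have dp : Deq (Pool.Agent.H49.Ent.cond F.p A True) (jv F c k ⌊w * J⌋₊ H P)
      (jp F c 1 (fun i : Fin k => (i : ℕ)) ⌊w * J⌋₊ H fun l => Nf l 1) := by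
    rw [← eP]
    exact Deq.rfl' _
  refine ⟨vlaw2_congr (hV κ' (by linarith)) dn df (Deq.rfl' _) dp
    (deq_th _ _ hMn0 hMn1) (deq_th _ _ hMf0 hMf1), ?_, fun X hX => ?_⟩
  · rw [← Deq.ch h0 db (Deq.rfl' _)]
    have e1 := CH_le_add h0 (jh F c k ⌊w * J⌋₊ H (nfP k sn w xr φ))
      (jh F c k ⌊w * J⌋₊ H (nfP k sn w x' φ)) (fun ω => (cR F A x' ω, F.W ω))
    have e2 := CH_jh hcl (F := F) (c := c) (r := k) (w := ⌊w * J⌋₊) (H := H)
      (n := nfP k sn w x' φ) (n' := nfP k sn w xr φ) (d := 0) (fun l hl => by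
        have e3 := mul_le_mul_of_nonneg_right (n5 l hl) hJ0
        linarith) le_rfl
      (fun ω => (jh F c k ⌊w * J⌋₊ H (nfP k sn w x' φ) ω, (cR F A x' ω, F.W ω)))
      (fun ω ν _ _ e => (Prod.ext_iff.mp e).1)
    rw [zero_mul, zero_add] at e2
    have e3 := hV0.px
    linarith
  · rw [← Deq.ch h0 db (dn.pair (Deq.rfl' _))]
    have e1 := H2 _ (cR F A x) (mx_cR hA x hkb.le) _ _ p3 p3'
    have e3 : k * (ξ * u) ≤ ∑ i ∈ range k, (nfP k sn w xr φ i - nnP k sn w u y φ i) := by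
      have e4 : ∑ i ∈ range k, ξ * u ≤ ∑ i ∈ range k, (nfP k sn w xr φ i - nnP k sn w u y φ i) :=
        Finset.sum_le_sum fun i hi => n6 i (mem_range.1 hi)
      rw [Finset.sum_const, card_range, nsmul_eq_mul] at e4
      exact e4
    have e5 : (k * (ξ * u) - 20 * (k : ℝ) ^ 2 * φ) * Real.log 2 * J ≤
        ((∑ i ∈ range k, (nfP k sn w xr φ i - nnP k sn w u y φ i)) - 20 * (k : ℝ) ^ 2 * φ) *
          Real.log 2 * J :=
      mul_le_mul_of_nonneg_right (mul_le_mul_of_nonneg_right (by linarith) hl2.le) hJ0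
    have e6 : k * (X * Real.log 2) ≤ k * (ξ * u * J * Real.log 2) :=
      mul_le_mul_of_nonneg_left (mul_le_mul_of_nonneg_right hX hl2.le) hr0
    have e7 : 20 * (k : ℝ) ^ 2 * φ * J * Real.log 2 ≤ 20 * (k : ℝ) ^ 2 * φ * J * 1 :=
      mul_le_mul_of_nonneg_left hl2' h20
    linarith

end Pool.V0Q
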